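import Pool.Agent.P.MP_b8021b_nt.BJ.StA

/-! The bilinear form over two blocks is bounded by two mean squares. -/

namespace Pool.Agent.P.MP_b8021b_nt.BJ

open NumberField IsDedekindDomain Finset MeasureTheory
open Pool.Agent.P.MP_b8021b_nt.VE Pool.Agent.P.MP_b8021b_nt.VC Pool.Agent.P.MP_b8021b_nt.BS.CF
open Pool.Agent.P.MP_b8021b_nt.BS Pool.Agent.P.MP_b8021b_nt.BP
open scoped Classical ComplexConjugate Real
variable {k : Type} [Field k] [NumberField k] [Algebra k ℂ] {K : Type} [Field K] [NumberField K] [Algebra k K]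

namespace JBIL0

theorem comm4 {α β γ δ : Type*} (A : Finset α) (B : Finset β) (C : Finset γ) (D : Finset δ)
    (g : α → β → γ → δ → ℂ) :
    ∑ a ∈ A, ∑ b ∈ B, ∑ c ∈ C, ∑ d ∈ D, g a b c d = ∑ c ∈ C, ∑ d ∈ D, ∑ a ∈ A, ∑ b ∈ B, g a b c d :=
  (sum_congr rfl fun _ _ => sum_comm).trans (sum_comm.trans (sum_congr rfl fun _ _ =>
    (sum_congr rfl fun _ _ => sum_comm).trans sum_comm))

theorem bg_eq (T₁ T₂ : Finset (𝓞 K)) (a₁ a₂ : 𝓞 K → ℂ) (F : PF K)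
    (Γ : Finset (Pl K)) (c : Finset (Pl K) → ℂ) (𝒮 : Finset (Finset (Pl K))) :
    bg T₁ T₂ a₁ a₂ F Γ c 𝒮 = ∑ S ∈ 𝒮, c S * ∑ D ∈ P2 Γ, F D *
      ((∑ t ∈ T₁, a₁ t * jac t (eI D.1) * jac t (eI S)) *
        ∑ t ∈ T₂, a₂ t * jac t (eI D.2) * jac t (eI S)) := by
  simp only [sum_mul_sum]
  simp only [mul_sum]
  rw [← comm4]
  refine sum_congr rfl fun t _ => sum_congr rfl fun t' _ => ?_
  rw [wG, mul_comm, sum_mul]
  refine sum_congr rfl fun S _ => ?_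
  rw [mul_sum, mul_sum]
  refine sum_congr rfl fun D _ => ?_
  rw [jac_mul_left]
  ring

theorem inner {α : Type*} (P : Finset α) (F : α × α → ℝ) (A B : α → ℂ)
    (hF : ∑ D ∈ P ×ˢ P, F D ^ 2 ≤ 1) :
    ‖∑ D ∈ P ×ˢ P, F D * (A D.1 * B D.2)‖ ≤ √(∑ D ∈ P, ‖A D‖ ^ 2) * √(∑ D ∈ P, ‖B D‖ ^ 2) := by
  have e : ∑ D ∈ P ×ˢ P, (‖A D.1‖ * ‖B D.2‖) ^ 2 = (∑ D ∈ P, ‖A D‖ ^ 2) * ∑ D ∈ P, ‖B D‖ ^ 2 := by
    rw [sum_mul_sum, sum_product]
    simp only [mul_pow]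
  refine (norm_sum_le _ _).trans ?_
  rw [← Real.sqrt_mul (sum_nonneg fun _ _ => by positivity), ← e]
  refine Real.le_sqrt_of_sq_le ?_
  simp only [norm_mul, Complex.norm_real, Real.norm_eq_abs]
  refine (sum_mul_sq_le_sq_mul_sq _ _ _).trans ?_
  simp only [sq_abs]
  exact mul_le_of_le_one_left (sum_nonneg fun _ _ => by positivity) hF

theorem outer {α β : Type*} (P : Finset α) (𝒮 : Finset β) (F : α × α → ℝ) (c : β → ℂ)
    (A B : α → β → ℂ) {κ X Y : ℝ} (hF : ∑ D ∈ P ×ˢ P, F D ^ 2 ≤ 1) (hκ : 0 ≤ κ)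
    (hc : ∀ S ∈ 𝒮, ‖c S‖ ≤ κ)
    (hX : ∑ S ∈ 𝒮.filter (fun S => c S ≠ 0), ∑ D ∈ P, ‖A D S‖ ^ 2 ≤ X)
    (hY : ∑ S ∈ 𝒮.filter (fun S => c S ≠ 0), ∑ D ∈ P, ‖B D S‖ ^ 2 ≤ Y) :
    ‖∑ S ∈ 𝒮, c S * ∑ D ∈ P ×ˢ P, F D * (A D.1 S * B D.2 S)‖ ≤ κ * √(X * Y) := by
  rw [← sum_filter_of_ne (p := fun S => c S ≠ 0) fun p _ h => left_ne_zero_of_mul h]
  have p : ∀ (G : α → β → ℂ) (S : β), 0 ≤ ∑ D ∈ P, ‖G D S‖ ^ 2 := fun G S =>
    sum_nonneg fun _ _ => by positivity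
  have e : ∑ S ∈ 𝒮.filter (fun S => c S ≠ 0), √(∑ D ∈ P, ‖A D S‖ ^ 2) * √(∑ D ∈ P, ‖B D S‖ ^ 2) ≤
      √(X * Y) := by
    refine Real.le_sqrt_of_sq_le ((sum_mul_sq_le_sq_mul_sq _ _ _).trans ?_)
    simp only [Real.sq_sqrt (p _ _)]
    exact mul_le_mul hX hY (sum_nonneg fun _ _ => p _ _) ((sum_nonneg fun _ _ => p _ _).trans hX)
  refine (norm_sum_le _ _).trans (le_trans ?_ (mul_le_mul_of_nonneg_left e hκ))
  rw [mul_sum]
  refine sum_le_sum fun S hS => ?_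
  rw [norm_mul]
  exact mul_le_mul (hc S (mem_filter.1 hS).1) (inner P F (fun D => A D S) (fun D => B D S) hF)
    (norm_nonneg _) hκ

theorem split_inj {α : Type*} [DecidableEq α] {Γ D D' S S' : Finset α} (hD : D ⊆ Γ) (hD' : D' ⊆ Γ)
    (hS : Disjoint S Γ) (hS' : Disjoint S' Γ) (h : D ∪ S = D' ∪ S') : (S, D) = (S', D') := by
  rw [disjoint_left] at hS hS'
  have h1 := fun x => (Finset.ext_iff.1 h x)
  simp only [mem_union] at h1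
  refine Prod.ext (Finset.ext fun x => ?_) (Finset.ext fun x => ?_)
  · exact ⟨fun e => ((h1 x).1 (Or.inr e)).resolve_left fun e' => hS e (hD' e'),
      fun e => ((h1 x).2 (Or.inr e)).resolve_left fun e' => hS' e (hD e')⟩
  · exact ⟨fun e => ((h1 x).1 (Or.inl e)).resolve_right fun e' => hS' e' (hD e),
      fun e => ((h1 x).2 (Or.inl e)).resolve_right fun e' => hS e' (hD' e)⟩

omit [NumberField K] in
theorem ms_le {ι : Type*} (P : Finset ι) (φ : ι → Ideal (𝓞 K)) {𝒩 : Finset (Ideal (𝓞 K))}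
    {T : Finset (𝓞 K)} {a : 𝓞 K → ℂ} {Δ : ℝ} (h : MS T 𝒩 Δ) (ha : ∀ t, ‖a t‖ ≤ 1)
    (hφ : ∀ p ∈ P, φ p ∈ 𝒩) (hi : ∀ p ∈ P, ∀ q ∈ P, φ p = φ q → p = q) :
    ∑ p ∈ P, ‖∑ t ∈ T, a t * jac t (φ p)‖ ^ 2 ≤ Δ := by
  refine le_trans ?_ (h a ha)
  rw [← sum_image (f := fun I => ‖∑ t ∈ T, a t * jac t I‖ ^ 2) hi]
  refine sum_le_sum_of_subset_of_nonneg (fun I hI => ?_) fun _ _ _ => by positivity
  obtain ⟨p, hp, rfl⟩ := mem_image.1 hI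
  exact hφ p hp

end JBIL0

open JBIL0

theorem j_bil0 (c : Cx k K) (Y : Yb k K) : J_BIL0 K := by
  intro n T₁ T₂ a₁ a₂ F Γ cf 𝒮 𝒩 Δ₁ Δ₂ κ hA h1 h2 hκ hc
  rw [bg_eq]
  constructor
  · intro h𝒩
    have key : ∀ {T : Finset (𝓞 K)} {a : 𝓞 K → ℂ} {Δ : ℝ}, MS T 𝒩 Δ → (∀ t, ‖a t‖ ≤ 1) →
        ∑ S ∈ 𝒮.filter (fun S => cf S ≠ 0), ∑ D ∈ Γ.powerset,
          ‖∑ t ∈ T, a t * jac t (eI D) * jac t (eI S)‖ ^ 2 ≤ Δ := fun {T a Δ} h ha => by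
      rw [← sum_product']
      refine le_trans (le_of_eq (sum_congr rfl fun p hp => ?_))
        (ms_le (𝒮.filter (fun S => cf S ≠ 0) ×ˢ Γ.powerset) (fun p => eI (p.2 ∪ p.1)) h ha
          (fun p hp => h𝒩 _ (mem_filter.1 (mem_product.1 hp).1).1
            (mem_filter.1 (mem_product.1 hp).1).2 _ (mem_powerset.1 (mem_product.1 hp).2))
          fun p hp q hq e => split_inj (mem_powerset.1 (mem_product.1 hp).2)
            (mem_powerset.1 (mem_product.1 hq).2)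
            (hA.supp _ (mem_filter.1 (mem_product.1 hp).1).2).1
            (hA.supp _ (mem_filter.1 (mem_product.1 hq).1).2).1 (eI_inj e))
      have e : Disjoint p.2 p.1 := ((hA.supp _ (mem_filter.1 (mem_product.1 hp).1).2).1.mono_right
        (mem_powerset.1 (mem_product.1 hp).2)).symm
      simp only [eI_union e, jac_mul_right, mul_assoc]
    exact outer Γ.powerset 𝒮 F cf (fun D S => ∑ t ∈ T₁, a₁ t * jac t (eI D) * jac t (eI S))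
      (fun D S => ∑ t ∈ T₂, a₂ t * jac t (eI D) * jac t (eI S)) hA.par hκ hc (key h1 hA.a1)
      (key h2 hA.a2)
  · intro h𝒩
    have key : ∀ {T : Finset (𝓞 K)} {a : 𝓞 K → ℂ} {Δ : ℝ}, MS T 𝒩 Δ → (∀ t, ‖a t‖ ≤ 1) →
        ∑ S ∈ 𝒮.filter (fun S => cf S ≠ 0), ∑ D ∈ Γ.powerset,
          ‖∑ t ∈ T, a t * jac t (eI D) * jac t (eI S)‖ ^ 2 ≤ 2 ^ Γ.card * Δ := fun {T a Δ} h ha => by
      rw [sum_comm]
      refine (sum_le_card_nsmul _ _ Δ fun D _ => ?_).trans (le_of_eq ?_)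
      · exact ms_le _ eI h (a := fun t => a t * jac t (eI D)) (fun t => by
          rw [norm_mul]
          exact mul_le_one₀ (ha t) (norm_nonneg _) (norm_jac_le _ _))
          (fun S hS => h𝒩 S (mem_filter.1 hS).1 (mem_filter.1 hS).2) fun _ _ _ _ e => eI_inj e
      · rw [card_powerset, nsmul_eq_mul]
        push_cast
        rfl
    refine (outer Γ.powerset 𝒮 F cf (fun D S => ∑ t ∈ T₁, a₁ t * jac t (eI D) * jac t (eI S))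
      (fun D S => ∑ t ∈ T₂, a₂ t * jac t (eI D) * jac t (eI S)) hA.par hκ hc (key h1 hA.a1)
      (key h2 hA.a2)).trans (le_of_eq ?_)
    rw [show (2 : ℝ) ^ Γ.card * Δ₁ * (2 ^ Γ.card * Δ₂) = (2 ^ Γ.card) ^ 2 * (Δ₁ * Δ₂) by ring,
      Real.sqrt_mul (by positivity), Real.sqrt_sq (by positivity)]
    ring

end Pool.Agent.P.MP_b8021b_nt.BJ
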