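import Pool.Agent.P.MP_b8021b_nt.BJ.StA
import Pool.Agent.P.MP_b8021b_nt.BP.PBIL1
import Pool.Agent.P.MP_b8021b_nt.BP.PBIL2

/-! The bilinear form in the short and in the middle range. -/

namespace Pool.Agent.P.MP_b8021b_nt.BJ

open NumberField IsDedekindDomain Finset MeasureTheory
open Pool.Agent.P.MP_b8021b_nt.VE Pool.Agent.P.MP_b8021b_nt.VC Pool.Agent.P.MP_b8021b_nt.BS.CF
open Pool.Agent.P.MP_b8021b_nt.BS Pool.Agent.P.MP_b8021b_nt.BP
open scoped Classical ComplexConjugate Real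

variable {k : Type} [Field k] [NumberField k] [Algebra k ℂ] {K : Type} [Field K] [NumberField K]
  [Algebra k K]

set_option linter.unusedSectionVars false
set_option linter.unusedVariables false

open PBIL1 in
theorem j_bil1 (c : Cx k K) (Y : Yb k K) (hBIL0 : J_BIL0 K) : J_BIL1 k K := by
  have hDIV := Y.div
  have hSLT := Y.slt
  intro n 𝒜 C₀ hn
  obtain ⟨C, y₀, hC, -, hS⟩ := hSLT n 𝒜 C₀ hn
  obtain ⟨B, hB, hco⟩ := coef hDIV
  have e0 := c.et_pos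
  have z0 := c.cz_pos
  obtain ⟨X₀, h3, hX₀⟩ := ev_log y₀ 0 e0
  have hCe : 1 ≤ C / et k K := (one_le_div e0).2 (by linarith [c.et_le])
  refine ⟨B * (C / et k K) ^ 2, X₀, one_le_mul_of_one_le_of_one_le hB (one_le_pow₀ hCe),
    fun X R y₁ y₂ Γ T₁ T₂ a₁ a₂ F b 𝒮 hX hR hP hA h𝒮 => ?_⟩
  have X1 : 1 < X := by linarith
  have X0 : 0 < X := by linarith
  have hy : y₀ ≤ X ^ et k K := by simpa using hX₀ X hX
  obtain ⟨-, l1, p1, p2⟩ := c.lo hP X1.le
  have hm {y : ℝ} {T : Finset (𝓞 K)} (l : X ^ et k K ≤ y) (hb : Blk k n 𝒜 C₀ y T) :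
      MS T ((ids K (X ^ (et k K * cz k K))).filter fun I => Squarefree I ∧ Cop n I)
        ((C / et k K * (y / Real.log X)) ^ 2) := by
    obtain ⟨h1, h2⟩ := hS y T (hy.trans l) hb
    refine ms (by linarith) X1 e0 l h1 (h2 _ fun I hI => ?_)
    obtain ⟨h4, h5, h6⟩ := mem_filter.1 hI
    refine ⟨h5, h6, (mem_ids.1 h4).2.trans ?_⟩
    rw [Real.rpow_mul X0.le]
    exact Real.rpow_le_rpow (by positivity) l z0.le
  refine ((hBIL0 n T₁ T₂ a₁ a₂ F Γ b 𝒮 _ _ _ (B * R ^ (-(1 / 4 : ℝ))) hA (hm l1 hP.b1)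
    (hm hP.lo2 hP.b2) (by positivity) fun S h => (hA.bd S).trans (hco R S hR (h𝒮 S h).1)).1
    fun S h hb D hD => mem_filter.2 ⟨mem_ids.2 ⟨eI_ne_bot _, ?_⟩, squarefree_eI _,
      (cop_eI hn.pos).2 fun v hv => (mem_union.1 hv).elim (fun h => hP.cop v (hD h))
        ((hA.supp S hb).2 v)⟩).trans (le_of_eq ?_)
  · refine (nS_union_le D S).trans ((mul_le_mul ((nS_mono hD).trans hP.small) (h𝒮 S h).2
      (nS_pos S).le (by positivity)).trans (le_of_eq ?_))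
    rw [← Real.rpow_add X0, add_halves]
  · have := Real.log_pos X1
    rw [← mul_pow, Real.sqrt_sq (by positivity)]
    ring

open PBIL2 in
theorem j_bil2 (c : Cx k K) (Y : Yb k K) (hBIL0 : J_BIL0 K) : J_BIL2 k K := by
  have hDIV := Y.div
  have hSLT := Y.slt
  have hLSH := Y.lsh
  intro n 𝒜 C₀ hn
  have he := c.et_pos
  have hz := c.cz_pos
  have hr := c.one_le_rk
  have hj : ((200 * Module.finrank k K : ℕ) : ℝ) = 200 * rk k K := by push_cast; rfl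
  obtain ⟨Cs, ys, hCs, hys, hS⟩ := hSLT n 𝒜 C₀ hn
  obtain ⟨Ch, yh, hCh, hH⟩ := hLSH n 𝒜 C₀ (200 * Module.finrank k K) hn
    (by rw [← Nat.one_le_cast (α := ℝ), hj]; linarith)
  obtain ⟨Ca, hCa, hA⟩ := c.ls1 n hn C₀
  obtain ⟨Cd, hCd, hD⟩ := hDIV.1 4 (et k K / 4) (by norm_num) (by positivity)
  obtain ⟨Ce, hCe, hE⟩ := hDIV.1 2 (et k K / 8) (by norm_num) (by positivity)
  rw [hj] at hH
  have hAA : 1 ≤ 4 * Ca * Cs * Ch :=
    one_le_mul_of_one_le_of_one_le (one_le_mul_of_one_le_of_one_le (by linarith) hCs) hCh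
  refine ⟨et k K * cz k K / 2 * (et k K / 8), Ce * Cd * (2 * (4 * Ca * Cs * Ch)),
    max 3 (max ys yh ^ (1 / et k K)), by positivity, one_le_mul_of_one_le_of_one_le
      (one_le_mul_of_one_le_of_one_le hCe hCd) (by linarith), ?_⟩
  intro X N y₁ y₂ Γ T₁ T₂ a₁ a₂ F cc 𝒮 hX hP hc hN1 hN2 h𝒮
  have hm : 0 ≤ max ys yh := by linarith [le_max_left ys yh]
  have hX1 : 1 ≤ X := by linarith [le_max_left 3 (max ys yh ^ (1 / et k K))]
  have hX0 : 0 < X := by linarith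
  have hy : max ys yh ≤ X ^ et k K := by
    have := Real.rpow_le_rpow (by positivity) ((le_max_right _ _).trans hX) he.le
    rwa [← Real.rpow_mul hm, one_div_mul_cancel he.ne', Real.rpow_one] at this
  obtain ⟨-, lo1, o1, o2⟩ := c.lo hP hX1
  have hN : 1 ≤ N := (Real.one_le_rpow hX1 (by positivity)).trans hN1
  have hN0 : 0 < N := by linarith
  have hy1 : ys ≤ y₁ := (le_max_left _ _).trans (hy.trans lo1)
  have h𝒩 : ∀ I ∈ 𝒮.image eI, Squarefree I ∧ NN I ≤ 2 * N := fun I hI => by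
    obtain ⟨S, h, rfl⟩ := mem_image.1 hI
    exact ⟨squarefree_eI S, (h𝒮 S h).2⟩
  have m1 : MS T₁ (𝒮.image eI) (4 * Ca * Cs * y₁ ^ 2) := by
    have l1 := hA T₁ (𝒮.image eI) y₁ (2 * N) o1 (by positivity) (hN2.trans (by
      rw [Real.sqrt_eq_rpow]
      exact Real.rpow_le_rpow_of_exponent_le o1 (le_add_of_nonneg_right (by positivity))))
      (fun t ht => ⟨((hP.b1.pri t ht).mono (dvd_pow_self n two_ne_zero)).1, hP.b1.bal t ht⟩) h𝒩
    have h0 : 0 ≤ Ca * y₁ * (1 + ((2 * N) ^ 2 / y₁) ^ (3 / 4 : ℝ)) := by positivity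
    have h1 : ((2 * N) ^ 2 / y₁) ^ (3 / 4 : ℝ) ≤ 1 :=
      Real.rpow_le_one (by positivity) ((div_le_one (by linarith)).2
        ((Real.le_sqrt (by positivity) (by linarith)).1 hN2)) (by norm_num)
    have h2 := card_le (by linarith) (hys.trans hy1) (hS y₁ T₁ hy1 hP.b1).1
    intro a ha
    refine (ms_of_hs (hs_of_hl l1 h0) h0 a ha).trans ?_
    calc _ ≤ Ca * y₁ * (1 + 1) * (2 * Cs * y₁) := by gcongr
      _ = _ := by ring
  have m2 : MS T₂ (𝒮.image eI) (Ch * (2 * N) ^ (1 - et k K) * y₂ ^ 2) := fun a ha =>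
    hH y₂ (2 * N) T₂ _ a ((le_max_right _ _).trans (hy.trans hP.lo2)) hP.b2 (by linarith) (by
      refine hN2.trans ((Real.sqrt_le_sqrt hP.hi1).trans (le_trans (le_of_eq ?_)
        (Real.rpow_le_rpow (by positivity) hP.lo2 (by positivity))))
      rw [← Real.rpow_mul hX0.le, Real.sqrt_eq_rpow, et]
      congr 1
      field_simp) h𝒩 ha
  have hκ : ∀ S ∈ 𝒮, ‖cc S‖ ≤ Cd * N ^ (et k K / 4 - 1 / 2) := fun S h => by
    have h1 := (hD _ (eI_ne_bot S)).1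
    rw [prI_eI] at h1
    refine (hc.bd S).trans ((div_le_div_of_nonneg_right h1 (Real.sqrt_nonneg _)).trans ?_)
    rw [mul_div_assoc, Real.sqrt_eq_rpow, ← Real.rpow_sub (nS_pos S)]
    exact mul_le_mul_of_nonneg_left (Real.rpow_le_rpow_of_nonpos hN0 (h𝒮 S h).1.le
      (by linarith [c.et_le])) (by linarith)
  have hΓ : (2 : ℝ) ^ Γ.card ≤ Ce * N ^ (et k K / 8) := by
    have h1 := (hE _ (eI_ne_bot Γ)).1
    rw [prI_eI] at h1
    exact h1.trans (mul_le_mul_of_nonneg_left (Real.rpow_le_rpow (nS_pos Γ).le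
      (hP.small.trans hN1) (by positivity)) (by linarith))
  refine ((hBIL0 n T₁ T₂ a₁ a₂ F Γ cc 𝒮 _ _ _ _ hc m1 m2 (by positivity) hκ).2
    fun S h _ => mem_image_of_mem _ h).trans ?_
  have e : 4 * Ca * Cs * y₁ ^ 2 * (Ch * (2 * N) ^ (1 - et k K) * y₂ ^ 2) =
      4 * Ca * Cs * Ch * ((2 * N) ^ (1 - et k K) * (y₁ * y₂) ^ 2) := by ring
  have h3 := root_le hAA hN he.le (by linarith : 0 ≤ y₁) (by linarith : 0 ≤ y₂)
  have h4 : N ^ (et k K / 8) * N ^ (et k K / 4 - 1 / 2) * N ^ ((1 - et k K) / 2) ≤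
      X ^ (-(et k K * cz k K / 2 * (et k K / 8))) := by
    rw [← Real.rpow_add hN0, ← Real.rpow_add hN0, ← mul_neg, Real.rpow_mul hX0.le,
      show et k K / 8 + (et k K / 4 - 1 / 2) + (1 - et k K) / 2 = -(et k K / 8) by ring]
    exact Real.rpow_le_rpow_of_nonpos (by positivity) hN1 (by linarith)
  rw [e]
  calc _ ≤ Ce * N ^ (et k K / 8) * (Cd * N ^ (et k K / 4 - 1 / 2)) *
        (2 * (4 * Ca * Cs * Ch) * N ^ ((1 - et k K) / 2) * (y₁ * y₂)) := by gcongr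
    _ = Ce * Cd * (2 * (4 * Ca * Cs * Ch)) * (N ^ (et k K / 8) * N ^ (et k K / 4 - 1 / 2) *
        N ^ ((1 - et k K) / 2)) * (y₁ * y₂) := by ring
    _ ≤ _ := by gcongr

end Pool.Agent.P.MP_b8021b_nt.BJ
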