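import Pool.Agent.P.MP_b8021b_nt.BJ.StA
import Pool.Agent.P.MP_b8021b_nt.BP.PBIL3
import Pool.Agent.P.MP_b8021b_nt.BP.PBIL

/-! The bilinear form in the long range and in all ranges. -/

namespace Pool.Agent.P.MP_b8021b_nt.BJ

open NumberField IsDedekindDomain Finset MeasureTheory
open Pool.Agent.P.MP_b8021b_nt.VE Pool.Agent.P.MP_b8021b_nt.VC Pool.Agent.P.MP_b8021b_nt.BS.CF
open Pool.Agent.P.MP_b8021b_nt.BS Pool.Agent.P.MP_b8021b_nt.BP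
open scoped Classical ComplexConjugate Real

variable {k : Type} [Field k] [NumberField k] [Algebra k ℂ] {K : Type} [Field K] [NumberField K]
  [Algebra k K]

set_option linter.unusedSectionVars false
set_option linter.unusedVariables false

open PBIL3 in
theorem j_bil3 (c : Cx k K) (Y : Yb k K) (hBIL0 : J_BIL0 K) : J_BIL3 k K := by
  have hDIV := Y.div
  have hSLT := Y.slt
  intro n 𝒜 C₀ hn
  have he := c.toCtx.et_pos
  have he' := c.toCtx.et_le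
  have hr := c.toCtx.one_le_rk
  have hr0 : 0 < rk k K := by linarith
  have her : et k K * rk k K = 1 / 200 := by
    rw [et]
    field_simp
  have he5 : 1 / (40 * rk k K) = 5 * et k K := by
    rw [et]
    field_simp
    norm_num
  obtain ⟨C₁, h1, hC₁⟩ := hDIV.1 4 (et k K / 100) (by norm_num) (by positivity)
  obtain ⟨C₃, h3, hC₃⟩ := c.ls1 n hn C₀
  obtain ⟨C₄, y₀, h4, hy₀, hC₄⟩ := hSLT n 𝒜 C₀ hn
  obtain ⟨C₅, h5, hC₅⟩ := c.ls0 n hn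
  obtain ⟨X₀, hX₀, hev⟩ := ev_log (3 + y₀ + nS 𝒜) 0 he
  refine ⟨et k K / 50, 4 * C₁ * C₃ * C₄ * C₅, X₀, by positivity, ?_, ?_⟩
  · calc (1 : ℝ) ≤ 4 * 1 * 1 * 1 * 1 := by norm_num
      _ ≤ _ := by gcongr
  intro X N y₁ y₂ Γ T₁ T₂ a₁ a₂ F cc 𝒮 hX hP hA hlo hhi hS
  have hX1 : 1 ≤ X := by linarith
  have hX0 : 0 < X := by linarith
  have hM := hev X hX
  rw [pow_zero, mul_one] at hM
  have hA1 := one_le_nS 𝒜
  obtain ⟨l1, l2, l3, l4⟩ := c.toCtx.lo hP hX1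
  have l5 := hP.lo2
  have hy1 : 0 < y₁ := by linarith
  have hy2 : 0 < y₂ := by linarith
  have hN : 0 < N := by linarith [Real.sqrt_pos.2 hy1]
  have hXe : 2 ≤ X ^ et k K := by linarith
  have hZ : 1 ≤ X ^ (et k K / 100) := Real.one_le_rpow hX1 (by positivity)
  have hNX : 2 * N ≤ X := by
    simpa using two_mul_le hX1 hXe hhi (a := 1) (by linarith)
  have hW : 1 ≤ (2 * N) ^ 2 / y₁ := by
    rw [one_le_div hy1, ← Real.sq_sqrt hy1.le]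
    gcongr
  have hQ1 : 1 ≤ ((2 * N) ^ 2 / y₁) ^ (3 / 4 : ℝ) := Real.one_le_rpow hW (by norm_num)
  set 𝒩 := (ids K (2 * N)).filter Squarefree with h𝒩
  have m1 := ms_of_hs (hs_of_hl (hC₃ T₁ 𝒩 y₁ (2 * N) l3 (by positivity)
    (he5 ▸ ex1 hX1 he he' hXe hhi l1)
    (fun t ht => ⟨(pri_of_sq (hP.b1.pri t ht)).1, hP.b1.bal t ht⟩)
    fun I hI => ⟨(mem_filter.1 hI).2, (mem_ids.1 (mem_filter.1 hI).1).2⟩) (by positivity))
    (by positivity)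
  have m2 := ms_of_hs (hC₅ T₂ 𝒩 (y₂ * nS 𝒜) (2 * N) (one_le_mul_of_one_le_of_one_le l4 hA1)
    ((ex2 hX1 hr0 her he' (by linarith) (by linarith) hy2.le hP.hi2 l1).trans hlo)
    (fun t ht => ⟨pri_of_sq (hP.b2.pri t ht), hP.b2.NN_le ht⟩) hP.b2.inj
    fun I hI => mem_ids.1 (mem_filter.1 hI).1) (by positivity)
  have hκ : ∀ S ∈ 𝒮, ‖cc S‖ ≤ C₁ * X ^ (et k K / 100) / √N := fun S hS' => by
    have h4S := (hC₁ (eI S) (eI_ne_bot S)).1
    rw [prI_eI] at h4S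
    have h6 : NN (eI S) ^ (et k K / 100) ≤ X ^ (et k K / 100) :=
      Real.rpow_le_rpow (nS_pos S).le ((hS S hS').2.trans hNX) (by positivity)
    refine (hA.bd S).trans (div_le_div₀ (by positivity) (h4S.trans (by gcongr))
      (Real.sqrt_pos.2 hN) (Real.sqrt_le_sqrt (hS S hS').1.le))
  have hg : (2 : ℝ) ^ Γ.card ≤ X ^ (et k K / 100) :=
    ((two_pow_le_nS Γ).trans hP.small).trans (Real.rpow_le_rpow_of_exponent_le hX1 (by
      have := mul_le_mul_of_nonneg_left c.toCtx.cz_le he.le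
      linarith))
  have hz : (X ^ (et k K / 100)) ^ 100 ≤ y₂ := by
    rw [zpow_eq hX0]
    convert l5 using 2
    push_cast
    ring
  have hz2 : X ^ (-(et k K / 50)) = ((X ^ (et k K / 100)) ^ 2)⁻¹ := by
    rw [zpow_eq hX0, Real.rpow_neg hX0.le]
    congr 2
    push_cast
    ring
  rw [hz2]
  refine ((hBIL0 n T₁ T₂ a₁ a₂ F Γ cc 𝒮 𝒩 _ _ _ hA m1 m2 (by positivity) hκ).2 fun S hS' _ =>
    mem_filter.2 ⟨mem_ids.2 ⟨eI_ne_bot S, (hS S hS').2⟩, squarefree_eI S⟩).trans ?_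
  exact fin hZ hN h1 h3 h4 h5 hy1 hy2 hg hQ1
    (q_le hZ (by positivity) (ex3 hX0 hN.le hhi hy1 hP.lo1) hz)
    (card_le h4 (by linarith) (hC₄ y₁ T₁ (by linarith) hP.b1).1)
    (card_le h4 (by linarith) (hC₄ y₂ T₂ (by linarith) hP.b2).1) (Nat.cast_nonneg _)
    (Nat.cast_nonneg _)

theorem JBIL.bg_eq (T₁ T₂ : Finset (𝓞 K)) (a₁ a₂ : 𝓞 K → ℂ) (F : PF K) (Γ : Finset (Pl K))
    (c : Finset (Pl K) → ℂ) (𝒮 : Finset (Finset (Pl K))) :
    bg T₁ T₂ a₁ a₂ F Γ c 𝒮 = ∑ S ∈ 𝒮, bg T₁ T₂ a₁ a₂ F Γ c {S} := by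
  simp only [bg, mul_sum, sum_singleton]
  rw [sum_comm (s := 𝒮)]
  exact sum_congr rfl fun t _ => sum_comm

open PBIL JBIL in
theorem j_bil (c : Cx k K) (Y : Yb k K) (hBIL1 : J_BIL1 k K) (hBIL2 : J_BIL2 k K)
    (hBIL3 : J_BIL3 k K) : J_BIL k K := by
  intro n 𝒜 C₀ hn
  obtain ⟨C₁, X₁, C1, h1⟩ := hBIL1 n 𝒜 C₀ hn
  obtain ⟨δ₂, C₂, X₂, d2, C2, h2⟩ := hBIL2 n 𝒜 C₀ hn
  obtain ⟨δ₃, C₃, X₃, d3, C3, h3⟩ := hBIL3 n 𝒜 C₀ hn
  refine ⟨C₁ + 1, by linarith, fun R hR => ?_⟩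
  obtain ⟨X₀, X3, hX₀⟩ := ev_log (3 * (C₂ + C₃) * R ^ (1 / 4 : ℝ)) 3 (lt_min d2 d3)
  refine ⟨max (max X₀ X₁) (max X₂ X₃), fun X y₁ y₂ Γ T₁ T₂ a₁ a₂ F c' 𝒮 hX hP hA hS => ?_⟩
  simp only [max_le_iff] at hX
  obtain ⟨⟨x0, x1⟩, x2, x3⟩ := hX
  have X1 : 1 ≤ X := by linarith
  have X0 : 0 < X := by linarith
  obtain ⟨-, -, y1, y2⟩ := c.lo hP X1
  have y0 : 0 ≤ y₁ * y₂ := by positivity
  have mono : ∀ {s t : ℝ}, s ≤ t → X ^ s ≤ X ^ t := fun h => Real.rpow_le_rpow_of_exponent_le X1 h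
  have N1 : 1 ≤ X ^ (et k K * cz k K / 2) :=
    Real.one_le_rpow X1 (by have := c.et_pos; have := c.cz_pos; positivity)
  obtain ⟨m, m1, m2⟩ := exists_nat_pow_near X1 one_lt_two
  have L1 : 1 ≤ Real.log X := by
    rw [Real.le_log_iff_exp_le X0]
    linarith [Real.exp_one_lt_d9]
  have m3 : ((m + 1 : ℕ) : ℝ) ≤ 3 * Real.log X := by
    have h4 := Real.log_le_log (by positivity) m1
    rw [Real.log_pow] at h4
    push_cast
    nlinarith [Real.log_two_gt_d9, (Nat.cast_nonneg m : (0 : ℝ) ≤ m)]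
  have b1 := h1 X R y₁ y₂ Γ T₁ T₂ a₁ a₂ F c' (𝒮.filter fun S => nS S ≤ X ^ (et k K * cz k K / 2))
    x1 hR hP hA fun S h => ⟨(hS S (mem_filter.1 h).1).1, (mem_filter.1 h).2⟩
  have b2 := dyad 𝒮 nS (fun S => bg T₁ T₂ a₁ a₂ F Γ c' {S}) (N₀ := X ^ (et k K * cz k K / 2))
    (D := (C₂ + C₃) * X ^ (-min δ₂ δ₃) * (y₁ * y₂)) (by positivity) (fun N 𝒯 a b d => by
      rcases 𝒯.eq_empty_or_nonempty with rfl | ⟨S, h⟩
      · rw [sum_empty, norm_zero]; positivity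
      rw [← bg_eq]
      rcases le_total (2 * N) √y₁ with e | e
      · refine (h2 X N y₁ y₂ Γ T₁ T₂ a₁ a₂ F c' 𝒯 x2 hP hA a e d).trans ?_
        exact mul_le_mul_of_nonneg_right (mul_le_mul (by linarith)
          (mono (neg_le_neg (min_le_left _ _))) (by positivity) (by positivity)) y0
      · refine (h3 X N y₁ y₂ Γ T₁ T₂ a₁ a₂ F c' 𝒯 x3 hP hA e
          ((d S h).1.le.trans (hS S (b h)).2) d).trans ?_
        exact mul_le_mul_of_nonneg_right (mul_le_mul (by linarith)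
          (mono (neg_le_neg (min_le_right _ _))) (by positivity) (by positivity)) y0) (m + 1)
  rw [filter_congr (q := fun S => ¬ nS S ≤ X ^ (et k K * cz k K / 2)) fun S h =>
    ⟨fun e => not_le.2 e.1, fun e => ⟨not_le.1 e, (((hS S h).2.trans
      ((mono (by linarith [c.et_le])).trans_eq (Real.rpow_one X))).trans m2.le).trans
        (le_mul_of_one_le_right (by positivity) N1)⟩⟩] at b2
  rw [bg_eq] at b1 ⊢
  rw [← sum_filter_add_sum_filter_not _ (fun S => nS S ≤ X ^ (et k K * cz k K / 2))]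
  refine (norm_add_le_of_le b1 b2).trans ?_
  rw [add_mul C₁, add_mul (C₁ * _), one_mul]
  refine add_le_add_right ((mul_le_mul_of_nonneg_right m3 (by positivity)).trans ?_) _
  have e := hX₀ X x0
  have R0 : 0 < R ^ (1 / 4 : ℝ) := by positivity
  have X4 : 0 < X ^ min δ₂ δ₃ := by positivity
  rw [Real.rpow_neg X0.le, Real.rpow_neg (by linarith)]
  calc _ = 3 * (C₂ + C₃) * R ^ (1 / 4 : ℝ) * Real.log X ^ 3 / X ^ min δ₂ δ₃ *
        ((R ^ (1 / 4 : ℝ))⁻¹ * (y₁ * y₂ / Real.log X ^ 2)) := by field_simp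
    _ ≤ _ := mul_le_of_le_one_left (by positivity) ((div_le_one X4).2 e)

end Pool.Agent.P.MP_b8021b_nt.BJ
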