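import Pool.Agent.P.MP_b8021b_nt.BJ.StA

/-! A place with prescribed splitting in a triquadratic extension. -/

namespace Pool.Agent.P.MP_b8021b_nt.BJ

open NumberField IsDedekindDomain Finset MeasureTheory
open Pool.Agent.P.MP_b8021b_nt.VE Pool.Agent.P.MP_b8021b_nt.VC Pool.Agent.P.MP_b8021b_nt.BS.CF
open Pool.Agent.P.MP_b8021b_nt.BS Pool.Agent.P.MP_b8021b_nt.BP
open scoped Classical ComplexConjugate Real

namespace JBIQ

variable {L : Type} [Field L] [NumberField L]

omit [NumberField L] in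
theorem red {ι : Type} [Fintype ι] {w : ι → L} (hw : ∀ i, w i ≠ 0) {c : ι → ℕ}
    (h : ∃ z, ∏ i, w i ^ c i = z ^ 2) : IsSquare (∏ i, w i ^ (c i % 2)) := by
  obtain ⟨z, h⟩ := h
  have h0 : ∏ i, w i ^ (c i / 2) ≠ 0 := prod_ne_zero_iff.2 fun i _ => pow_ne_zero _ (hw i)
  refine ⟨z / ∏ i, w i ^ (c i / 2), ?_⟩
  rw [← sq, div_pow, ← h, eq_div_iff (pow_ne_zero _ h0), ← prod_pow, ← prod_mul_distrib]
  refine prod_congr rfl fun i _ => ?_
  rw [← pow_mul, ← pow_add, Nat.mod_add_div']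

theorem one (h : QX) {m : ℕ} {u : L} (hL : Om L) (hm : m ≠ 0) (h1 : ¬ IsSquare u) :
    ∃ v : Pl L, ¬ Dv m v ∧ ¬ LP 2 v u := by
  have hw : ∀ i, ![u] i ≠ 0 := fun i => by
    fin_cases i; exact fun e => h1 (by simp [show u = 0 from e])
  obtain ⟨ϖ, hϖ⟩ := h.c L 2 m 1 ![u] hL (Or.inl rfl) hm hw fun c hc => by
    have := red hw hc
    rw [Fin.prod_univ_one] at this
    rw [Fin.forall_fin_one]
    rcases Nat.mod_two_eq_zero_or_one (c 0) with a | a <;> rw [a] at this
    · omega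
    · exact absurd (by simpa using this) h1
  exact ⟨ϖ 0, (hϖ 0).1, fun e => ((hϖ 0).2 0).1 e rfl⟩

theorem two (h : QX) {m : ℕ} {u a : L} (hL : Om L) (hm : m ≠ 0) (h1 : ¬ IsSquare u)
    (h2 : ¬ IsSquare a) (h3 : ¬ IsSquare (u * a)) :
    ∃ v : Pl L, ¬ Dv m v ∧ LP 2 v a ∧ ¬ LP 2 v u := by
  have hw : ∀ i, ![u, a] i ≠ 0 := fun i => by
    fin_cases i
    · exact fun e => h1 (by simp [show u = 0 from e])
    · exact fun e => h2 (by simp [show a = 0 from e])
  obtain ⟨ϖ, hϖ⟩ := h.c L 2 m 2 ![u, a] hL (Or.inl rfl) hm hw fun c hc => by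
    have := red hw hc
    rw [Fin.prod_univ_two] at this
    rw [Fin.forall_fin_two]
    rcases Nat.mod_two_eq_zero_or_one (c 0) with p | p <;>
      rcases Nat.mod_two_eq_zero_or_one (c 1) with q | q <;> rw [p, q] at this
    · omega
    · exact absurd (by simpa using this) h2
    · exact absurd (by simpa using this) h1
    · exact absurd (by simpa using this) h3
  exact ⟨ϖ 0, (hϖ 0).1, ((hϖ 0).2 1).2 (by decide), fun e => ((hϖ 0).2 0).1 e rfl⟩

end JBIQ

open JBIQ in
theorem j_biq (h : QX) : J_BIQ := by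
  intro L _ _ m u y z hL hm hy hz h1 h2 h3 h4
  by_cases sy : IsSquare y
  · by_cases sz : IsSquare z
    · obtain ⟨v, a, b⟩ := one h hL hm h1
      exact ⟨v, a, lp_of_isSquare v hy sy, lp_of_isSquare v hz sz, b⟩
    · obtain ⟨v, a, b, c⟩ := two h hL hm h1 sz h3
      exact ⟨v, a, lp_of_isSquare v hy sy, b, c⟩
  by_cases sz : IsSquare z
  · obtain ⟨v, a, b, c⟩ := two h hL hm h1 sy h2
    exact ⟨v, a, b, lp_of_isSquare v hz sz, c⟩
  by_cases syz : IsSquare (y * z)
  · obtain ⟨v, a, b, c⟩ := two h hL hm h1 sy h2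
    exact ⟨v, a, b, RecP.lp_cancel (mul_comm y z ▸ lp_of_isSquare v (mul_ne_zero hy hz) syz) b, c⟩
  have hw : ∀ i, ![u, y, z] i ≠ 0 := fun i => by
    fin_cases i
    exacts [fun e => h1 (by simp [show u = 0 from e]), hy, hz]
  obtain ⟨ϖ, hϖ⟩ := h.c L 2 m 3 ![u, y, z] hL (Or.inl rfl) hm hw fun c hc => by
    have := red hw hc
    rw [Fin.prod_univ_three] at this
    have key : c 0 % 2 = 0 ∧ c 1 % 2 = 0 ∧ c 2 % 2 = 0 := by
      rcases Nat.mod_two_eq_zero_or_one (c 0) with p | p <;>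
        rcases Nat.mod_two_eq_zero_or_one (c 1) with q | q <;>
        rcases Nat.mod_two_eq_zero_or_one (c 2) with r | r <;> rw [p, q, r] at this
      · exact ⟨p, q, r⟩
      · exact absurd (by simpa using this) sz
      · exact absurd (by simpa using this) sy
      · exact absurd (by simpa using this) syz
      · exact absurd (by simpa using this) h1
      · exact absurd (by simpa using this) h3
      · exact absurd (by simpa using this) h2
      · exact absurd (by simpa using this) h4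
    intro i
    fin_cases i
    exacts [Nat.dvd_of_mod_eq_zero key.1, Nat.dvd_of_mod_eq_zero key.2.1,
      Nat.dvd_of_mod_eq_zero key.2.2]
  exact ⟨ϖ 0, (hϖ 0).1, ((hϖ 0).2 1).2 (by decide), ((hϖ 0).2 2).2 (by decide),
    fun e => ((hϖ 0).2 0).1 e rfl⟩

end Pool.Agent.P.MP_b8021b_nt.BJ
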