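import Pool.Agent.P.MP_b8021b_nt.BJ.StA

/-! The blocks of generators of primes in the trivial ray class. -/

namespace Pool.Agent.P.MP_b8021b_nt.BJ

open NumberField IsDedekindDomain Finset MeasureTheory
open Pool.Agent.P.MP_b8021b_nt.VE Pool.Agent.P.MP_b8021b_nt.VC Pool.Agent.P.MP_b8021b_nt.BS.CF
open Pool.Agent.P.MP_b8021b_nt.BS Pool.Agent.P.MP_b8021b_nt.BP
open scoped Classical ComplexConjugate Real

variable {k : Type} [Field k] [NumberField k] [Algebra k ℂ] {K : Type} [Field K] [NumberField K]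
  [Algebra k K]

namespace JCB1

theorem ex_tau (c : Cx k K) {N : ℕ} (hN : 1 ≤ N) : ∃ C : ℝ, 1 ≤ C ∧ ∀ S : Finset (Pl K),
    ∃ t : 𝓞 K, Pr N S → Pri N t ∧ sp t = eI S ∧ Bal k C (nS S) t := by
  obtain ⟨C, hC, hbal⟩ := c.bal2 N hN
  refine ⟨C, hC, fun S => ?_⟩
  by_cases h : Pr N S
  · obtain ⟨γ, h1, e⟩ := h
    have h0 : γ ≠ 0 := fun e' => eI_ne_bot S (by simpa [e'] using e)
    obtain ⟨u, hu, hb⟩ := hbal γ h0
    have e2 : sp ((u : 𝓞 K) * γ) = eI S := by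
      rw [e, sp, sp, Ideal.span_singleton_mul_left_unit u.isUnit]
    refine ⟨u * γ, fun _ => ⟨⟨?_, e2 ▸ squarefree_eI S⟩, e2, fun φ => ?_⟩⟩
    · rw [show (u : 𝓞 K) * γ - 1 = u * (γ - 1) + (u - 1) by ring]
      exact dvd_add (h1.mul_left _) hu
    · have := (hb φ).1
      rwa [← e] at this
  · exact ⟨1, fun h' => absurd h' h⟩

theorem eI_one (v : Pl K) : eI {v} = v.asIdeal := by simp [eI]

end JCB1

open JCB1 in
theorem j_cb1 (c : Cx k K) (Y : Yb k K) (hRBL : J_RBL K) : J_CB1 k K := by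
  intro n hn
  have h2 : 2 ≤ n ^ 2 := by nlinarith
  obtain ⟨C, hC, hτ⟩ := ex_tau c (N := n ^ 2) (by omega)
  choose τ hτ using hτ
  obtain ⟨B, c₀, y₀, hB, hc, hR⟩ := hRBL (n ^ 2) h2
  have hC' : C ≤ max C (NN (sp (n : 𝓞 K))) := le_max_left _ _
  have h0 : 0 ≤ max C (NN (sp (n : 𝓞 K))) := by linarith
  have hg : ∀ v : Pl K, Pr (n ^ 2) {v} → sp (τ {v}) = v.asIdeal := fun v hv => by
    rw [(hτ _ hv).2.1, eI_one]
  refine ⟨τ, max C (NN (sp (n : 𝓞 K))), B, c₀, max y₀ (B ^ 2), hC.trans hC', hB, hc,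
    fun v hv => (nv_le_of_dv (by omega) hv).trans (le_max_right _ _),
    fun S hS => ⟨(hτ S hS).1, (hτ S hS).2.1, (hτ S hS).2.2.mono hC' h0 (nS_pos S).le le_rfl⟩,
    fun y hy => ?_⟩
  have hy2 : B ^ 2 ≤ y := (le_max_right _ _).trans hy
  have hs : √y ≤ y / B := by
    have hy0 : 0 ≤ y := (sq_nonneg B).trans hy2
    rw [le_div_iff₀ (by linarith)]
    have : B ≤ √y := Real.le_sqrt_of_sq_le hy2
    calc √y * B ≤ √y * √y := by gcongr
      _ = y := Real.mul_self_sqrt hy0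
  have hm : ∀ t ∈ bk (n ^ 2) τ B y, ∃ v : Pl K, y / B < nv v ∧ nv v ≤ y ∧ Pr (n ^ 2) {v} ∧
      τ {v} = t := fun t ht => by
    obtain ⟨v, hv, e⟩ := mem_image.1 ht
    obtain ⟨h1, h3⟩ := mem_filter.1 hv
    exact ⟨v, (mem_pls.1 h1).1, (mem_pls.1 h1).2, h3, e⟩
  refine ⟨⟨fun t ht => ?_, fun t ht => ?_, fun t ht => ?_, fun t ht t' ht' e => ?_⟩, ?_⟩
  · obtain ⟨v, -, -, h3, rfl⟩ := hm t ht
    exact (hτ _ h3).1
  · obtain ⟨v, -, h1, h3, rfl⟩ := hm t ht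
    refine (hτ _ h3).2.2.mono hC' h0 (nS_pos _).le ?_
    rwa [nS, eI_one]
  · obtain ⟨v, h1, h4, h3, rfl⟩ := hm t ht
    exact ⟨v, ∅, Subset.refl _, by simp, by rw [hg v h3, eI_empty, Ideal.mul_top], hs.trans_lt h1, h4⟩
  · obtain ⟨v, -, -, h3, rfl⟩ := hm t ht
    obtain ⟨v', -, -, h3', rfl⟩ := hm t' ht'
    rw [hg v h3, hg v' h3'] at e
    rw [HeightOneSpectrum.ext e]
  · have h1 := (hR ⊤ (by rw [Cop, ← Ideal.one_eq_top]; exact isCoprime_one_left) y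
      ((le_max_left _ _).trans hy)).1
    rw [bk, card_image_of_injOn]
    · simpa only [cl_one] using h1
    · intro v hv v' hv' e
      have e' := congrArg sp e
      simp only at e'
      rw [hg v (mem_filter.1 hv).2, hg v' (mem_filter.1 hv').2] at e'
      exact HeightOneSpectrum.ext e'

end Pool.Agent.P.MP_b8021b_nt.BJ
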