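import Pool.Agent.P.MP_b8021b_nt.BJ.StA

/-! The smooth parts carry a positive proportion of the mass (helper47). -/

namespace Pool.Agent.P.MP_b8021b_nt.BJ

open NumberField IsDedekindDomain Finset MeasureTheory
open Pool.Agent.P.MP_b8021b_nt.VE Pool.Agent.P.MP_b8021b_nt.VC Pool.Agent.P.MP_b8021b_nt.BS.CF
open Pool.Agent.P.MP_b8021b_nt.BS Pool.Agent.P.MP_b8021b_nt.BP
open scoped Classical ComplexConjugate Real
variable {k : Type} [Field k] [NumberField k] [Algebra k ℂ] {K : Type} [Field K] [NumberField K] [Algebra k K]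

namespace JCB2

theorem one_le_Z0 (A : Finset (Pl K)) : 1 ≤ Z0 A := by
  have h := prod_le_prod (s := A) (f := fun _ => (1 : ℝ)) (g := fun v => 1 + (nv v)⁻¹)
    (fun _ _ => zero_le_one) fun v _ => le_add_of_nonneg_right (inv_nonneg.2 (nv_pos v).le)
  rwa [prod_const_one] at h

theorem Z0_union (A B : Finset (Pl K)) : Z0 (A ∪ B) ≤ Z0 A * Z0 B := by
  have h : Z0 (A ∪ B) * Z0 (A ∩ B) = Z0 A * Z0 B := prod_union_inter
  rw [← h]
  exact le_mul_of_one_le_right (zero_le_one.trans (one_le_Z0 _)) (one_le_Z0 _)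

theorem Z0_le (A : Finset (Pl K)) : Z0 A ≤ Real.exp (∑ v ∈ A, (nv v)⁻¹) := by
  rw [Real.exp_sum]
  exact prod_le_prod (fun v _ => add_nonneg zero_le_one (inv_nonneg.2 (nv_pos v).le))
    fun v _ => by rw [add_comm]; exact Real.add_one_le_exp _

/-- the map from triples to sets of places -/
noncomputable def ff (p : Finset (Pl K) × Pl K × Pl K) : Finset (Pl K) :=
  insert p.2.2 (insert p.2.1 p.1)

theorem sizes {ζ : K} {W y u yq : ℝ} (hy : y ≤ yq) {p : Finset (Pl K) × Pl K × Pl K}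
    (hp : p ∈ TT K W y u ×ˢ QI ζ yq ×ˢ pls K (yq ^ 2) (yq ^ 4)) :
    (∀ v ∈ p.1, W < nv v ∧ nv v ≤ yq) ∧ yq < nv p.2.1 ∧ nv p.2.1 ≤ yq ^ 2 ∧ yq ^ 2 < nv p.2.2 := by
  obtain ⟨h1, h2⟩ := mem_product.1 hp
  obtain ⟨h2, h3⟩ := mem_product.1 h2
  have h4 := mem_pls.1 (mem_filter.1 h2).1
  refine ⟨fun v hv => ?_, h4.1, h4.2, (mem_pls.1 h3).1⟩
  have := mem_pls.1 (mem_powerset.1 (mem_filter.1 h1).1 hv)
  exact ⟨this.1, this.2.trans hy⟩

theorem notmem {ζ : K} {W y u yq : ℝ} (hy : y ≤ yq) {p : Finset (Pl K) × Pl K × Pl K}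
    (hp : p ∈ TT K W y u ×ˢ QI ζ yq ×ˢ pls K (yq ^ 2) (yq ^ 4)) :
    p.2.1 ∉ p.1 ∧ p.2.2 ∉ insert p.2.1 p.1 := by
  obtain ⟨h1, h2, h3, h4⟩ := sizes hy hp
  refine ⟨fun e => absurd (h1 _ e).2 (not_le.2 h2), fun e => ?_⟩
  rcases mem_insert.1 e with e | e
  · rw [e] at h4; linarith
  · linarith [(h1 _ e).2]

theorem inj {ζ : K} {W y u yq : ℝ} (hy : y ≤ yq) :
    Set.InjOn (ff (K := K)) (TT K W y u ×ˢ QI ζ yq ×ˢ pls K (yq ^ 2) (yq ^ 4) :
      Finset (Finset (Pl K) × Pl K × Pl K)) := by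
  intro p hp p' hp' e
  have hp := mem_coe.1 hp
  have hp' := mem_coe.1 hp'
  obtain ⟨h1, h2, h3, h4⟩ := sizes hy hp
  obtain ⟨g1, g2, g3, g4⟩ := sizes hy hp'
  obtain ⟨n1, n2⟩ := notmem hy hp
  obtain ⟨m1, m2⟩ := notmem hy hp'
  unfold ff at e
  have e3 : p.2.2 = p'.2.2 := by
    have : p.2.2 ∈ insert p'.2.2 (insert p'.2.1 p'.1) := e ▸ mem_insert_self _ _
    rcases mem_insert.1 this with r | r
    · exact r
    rcases mem_insert.1 r with r | r
    · rw [r] at h4; linarith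
    · linarith [(g1 _ r).2]
  have e' : insert p.2.1 p.1 = insert p'.2.1 p'.1 := by
    rw [← erase_insert n2, e, e3, erase_insert m2]
  have e2 : p.2.1 = p'.2.1 := by
    have : p.2.1 ∈ insert p'.2.1 p'.1 := e' ▸ mem_insert_self _ _
    rcases mem_insert.1 this with r | r
    · exact r
    · linarith [(g1 _ r).2]
  have e1 : p.1 = p'.1 := by rw [← erase_insert n1, e', e2, erase_insert m1]
  exact Prod.ext e1 (Prod.ext e2 e3)

theorem nS_insert {v : Pl K} {S : Finset (Pl K)} (h : v ∉ S) : nS (insert v S) = nv v * nS S := by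
  rw [nS_eq, nS_eq, prod_insert h]

end JCB2

open JCB2 in
theorem j_cb2 (c : Cx k K) (Y : Yb k K) (hRBL : J_RBL K) : J_CB2 K := by
  intro N hN
  obtain ⟨B, c₀, y₀, -, hc, hR⟩ := hRBL N hN
  obtain ⟨C, hC, hS, -⟩ := Y.ch2
  have hN0 : N ≠ 0 := by omega
  have hne : Nonempty (Pl K) := by
    have h := (hR (eI ∅) ((cop_eI hN0).2 (by simp)) y₀ le_rfl).2
    obtain ⟨v, -⟩ := nonempty_of_sum_ne_zero (hc.trans_le h).ne'
    exact ⟨v⟩
  refine ⟨min c₀ (Real.exp (-(C * (1 + Real.log 4)))), max y₀ 2, lt_min hc (Real.exp_pos _), ?_⟩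
  intro ζ W y u yq h0 hy hW hD
  have h2 : 2 ≤ yq := (le_max_right _ _).trans h0
  have hq : yq ≤ yq ^ 2 := by nlinarith
  refine ⟨?_, ?_⟩
  · have h1 := hS yq (yq ^ 4) h2 (le_self_pow₀ (by linarith) (by norm_num))
    have hl : Real.log yq ≠ 0 := (Real.log_pos (by linarith)).ne'
    rw [Real.log_pow, mul_div_assoc, div_self hl, mul_one, Nat.cast_ofNat] at h1
    have h3 := (Z0_le (pls K yq (yq ^ 4))).trans (Real.exp_le_exp.2 h1)
    have h4 := zero_le_one.trans (one_le_Z0 (pls K W y))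
    calc _ ≤ Real.exp (-(C * (1 + Real.log 4))) *
          (Z0 (pls K W y) * Real.exp (C * (1 + Real.log 4))) :=
          mul_le_mul (min_le_right _ _) ((Z0_union _ _).trans (mul_le_mul_of_nonneg_left h3 h4))
            (zero_le_one.trans (one_le_Z0 _)) (Real.exp_pos _).le
      _ = _ := by rw [mul_left_comm, ← Real.exp_add, neg_add_cancel, Real.exp_zero, mul_one]
  set T := TT K W y u ×ˢ QI ζ yq ×ˢ pls K (yq ^ 2) (yq ^ 4) with hT
  have hI : Set.InjOn (ff (K := K)) T := inj hy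
  have hS3 : S3 N ζ W y u yq = (T.image ff).filter (Pr N) := rfl
  let g := Function.invFunOn (ff (K := K)) T
  have hg : ∀ p ∈ T, g (ff p) = p := fun p hp => hI.leftInvOn_invFunOn (mem_coe.2 hp)
  refine ⟨fun s => (g s).1, fun s => (g s).2.1, fun s => (g s).2.2, fun s hs => ?_, ?_⟩
  · obtain ⟨p, hp, rfl⟩ := mem_image.1 (mem_filter.1 (hS3 ▸ hs)).1
    simp only [hg p hp]
    obtain ⟨h1, h3⟩ := mem_product.1 hp
    obtain ⟨h3, h4⟩ := mem_product.1 h3
    exact ⟨h1, h3, h4, rfl, notmem hy hp⟩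
  intro G H hGH
  have hw : ∀ (S : Finset (Pl K)) (q : Pl K), 0 ≤ (nS S * nv q)⁻¹ := fun S q =>
    inv_nonneg.2 (mul_pos (nS_pos S) (nv_pos q)).le
  have hw' : ∀ (S : Finset (Pl K)) (q : Pl K), 0 ≤ (nS S * nv q)⁻¹ * max (G S q) 0 := fun S q =>
    mul_nonneg (hw S q) (le_max_right _ _)
  calc _ ≤ min c₀ (Real.exp (-(C * (1 + Real.log 4)))) *
        ∑ S ∈ TT K W y u, ∑ q ∈ QI ζ yq, (nS S * nv q)⁻¹ * max (G S q) 0 :=
        mul_le_mul_of_nonneg_left (sum_le_sum fun S _ => sum_le_sum fun q _ =>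
          mul_le_mul_of_nonneg_left (le_max_left _ _) (hw S q)) (lt_min hc (Real.exp_pos _)).le
    _ ≤ c₀ * ∑ S ∈ TT K W y u, ∑ q ∈ QI ζ yq, (nS S * nv q)⁻¹ * max (G S q) 0 :=
        mul_le_mul_of_nonneg_right (min_le_left _ _)
          (sum_nonneg fun S _ => sum_nonneg fun q _ => hw' S q)
    _ ≤ ∑ S ∈ TT K W y u, ∑ q ∈ QI ζ yq, ∑ q' ∈ pls K (yq ^ 2) (yq ^ 4),
          if Cl N (eI (insert q S)) q' then (nv q')⁻¹ * ((nS S * nv q)⁻¹ * max (G S q) 0) else 0 := by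
        rw [mul_sum]
        refine sum_le_sum fun S hS => ?_
        rw [mul_sum]
        refine sum_le_sum fun q hq' => ?_
        rw [← sum_filter, ← sum_mul]
        refine mul_le_mul_of_nonneg_right ?_ (hw' S q)
        have hcop : Cop N (eI (insert q S)) := by
          refine (cop_eI hN0).2 fun v hv e => ?_
          have h5 := hD v e
          rcases mem_insert.1 hv with rfl | hv
          · linarith [(mem_pls.1 (mem_filter.1 hq').1).1]
          · linarith [(mem_pls.1 (mem_powerset.1 (mem_filter.1 hS).1 hv)).1]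
        have h6 := (hR _ hcop (yq ^ 2) (((le_max_left _ _).trans h0).trans hq)).2
        rwa [show (yq ^ 2) ^ 2 = yq ^ 4 by ring] at h6
    _ = ∑ p ∈ T, if Cl N (eI (insert p.2.1 p.1)) p.2.2 then
          (nv p.2.2)⁻¹ * ((nS p.1 * nv p.2.1)⁻¹ * max (G p.1 p.2.1) 0) else 0 := by
        rw [hT, sum_product]
        exact sum_congr rfl fun S _ => (sum_product _ _ fun r : Pl K × Pl K =>
          if Cl N (eI (insert r.1 S)) r.2 then
            (nv r.2)⁻¹ * ((nS S * nv r.1)⁻¹ * max (G S r.1) 0) else 0).symm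
    _ ≤ ∑ p ∈ T, if Pr N (ff p) then (nS (ff p))⁻¹ * H (ff p) else 0 := by
        refine sum_le_sum fun p hp => ?_
        obtain ⟨n1, n2⟩ := notmem hy hp
        have e : Pr N (ff p) ↔ Cl N (eI (insert p.2.1 p.1)) p.2.2 := pr_insert n2
        by_cases hcl : Cl N (eI (insert p.2.1 p.1)) p.2.2
        · rw [if_pos hcl, if_pos (e.2 hcl)]
          have h7 := hGH (ff p) (hS3 ▸ mem_filter.2 ⟨mem_image_of_mem _ hp, e.2 hcl⟩)
          simp only [hg p hp] at h7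
          have e2 : (nS (ff p))⁻¹ = (nv p.2.2)⁻¹ * (nS p.1 * nv p.2.1)⁻¹ := by
            rw [ff, nS_insert n2, nS_insert n1, mul_inv, mul_comm (nv p.2.1)]
          rw [e2, mul_assoc]
          exact mul_le_mul_of_nonneg_left (mul_le_mul_of_nonneg_left (max_le h7.2 h7.1) (hw _ _))
            (inv_nonneg.2 (nv_pos _).le)
        · rw [if_neg hcl, if_neg fun r => hcl (e.1 r)]
    _ = _ := by
        rw [hS3, sum_filter, sum_image hI]

end Pool.Agent.P.MP_b8021b_nt.BJ
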