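import Pool.Agent.P.MP_b8021b_nt.BJ.StA

/-! The chain of the scales in the second case. -/

namespace Pool.Agent.P.MP_b8021b_nt.BJ

open NumberField IsDedekindDomain Finset MeasureTheory
open Pool.Agent.P.MP_b8021b_nt.VE Pool.Agent.P.MP_b8021b_nt.VC Pool.Agent.P.MP_b8021b_nt.BS.CF
open Pool.Agent.P.MP_b8021b_nt.BS Pool.Agent.P.MP_b8021b_nt.BP
open scoped Classical ComplexConjugate Real

variable {k : Type} [Field k] [NumberField k] [Algebra k ℂ] {K : Type} [Field K] [NumberField K] [Algebra k K]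

theorem j_cb3 (c : Cx k K) (Y : Yb k K) : J_CB3 k K := by
  intro C B B' y₀ W u A hB B1 hW hu hA
  have e0 := c.et_pos
  have e1 := c.et_le
  have z0 := c.cz_pos
  have z1 := c.cz_le
  have ez : et k K * cz k K ≤ et k K / 100 := by nlinarith
  have A0 : 0 < A + u := by linarith
  have B0 : 0 < B := by linarith
  have B'0 : 0 < B' := by linarith
  have lB : 0 < Real.log B := Real.log_pos (by linarith)
  have lB' : 0 ≤ Real.log B' := Real.log_nonneg B1
  obtain ⟨a, ha⟩ : ∃ a, a = et k K * cz k K / 14 := ⟨_, rfl⟩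
  have a0 : 0 < a := by rw [ha]; positivity
  have ae : a ≤ et k K / 1400 := by linarith
  obtain ⟨X₀, X3, hX₀⟩ := ev_log (max (max W B) (max B' y₀)) 0 a0
  refine ⟨min (a / (A + u)) (et k K / (2 * Real.log B)), X₀, by positivity, fun X hX => ?_⟩
  have X1 : 1 ≤ X := by linarith
  have X0 : 0 < X := by linarith
  have hM := hX₀ X hX
  rw [pow_zero, mul_one, max_le_iff, max_le_iff, max_le_iff] at hM
  have L0 : 0 ≤ Real.log X := Real.log_nonneg X1
  have mono : ∀ {s t : ℝ}, s ≤ t → X ^ s ≤ X ^ t := fun h => Real.rpow_le_rpow_of_exponent_le X1 h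
  have yp : ∀ t : ℝ, t ≤ A + u → (X ^ (a / (A + u))) ^ t ≤ X ^ a := fun t ht => by
    rw [← Real.rpow_mul X0.le]
    refine mono ?_
    rw [div_mul_eq_mul_div, div_le_iff₀ A0]
    exact mul_le_mul_of_nonneg_left ht a0.le
  have qp : ∀ m : ℕ, (X ^ a) ^ m = X ^ (a * m) := fun m => by
    rw [← Real.rpow_natCast, ← Real.rpow_mul X0.le]
  obtain ⟨b, hb⟩ : ∃ b, b = et k K * Real.log X / Real.log B := ⟨_, rfl⟩
  have bl : b * Real.log B = et k K * Real.log X := by rw [hb]; field_simp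
  have h3 := Real.log_le_log B0 hM.1.2
  have h4 := Real.log_le_log B'0 hM.2.1
  rw [Real.log_rpow X0] at h3 h4
  have aL : a * Real.log X ≤ et k K * Real.log X / 1400 := by nlinarith
  have eL : et k K * Real.log X ≤ Real.log X / 100 := by nlinarith
  have b2 : 2 ≤ b := by
    rw [hb, le_div_iff₀ lB]
    linarith
  obtain ⟨f, hf⟩ : ∃ f : ℝ → ℕ, ∀ N, f N =
      ⌊(Real.log X - Real.log B' - Real.log N) / Real.log B⌋₊ := ⟨_, fun _ => rfl⟩
  have q1 : 1 ≤ (X ^ a) ^ 7 := one_le_pow₀ (Real.one_le_rpow X1 a0.le)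
  have lq : Real.log ((X ^ a) ^ 7) = 7 * (a * Real.log X) := by
    rw [Real.log_pow, Real.log_rpow X0]
    norm_num
  have fN : ∀ N : ℝ, 1 ≤ N → N ≤ (X ^ a) ^ 7 → 0 ≤ Real.log N ∧
      Real.log N ≤ 7 * (a * Real.log X) ∧
      f N * Real.log B ≤ Real.log X - Real.log B' - Real.log N ∧
      Real.log X - Real.log B' - Real.log N ≤ f N * Real.log B + Real.log B := by
    intro N h1 h2
    have n0 := Real.log_nonneg h1
    have n1 := Real.log_le_log (by linarith) h2
    rw [lq] at n1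
    have p : 0 ≤ (Real.log X - Real.log B' - Real.log N) / Real.log B :=
      div_nonneg (by linarith) lB.le
    have g1 := Nat.floor_le p
    have g2 := (Nat.lt_floor_add_one ((Real.log X - Real.log B' - Real.log N) / Real.log B)).le
    rw [← hf, le_div_iff₀ lB] at g1
    rw [← hf, div_le_iff₀ lB] at g2
    exact ⟨n0, n1, g1, by linarith⟩
  have anti : ∀ N N' : ℝ, 1 ≤ N → N ≤ N' → f N' ≤ f N := by
    intro N N' h1 h2
    rw [hf, hf]
    have := Real.log_le_log (by linarith) h2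
    exact Nat.floor_le_floor (div_le_div_of_nonneg_right (by linarith) lB.le)
  have jb : ∀ j ∈ Icc ⌈b⌉₊ ⌊2 * b⌋₊, et k K * Real.log X ≤ j * Real.log B ∧
      j * Real.log B ≤ 2 * (et k K * Real.log X) := by
    intro j hj
    have j1 : b ≤ j := Nat.ceil_le.1 (mem_Icc.1 hj).1
    have j2 : (j : ℝ) ≤ 2 * b := (Nat.le_floor_iff (by linarith)).1 (mem_Icc.1 hj).2
    constructor <;> nlinarith
  have ja : ∀ N : ℝ, 1 ≤ N → N ≤ (X ^ a) ^ 7 → ∀ j ∈ Icc ⌈b⌉₊ ⌊2 * b⌋₊, j ≤ f N := by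
    intro N h1 h2 j hj
    obtain ⟨n0, n1, n2, n3⟩ := fN N h1 h2
    have := (jb j hj).2
    have h : (j : ℝ) * Real.log B ≤ f N * Real.log B := by linarith
    exact_mod_cast le_of_mul_le_mul_right h lB
  have f1 := Nat.lt_floor_add_one (2 * b)
  have f2 := Nat.ceil_lt_add_one (a := b) (by linarith)
  have f3 : ⌈b⌉₊ ≤ ⌊2 * b⌋₊ := by
    have : (⌈b⌉₊ : ℝ) < ⌊2 * b⌋₊ + 1 := by linarith
    have : ⌈b⌉₊ < ⌊2 * b⌋₊ + 1 := by exact_mod_cast this
    omega
  have cJ : b / 2 ≤ ((Icc ⌈b⌉₊ ⌊2 * b⌋₊).card : ℝ) := by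
    rw [Nat.card_Icc, Nat.cast_sub (by omega)]
    push_cast
    linarith
  refine ⟨X ^ (a / (A + u)), X ^ a, Icc ⌈b⌉₊ ⌊2 * b⌋₊,
    Icc (f ((X ^ a) ^ 7) - ⌊2 * b⌋₊) (f 1 - ⌈b⌉₊), f,
    ⟨X1, hW, hM.1.1, ?_, yp u (by linarith), hM.1.2, hM.2.2, ?_, ?_, fun j hj => ?_,
      fun N h1 h2 => ?_, ?_⟩, yp A (by linarith), mono (min_le_left _ _), ?_⟩
  · simpa using yp 1 (by linarith)
  · rw [qp]; exact mono (by push_cast; linarith)
  · rw [qp]; exact mono (by push_cast; linarith)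
  · obtain ⟨j1, j2⟩ := jb j hj
    constructor <;> rw [← Real.log_le_log_iff (by positivity) (by positivity),
      Real.log_rpow X0, Real.log_pow] <;> linarith
  · obtain ⟨n0, n1, n2, n3⟩ := fN N h1 h2
    have N0 : 0 < N := by linarith
    refine ⟨?_, ?_, ?_, fun j hj => ⟨ja N h1 h2 j hj, ?_, ?_⟩⟩
    · rw [← Real.log_le_log_iff (by positivity) X0, Real.log_mul (by positivity) (by positivity),
        Real.log_mul B'0.ne' N0.ne', Real.log_pow]
      linarith
    · rw [← Real.log_le_log_iff X0 (by positivity), Real.log_mul (by positivity) (by positivity),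
        Real.log_mul (by positivity) N0.ne', Real.log_mul B0.ne' B'0.ne', Real.log_pow]
      linarith
    · rw [← Real.log_le_log_iff (by positivity) (by positivity), Real.log_rpow X0, Real.log_pow]
      linarith
    · have i1 := anti 1 N le_rfl h1
      have i2 := anti N _ h1 h2
      have i3 := mem_Icc.1 hj
      rw [mem_Icc]
      omega
    · obtain ⟨j1, j2⟩ := jb j hj
      rw [← Real.log_le_log_iff (by positivity) (by positivity), Real.log_rpow X0,
        Real.log_div (by positivity) B0.ne', Real.log_pow, Nat.cast_sub (ja N h1 h2 j hj)]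
      linarith
  · have i1 := anti 1 _ le_rfl q1
    have i2 := ja _ q1 le_rfl _ (mem_Icc.2 ⟨f3, le_rfl⟩)
    obtain ⟨-, -, n2, -⟩ := fN 1 le_rfl q1
    obtain ⟨-, m1, -, m3⟩ := fN _ q1 le_rfl
    rw [Real.log_one] at n2
    have i3 : ((f 1 : ℝ) - f ((X ^ a) ^ 7)) * Real.log B ≤ (b / 200 + 1) * Real.log B := by
      linarith
    have i4 := le_of_mul_le_mul_right i3 lB
    have i5 : (f 1 : ℝ) ≤ f ((X ^ a) ^ 7) + 2 * ((Icc ⌈b⌉₊ ⌊2 * b⌋₊).card : ℝ) := by linarith
    have i6 : f 1 ≤ f ((X ^ a) ^ 7) + 2 * (Icc ⌈b⌉₊ ⌊2 * b⌋₊).card := by exact_mod_cast i5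
    rw [Nat.card_Icc] at i6 ⊢
    rw [Nat.card_Icc]
    omega
  · have f4 : et k K / (2 * Real.log B) * Real.log X = b / 2 := by rw [hb]; field_simp
    have f5 := mul_le_mul_of_nonneg_right
      (min_le_right (a / (A + u)) (et k K / (2 * Real.log B))) L0
    linarith

end Pool.Agent.P.MP_b8021b_nt.BJ
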