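import Pool.Agent.P.MP_b8021b_nt.BJ.StA

/-! The family of twists in the second case satisfies the hypotheses (helper68). -/

namespace Pool.Agent.P.MP_b8021b_nt.BJ

open NumberField IsDedekindDomain Finset MeasureTheory
open Pool.Agent.P.MP_b8021b_nt.VE Pool.Agent.P.MP_b8021b_nt.VC Pool.Agent.P.MP_b8021b_nt.BS.CF
open Pool.Agent.P.MP_b8021b_nt.BS Pool.Agent.P.MP_b8021b_nt.BP
open scoped Classical ComplexConjugate Real
variable {k : Type} [Field k] [NumberField k] [Algebra k ℂ] {K : Type} [Field K] [NumberField K] [Algebra k K]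

namespace JCB4

variable {ζ : K} {n N : ℕ} {τ : Finset (Pl K) → 𝓞 K} {C C' B B' c y₀ W u X y yq z : ℝ}
  {𝒥 ℐ : Finset ℕ} {a : ℝ → ℕ} {S : Finset (Pl K)} {j : ℕ} {t : 𝓞 K}

theorem lw_one (v : Pl K) : lw {v} ≤ 1 := by simpa using lw_le_card {v}

theorem lw_ins (v : Pl K) (S : Finset (Pl K)) : lw (insert v S) ≤ 1 + lw S := by
  have e := lw_union_le {v} S
  rw [← insert_eq] at e
  linarith [lw_one v]

theorem nS_ins (v : Pl K) (S : Finset (Pl K)) : nS (insert v S) ≤ nv v * nS S := by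
  have e := nS_union_le {v} S
  rwa [← insert_eq, nS_eq {v}, prod_singleton] at e

theorem blk_eq {j j' : ℕ} {x : ℝ} (hB : 2 ≤ B) (h1 : B ^ j / B < x) (h2 : x ≤ B ^ j') : j ≤ j' := by
  have h := h1.trans_le h2
  rw [div_lt_iff₀ (by linarith), ← pow_succ] at h
  exact Nat.le_of_lt_succ ((pow_lt_pow_iff_right₀ (by linarith)).1 h)

theorem memS (q1 : 1 ≤ yq) (Wq : W ≤ yq) (yy : y ≤ yq) (yu : y ^ u ≤ yq)
    (h : S ∈ S3 N ζ W y u yq) : Pr N S ∧ S ⊆ pls K W y ∪ pls K yq (yq ^ 4) ∧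
      (∀ v ∈ S, W < nv v ∧ nv v ≤ yq ^ 4) ∧ nS S ≤ yq ^ 7 ∧ lw S ≤ 3 := by
  obtain ⟨h1, hP⟩ := mem_filter.1 h
  obtain ⟨⟨T, q, q'⟩, hp, rfl⟩ := mem_image.1 h1
  obtain ⟨hT, h2⟩ := mem_product.1 hp
  obtain ⟨hq, hq'⟩ := mem_product.1 h2
  obtain ⟨a1, a2⟩ := mem_pls.1 (mem_filter.1 hq).1
  obtain ⟨b1, b2⟩ := mem_pls.1 hq'
  obtain ⟨c1, c2, c3⟩ := mem_filter.1 hT
  dsimp only at *
  have e2 : yq ≤ yq ^ 2 := le_self_pow₀ q1 two_ne_zero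
  have e4 : yq ^ 2 ≤ yq ^ 4 := pow_le_pow_right₀ q1 (by norm_num)
  have sub : insert q' (insert q T) ⊆ pls K W y ∪ pls K yq (yq ^ 4) :=
    insert_subset (mem_union_right _ (mem_pls.2 ⟨e2.trans_lt b1, b2⟩)) (insert_subset
      (mem_union_right _ (mem_pls.2 ⟨a1, a2.trans e4⟩))
      ((mem_powerset.1 c1).trans subset_union_left))
  refine ⟨hP, sub, fun v hv => ?_, ?_, by linarith [lw_ins q' (insert q T), lw_ins q T]⟩
  · rcases mem_union.1 (sub hv) with e | e <;> obtain ⟨f1, f2⟩ := mem_pls.1 e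
    · exact ⟨f1, ((f2.trans yy).trans e2).trans e4⟩
    · exact ⟨Wq.trans_lt f1, f2⟩
  · refine (nS_ins _ _).trans ?_
    rw [show yq ^ 7 = yq ^ 4 * (yq ^ 2 * yq) by ring]
    exact mul_le_mul b2 ((nS_ins _ _).trans (mul_le_mul a2 (c2.trans yu) (nS_pos T).le
      (by positivity))) (nS_pos _).le (by positivity)

theorem pr_tau (d : DtB k n τ C B c y₀) (h : Pr (n ^ 2) S) : τ S ≠ 0 ∧ pr (τ S) = S :=
  ⟨(d.tau S h).1.ne_zero, by rw [← prI_sp, (d.tau S h).2.1, prI_eI]⟩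

theorem memB (d : DtB k n τ C B c y₀) (h : t ∈ bk (n ^ 2) τ B z) :
    ∃ v, τ {v} = t ∧ t ≠ 0 ∧ pr t = {v} ∧ z / B < nv v ∧ nv v ≤ z := by
  obtain ⟨v, hv, rfl⟩ := mem_image.1 h
  obtain ⟨h1, h2⟩ := mem_filter.1 hv
  exact ⟨v, rfl, (pr_tau d h2).1, (pr_tau d h2).2, mem_pls.1 h1⟩

theorem rng (s : ScB k K C B B' y₀ W u X y yq 𝒥 ℐ a) (hB : 2 ≤ B) (B1 : 1 ≤ B') (hj : j ∈ 𝒥)
    {M : ℝ} (h1 : 1 ≤ M) (h7 : M ≤ yq ^ 7) :
    yq ^ 4 ≤ B ^ j / B ∧ yq ≤ B ^ j ∧ B ^ j ≤ X ^ (2 * et k K) ∧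
      X ^ (2 * et k K) ≤ B ^ (a M - j) / B ∧ B ^ j ≤ B ^ (a M - j) ∧ B ^ (a M - j) ≤ X ∧
      B ^ (a M - j) * B ^ j = B ^ a M ∧ M * B ^ a M ≤ X := by
  have q1 : 1 ≤ yq := by linarith [s.Bq]
  have B0 : 0 < B := by linarith
  obtain ⟨j1, j2⟩ := s.J j hj
  obtain ⟨a1, -, -, a4⟩ := s.A M h1 h7
  obtain ⟨b1, -, b3⟩ := a4 j hj
  have e1 : yq ^ 4 ≤ B ^ j / B := by
    rw [le_div_iff₀ B0]
    refine le_trans ?_ (s.q5.trans j1)
    rw [pow_succ yq 4]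
    exact mul_le_mul_of_nonneg_left s.Bq (by positivity)
  have e4 : ∀ i : ℕ, B ^ i / B ≤ B ^ i := fun i => div_le_self (by positivity) (by linarith)
  have e5 : M * B ^ a M ≤ X := by
    refine le_trans ?_ a1
    rw [mul_assoc]
    exact le_mul_of_one_le_left (by positivity) B1
  exact ⟨e1, ((le_self_pow₀ q1 (by norm_num)).trans e1).trans (e4 j), j2, b3,
    (j2.trans b3).trans (e4 _), (pow_le_pow_right₀ (by linarith) (Nat.sub_le _ _)).trans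
      ((le_mul_of_one_le_left (by positivity) h1).trans e5), pow_sub_mul_pow B b1, e5⟩

end JCB4

open JCB4 in
theorem j_cb4 (c : Cx k K) (Y : Yb k K) : J_CB4 k K := by
  intro n ζ τ C C' B c₀ y₀ W u X y yq 𝒥 ℐ a d hC h5 s
  have B2 := d.B2
  have q2 : 2 ≤ yq := B2.trans s.Bq
  have C0 : 0 ≤ C' := by linarith
  have c1 : 1 ≤ C' ^ rk k K := Real.one_le_rpow (by linarith) (Nat.cast_nonneg _)
  have B1 := one_le_mul_of_one_le_of_one_le c1 c1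
  have mS : ∀ S ∈ S3 (n ^ 2) ζ W y u yq, _ := fun S h => memS (by linarith) s.Wq s.yy s.yu h
  have rg : ∀ S ∈ S3 (n ^ 2) ζ W y u yq, ∀ j ∈ 𝒥, _ := fun S h j hj =>
    rng s B2 B1 hj (one_le_nS S) (mS S h).2.2.2.1
  have mem : ∀ S ∈ S3 (n ^ 2) ζ W y u yq, ∀ j ∈ 𝒥,
      (∀ t ∈ bk (n ^ 2) τ B (B ^ (a (nS S) - j)), ∃ v, τ {v} = t ∧ t ≠ 0 ∧ pr t = {v} ∧
        X ^ (2 * et k K) < nv v ∧ yq ^ 4 < nv v) ∧
      ∀ t ∈ bk (n ^ 2) τ B (B ^ j), ∃ v, τ {v} = t ∧ t ≠ 0 ∧ pr t = {v} ∧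
        nv v ≤ X ^ (2 * et k K) ∧ yq ^ 4 < nv v ∧ B ^ j / B < nv v ∧ nv v ≤ B ^ j :=
    fun S hS j hj => by
    obtain ⟨r1, -, r3, r4, -⟩ := rg S hS j hj
    refine ⟨fun t ht => ?_, fun t ht => ?_⟩
    · obtain ⟨v, e, e0, e1, h, -⟩ := memB d ht
      exact ⟨v, e, e0, e1, r4.trans_lt h, ((r1.trans ((div_le_self (by positivity)
        (by linarith)).trans r3)).trans r4).trans_lt h⟩
    · obtain ⟨v, e, e0, e1, h, h'⟩ := memB d ht
      exact ⟨v, e, e0, e1, h'.trans r3, r1.trans_lt h, h, h'⟩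
  refine ⟨fun S hS j hj => ?_, fun S hS j hj => ?_, fun S hS j hj => ?_, fun S hS j hj => ?_,
    fun S hS => (mS S hS).2.1, fun v hv => ?_,
    fun S hS j hj => ((s.A _ (one_le_nS S) (mS S hS).2.2.2.1).2.2.2 j hj).2.1,
    fun S hS j hj j' hj' e => ?_, s.few, fun S hS => (d.tau S (mS S hS).1).2.1, ?_⟩
  · obtain ⟨a0, -, a1, a3, a4⟩ := mS S hS
    obtain ⟨-, r2, r3, -, r5, r6, r7, -⟩ := rg S hS j hj
    obtain ⟨m1, m2⟩ := mem S hS j hj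
    obtain ⟨t1, t2, t3⟩ := d.tau S a0
    obtain ⟨p0, p1⟩ := pr_tau d a0
    obtain ⟨f1, -, f3, -⟩ := s.A _ (one_le_nS S) a3
    have cp : ∀ t v, t ≠ 0 → pr t = {v} → yq ^ 4 < nv v → IsCoprime (τ S) t := fun t v h0 h1 h => by
      rw [isCoprime_iff' p0 h0, p1, h1]
      exact disjoint_singleton_right.2 fun e => absurd (a1 v e).2 (not_le.2 h)
    change Cell k n ∅ C' X S (τ S) (B ^ (a (nS S) - j)) (B ^ j)
      (bk (n ^ 2) τ B (B ^ (a (nS S) - j))) (bk (n ^ 2) τ B (B ^ j))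
    refine ⟨⟨(d.blk _ ((s.y0.trans r2).trans r5)).1.mono hC C0 (by positivity),
      (d.blk _ (s.y0.trans r2)).1.mono hC C0 (by positivity),
      fun v hv e => absurd ((d.dv v e).trans s.CW) (not_le.2 (a1 v hv).1), a3.trans s.q7,
      (s.J j hj).1, r3, r7 ▸ f3, r6⟩, t1, p1.ge, t2 ▸ t3.mono hC C0 (nS_pos S).le le_rfl,
      fun t ht => ?_, fun t ht => ?_, fun t ht t' ht' => ?_, ?_, fun t ht t' ht' => ?_⟩
    · obtain ⟨v, -, h0, h1, -, h⟩ := m1 t ht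
      exact cp t v h0 h1 h
    · obtain ⟨v, -, h0, h1, -, h, -⟩ := m2 t ht
      exact cp t v h0 h1 h
    · obtain ⟨v, -, h0, h1, h, -⟩ := m1 t ht
      obtain ⟨v', -, g0, g1, g, -⟩ := m2 t' ht'
      rw [isCoprime_iff' h0 g0, h1, g1]
      exact disjoint_singleton.2 fun e => absurd g (not_le.2 (e ▸ h))
    · rw [t2, ← r7] at *
      exact le_of_eq_of_le (by ring) f1
    · obtain ⟨v, -, h0, h1, -⟩ := m1 t ht
      obtain ⟨v', -, g0, g1, -⟩ := m2 t' ht'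
      rw [pr_mul (mul_ne_zero p0 h0) g0, pr_mul p0 h0, p1, h1, g1]
      linarith [lw_union_le (S ∪ {v}) {v'}, lw_union_le S {v}, lw_one v, lw_one v']
  · change X ≤ _ * (nS S * (B ^ (a (nS S) - j) * B ^ j))
    rw [(rg S hS j hj).2.2.2.2.2.2.1]
    exact (s.A _ (one_le_nS S) (mS S hS).2.2.2.1).2.1.trans_eq (mul_assoc _ _ _)
  · change nS S * (B ^ (a (nS S) - j) * B ^ j) ≤ X
    rw [(rg S hS j hj).2.2.2.2.2.2.1]
    exact (rg S hS j hj).2.2.2.2.2.2.2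
  · obtain ⟨-, r2, -, -, r5, r6, -⟩ := rg S hS j hj
    have key : ∀ z, yq ≤ z → z ≤ X → c₀ * z / Real.log X ≤ (bk (n ^ 2) τ B z).card :=
      fun z h1 h2 => le_trans (div_le_div_of_nonneg_left (mul_nonneg d.c0.le (by linarith))
        (Real.log_pos (by linarith)) (Real.log_le_log (by linarith) h2))
        (d.blk z (s.y0.trans h1)).2
    exact ⟨key _ (r2.trans r5) r6, key _ r2 (r5.trans r6)⟩
  · rcases mem_union.1 hv with e | e
    · exact (mem_pls.1 e).1.le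
    · exact s.Wq.trans (mem_pls.1 e).1.le
  · have h := (s.A _ (one_le_nS S) (mS S hS).2.2.2.1).2.2.2
    have h1 := (h j hj).1
    have h2 := (h j' hj').1
    change a (nS S) - j = a (nS S) - j' at e
    omega
  · intro S hS j hj t₁ h₁ t₂ h₂ S' hS' j' hj' t₁' h₁' t₂' h₂' e
    obtain ⟨v₁, x1, a0, a1, a2, a3⟩ := (mem S hS j hj).1 t₁ h₁
    obtain ⟨v₂, x2, b0, b1, b2, b3, b4, b5⟩ := (mem S hS j hj).2 t₂ h₂
    obtain ⟨w₁, x3, g0, g1, -, -⟩ := (mem S' hS' j' hj').1 t₁' h₁'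
    obtain ⟨w₂, x4, d0, d1, d2, -, d4, d5⟩ := (mem S' hS' j' hj').2 t₂' h₂'
    obtain ⟨p0, p1⟩ := pr_tau d (mS S hS).1
    obtain ⟨p0', p1'⟩ := pr_tau d (mS S' hS').1
    have l := (mS S hS).2.2.1
    have l' := (mS S' hS').2.2.1
    have e' : prI (sp (τ S * t₁ * t₂)) = prI (sp (τ S' * t₁' * t₂')) := congrArg prI e
    rw [prI_sp, prI_sp, pr_mul (mul_ne_zero p0 a0) b0, pr_mul p0 a0, pr_mul (mul_ne_zero p0' g0) d0,
      pr_mul p0' g0, p1, p1', a1, b1, g1, d1] at e'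
    have E : ∀ w, (w ∈ S ∨ w = v₁) ∨ w = v₂ ↔ (w ∈ S' ∨ w = w₁) ∨ w = w₂ := fun w => by
      simpa only [mem_union, mem_singleton] using Finset.ext_iff.1 e' w
    obtain rfl : v₁ = w₁ := by
      rcases (E v₁).1 (Or.inl (Or.inr rfl)) with (h | h) | h
      · exact absurd (l' _ h).2 (not_le.2 a3)
      · exact h
      · exact absurd d2 (not_le.2 (h ▸ a2))
    obtain rfl : v₂ = w₂ := by
      rcases (E v₂).1 (Or.inr rfl) with (h | h) | h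
      · exact absurd (l' _ h).2 (not_le.2 b3)
      · exact absurd b2 (not_le.2 (h ▸ a2))
      · exact h
    refine ⟨Finset.ext fun w => ⟨fun h => ?_, fun h => ?_⟩,
      le_antisymm (blk_eq B2 b4 d5) (blk_eq B2 d4 b5), x1.symm.trans x3, x2.symm.trans x4⟩
    · rcases (E w).1 (Or.inl (Or.inl h)) with (h' | rfl) | rfl
      exacts [h', absurd (l _ h).2 (not_le.2 a3), absurd (l _ h).2 (not_le.2 b3)]
    · rcases (E w).2 (Or.inl (Or.inl h)) with (h' | rfl) | rfl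
      exacts [h', absurd (l' _ h).2 (not_le.2 a3), absurd (l' _ h).2 (not_le.2 b3)]

end Pool.Agent.P.MP_b8021b_nt.BJ
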