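import Pool.Agent.P.MP_b8021b_nt.BJ.StA
import Pool.Agent.P.MP_b8021b_nt.BP.PCELA

/-! The first side of the first moment over a cell. -/

namespace Pool.Agent.P.MP_b8021b_nt.BJ

open NumberField IsDedekindDomain Finset MeasureTheory
open Pool.Agent.P.MP_b8021b_nt.VE Pool.Agent.P.MP_b8021b_nt.VC Pool.Agent.P.MP_b8021b_nt.BS.CF
open Pool.Agent.P.MP_b8021b_nt.BS Pool.Agent.P.MP_b8021b_nt.BP
open scoped Classical ComplexConjugate Real

variable {k : Type} [Field k] [NumberField k] [Algebra k ℂ] {K : Type} [Field K] [NumberField K]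
  [Algebra k K]

set_option linter.unusedSectionVars false
set_option linter.unusedVariables false

theorem j_cela (c : Cx k K) (Y : Yb k K) (hLG : J_LG k K) : J_CELA k K := by
  have hFI := Y.fi
  have hVW := Y.vw
  have hDIV := Y.div
  have hSLT := Y.slt
  have hDEC := Y.dec
  have hEVA := Y.eva
  have hPTA := Y.pta
  intro n Ψ f 𝒜 C₀ ε hn hΨ hf hε
  obtain ⟨h, hh⟩ := hFI
  obtain ⟨CV, hCV, -, hV⟩ := hVW h f hh hf
  obtain ⟨CE, j, hCE, hE⟩ := hEVA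
  obtain ⟨-, CD, hCD, hD⟩ := hDIV
  obtain ⟨CS, y₀, hCS, hy₀, hS⟩ := hSLT n 𝒜 C₀ hn
  have he := c.et_pos
  set E := Real.exp (1 / 2 / la k K) with hEd
  have hE0 : 0 < E := Real.exp_pos _
  obtain ⟨CL, hCL, hL⟩ := hLG n 𝒜 h C₀ (CE + CV * E) j hn hh (by positivity)
  set ρ := 1 + 2 * CL / ε with hρ
  have hρ0 : 0 < 2 * CL / ε := by positivity
  have hR : 1 ≤ ρ ^ 4 := one_le_pow₀ (by linarith)
  have hR4 : CL * (ρ ^ 4) ^ (-(1 / 4 : ℝ)) ≤ ε / 2 := by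
    rw [← Real.rpow_natCast, ← Real.rpow_mul (by linarith), show ((4 : ℕ) : ℝ) * -(1 / 4) = -1 by
      norm_num, Real.rpow_neg_one, ← div_eq_mul_inv, div_le_iff₀ (by linarith), hρ, mul_add,
      show ε / 2 * (2 * CL / ε) = CL by field_simp]
    linarith
  set R := ρ ^ 4
  obtain ⟨X₁, hL⟩ := hL R hR
  set δ := ε / 2 / ((CS / et k K) ^ 2 * (1 + CD * R)) with hδ
  have hδ0 : 0 < δ := by positivity
  obtain ⟨X₂, hP⟩ := hPTA n Ψ h f δ R C₀ hn.two_le hΨ hh hf hδ0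
  obtain ⟨X₃, h3, hPP⟩ := c.ev_PP
  obtain ⟨X₄, -, h4⟩ := ev_log y₀ 0 he
  refine ⟨max (max X₁ X₂) (max X₃ X₄), fun X y₁ y₂ Γ τ T₁ T₂ F hX hc hF hw => ?_⟩
  simp only [max_le_iff] at hX
  obtain ⟨⟨x1, x2⟩, x3, x4⟩ := hX
  have hX1 : 1 < X := by linarith
  have hX0 : 0 < X := by linarith
  obtain ⟨l1, p1, p2⟩ := hPP X x3
  have l0 : 0 < el k K X := by linarith
  have y0 := c.Y0_pos hX0
  obtain ⟨-, -, -, -, -, hV⟩ := hV (el k K X) (Y0 k K X) l0 y0
  obtain ⟨v1, v2, v3⟩ := hV 1 one_pos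
  have hW := v3 (ZZ k K X) (by rw [one_mul, ZZ]; gcongr; norm_num)
  obtain ⟨-, b1, a1, a2⟩ := c.lo hc.toPair hX1.le
  have h4' : y₀ ≤ X ^ et k K := by simpa using h4 X x4
  have t1 := PCELA.card_le hX1 he (by linarith) b1 (hS y₁ T₁ (h4'.trans b1) hc.b1).1
  have t2 := PCELA.card_le hX1 he (by linarith) hc.lo2 (hS y₂ T₂ (h4'.trans hc.lo2) hc.b2).1
  have lX := Real.log_pos hX1
  set 𝒮 := (PP K (el k K X)).powerset.filter fun S => nS S ≤ ZZ k K X * Real.exp (el k K X)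
  set H := Hv h f (el k K X) (Y0 k K X) 1
  have hch := (ch_of_isP hΨ).1
  have L := hL X y₁ y₂ Ψ Ψ Γ τ T₁ T₂ F H (fun _ _ => 1) (fun _ _ => 1)
    (𝒮.filter fun S => ¬ nS S ≤ R) x1 hch hch
    (fun a b => (hE Ψ _ a b _ hch.bd l1).trans (by
      gcongr; exact le_add_of_nonneg_right (by positivity))) hc hF v1
    (fun b => (v2 b).trans (by
      have := c.rpow_el hX1 (a := 1 / 2) (x := Y0 k K X / 1) (by positivity) (by
        rw [div_one, c.Y0_eq hX0]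
        exact Real.rpow_le_rpow_of_exponent_le hX1.le (by linarith [c.la_pos]))
      gcongr
      nlinarith))
    (fun _ _ => ⟨continuous_const, fun _ => norm_one.le⟩)
    (fun _ _ => ⟨continuous_const, fun _ => norm_one.le⟩) fun S hS => by
      obtain ⟨s1, s2⟩ := mem_filter.1 hS
      obtain ⟨s3, s4⟩ := mem_filter.1 s1
      exact ⟨mem_powerset.1 s3, not_le.1 s2, s4.trans (c.ZZ_mul_le hX1.le)⟩
  simp only [mul_one] at L
  set I : ℂ := ((∫ z in Set.Ioi (0 : ℝ), f z : ℝ) : ℂ)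
  have e0 : nS (∅ : Finset (Pl K)) = 1 := by rw [nS_eq, prod_empty]
  have hm : ∅ ∈ 𝒮.filter fun S => nS S ≤ R := by
    refine mem_filter.2 ⟨mem_filter.2 ⟨empty_mem_powerset _, ?_⟩, e0.trans_le hR⟩
    rw [e0, c.ZZ_eq hX0]
    exact one_le_mul_of_one_le_of_one_le
      (Real.one_le_rpow hX1.le (by linarith [c.la_pos])) (Real.one_le_exp l0.le)
  have hcard : ((𝒮.filter fun S => nS S ≤ R).card : ℝ) ≤ CD * R :=
    (Nat.cast_le.2 (card_le_ids fun S hS => (mem_filter.1 hS).2)).trans (hD R hR).1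
  have key : ∀ t ∈ T₁, ∀ t' ∈ T₂, wG F Γ t t' * (AX k Ψ f X 1 (τ * t * t') *
      MX k Ψ X (τ * t * t') - I) = wG F Γ t t' * (∑ S ∈ 𝒮.filter fun S => nS S ≤ R,
        jac (τ * t * t') (eI S) * dX k Ψ Ψ H h X S (pr (τ * t * t')) - I) +
      wG F Γ t t' * ∑ S ∈ 𝒮.filter fun S => ¬ nS S ≤ R,
        jac (τ * t * t') (eI S) * dX k Ψ Ψ H h X S (pr (τ * t * t')) := fun t ht t' ht' => by
    have z0 : τ * t * t' ≠ 0 := mul_ne_zero (mul_ne_zero hc.pri.ne_zero (hc.b1.pri t ht).ne_zero)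
      (hc.b2.pri t' ht').ne_zero
    rw [← mul_add, sub_add_eq_add_sub, sum_filter_add_sum_filter_not, AX, MX,
      hDEC h H _ Ψ Ψ _ _ _ hh l0 hW hch.bd hch.bd p1 p2 _ (pr (τ * t * t')) (sgn_leg _)
        fun v _ => (mem_pr z0).trans leg_eq_zero.symm]
    rfl
  rw [sum_congr rfl fun t ht => sum_congr rfl fun t' ht' => key t ht t' ht']
  simp only [sum_add_distrib]
  have q0 : 0 ≤ y₁ * y₂ / Real.log X ^ 2 := by positivity
  refine (norm_add_le _ _).trans ((add_le_add ?_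
    (L.trans (mul_le_mul_of_nonneg_right hR4 q0))).trans (le_of_eq (by rw [← add_mul, add_halves])))
  have B : ∀ t ∈ T₁, ∀ t' ∈ T₂, ‖wG F Γ t t' * (∑ S ∈ 𝒮.filter fun S => nS S ≤ R,
      jac (τ * t * t') (eI S) * dX k Ψ Ψ H h X S (pr (τ * t * t')) - I)‖ ≤ (1 + CD * R) * δ :=
    fun t ht t' ht' => by
      obtain ⟨P1, P2⟩ := hP X x2 _ (hc.tame t ht t' ht')
      rw [norm_mul]
      refine (mul_le_of_le_one_left (norm_nonneg _) (hw t ht t' ht')).trans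
        ((PCELA.small _ ∅ _ _ I hm hδ0.le (fun _ => norm_jac_le _ _) (by rw [eI_empty, jac_top]) P1
          fun S hS e => P2 S e (mem_filter.1 hS).2).trans ?_)
      gcongr
  refine (norm_sum_le _ _).trans ((sum_le_card_nsmul _ _ (T₂.card • ((1 + CD * R) * δ))
    fun t ht => (norm_sum_le _ _).trans (sum_le_card_nsmul _ _ _ (B t ht))).trans ?_)
  rw [nsmul_eq_mul, nsmul_eq_mul, ← mul_assoc]
  refine (mul_le_mul_of_nonneg_right (mul_le_mul t1 t2 (Nat.cast_nonneg _) (by positivity))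
    (by positivity)).trans (le_of_eq ?_)
  rw [hδ]
  field_simp

end Pool.Agent.P.MP_b8021b_nt.BJ
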