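import Pool.Agent.P.MP_b8021b_nt.BJ.StA

/-! The crossing of a half symbol with a known quartic symbol. -/

namespace Pool.Agent.P.MP_b8021b_nt.BJ

open NumberField IsDedekindDomain Finset MeasureTheory
open Pool.Agent.P.MP_b8021b_nt.VE Pool.Agent.P.MP_b8021b_nt.VC Pool.Agent.P.MP_b8021b_nt.BS.CF
open Pool.Agent.P.MP_b8021b_nt.BS Pool.Agent.P.MP_b8021b_nt.BP
open scoped Classical ComplexConjugate Real

namespace JCROSS

theorem mul_conj_one {a : ℂ} (h : a ^ 2 = 1 ∨ a ^ 2 = -1) : a * conj a = 1 := by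
  have h4 : a ^ 4 = 1 := by
    rw [show a ^ 4 = (a ^ 2) ^ 2 by ring]
    rcases h with e | e <;> rw [e] <;> norm_num
  have hn : ‖a‖ = 1 := Complex.norm_eq_one_of_pow_eq_one h4 (by norm_num)
  rw [Complex.mul_conj, Complex.normSq_eq_norm_sq, hn]
  norm_num

theorem ev_coe {L : Type} [Field L] [NumberField L] {y : 𝓞 L} {v : Pl L} (h : y ∉ v.asIdeal) :
    Even (od v (y : L)) := by
  rw [od_eq_zero_of_vl v ((vl_coe_eq v y).2 h)]
  exact Even.zero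

end JCROSS

open JCROSS in
theorem j_cross (h : QX) (hQB1 : J_QB1) (hEX2 : J_EX2) (hBIQ : J_BIQ) : J_CROSS := by
  intro L _ _ ι y z ψ θ φ n₁ n₂ n₃ hι H1 H2 H3
  have hL : Om L := om_of hι
  have p1 : n₁ ≠ 0 := by have := H1.two; omega
  have p2 : n₂ ≠ 0 := by have := H2.two; omega
  have p3 : n₃ ≠ 0 := by have := H3.two; omega
  obtain ⟨n, hn⟩ : ∃ n, n = n₁ * n₂ * n₃ := ⟨_, rfl⟩
  rw [← hn]
  have n0 : n ≠ 0 := hn ▸ mul_ne_zero (mul_ne_zero p1 p2) p3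
  have d1 : n₁ ∣ n := hn ▸ (dvd_mul_right n₁ n₂).mul_right n₃
  have d2 : n₂ ∣ n := hn ▸ (dvd_mul_left n₂ n₁).mul_right n₃
  have d3 : n₃ ∣ n := hn ▸ dvd_mul_left n₃ _
  have G1 := H1.mono d1 n0
  have G2 := H2.mono d2 n0
  have G3 := H3.mono d3 n0
  have k2 : ∀ v : Pl L, ¬ Dv n v → ¬ Dv 2 v := fun v e e' => e (e'.of_dvd G1.ev)
  obtain ⟨ψ', e1⟩ : ∃ x, x = ψ * triv L n := ⟨_, rfl⟩
  obtain ⟨θ', e2⟩ : ∃ x, x = θ * triv L n := ⟨_, rfl⟩
  obtain ⟨φ', e3⟩ : ∃ x, x = φ * triv L n := ⟨_, rfl⟩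
  have eψ : ∀ v : Pl L, ¬ Dv n v → ψ' v.asIdeal = ψ v.asIdeal := fun v e => by
    rw [e1, mul_triv e]
  rw [← e1] at G1
  rw [← e2] at G2
  rw [← e3] at G3
  have hξ : ∀ I, (ψ' * θ' * cj φ') I = ψ' I * θ' I * conj (φ' I) := fun I => rfl
  have sθ : ∀ v : Pl L, ¬ Dv n v → θ' v.asIdeal ^ 2 = leg z v := fun v e => by
    rw [G2.all v e, (hQB1 L ι v hι (k2 v e)).2.2.2.2.1]
  have eφ : ∀ v : Pl L, ¬ Dv n v → leg y v * leg z v = 1 →
      φ' v.asIdeal = q4 ι y v * θ' v.asIdeal := fun v e e' => by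
    rw [G3.res v e (by rw [leg_mul, e']), (hQB1 L ι v hι (k2 v e)).2.2.2.1, G2.all v e]
  obtain ⟨u, u0, hu⟩ := hEX2 L n (ψ' * θ' * cj φ') hL G1.two G1.ev
    ((G1.rc.mul G2.rc).mul G3.rc.cj) fun v e => by
      rw [hξ, mul_pow, mul_pow, ← map_pow (starRingEnd ℂ), G1.sq v e, sθ v e, G3.sq v e, leg_mul]
      refine mul_conj_one (Or.inl ?_)
      rw [mul_pow, leg_sq (G1.unit v e), leg_sq (G2.unit v e), one_mul]
  have y0 : (y : L) ≠ 0 := by simpa using H1.ne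
  have z0 : (z : L) ≠ 0 := by simpa using H2.ne
  have hlp : ∀ v : Pl L, ¬ Dv n v → LP 2 v (y : L) → LP 2 v (z : L) → LP 2 v u := by
    intro v e ly lz
    have a1 := (leg_eq_one_iff_LP (k2 v e) (G1.unit v e)).2 ly
    have a2 := (leg_eq_one_iff_LP (k2 v e) (G2.unit v e)).2 lz
    rw [← lq_eq_one, ← (hu v e).2, hξ, eφ v e (by rw [a1, a2, one_mul]), ← G1.res v e a1]
    refine mul_conj_one (Or.inl ?_)
    rw [mul_pow, G1.sq v e, sθ v e, a1, a2, one_mul]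
  have fin : ∀ c : ℂ, (c = 1 ∨ c = -1) →
      (∀ v : Pl L, ¬ Dv n v → lq (y : L) v = -1 → lq (z : L) v = -1 → lq u v = c) →
      ∃ c : ℂ, (c = 1 ∨ c = -1) ∧ ∀ v : Pl L, ¬ Dv n v → leg y v = -1 → leg z v = -1 →
        q4 ι y v = c * ψ v.asIdeal := by
    intro c hc hv
    refine ⟨c, hc, fun v e a1 a2 => ?_⟩
    have b := hv v e (by rw [lq_coe (k2 v e) (G1.unit v e), a1])
      (by rw [lq_coe (k2 v e) (G2.unit v e), a2])
    rw [← (hu v e).2, hξ, eφ v e (by rw [a1, a2]; norm_num), map_mul, eψ v e] at b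
    have c1 : θ' v.asIdeal * conj (θ' v.asIdeal) = 1 := mul_conj_one (Or.inr (by rw [sθ v e, a2]))
    have c2 : q4 ι y v * conj (q4 ι y v) = 1 :=
      mul_conj_one (Or.inr (by rw [(hQB1 L ι v hι (k2 v e)).2.2.2.2.1, a1]))
    have c3 : c * c = 1 := by rcases hc with rfl | rfl <;> norm_num
    linear_combination (-c * q4 ι y v) * b - q4 ι y v * c3 +
      c * ψ v.asIdeal * q4 ι y v * conj (q4 ι y v) * c1 + c * ψ v.asIdeal * c2
  have m1 : ∀ v : Pl L, ¬ Dv n v → lq (u * y) v = lq u v * lq (y : L) v := fun v e =>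
    lq_mul h.res (k2 v e) u0 y0 (hu v e).1 (ev_coe (G1.unit v e))
  have m2 : ∀ v : Pl L, ¬ Dv n v → lq (u * z) v = lq u v * lq (z : L) v := fun v e =>
    lq_mul h.res (k2 v e) u0 z0 (hu v e).1 (ev_coe (G2.unit v e))
  have m3 : ∀ v : Pl L, ¬ Dv n v → lq (u * y * z) v = lq u v * lq (y : L) v * lq (z : L) v :=
    fun v e => by
      rw [lq_mul h.res (k2 v e) (mul_ne_zero u0 y0) z0
        (by rw [od_mul v u0 y0]; exact (hu v e).1.add (ev_coe (G1.unit v e)))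
        (ev_coe (G2.unit v e)), m1 v e]
  by_cases s0 : IsSquare u
  · exact fin 1 (Or.inl rfl) fun v _ _ _ => lq_eq_one.2 (lp_of_isSquare v u0 s0)
  by_cases s1 : IsSquare (u * y)
  · refine fin (-1) (Or.inr rfl) fun v e a _ => ?_
    have b := lq_eq_one.2 (lp_of_isSquare v (mul_ne_zero u0 y0) s1)
    rw [m1 v e, a] at b
    linear_combination -b
  by_cases s2 : IsSquare (u * z)
  · refine fin (-1) (Or.inr rfl) fun v e _ a => ?_
    have b := lq_eq_one.2 (lp_of_isSquare v (mul_ne_zero u0 z0) s2)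
    rw [m2 v e, a] at b
    linear_combination -b
  by_cases s3 : IsSquare (u * y * z)
  · refine fin 1 (Or.inl rfl) fun v e a a' => ?_
    have b := lq_eq_one.2 (lp_of_isSquare v (mul_ne_zero (mul_ne_zero u0 y0) z0) s3)
    rw [m3 v e, a, a'] at b
    linear_combination b
  obtain ⟨v, e, ly, lz, lu⟩ := hBIQ L n u y z hL n0 y0 z0 s0 s1 s2 s3
  exact absurd (hlp v e ly lz) lu

end Pool.Agent.P.MP_b8021b_nt.BJ
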