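import Pool.Agent.P.MP_b8021b_nt.BJ.StA
import Pool.Agent.P.MP_b8021b_nt.BS.PPsi

/-! The quartic symbol of a root of unity of two-power order is a ray class character. -/

namespace Pool.Agent.P.MP_b8021b_nt.BJ

open NumberField IsDedekindDomain Finset MeasureTheory
open Pool.Agent.P.MP_b8021b_nt.VE Pool.Agent.P.MP_b8021b_nt.VC Pool.Agent.P.MP_b8021b_nt.BS.CF
open Pool.Agent.P.MP_b8021b_nt.BS Pool.Agent.P.MP_b8021b_nt.BP
open scoped Classical ComplexConjugate Real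

theorem j_cyc (h : QX) (hQB1 : J_QB1) : J_CYC := by
  intro L _ _ ι ζ a hι ha hζ
  have hO := om_of hι
  obtain ⟨e, he⟩ : ∃ e : ℕ, ζ ^ 2 ^ (a - 1) = ι ^ e := by
    have e : (ζ ^ 2 ^ (a - 1)) ^ 2 = ι ^ 2 := by
      rw [hι, ← pow_mul, ← pow_succ, Nat.sub_add_cancel ha, hζ]
    rcases sq_eq_sq_iff_eq_or_eq_neg.1 e with e | e
    · exact ⟨1, by rw [e, pow_one]⟩
    · exact ⟨3, by rw [e, pow_succ, hι, neg_one_mul]⟩
  have hs4 : (Complex.I ^ e) ^ 4 = 1 := by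
    rw [← pow_mul, mul_comm, pow_mul, Complex.I_pow_four, one_pow]
  have hN : 2 ≤ 2 ^ (a + 1) := by
    rw [pow_succ]; have := Nat.one_le_two_pow (n := a); omega
  have h4 : 4 ∣ 2 ^ (a + 1) := pow_dvd_pow 2 (show 2 ≤ a + 1 by omega)
  have hprim : IsPrimitiveRoot (ζ : L) (2 ^ (a + 1)) := by
    have e : (ζ : L) ^ 2 ^ a = -1 := by exact_mod_cast congrArg (fun x : 𝓞 L => (x : L)) hζ
    have : orderOf (ζ : L) = 2 ^ (a + 1) := orderOf_eq_prime_pow (by rw [e]; norm_num)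
      (by rw [pow_succ, pow_mul, e]; norm_num)
    exact this ▸ IsPrimitiveRoot.orderOf _
  have hmod : ∀ I : Ideal (𝓞 L), Cop 2 I → Ideal.absNorm I ≡ 1 [MOD 2 ^ (a + 1)] := fun I hI =>
    (h.pos L hO).2.2.2.2 _ _ I hN hprim ((cop_pow_nat a.succ_pos).2 hI)
  let θ : Ideal (𝓞 L) →* ℂ :=
    { toFun := fun I => if Cop 2 I then (Complex.I ^ e) ^ (Ideal.absNorm I / 2 ^ (a + 1)) else 0
      map_one' := by
        rw [Ideal.one_eq_top, if_pos cop_top, Ideal.absNorm_top, Nat.div_eq_of_lt hN, pow_zero]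
      map_mul' := fun I J => by
        by_cases hI : Cop 2 I
        · by_cases hJ : Cop 2 J
          · rw [if_pos hI, if_pos hJ, if_pos (cop_mul.2 ⟨hI, hJ⟩), map_mul,
              PPsi.pow_div hs4 h4 hN (hmod I hI) (hmod J hJ)]
          · rw [if_neg hJ, if_neg fun e => hJ (cop_mul.1 e).2, mul_zero]
        · rw [if_neg hI, if_neg fun e => hI (cop_mul.1 e).1, zero_mul] }
  have hθ : ∀ I, Cop 2 I → θ I = (Complex.I ^ e) ^ (Ideal.absNorm I / 2 ^ (a + 1)) :=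
    fun I hI => if_pos hI
  have hm : 0 < a + 3 := by omega
  have h8 : 2 ≤ 2 ^ (a + 3) := hN.trans (Nat.pow_le_pow_right two_pos (by omega))
  have hu : IsUnit ζ := IsUnit.of_pow_eq_one (n := 2 ^ a * 2)
    (by rw [pow_mul, hζ, neg_one_sq]) (by positivity)
  refine ⟨θ, a + 3, hm, h8, dvd_pow_self 2 hm.ne', hu.ne_zero, ⟨⟨fun I hI => ?_, fun I hI =>
    if_neg fun e => hI ((cop_pow_nat hm).2 e)⟩, fun α hα => ?_⟩,
    fun v _ e => v.isPrime.ne_top (v.asIdeal.eq_top_of_isUnit_mem e hu), fun v hv => ?_⟩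
  · rw [hθ I ((cop_pow_nat hm).1 hI), norm_pow, norm_pow, Complex.norm_I, one_pow, one_pow]
  · have hI := (cop_pow_nat hm).1 (cop_span_of_dvd hα)
    have h1 := (h.pos L hO).2.2.2.1 _ α hα
    rw [hθ _ hI, PPsi.ex_mod h8 h1, show 2 ^ (a + 3) = 2 ^ (a + 1) * 4 by ring, mul_assoc,
      PPsi.div_eq hN, pow_mul, hs4, one_pow]
  · have hI : Cop 2 v.asIdeal := (cop_pow_nat hm).1 ((cop_prime_iff v).2 hv)
    have hq := PPsi.ex_mod hN (hmod _ hI)
    rw [hθ _ hI]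
    generalize Ideal.absNorm v.asIdeal / 2 ^ (a + 1) = j at hq ⊢
    have ha2 : 2 ^ (a + 1) = 4 * 2 ^ (a - 1) := by
      obtain ⟨b, rfl⟩ := Nat.exists_eq_add_of_le' ha
      rw [Nat.add_sub_cancel]; ring
    have hq4 : (Ideal.absNorm v.asIdeal - 1) / 4 = 2 ^ (a - 1) * j := by
      rw [hq, ha2, Nat.add_sub_cancel, mul_assoc, Nat.mul_div_cancel_left _ four_pos]
    rw [(hQB1 L ι v hι ((cop_prime_iff v).1 hI)).2.1 ζ (e * j) (by
      rw [hq4, pow_mul, he, pow_mul, sub_self]; exact zero_mem _), pow_mul]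

end Pool.Agent.P.MP_b8021b_nt.BJ
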