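import Pool.Agent.P.MP_b8021b_nt.BJ.StA
import Pool.Agent.P.MP_b8021b_nt.BS.CF.PNV2

/-! A quadratic character is a residue symbol. -/

namespace Pool.Agent.P.MP_b8021b_nt.BJ

open NumberField IsDedekindDomain Finset MeasureTheory
open Pool.Agent.P.MP_b8021b_nt.VE Pool.Agent.P.MP_b8021b_nt.VC Pool.Agent.P.MP_b8021b_nt.BS.CF
open Pool.Agent.P.MP_b8021b_nt.BS Pool.Agent.P.MP_b8021b_nt.BP
open scoped Classical ComplexConjugate Real

variable {k : Type} [Field k] [NumberField k] [Algebra k ℂ] {K : Type} [Field K] [NumberField K]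
  [Algebra k K]

set_option linter.unusedSectionVars false
set_option linter.unusedVariables false

open NV2P in
theorem j_ex1 (hq : QX) : J_EX1 := by
  have h : T2 := hq.toT2
  have hE := hq.es2
  have hX := hq.x2
  have hC := hq.chi
  intro L _ _ n χ hL hn hχ hs
  have hsq : ∀ I, Cop n I → χ I ^ 2 = 1 := by
    refine cop_induction hn ?_ fun v I hv _ ih => ?_
    · rw [← Ideal.one_eq_top, map_one, one_pow]
    · rw [map_mul, mul_pow, ih, mul_one, hs v hv]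
  obtain ⟨m, m0, hm, hG⟩ := (h.es L).1 (2 * n) (by omega)
  have m2 : 2 ∣ m := (dvd_mul_right 2 n).trans hm
  have mn : n ∣ m := (dvd_mul_left n 2).trans hm
  have m3 : 2 ≤ m := Nat.le_of_dvd (Nat.pos_of_ne_zero m0) m2
  obtain ⟨Y, Yc, Yu, Yi⟩ := hE L m hL m0
  have ex : ∀ y : L, ∃ (j : ℕ) (ξ : Ideal (𝓞 L) →* ℂ), y ∈ Y → 1 ≤ j ∧ RC (m ^ j) ξ ∧
      (∀ v, ¬ Dv m v → ξ v.asIdeal = if LP 2 v y then 1 else -1) ∧
      ((¬ ∃ z : L, y = z ^ 2) → ∃ C : ℝ, ∀ s : ℝ, 1 < s → s ≤ 2 → -C ≤ dsum (lam ξ) s) := by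
    intro y
    by_cases hy : y ∈ Y
    · obtain ⟨j, ξ, e⟩ := hC L m y hL m3 m2 (Yu y hy).1 fun v hv => by
        rw [(Yu y hy).2 v hv]; exact dvd_zero _
      exact ⟨j, ξ, fun _ => e⟩
    · exact ⟨0, 1, fun e => absurd e hy⟩
  choose j ξ hξ using ex
  obtain ⟨k, k3, kj⟩ : ∃ k : ℕ, 3 ≤ k ∧ ∀ y ∈ Y, j y ≤ k :=
    ⟨3 + Y.sup j, by omega, fun y hy => (Finset.le_sup hy).trans (by omega)⟩
  have hd : ∀ v : Pl L, Dv (m ^ k) v ↔ Dv m v := fun v => dv_pow v (by omega)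
  have mN : m ∣ m ^ k := dvd_pow_self m (by omega)
  have N0 : m ^ k ≠ 0 := pow_ne_zero k m0
  have N2 : 2 ≤ m ^ k := m3.trans (Nat.le_of_dvd (Nat.pos_of_ne_zero N0) mN)
  have hG' : Gen L (m ^ k) := fun v₀ hv => by
    obtain ⟨x, x0, x1, x2⟩ := hG v₀ fun e => hv ((hd v₀).2 e)
    exact ⟨x, x0, x1, fun v a b => x2 v a fun e => b ((hd v).2 e)⟩
  have hP : nPl L (m ^ k) = nPl L m := by
    unfold nPl
    exact congrArg Set.ncard (Set.ext hd)
  have val : ∀ y ∈ Y, ∀ v : Pl L, ¬ Dv m v →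
      (ξ y * triv L (m ^ k)) v.asIdeal = if LP 2 v y then 1 else -1 := fun y hy v hv => by
    rw [MonoidHom.mul_apply, triv_cop ((cop_prime_iff v).2 fun e => hv ((hd v).1 e)), mul_one]
    exact (hξ y hy).2.2.1 v hv
  have od0 : ∀ y ∈ Y, ∀ y' ∈ Y, ∀ v : Pl L, ¬ Dv m v → od v (y * y') = 0 := fun y hy y' hy' v hv => by
    rw [od_mul v (Yu y hy).1 (Yu y' hy').1, (Yu y hy).2 v hv, (Yu y' hy').2 v hv, add_zero]
  have inj : Set.InjOn (fun y => ξ y * triv L (m ^ k)) Y := by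
    intro y hy y' hy' e
    refine Yi y hy y' hy' ?_
    by_contra hs
    obtain ⟨v, -, a1, a2⟩ := h.c1 L 2 m (y * y') hL (Or.inl rfl) m0 hs
    have e1 := val y hy v a1
    have e2 := val y' hy' v a1
    have e3 : (ξ y * triv L (m ^ k)) v.asIdeal = (ξ y' * triv L (m ^ k)) v.asIdeal :=
      congrArg (fun f : Ideal (𝓞 L) →* ℂ => f v.asIdeal) e
    rw [e1, e2] at e3
    by_cases b1 : LP 2 v y <;> by_cases b2 : LP 2 v y'
    · exact a2 (b1.mul b2)
    · rw [if_pos b1, if_neg b2] at e3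
      norm_num at e3
    · rw [if_neg b1, if_pos b2] at e3
      norm_num at e3
    · refine a2 ((h.res L v).2.2 y y' (fun e => a1 (e.of_dvd m2)) (Yu y hy).1 (Yu y' hy').1
        ?_ ?_ b1 b2)
      · rw [(Yu y hy).2 v a1]; exact dvd_zero _
      · rw [(Yu y' hy').2 v a1]; exact dvd_zero _
  have cd := hX L (m ^ k) (insert (χ * triv L (m ^ k)) (Y.image fun y => ξ y * triv L (m ^ k))) Y
    N2 (m2.trans mN) hG' (fun ψ hψ => by
      rcases mem_insert.1 hψ with rfl | hψ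
      · refine ⟨hχ.mono (mn.trans mN), fun I c => ?_⟩
        rw [MonoidHom.mul_apply, triv_cop c, mul_one]
        exact hsq I (Cop_of_dvd c (mn.trans mN))
      · obtain ⟨y, hy, rfl⟩ := mem_image.1 hψ
        refine ⟨(hξ y hy).2.1.mono (pow_dvd_pow m (kj y hy)), ?_⟩
        refine cop_induction N2 ?_ fun v I hv _ ih => ?_
        · rw [← Ideal.one_eq_top, map_one, one_pow]
        · rw [map_mul, mul_pow, ih, mul_one, val y hy v fun e => hv ((hd v).2 e)]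
          split_ifs <;> norm_num)
    (fun y hy => ⟨(Yu y hy).1, fun v hv => (Yu y hy).2 v fun e => hv ((hd v).2 e)⟩)
    (fun y hy y' hy' ⟨z, z0, z1⟩ => Yi y hy y' hy' (sq_of_lp h hL m3 m2 hG
      (mul_ne_zero (Yu y hy).1 (Yu y' hy').1) (od0 y hy y' hy') fun v hv =>
        lp_of_one m2 k3 z0 z1 hv))
  have mem : χ * triv L (m ^ k) ∈ Y.image fun y => ξ y * triv L (m ^ k) := by
    by_contra hc
    obtain ⟨d, hd2⟩ := (h.pos L hL).1
    rw [card_insert_of_notMem hc, card_image_of_injOn inj, Yc, hP, hd2,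
      Nat.mul_div_cancel_left d two_pos, show 2 * nPl L m + 2 * d = (nPl L m + d) + (nPl L m + d) by
        ring, pow_add 2 (nPl L m + d)] at cd
    have := Nat.le_of_mul_le_mul_right cd (by positivity)
    omega
  obtain ⟨y, hy, e⟩ := mem_image.1 mem
  have ev : ∀ I, Cop (m ^ k) I → χ I = ξ y I := fun I c => by
    have e3 : (ξ y * triv L (m ^ k)) I = (χ * triv L (m ^ k)) I :=
      congrArg (fun f : Ideal (𝓞 L) →* ℂ => f I) e
    rw [MonoidHom.mul_apply, MonoidHom.mul_apply, triv_cop c, mul_one, mul_one] at e3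
    exact e3.symm
  refine ⟨m, y, m0, m2, mn, (Yu y hy).1, fun v hv => ⟨(Yu y hy).2 v hv, ?_⟩⟩
  rw [ev _ ((cop_prime_iff v).2 fun e => hv ((hd v).1 e)), (hξ y hy).2.2.1 v hv, lq]

end Pool.Agent.P.MP_b8021b_nt.BJ
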