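import Pool.Agent.P.MP_b8021b_nt.BJ.StA

/-! A quadratic ray class character is a quadratic symbol, with the sharp modulus. -/

namespace Pool.Agent.P.MP_b8021b_nt.BJ

open NumberField IsDedekindDomain Finset MeasureTheory
open Pool.Agent.P.MP_b8021b_nt.VE Pool.Agent.P.MP_b8021b_nt.VC Pool.Agent.P.MP_b8021b_nt.BS.CF
open Pool.Agent.P.MP_b8021b_nt.BS Pool.Agent.P.MP_b8021b_nt.BP
open scoped Classical ComplexConjugate Real

namespace JEX2

variable {L : Type} [Field L] [NumberField L]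

/-- an integer that is a nonresidue at one place and close to one at the others -/
theorem ex_c (h : QX) {n m : ℕ} (n0 : n ≠ 0) (m0 : m ≠ 0) (h2 : 2 ∣ n) (hm : n ∣ m) {v₀ : Pl L}
    (hv : ¬ Dv n v₀) (hv' : Dv m v₀) : ∃ c : 𝓞 L, ((n ^ 3 : ℕ) : 𝓞 L) ∣ c - 1 ∧
      (∀ v, Dv m v → vl v (c : L) = 1) ∧ (∀ v, Dv m v → v ≠ v₀ → LP 2 v (c : L)) ∧
      ¬ LP 2 v₀ (c : L) := by
  obtain ⟨δ, hδ⟩ := (h.res L v₀).1
  obtain ⟨k, hk⟩ := RecP.ex_k (n := n ^ 3) (pow_ne_zero 3 n0) (finite_dv L m0).toFinset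
  obtain ⟨c, hc⟩ := (h.wa L).1 (finite_dv L m0).toFinset
    (fun v => ((if v = v₀ then 1 + 4 * δ else 1 : 𝓞 L) : L)) k fun v _ => vl_coe_le v _
  have h1 : ∀ v, Dv m v → vl v ((c : L) - ((if v = v₀ then 1 + 4 * δ else 1 : 𝓞 L) : L)) <
      vl v ((n ^ 3 : ℕ) : L) := fun v e =>
    (hc v (by simpa using e)).trans_lt (hk v (by simpa using e))
  have h3 : ∀ v, Dv m v → v ≠ v₀ → vl v ((c : L) - 1) < vl v ((n ^ 3 : ℕ) : L) := fun v e e' => by
    simpa [e'] using h1 v e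
  have h4 : ((n ^ 3 : ℕ) : 𝓞 L) ∣ c - 1 := dvd_of_vl (pow_ne_zero 3 n0) fun v e => by
    have e' := (dv_pow v (by norm_num)).1 e
    simpa using (h3 v (e'.of_dvd hm) fun e'' => hv (e'' ▸ e')).le
  have v2 : ¬ Dv 2 v₀ := fun e => hv (e.of_dvd h2)
  have v4 : vl v₀ (4 : L) = 1 := by
    have := (vl_nat_eq v₀).2 (mt (dv_pow v₀ (j := 2) (by norm_num)).1 v2)
    simpa using this
  have h5 := (h.res L v₀).2.1 δ (((c : L) - 1) / 4) hδ (by
    have := (h1 v₀ hv').trans_le (vl_nat_le v₀ _)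
    rw [if_pos rfl] at this
    rw [show ((c : L) - 1) / 4 - δ = ((c : L) - ((1 + 4 * δ : 𝓞 L) : L)) / 4 by
      simp only [map_add, map_mul, map_one, map_ofNat]; ring, map_div₀, v4, div_one]
    exact this)
  rw [show 1 + 4 * (((c : L) - 1) / 4) = c by ring] at h5
  refine ⟨c, h4, fun v e => ?_, fun v e e' => ?_, h5.2.1⟩
  · by_cases e' : v = v₀
    · exact e' ▸ h5.1
    · exact vl_of_near v ((h3 v e e').trans_le (vl_nat_le v _))
  · by_cases hd : Dv n v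
    · exact RecP.lp_dvd h2 h4 hd
    · exact LP.of_near_one (fun e => hd (e.of_dvd h2)) ((h3 v e e').trans_le (vl_nat_le v _))

/-- the class is unramified outside the modulus of the character -/
theorem ev (h : QX) (hL : Om L) {n m : ℕ} {χ : Ideal (𝓞 L) →* ℂ} {u : L} (hn : 2 ≤ n) (h2 : 2 ∣ n)
    (hχ : RC n χ) (m0 : m ≠ 0) (hm : n ∣ m) (u0 : u ≠ 0)
    (hu : ∀ v, ¬ Dv m v → od v u = 0 ∧ χ v.asIdeal = lq u v) (v₀ : Pl L) (hv : ¬ Dv n v₀) :
    2 ∣ od v₀ u := by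
  by_contra ho
  have hv' : Dv m v₀ := by
    by_contra e
    exact ho (by rw [(hu v₀ e).1]; simp)
  have n0 : n ≠ 0 := by omega
  obtain ⟨c, c1, c2, c3, c4⟩ := ex_c h n0 m0 h2 hm hv hv'
  have c0 : c ≠ 0 := fun e => by simpa [e] using c2 v₀ hv'
  have nm : ∀ v, Dv m v → ¬ Ideal.span {c} ≤ v.asIdeal := fun v e e' =>
    (vl_coe_eq v c).1 (c2 v e) ((Ideal.span_singleton_le_iff_mem _).1 e')
  have s0 : Ideal.span {c} ≠ ⊥ := by simpa using c0
  have cop : Cop m (Ideal.span {c}) := by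
    rw [Cop, Ideal.isCoprime_iff_sup_eq]
    by_contra e
    obtain ⟨M, hM, e'⟩ := Ideal.exists_le_maximal _ e
    exact nm ⟨M, hM.isPrime, fun e => s0 (le_bot_iff.1 (e ▸ le_sup_left.trans e'))⟩
      ((Ideal.span_singleton_le_iff_mem _).1 (le_sup_right.trans e')) (le_sup_left.trans e')
  have key := RecP.chi_eq (hn.trans (Nat.le_of_dvd (Nat.pos_of_ne_zero m0) hm))
    (χ := χ * triv L m) (fun v => RecP.ee v u) (fun v hd => by
      rw [mul_triv hd, (hu v hd).2, RecP.ee_even (by rw [(hu v hd).1]; simp), lq]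
      by_cases hl : LP 2 v u <;> simp [hl]) _ cop
  rw [MonoidHom.mul_apply, triv_cop cop, mul_one,
    hχ.prin c ((Nat.cast_dvd_cast (dvd_pow_self n (by norm_num))).trans c1)] at key
  have hs : ∑ᶠ v : Pl L, RecP.ee v u * (cnt v (Ideal.span {c}) : ZMod 2) = 0 := by
    by_contra e
    rw [if_neg e] at key
    norm_num at key
  have p := RecP.prod h.toT1 h.wr h.chi h.pc hL (a := (c : L)) (by simpa using c0) u0
    fun v e => RecP.lp_dvd h2 c1 (e.of_dvd h2)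
  have e1 : ∑ᶠ v : Pl L, (if v = v₀ then 1 else 0 : ZMod 2) = 1 := by
    rw [finsum_eq_single _ v₀ fun v e => if_neg e, if_pos rfl]
  have e2 : RecP.TT (c : L) u = ∑ᶠ v : Pl L, (if v = v₀ then 1 else 0 : ZMod 2) +
      ∑ᶠ v : Pl L, RecP.ee v u * (cnt v (Ideal.span {c}) : ZMod 2) := by
    rw [← finsum_add_distrib ((Set.finite_singleton v₀).subset fun v e => by
      by_contra e'
      exact e (if_neg e')) (RecP.cnt_fin _ s0)]
    refine finsum_congr fun v => ?_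
    by_cases hd : Dv m v
    · rw [(cnt_eq_zero v).2 (nm v hd), Nat.cast_zero, mul_zero, add_zero]
      by_cases e : v = v₀
      · subst e
        rw [if_pos rfl, RecP.sy_eo (fun e => hv (e.of_dvd h2))
          (by rw [od_eq_zero_of_vl v (c2 v hd)]; simp) ho, if_neg c4]
      · rw [if_neg e, RecP.sy_comm, RecP.sy_lp u (c3 v hd e)]
    · rw [if_neg fun e : v = v₀ => hd (e ▸ hv'), zero_add, RecP.sy,
        if_neg fun e => hd (Dv.of_dvd e (h2.trans hm)), (hu v hd).1, od_coe v c0]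
      simp
  rw [p, e1, hs, add_zero] at e2
  exact zero_ne_one e2

end JEX2

theorem j_ex2 (h : QX) (hEX1 : J_EX1) : J_EX2 := by
  intro L _ _ n χ hL hn h2 hχ hq
  obtain ⟨m, u, m0, -, hm, u0, hu⟩ := hEX1 L n χ hL hn hχ hq
  have he := JEX2.ev h hL hn h2 hχ m0 hm u0 hu
  obtain ⟨j, χ', hj, hχ', hv, -⟩ := h.chi L n u hL hn h2 u0 he
  have d : n ∣ n ^ j := dvd_pow_self n (by omega)
  have val : ∀ v : Pl L, ¬ Dv n v →
      (χ * triv L (n ^ j) * cj χ') v.asIdeal = χ v.asIdeal * lq u v := fun v e => by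
    rw [MonoidHom.mul_apply, mul_triv (mt (dv_pow v hj).1 e)]
    change _ * conj (χ' v.asIdeal) = _
    rw [hv v e, lq]
    split_ifs <;> simp
  have ht := h.i.tr L hL (n ^ j) m _ (hn.trans (Nat.le_self_pow (by omega) n)) m0
    ((hχ.mono d).mul hχ'.cj) fun I hI e => by
      obtain ⟨v, rfl⟩ := exists_pl hI
      have e' : ¬ Dv m v := mt (dv_iff_of_prime hI).1 e
      rw [val v fun e => e' (e.of_dvd hm), (hu v e').2, ← sq, lq_sq]
  refine ⟨u, u0, fun v e => ⟨even_iff_two_dvd.2 (he v e), ?_⟩⟩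
  have := ht _ ((cop_prime_iff v).2 (mt (dv_pow v hj).1 e))
  rw [val v e] at this
  rw [← mul_one (χ _), ← lq_sq u v, sq, ← mul_assoc, this, one_mul]

end Pool.Agent.P.MP_b8021b_nt.BJ
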