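import Pool.Agent.P.MP_b8021b_nt.BJ.StA

/-! Existence of a nontrivial class by counting. -/

namespace Pool.Agent.P.MP_b8021b_nt.BJ

open NumberField IsDedekindDomain Finset MeasureTheory
open Pool.Agent.P.MP_b8021b_nt.VE Pool.Agent.P.MP_b8021b_nt.VC Pool.Agent.P.MP_b8021b_nt.BS.CF
open Pool.Agent.P.MP_b8021b_nt.BS Pool.Agent.P.MP_b8021b_nt.BP
open scoped Classical ComplexConjugate Real
variable {k : Type} [Field k] [NumberField k] [Algebra k ℂ] {K : Type} [Field K] [NumberField K]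
  [Algebra k K]

namespace JEXI

/-- the local condition that is recorded at a place -/
def bit (s : SD K) (Γ : Finset (Pl K)) (T : K) (v : Pl K) (y : K) : Prop :=
  if v ∈ s.V then Lin s.ζ v s.t₀ y else if v ∈ Γ then Lin s.ζ v T y else Even (od v y)

theorem lin_mul (hLIN : J_LIN K) {ζ T y y' : K} {v : Pl K} (h2 : ¬ Dv 2 v) (hz : LP 2 v ζ)
    (h0 : od v ζ = 0) (hT : T ≠ 0) (ho : Odd (od v T)) (hy : y ≠ 0) (hy' : y' ≠ 0)
    (e : Lin ζ v T y ↔ Lin ζ v T y') : Lin ζ v T (y * y') := by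
  obtain ⟨-, l2, -, -, -, l6, -⟩ := hLIN ζ T v h2 hz h0 hT ho
  by_cases h : Lin ζ v T y
  · exact (l2 y y' h (e.1 h)).1
  · exact l6 y y' hy hy' h fun h' => h (e.2 h')

end JEXI

open JEXI in
theorem j_exi (c : Cx k K) (Y : Yb k K) (hLIN : J_LIN K) : J_EXI K := by
  intro s Γ q T hs hT hq hout hodd
  have hm : s.m ≠ 0 := by have := hs.md.two; omega
  obtain ⟨n, hn, hmn, hdv⟩ : ∃ n : ℕ, n ≠ 0 ∧ s.m ∣ n ∧ ∀ v ∈ s.V ∪ insert q Γ, Dv n v :=
    ⟨s.m * ∏ v ∈ s.V ∪ insert q Γ, Ideal.absNorm v.asIdeal, mul_ne_zero hm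
      (prod_ne_zero_iff.2 fun v _ => Ideal.absNorm_eq_zero_iff.not.2 v.ne_bot), dvd_mul_right _ _,
      fun v hv => (dv_absNorm v).of_dvd ((dvd_prod_of_mem _ hv).mul_left _)⟩
  obtain ⟨Z, hcard, hZ, hinj⟩ := Y.q.es2 K n c.om hn
  obtain ⟨Φ, hΦ, hf⟩ := hs.grp.idx
  choose! f hf1 hf2 using hf
  have hqo := hout q (mem_insert_self _ _)
  obtain ⟨P, hP, hPc⟩ : ∃ P : Finset (Pl K), (∀ v, Dv n v → ¬ Dv s.m v → v ≠ q → v ∈ P) ∧
      P.card + 1 + nPl K s.m = nPl K n := by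
    refine ⟨((finite_dv K hn).toFinset \ (finite_dv K hm).toFinset).erase q,
      fun v h1 h2 h3 => by simp [h1, h2, h3], ?_⟩
    have h1 : q ∈ (finite_dv K hn).toFinset \ (finite_dv K hm).toFinset := by
      simp [hqo.1, hdv q (by simp)]
    have h2 : (finite_dv K hm).toFinset ⊆ (finite_dv K hn).toFinset := fun v hv => by
      simp only [Set.Finite.mem_toFinset, Set.mem_ofPred_eq] at hv ⊢
      exact hv.of_dvd hmn
    rw [card_erase_add_one h1, nPl, nPl, Set.ncard_eq_toFinset_card _ (finite_dv K hn),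
      Set.ncard_eq_toFinset_card _ (finite_dv K hm), card_sdiff_add_card_eq_card h2]
  have hlt : (Φ ×ˢ P.powerset).card < Z.card := by
    rw [card_product, card_powerset, hcard, ← hPc]
    calc Φ.card * 2 ^ P.card ≤ 2 ^ (nPl K s.m + Module.finrank ℚ K / 2) * 2 ^ P.card := by gcongr
      _ = 2 ^ (P.card + nPl K s.m + Module.finrank ℚ K / 2) := by rw [← pow_add]; congr 1; ring
      _ < _ := Nat.pow_lt_pow_right (by norm_num) (by omega)
  obtain ⟨y, hy, y', hy', hne, he⟩ := exists_ne_map_eq_of_card_lt_of_maps_to hlt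
    (f := fun y => (f y, P.filter fun v => bit s Γ T v y))
    (fun y hy => by
      simp only [coe_product, Set.mem_prod, mem_coe, mem_powerset]
      exact ⟨hf1 y (hZ y hy).1, filter_subset _ _⟩)
  obtain ⟨y0, yu⟩ := hZ y hy
  obtain ⟨y0', yu'⟩ := hZ y' hy'
  obtain ⟨e1, e2⟩ := Prod.mk.inj he
  have hb : ∀ v ∈ P, bit s Γ T v y ↔ bit s Γ T v y' := fun v hv => by
    have := congrArg (fun S => v ∈ S) e2
    simpa [hv] using this
  have h2 : ∀ v : Pl K, ¬ Dv s.m v → ¬ Dv 2 v := fun v h e => h (e.of_dvd hs.md.ev)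
  have hL : s.𝓛 (y * y') := by
    have a1 := hf2 y y0
    have a2 := hf2 y' y0'
    rw [← e1] at a2
    have f0 : f y ≠ 0 := right_ne_zero_of_mul (hs.grp.ne _ a1)
    have a3 := hs.grp.mul _ _ (hs.grp.mul _ _ a1 a2) (hs.grp.lp ((f y)⁻¹ ^ 2)
      (pow_ne_zero _ (inv_ne_zero f0)) fun v _ => lp_sq v (inv_ne_zero f0))
    have e : y * f y * (y' * f y) * (f y)⁻¹ ^ 2 = y * y' := by field_simp
    rwa [e] at a3
  refine ⟨(insert q Γ).filter fun v => Odd (od v (y * y')), y * y', filter_subset _ _,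
    ⟨hL, fun v h1 h3 => ⟨fun ho => mem_filter.2 ⟨?_, ho⟩, fun h => (mem_filter.1 h).2⟩,
      fun v hv => ?_⟩, fun ⟨r, hr⟩ => hne (hinj y hy y' hy' ⟨r, by rw [hr, sq]⟩), fun v hv => ?_⟩
  · by_contra hv
    rw [mem_insert, not_or] at hv
    rw [od_mul v y0 y0'] at ho
    by_cases hd : Dv n v
    · have := hb v (hP v hd h1 hv.1)
      simp only [bit, if_neg h3, if_neg hv.2] at this
      exact Int.not_odd_iff_even.2 (Int.even_add.2 this) ho
    · simp [yu v hd, yu' v hd] at ho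
  · obtain ⟨a1, a2, a3⟩ := hs.vs v hv
    have := hb v (hP v (hdv v (mem_union_left _ hv)) a1 fun e => hqo.2.1 (e ▸ hv))
    simp only [bit, if_pos hv] at this
    exact lin_mul hLIN (h2 v a1) a2 (hs.md.unit v a1) hs.t0 a3 y0 y0' this
  · obtain ⟨a1, a2, a3⟩ := hout v (mem_insert_of_mem hv)
    have := hb v (hP v (hdv v (mem_union_right _ (mem_insert_of_mem hv))) a1
      fun e => hq (e ▸ hv))
    simp only [bit, if_neg a2, if_pos hv] at this
    exact lin_mul hLIN (h2 v a1) a3 (hs.md.unit v a1) hT (hodd v hv) y0 y0' this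

end Pool.Agent.P.MP_b8021b_nt.BJ
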