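import Pool.Agent.P.MP_b8021b_nt.BJ.StA
import Pool.Agent.P.MP_b8021b_nt.BS.Fin

/-! Finiteness of the set of rational points from the descent with full two-torsion. -/

namespace Pool.Agent.P.MP_b8021b_nt.BJ

open NumberField IsDedekindDomain Finset MeasureTheory
open Pool.Agent.P.MP_b8021b_nt.VE Pool.Agent.P.MP_b8021b_nt.VC Pool.Agent.P.MP_b8021b_nt.BS.CF
open Pool.Agent.P.MP_b8021b_nt.BS Pool.Agent.P.MP_b8021b_nt.BP
open scoped Classical ComplexConjugate Real

variable {k : Type} [Field k] [NumberField k] [Algebra k ℂ] {K : Type} [Field K] [NumberField K]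
  [Algebra k K]

namespace JFIN2

open Height

/-- abscissas of the points that are not of order two -/
def G (T : K) : Set K := {x | ∃ y, y ≠ 0 ∧ y ^ 2 = x ^ 3 - T ^ 2 * x}

omit [NumberField K] in
theorem G_ne {T x : K} (h : x ∈ G T) : x ≠ 0 ∧ x - T ≠ 0 ∧ x + T ≠ 0 := by
  obtain ⟨y, y0, h⟩ := h
  have e : y ^ 2 = x * (x - T) * (x + T) := by linear_combination h
  have h1 := pow_ne_zero 2 y0
  rw [e] at h1
  exact ⟨left_ne_zero_of_mul (left_ne_zero_of_mul h1),
    right_ne_zero_of_mul (left_ne_zero_of_mul h1), right_ne_zero_of_mul h1⟩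

theorem G_fin {i T : K} (hi : i ^ 2 + 1 = 0) (hT : T ≠ 0)
    (H : ∀ x y : K, y ^ 2 = x ^ 3 - T ^ 2 * x → x ≠ 0 → y ≠ 0 → IsSquare x ∨ IsSquare (T * x)) :
    (G T).Finite := by
  have hb : -T ^ 2 ≠ 0 := neg_ne_zero.2 (pow_ne_zero 2 hT)
  obtain ⟨C, hC⟩ := FinP.ht hi hb
  have i0 : i ≠ 0 := by
    rintro rfl
    simp at hi
  have i1 : 1 + i ≠ 0 := fun e => by
    have : (2 : K) * i = 0 := by linear_combination (1 + i) * e - hi
    exact mul_ne_zero two_ne_zero i0 this
  let S : Set K := {x | x ∈ G T ∧ IsSquare x}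
  have tr : ∀ x ∈ G T, x ∈ S ∨ T * (x + T) / (x - T) ∈ S := fun x hx => by
    obtain ⟨x0, x1, x2⟩ := G_ne hx
    obtain ⟨y, y0, h⟩ := id hx
    refine (H x y h x0 y0).imp (fun e => ⟨hx, e⟩) fun ⟨r, e⟩ => ?_
    have r0 : r ≠ 0 := left_ne_zero_of_mul (e ▸ mul_ne_zero hT x0)
    refine ⟨⟨2 * T ^ 2 * y / (x - T) ^ 2, div_ne_zero (mul_ne_zero (mul_ne_zero two_ne_zero
      (pow_ne_zero 2 hT)) y0) (pow_ne_zero 2 x1), ?_⟩, T * y / ((x - T) * r), ?_⟩
    · field_simp
      linear_combination 4 * T * h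
    · field_simp
      linear_combination -T * h - (x + T) * (x - T) * e
  have h1 : ∀ z ∈ S, ∃ x ∈ S, x ^ 2 + -T ^ 2 = 2 * i * z * x ∨
      x ^ 2 + -T ^ 2 = 2 * i * (-T ^ 2 / z) * x := by
    rintro z ⟨hz, s, rfl⟩
    have z0 := (G_ne hz).1
    obtain ⟨y, -, h⟩ := hz
    have s0 : s ≠ 0 := left_ne_zero_of_mul z0
    obtain ⟨w, rfl⟩ : ∃ w, y = s * w := ⟨y / s, by field_simp⟩
    have h3 : w ^ 2 = s ^ 4 - T ^ 2 := mul_left_cancel₀ z0 (by linear_combination h)
    have h4 : (i * (s * s + w)) ^ 2 + -T ^ 2 = 2 * i * (s * s) * (i * (s * s + w)) := by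
      linear_combination (w ^ 2 - s ^ 4) * hi - h3
    have h5 : i * (s * s + w) ≠ 0 := fun e => hb (by simpa [e] using h4)
    generalize i * (s * s + w) = x at h4 h5
    have hx : x ∈ G T := ⟨x * (1 + i) * s, mul_ne_zero (mul_ne_zero h5 i1) s0, by
      linear_combination -x * h4 + x ^ 2 * s ^ 2 * hi⟩
    obtain ⟨-, x1, -⟩ := G_ne hx
    rcases tr x hx with e | e
    · exact ⟨x, e, Or.inl h4⟩
    · refine ⟨_, e, Or.inr ?_⟩
      field_simp
      linear_combination 2 * T * i * h4 + 4 * T * s ^ 2 * x * hi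
  let S' : Set K := {w | ∃ z ∈ S, z ^ 2 + -T ^ 2 = 2 * i * w * z}
  have h2 : ∀ w : S', ∃ z : S', z.1 ≠ 0 ∧ z.1 ^ 2 + -T ^ 2 = 2 * i * w * z := by
    rintro ⟨w, z, hz, h⟩
    have z0 := (G_ne hz.1).1
    obtain ⟨x, hx, e | e⟩ := h1 z hz
    · exact ⟨⟨z, x, hx, e⟩, z0, h⟩
    · refine ⟨⟨-T ^ 2 / z, x, hx, e⟩, div_ne_zero hb z0, ?_⟩
      simp only
      field_simp
      linear_combination -h
  choose p p0 hp using h2
  have hS : Finite S' := FinP.fin_of p (fun z z' e => Subtype.ext (mul_left_cancel₀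
      (mul_ne_zero (mul_ne_zero two_ne_zero i0) (p0 z)) (by
        have a := hp z
        have a' := hp z'
        rw [← e] at a'
        linear_combination a' - a)))
    (fun z => logHeight₁ z.1) C (fun z => hC _ _ (p0 z) (hp z)) fun B =>
      (NumberField.finite_setOfPred_logHeight₁_le K B).preimage Subtype.val_injective.injOn
  have hS' : S'.Finite := Set.toFinite S'
  have hS2 : S.Finite := by
    refine Set.Finite.of_finite_fibers (fun z => (z ^ 2 + -T ^ 2) / (2 * i * z))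
      (hS'.subset ?_) ?_
    · rintro _ ⟨z, hz, rfl⟩
      have z0 := (G_ne hz.1).1
      exact ⟨z, hz, by simp only; field_simp⟩
    · rintro _ ⟨z, hz, rfl⟩
      have z0 := (G_ne hz.1).1
      refine (Set.toFinite {z, -T ^ 2 / z}).subset ?_
      rintro x ⟨hx, e⟩
      have x0 := (G_ne hx.1).1
      simp only [Set.mem_preimage, Set.mem_singleton_iff] at e
      field_simp at e
      have e2 : (x - z) * (x * z + T ^ 2) = 0 := by linear_combination e
      rcases mul_eq_zero.1 e2 with e3 | e3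
      · exact Or.inl (sub_eq_zero.1 e3)
      · refine Or.inr ?_
        rw [Set.mem_singleton_iff, eq_div_iff z0]
        linear_combination e3
  refine (hS2.union (hS2.image fun x => T * (x + T) / (x - T))).subset fun x hx => ?_
  refine (tr x hx).imp_right fun e => ⟨_, e, ?_⟩
  obtain ⟨x0, x1, x2⟩ := G_ne hx
  have e1 : T * (x + T) / (x - T) - T = 2 * T ^ 2 / (x - T) := by field_simp; ring
  simp only
  rw [e1]
  field_simp
  ring

end JFIN2

theorem j_fin2 (c : Cx k K) (Y : Yb k K) : J_FIN2 K := by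
  intro T hT H
  obtain ⟨i, hi⟩ := c.om
  have hG := JFIN2.G_fin (i := i) (by rw [hi]; ring) hT H
  have hP : {p : K × K | p.2 ^ 2 = p.1 ^ 3 + -T ^ 2 * p.1}.Finite := by
    refine Set.Finite.of_finite_fibers Prod.fst
      ((hG.union (Set.toFinite {0, T, -T})).subset ?_) ?_
    · rintro _ ⟨⟨x, y⟩, h, rfl⟩
      by_cases hy : y = 0
      · have e : x * ((x - T) * (x + T)) = 0 := by
          simp only [hy, Set.mem_ofPred_eq] at h
          linear_combination -h
        rcases mul_eq_zero.1 e with e | e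
        · exact Or.inr (Or.inl e)
        · rcases mul_eq_zero.1 e with e | e
          · exact Or.inr (Or.inr (Or.inl (sub_eq_zero.1 e)))
          · exact Or.inr (Or.inr (Or.inr (eq_neg_of_add_eq_zero_left e)))
      · exact Or.inl ⟨y, hy, by simp only [Set.mem_ofPred_eq] at h; linear_combination h⟩
    · rintro _ ⟨⟨x, y⟩, h, rfl⟩
      refine (Set.toFinite {(x, y), (x, -y)}).subset ?_
      rintro ⟨x', y'⟩ ⟨h', rfl : x' = x⟩
      simpa using sq_eq_sq_iff_eq_or_eq_neg.1 (h'.trans h.symm)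
  let f : (Wb (-T ^ 2)).toAffine.Point → Option (K × K) := fun P =>
    match P with
    | .zero => none
    | .some x y _ => some (x, y)
  refine Set.finite_univ_iff.1 (Set.Finite.of_finite_image (f := f) ?_ (Function.Injective.injOn ?_))
  swap
  · rintro (_ | ⟨x, y, h⟩) (_ | ⟨x', y', h'⟩) e <;> simp [f] at e ⊢
    exact e
  · refine ((hP.image some).insert none).subset ?_
    rintro _ ⟨_ | ⟨x, y, h⟩, -, rfl⟩
    · exact Or.inl rfl
    · refine Or.inr ⟨_, ?_, rfl⟩
      simpa [WeierstrassCurve.Affine.equation_iff, Wb] using h.1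

end Pool.Agent.P.MP_b8021b_nt.BJ
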