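import Pool.Agent.P.MP_b8021b_nt.BJ.StA
import Pool.Agent.P.MP_b8021b_nt.BP.PFLIP

/-! Prescribed signs and the flip at the last prime. -/

namespace Pool.Agent.P.MP_b8021b_nt.BJ

open NumberField IsDedekindDomain Finset MeasureTheory
open Pool.Agent.P.MP_b8021b_nt.VE Pool.Agent.P.MP_b8021b_nt.VC Pool.Agent.P.MP_b8021b_nt.BS.CF
open Pool.Agent.P.MP_b8021b_nt.BS Pool.Agent.P.MP_b8021b_nt.BP
open scoped Classical ComplexConjugate Real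
variable {k : Type} [Field k] [NumberField k] [Algebra k ℂ] {K : Type} [Field K] [NumberField K]
  [Algebra k K]

open PFLIP (coe_ne od_coe_zero odd_mul leg_iff)

namespace JFLIP

theorem ex_non {v : Pl K} (h2 : ¬ Dv 2 v) : ∃ x : 𝓞 K, leg x v = -1 := by
  obtain ⟨F, _, _, _, ρ, hs, hk, -⟩ := exists_res v
  have h : ringChar F ≠ 2 := fun e => h2 ((hk _).1 (by
    rw [map_natCast, ← e]
    exact ringChar.Nat.cast_ringChar))
  obtain ⟨a, ha⟩ := quadraticChar_exists_neg_one h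
  obtain ⟨x, rfl⟩ := hs a
  exact ⟨x, by rw [leg_eq_quad ρ hs hk, ha]; norm_num⟩

theorem two {s : SD K} (hs : s.Ok) {v : Pl K} (h : s.Out v) : ¬ Dv 2 v :=
  fun e => h.1 (e.of_dvd hs.md.ev)

/-- a kernel element that avoids the last prime -/
theorem side (hLIN : J_LIN K) (hRELM : J_RELM K) {s : SD K} {T x : K} {Λ D : Finset (Pl K)}
    {z e u : 𝓞 K} (hs : s.Ok) (he : s.e = e) (hT : T ≠ 0)
    (hΛ : ∀ v ∈ Λ, s.Out v ∧ Odd (od v T) ∧ u ∉ v.asIdeal ∧ e ∉ v.asIdeal) (hD : D ⊆ Λ)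
    (hx : s.Rel D x) (hz : s.Rel D z) (hz' : ∀ v ∈ Λ, v ∉ D → z ∉ v.asIdeal)
    (hl : ∀ v ∈ Λ, Lin s.ζ v (T * u) x) :
    ∃ w : 𝓞 K, (w = z ∨ w = e * z) ∧ (∀ v ∈ Λ, v ∉ D → leg w v = 1) ∧
      ∀ v ∈ D, (leg u v = -1 ↔ ¬ Lin s.ζ v T w) := by
  have h0 := (hRELM s hs).1 D D x z hx hz
  rw [symmDiff_self] at h0
  have h1 := hs.grp.ne _ h0.1
  obtain ⟨w, hw, hp⟩ : ∃ w : 𝓞 K, (w = z ∨ w = e * z) ∧ ∀ v, LP 2 v (x * w) := by
    rcases hs.kill _ h0 with h | h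
    · exact ⟨z, Or.inl rfl, fun v => lp_of_isSquare v h1 h⟩
    · refine ⟨e * z, Or.inr rfl, fun v => ?_⟩
      have := lp_of_isSquare v (mul_ne_zero hs.e0 h1) h
      rwa [he, mul_left_comm, ← map_mul] at this
  have key := fun v (hv : v ∈ Λ) => (hLIN s.ζ T v (two hs (hΛ v hv).1) (hΛ v hv).1.2.2
    (hs.md.unit v (hΛ v hv).1.1) hT (hΛ v hv).2.1).2.2.2.2.2.2 x w u (hΛ v hv).2.2.1 (hp v) (hl v hv)
  refine ⟨w, hw, fun v hv hv' => ?_, fun v hv => ?_⟩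
  · obtain ⟨g1, -, -, g4⟩ := hΛ v hv
    refine (key v hv).1 (Int.not_odd_iff_even.1 fun b => hv' ((hx.2.1 v g1.1 g1.2.1).1 b)) ?_
    rcases hw with rfl | rfl
    · exact hz' v hv hv'
    · exact fun b => (v.isPrime.mem_or_mem b).elim g4 (hz' v hv hv')
  · obtain ⟨g1, -⟩ := hΛ v (hD hv)
    exact (key v (hD hv)).2 ((hx.2.1 v g1.1 g1.2.1).2 hv)

end JFLIP

open JFLIP

theorem j_sgn (c : Cx k K) (Y : Yb k K) : J_SGN K := by
  intro Γ R h2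
  have h : ∀ v : Γ, ∃ x : 𝓞 K, leg x v.1 = if v.1 ∈ R then -1 else 1 := fun v => by
    split_ifs
    · exact ex_non (h2 v.1 v.2)
    · exact ⟨1, leg_one _⟩
  choose x hx using h
  obtain ⟨u, hu⟩ := IsDedekindDomain.exists_forall_sub_mem_ideal (s := Γ) (fun v => v.asIdeal)
    (fun _ => 1) (fun v _ => v.prime) (fun v _ w _ e e' => e (HeightOneSpectrum.ext e')) x
  refine ⟨u, fun v hv => ?_⟩
  have e := (leg_congr (by simpa using hu v hv)).trans (hx ⟨v, hv⟩)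
  refine ⟨fun b => ?_, ?_⟩
  · rw [leg_eq_zero.2 b] at e
    split_ifs at e <;> norm_num at e
  · rw [e]
    split_ifs with b <;> norm_num [b]

theorem j_flip (c : Cx k K) (Y : Yb k K) (hLIN : J_LIN K) (hRELM : J_RELM K) (hRECB : J_RECB K) :
    J_FLIP K := by
  intro s T Γ q r z e u u' hs he hT hq hΓ hz hl hl' hu hu'
  unfold SD.Unr at hu hu'
  push Not at hu hu'
  obtain ⟨D, x, d1, d2, d3, d4⟩ := hu
  obtain ⟨D', x', d1', d2', d3', d4'⟩ := hu'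
  by_cases b : q ∈ D
  swap
  · have hD := (subset_insert_iff_of_notMem b).1 d1
    obtain ⟨a1, a2, a3⟩ := hz D hD ⟨x, d2⟩
    exact ⟨D, hD, d4.ne_empty, a1, side hLIN hRELM hs he hT
      (fun v hv => let ⟨g1, g2, g3, _, g4⟩ := hΓ v hv; ⟨g1, g2, g3, g4⟩) d1 d2 a2 a3 d3⟩
  by_cases b' : q ∈ D'
  swap
  · have hD := (subset_insert_iff_of_notMem b').1 d1'
    obtain ⟨a1, a2, a3⟩ := hz D' hD ⟨x', d2'⟩
    obtain ⟨w, b1, b2, b3⟩ := side hLIN hRELM hs he hT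
      (fun v hv => let ⟨g1, g2, _, g3, g4⟩ := hΓ v hv; ⟨g1, g2, g3, g4⟩) d1' d2' a2 a3 d3'
    exact ⟨D', hD, d4'.ne_empty, a1, w, b1, b2, fun v hv => by rw [hl v (hD hv)]; exact b3 v hv⟩
  exfalso
  have h0 := (hRECB s hs D D' x x' d2 d2').1 _ d1 d1' fun v hv => ⟨(hΓ v hv).1.1, (hΓ v hv).1.2.1⟩
  have hd : T * u' / (T * u) = (u' : K) / u := mul_div_mul_left _ _ hT
  have key := fun v (hv : v ∈ insert q Γ) => hLIN s.ζ (T * u) v (two hs (hΓ v hv).1)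
    (hΓ v hv).1.2.2 (hs.md.unit v (hΓ v hv).1.1) (odd_mul hT (hΓ v hv).2.1 (hΓ v hv).2.2.1).1
    (odd_mul hT (hΓ v hv).2.1 (hΓ v hv).2.2.1).2
  have h1 : ∑ v ∈ Γ, RecP.sy v x x' = 0 := sum_eq_zero fun v hv => by
    have hv' := mem_insert_of_mem (b := q) hv
    obtain ⟨g1, g2, g3, g4, -⟩ := hΓ v hv'
    refine ((key v hv').2.1 x x' (d3 v hv') ((lin_congr (odd_mul hT g2 g3).1 ?_).1 (d3' v hv'))).2
    rw [hd]
    exact (leg_iff (two hs g1) g3 g4).1 (hl v hv)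
  have hq' := mem_insert_self q Γ
  obtain ⟨g1, g2, g3, g4, -⟩ := hΓ q hq'
  have h2 : RecP.sy q x x' = 1 := (key q hq').2.2.2.1 x x' (T * u') (odd_mul hT g2 g4).1
    (by rw [hd, od_div q (coe_ne g4) (coe_ne g3), od_coe_zero g3, od_coe_zero g4]; exact Even.zero)
    (by rw [hd]; exact fun a => hl' ((leg_iff (two hs g1) g3 g4).2 a)) (d3 q hq') (d3' q hq')
    ((d2.2.1 q g1.1 g1.2.1).2 b) ((d2'.2.1 q g1.1 g1.2.1).2 b')
  rw [sum_insert hq, h1, h2, add_zero] at h0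
  exact one_ne_zero h0

end Pool.Agent.P.MP_b8021b_nt.BJ
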