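import Pool.Agent.P.MP_b8021b_nt.BJ.StA
import Pool.Agent.P.MP_b8021b_nt.BP.PFM0

namespace Pool.Agent.P.MP_b8021b_nt.BJ

open NumberField IsDedekindDomain Finset MeasureTheory
open Pool.Agent.P.MP_b8021b_nt.VE Pool.Agent.P.MP_b8021b_nt.VC Pool.Agent.P.MP_b8021b_nt.BS.CF
open Pool.Agent.P.MP_b8021b_nt.BS Pool.Agent.P.MP_b8021b_nt.BP
open scoped Classical ComplexConjugate Real
variable {k : Type} [Field k] [NumberField k] [Algebra k ℂ] {K : Type} [Field K] [NumberField K] [Algebra k K]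

open PFM0

namespace JFM0

theorem csF {ι : Type} (F : ι → ℝ) (g : ι → ℂ) {S P : Finset ι} (h : S ⊆ P)
    (hF : ∑ D ∈ P, F D ^ 2 ≤ 1) : -√(∑ D ∈ S, ‖g D‖ ^ 2) ≤ (∑ D ∈ S, F D * g D).re := by
  refine (neg_le_neg ?_).trans (neg_le_of_abs_le (Complex.abs_re_le_norm _))
  refine (norm_sum_le _ _).trans ?_
  simp only [norm_mul, Complex.norm_real, Real.norm_eq_abs]
  refine (Real.sum_mul_le_sqrt_mul_sqrt _ _ _).trans
    (mul_le_of_le_one_left (Real.sqrt_nonneg _) (Real.sqrt_le_one.2 (le_trans ?_ hF)))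
  simp only [sq_abs]
  exact sum_le_sum_of_subset_of_nonneg h fun _ _ _ => sq_nonneg _

/-- one cell -/
theorem cell2 (F : PF K) (Γ : Finset (Pl K)) (T₁ T₂ : Finset (𝓞 K))
    (hF : ∑ D ∈ P2 Γ, F D ^ 2 ≤ 1) :
    F (∅, ∅) * (T₁.card * T₂.card) -
      √(∑ D ∈ Γ.powerset, aa T₁ D) * √(∑ D ∈ Γ.powerset.erase ∅, aa T₂ D) -
      T₂.card * √(∑ D ∈ Γ.powerset.erase ∅, aa T₁ D) ≤
      (∑ t ∈ T₁, ∑ t' ∈ T₂, wG F Γ t t').re := by
  set g : Finset (Pl K) × Finset (Pl K) → ℂ :=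
    fun D => (∑ t ∈ T₁, jac t (eI D.1)) * ∑ t ∈ T₂, jac t (eI D.2) with hg
  have e : ∑ t ∈ T₁, ∑ t' ∈ T₂, wG F Γ t t' = ∑ D ∈ P2 Γ, F D * g D := by
    simp only [wG, hg, sum_mul_sum]
    simp only [mul_sum]
    rw [sum_comm (s := P2 Γ)]
    exact sum_congr rfl fun t _ => sum_comm
  have e2 : ∑ D ∈ P2 Γ, F D * g D = F (∅, ∅) * g (∅, ∅) +
      ∑ D ∈ Γ.powerset.erase ∅ ×ˢ {∅}, F D * g D +
      ∑ D ∈ Γ.powerset ×ˢ Γ.powerset.erase ∅, F D * g D := by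
    simp only [sum_product_right, sum_singleton]
    rw [← add_sum_erase _ _ (empty_mem_powerset Γ), ← add_sum_erase _ _ (empty_mem_powerset Γ)]
  have e0 : ((F (∅, ∅) : ℂ) * g (∅, ∅)).re = F (∅, ∅) * (T₁.card * T₂.card) := by
    simp [hg, eI_empty, jac_top]
  have h1 := csF F g (product_subset_product (erase_subset ∅ _)
    (singleton_subset_iff.2 (empty_mem_powerset Γ))) hF
  have h2 := csF F g (product_subset_product_right (s := Γ.powerset) (erase_subset ∅ _)) hF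
  have a1 : ∑ D ∈ Γ.powerset.erase ∅ ×ˢ {∅}, ‖g D‖ ^ 2 =
      (T₂.card : ℝ) ^ 2 * ∑ D ∈ Γ.powerset.erase ∅, aa T₁ D := by
    rw [sum_product, mul_sum]
    refine sum_congr rfl fun D _ => ?_
    simp [hg, eI_empty, jac_top, aa, mul_pow, mul_comm]
  have a2 : ∑ D ∈ Γ.powerset ×ˢ Γ.powerset.erase ∅, ‖g D‖ ^ 2 =
      (∑ D ∈ Γ.powerset, aa T₁ D) * ∑ D ∈ Γ.powerset.erase ∅, aa T₂ D := by
    rw [sum_product, sum_mul_sum]
    simp only [hg, aa, norm_mul, mul_pow]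
  rw [a1, Real.sqrt_mul (sq_nonneg _), Real.sqrt_sq (Nat.cast_nonneg _)] at h1
  rw [a2, Real.sqrt_mul (sum_nonneg fun D _ => aa_nonneg _ D)] at h2
  rw [e, e2, Complex.add_re, Complex.add_re, e0]
  linarith

/-- the sum over the smooth parts -/
theorem cs2 {𝒰 : Finset (Pl K)} {𝒯 : Finset (Finset (Pl K))} (h : 𝒯 ⊆ 𝒰.powerset) {W A : ℝ}
    (hW : 0 < W) (hU : ∀ v ∈ 𝒰, W ≤ nv v) (T : Finset (𝓞 K)) (hA0 : 0 ≤ A)
    (hA : ∑ D ∈ 𝒯.biUnion (fun s => s.powerset.erase ∅), aa T D ≤ A ^ 2) :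
    ∑ s ∈ 𝒯, (nS s)⁻¹ * √(∑ D ∈ s.powerset.erase ∅, aa T D) ≤ Z0 𝒰 / √W * A := by
  have hZ := Z0_pos 𝒰
  refine (cs 𝒯 (fun s => (nS s)⁻¹) (fun s => (inv_pos.2 (nS_pos s)).le)
    (fun s => s.powerset.erase ∅) (aa T) (aa_nonneg T) (sum_le h) (s := Z0 𝒰 / W) (by positivity)
    (fun D => ?_) hA).trans (le_of_eq ?_)
  · rcases (𝒯.filter (fun s => D ∈ s.powerset.erase ∅)).eq_empty_or_nonempty with e | ⟨p, hp⟩
    · rw [e, sum_empty]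
      positivity
    obtain ⟨a1, a2⟩ := mem_filter.1 hp
    obtain ⟨v, hv⟩ := nonempty_iff_ne_empty.2 (mem_erase.1 a2).1
    have hs : 𝒯.filter (fun s => D ∈ s.powerset.erase ∅) ⊆ 𝒯.filter (v ∈ ·) := fun s hs =>
      mem_filter.2 ⟨(mem_filter.1 hs).1, mem_powerset.1 (mem_erase.1 (mem_filter.1 hs).2).2 hv⟩
    refine (sum_le_sum_of_subset_of_nonneg hs fun s _ _ => (inv_pos.2 (nS_pos s)).le).trans
      ((sum_mem_le h v).trans ?_)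
    rw [div_eq_inv_mul]
    exact mul_le_mul_of_nonneg_right
      (inv_anti₀ hW (hU v (mem_powerset.1 (h a1) (mem_filter.1 (hs hp)).2))) hZ.le
  · rw [Real.sqrt_mul (by positivity), Real.sqrt_sq hA0, Real.sqrt_div hZ.le, ← mul_assoc,
      ← mul_div_assoc, Real.mul_self_sqrt hZ.le]

end JFM0

open JFM0

theorem j_fm0 (c : Cx k K) (Y : Yb k K) : J_FM0 k K := by
  intro n C hn
  obtain ⟨C₁, y₀, hC₁, hy₀, hS⟩ := Y.slt n ∅ C hn
  have he := c.et_pos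
  refine ⟨4 * (C₁ / et k K) ^ 2, max 3 (y₀ ^ (1 / et k K)), by positivity, ?_⟩
  intro Φ B c₀ W X a F hX hB hc hW hΦ hF hm
  have hX1 : 1 < X := by linarith [le_max_left 3 (y₀ ^ (1 / et k K))]
  have hL := Real.log_pos hX1
  have hy : y₀ ≤ X ^ et k K := by
    have := Real.rpow_le_rpow (by positivity) ((le_max_right _ _).trans hX) he.le
    rwa [← Real.rpow_mul (by linarith), one_div_mul_cancel he.ne', Real.rpow_one] at this
  set E := C₁ / et k K with hE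
  have hE0 : 0 < E := by positivity
  have hZ := Z0_pos Φ.U
  have blk : ∀ (y : ℝ) (T : Finset (𝓞 K)), X ^ et k K ≤ y → Blk k n ∅ C y T →
      (T.card : ℝ) ≤ E * y / Real.log X ∧ ∀ 𝒟 : Finset (Finset (Pl K)),
        (∀ D ∈ 𝒟, ∃ s ∈ Φ.𝔖, D ⊆ s ∧ ∃ j, j ∈ Φ.𝒥) →
        ∑ D ∈ 𝒟, aa T D ≤ (E * y / Real.log X) ^ 2 := by
    intro y T h1 h2
    obtain ⟨s1, s2⟩ := hS _ _ (hy.trans h1) h2
    have l2 := log_le hX1 he (by linarith : 0 ≤ C₁) h1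
    have hΔ : 0 ≤ C₁ * y / Real.log y := (Nat.cast_nonneg _).trans s1
    refine ⟨s1.trans l2, fun 𝒟 h𝒟 => ?_⟩
    have h3 := ms_of_hs (s2 (𝒟.image eI) (by
      intro I hI
      obtain ⟨D, hD, rfl⟩ := mem_image.1 hI
      obtain ⟨s, hs, hD, j, hj⟩ := h𝒟 D hD
      have cp := hΦ.cell s hs j hj
      refine ⟨squarefree_eI D, (cop_eI hn.pos).2 fun v hv => cp.cop v (hD hv),
        (nS_mono hD).trans (cp.small.trans ?_)⟩
      have h2 := c.cz_pos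
      refine le_trans ?_ (Real.rpow_le_rpow (by positivity) h1 h2.le)
      rw [← Real.rpow_mul (by linarith)]
      exact Real.rpow_le_rpow_of_exponent_le hX1.le (half_le_self (by positivity)))) hΔ
      (fun _ => 1) (fun _ => by simp)
    rw [sum_image eI_inj.injOn] at h3
    simp only [one_mul] at h3
    refine h3.trans ?_
    rw [sq]
    exact mul_le_mul l2 (s1.trans l2) (Nat.cast_nonneg _) (hΔ.trans l2)
  set R := E ^ 2 * X * Z0 Φ.U / (Real.log X ^ 2 * √W) with hR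
  have hW0 : 0 < √W := Real.sqrt_pos.2 (by linarith)
  have hR0 : 0 ≤ R := by positivity
  set G : ℝ → Finset (𝓞 K) → Finset (Pl K) → ℝ := fun y T s => E * X / (y * Real.log X) *
    ((nS s)⁻¹ * √(∑ D ∈ s.powerset.erase ∅, aa T D)) with hG
  have tot : ∀ (y : ℝ) (T : Finset (𝓞 K)) (𝒯 : Finset (Finset (Pl K))), 𝒯 ⊆ Φ.𝔖 →
      (∀ s ∈ 𝒯, X ^ et k K ≤ y ∧ Blk k n ∅ C y T ∧ ∃ j, j ∈ Φ.𝒥) →
      ∑ s ∈ 𝒯, G y T s ≤ R := by
    intro y T 𝒯 h𝒯 hp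
    rcases 𝒯.eq_empty_or_nonempty with e | ⟨s₀, hs₀⟩
    · rw [e, sum_empty]
      exact hR0
    obtain ⟨b1, b2, b3⟩ := hp s₀ hs₀
    have hy0 : 0 < y := (Real.rpow_pos_of_pos (by linarith) _).trans_le b1
    have h1 := cs2 (𝒯 := 𝒯) (fun s hs => mem_powerset.2 (hΦ.sub s (h𝒯 hs))) (one_pos.trans_le hW)
      hΦ.big T (A := E * y / Real.log X) (by positivity) ((blk y T b1 b2).2 _ fun D hD => by
        obtain ⟨s, hs, hD⟩ := mem_biUnion.1 hD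
        exact ⟨s, h𝒯 hs, mem_powerset.1 (mem_erase.1 hD).2, b3⟩)
    simp only [hG]
    rw [← mul_sum]
    refine (mul_le_mul_of_nonneg_left h1 (by positivity)).trans (le_of_eq ?_)
    rw [hR]
    field_simp
  have each : ∀ s ∈ Φ.𝔖, ∀ j ∈ Φ.𝒥, X / (B * Real.log X ^ 2) * c₀ ^ 2 * ((nS s)⁻¹ * F s (∅, ∅)) -
      G (Φ.y₂ j) (Φ.T₂ j) s - G (Φ.y₁ (Φ.ι s j)) (Φ.T₁ (Φ.ι s j)) s ≤
      (∑ t ∈ Φ.T₁ (Φ.ι s j), ∑ t' ∈ Φ.T₂ j, wG (F s) s t t').re := by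
    intro s hs j hj
    have cp := hΦ.cell s hs j hj
    obtain ⟨f1, f2⟩ := hF s hs
    obtain ⟨m1, m2⟩ := hΦ.many s hs j hj
    obtain ⟨-, lo1, o1, o2⟩ := c.lo cp.toPair hX1.le
    have hN := nS_pos s
    have lo := hΦ.lo s hs j hj
    have hi := hΦ.hi s hs j hj
    have q1 := (blk _ _ lo1 cp.b1).2 s.powerset fun D hD => ⟨s, hs, mem_powerset.1 hD, j, hj⟩
    have q2 := (blk _ _ cp.lo2 cp.b2).1
    have aux : ∀ y y' : ℝ, 1 ≤ y → nS s * (y * y') ≤ X →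
        E * y' / Real.log X ≤ E * X / (y * Real.log X) * (nS s)⁻¹ := fun y y' h1 h2 => by
      rw [← div_eq_mul_inv, div_div, div_le_div_iff₀ hL (by positivity)]
      nlinarith [mul_le_mul_of_nonneg_left h2 (mul_pos hE0 hL).le]
    refine le_trans (sub_le_sub (sub_le_sub ?_ ?_) ?_) (cell2 _ _ _ _ f1)
    · refine le_trans ?_ (mul_le_mul_of_nonneg_left
        (mul_le_mul m1 m2 (by positivity) (Nat.cast_nonneg _)) f2)
      have : X / B * (nS s)⁻¹ ≤ Φ.y₁ (Φ.ι s j) * Φ.y₂ j := by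
        rw [← div_eq_mul_inv, div_div, div_le_iff₀ (by positivity)]
        linarith
      refine le_trans (le_of_eq ?_) ((mul_le_mul_of_nonneg_left this
        (show 0 ≤ F s (∅, ∅) * c₀ ^ 2 / Real.log X ^ 2 by positivity)).trans (le_of_eq ?_))
      · field_simp
      · field_simp
    · simp only [hG]
      rw [← mul_assoc]
      exact mul_le_mul_of_nonneg_right ((Real.sqrt_le_iff.2 ⟨by positivity, q1⟩).trans
        (aux _ _ o2 (by rwa [mul_comm (Φ.y₂ j)]))) (Real.sqrt_nonneg _)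
    · simp only [hG]
      rw [← mul_assoc]
      exact mul_le_mul_of_nonneg_right (q2.trans (aux _ _ o1 hi)) (Real.sqrt_nonneg _)
  have t2 : ∑ s ∈ Φ.𝔖, ∑ j ∈ Φ.𝒥, G (Φ.y₂ j) (Φ.T₂ j) s ≤ Φ.𝒥.card * R := by
    rw [sum_comm, ← nsmul_eq_mul]
    exact sum_le_card_nsmul _ _ _ fun j hj => tot _ _ _ Subset.rfl fun s hs =>
      ⟨(hΦ.cell s hs j hj).lo2, (hΦ.cell s hs j hj).b2, j, hj⟩
  have t3 : ∑ s ∈ Φ.𝔖, ∑ j ∈ Φ.𝒥, G (Φ.y₁ (Φ.ι s j)) (Φ.T₁ (Φ.ι s j)) s ≤ 3 * Φ.𝒥.card * R := by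
    have e : ∑ s ∈ Φ.𝔖, ∑ j ∈ Φ.𝒥, G (Φ.y₁ (Φ.ι s j)) (Φ.T₁ (Φ.ι s j)) s =
        ∑ i ∈ Φ.ℐ, ∑ s ∈ Φ.𝔖.filter (fun s => i ∈ Φ.𝒥.image (Φ.ι s)), G (Φ.y₁ i) (Φ.T₁ i) s := by
      rw [← sum_comm' (t := fun s => Φ.𝒥.image (Φ.ι s)) (s := Φ.𝔖)]
      · exact sum_congr rfl fun s hs =>
          (sum_image (f := fun i => G (Φ.y₁ i) (Φ.T₁ i) s) (hΦ.once s hs)).symm
      · intro s i
        rw [mem_filter]
        refine ⟨fun h => ⟨h, ?_⟩, fun h => h.1⟩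
        obtain ⟨j, hj, rfl⟩ := mem_image.1 h.2
        exact hΦ.mem s h.1 j hj
    rw [e]
    refine (sum_le_card_nsmul _ _ R fun i _ => tot _ _ _ (filter_subset _ _) fun s h => ?_).trans ?_
    · obtain ⟨j, hj, rfl⟩ := mem_image.1 (mem_filter.1 h).2
      have cp := hΦ.cell s (mem_filter.1 h).1 j hj
      exact ⟨(c.lo cp.toPair hX1.le).2.1, cp.b1, j, hj⟩
    · rw [nsmul_eq_mul]
      exact mul_le_mul_of_nonneg_right (by exact_mod_cast hΦ.few) hR0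
  have t1 : Φ.𝒥.card * (X / (B * Real.log X ^ 2) * c₀ ^ 2 * (a * Z0 Φ.U)) ≤
      ∑ s ∈ Φ.𝔖, ∑ j ∈ Φ.𝒥, X / (B * Real.log X ^ 2) * c₀ ^ 2 * ((nS s)⁻¹ * F s (∅, ∅)) := by
    rw [sum_comm, sum_const, nsmul_eq_mul, ← mul_sum]
    exact mul_le_mul_of_nonneg_left (mul_le_mul_of_nonneg_left hm (by positivity))
      (Nat.cast_nonneg _)
  have fin := sum_le_sum fun s hs => sum_le_sum (each s hs)
  simp only [sum_sub_distrib] at fin
  rw [FB.sum, Complex.re_sum]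
  simp only [Complex.re_sum (s := Φ.𝒥)]
  refine le_trans (le_trans (le_of_eq ?_) (sub_le_sub (sub_le_sub t1 t2) t3)) fin
  rw [hR]
  field_simp
  ring

end Pool.Agent.P.MP_b8021b_nt.BJ
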