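import Pool.Agent.P.MP_b8021b_nt.BJ.StA
import Pool.Agent.P.MP_b8021b_nt.BP.PFOUR

/-!
Fourier analysis on pairs of subsets of a finite set.
-/

namespace Pool.Agent.P.MP_b8021b_nt.BJ

open NumberField IsDedekindDomain Finset MeasureTheory
open Pool.Agent.P.MP_b8021b_nt.VE Pool.Agent.P.MP_b8021b_nt.VC Pool.Agent.P.MP_b8021b_nt.BS.CF
open Pool.Agent.P.MP_b8021b_nt.BS Pool.Agent.P.MP_b8021b_nt.BP
open scoped Classical ComplexConjugate Real

namespace JFOU1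

variable {ι : Type} [DecidableEq ι]

/-- the sign of a pair of pairs -/
def sgp (D S : Finset ι × Finset ι) : ℝ := (-1) ^ (D.1 ∩ S.1).card * (-1) ^ (D.2 ∩ S.2).card

theorem orth2 (Λ : Finset ι) {S T : Finset ι × Finset ι} (hS : S ∈ P2 Λ) (hT : T ∈ P2 Λ) :
    ∑ D ∈ P2 Λ, sgp D S * sgp D T = if S = T then 4 ^ Λ.card else 0 := by
  obtain ⟨s1, s2⟩ := mem_product.1 hS
  obtain ⟨t1, t2⟩ := mem_product.1 hT
  have e : ∀ D : Finset ι × Finset ι, sgp D S * sgp D T =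
      ((-1 : ℝ) ^ (D.1 ∩ S.1).card * (-1) ^ (D.1 ∩ T.1).card) *
        ((-1) ^ (D.2 ∩ S.2).card * (-1) ^ (D.2 ∩ T.2).card) := fun D => by
    unfold sgp
    ring
  simp only [e]
  rw [Finset.sum_product' (f := fun a b : Finset ι =>
      ((-1 : ℝ) ^ (a ∩ S.1).card * (-1) ^ (a ∩ T.1).card) *
        ((-1) ^ (b ∩ S.2).card * (-1) ^ (b ∩ T.2).card)), ← Finset.sum_mul_sum,
    PFOUR.orth Λ (mem_powerset.1 s1) (mem_powerset.1 t1),
    PFOUR.orth Λ (mem_powerset.1 s2) (mem_powerset.1 t2)]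
  by_cases h1 : S.1 = T.1
  · by_cases h2 : S.2 = T.2
    · rw [if_pos h1, if_pos h2, if_pos (Prod.ext h1 h2), ← mul_pow]
      norm_num
    · rw [if_neg h2, mul_zero, if_neg fun h => h2 (congrArg Prod.snd h)]
  · rw [if_neg h1, zero_mul, if_neg fun h => h1 (congrArg Prod.fst h)]

end JFOU1

open JFOU1 in
theorem j_fou1 : J_FOU1 := by
  intro ι _ Λ G
  obtain ⟨g, hg⟩ : ∃ g : Finset ι × Finset ι → ℝ, ∀ S, g S = if G S then 1 else 0 :=
    ⟨_, fun _ => rfl⟩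
  have g1 : ∀ S, g S * g S ≤ 1 := fun S => by rw [hg]; split_ifs <;> norm_num
  obtain ⟨F, hF⟩ : ∃ F : Finset ι × Finset ι → ℝ, ∀ D, F D =
      (4 ^ Λ.card)⁻¹ * ∑ S ∈ P2 Λ, g S * sgp D S := ⟨_, fun _ => rfl⟩
  have p2 : (0 : ℝ) < 4 ^ Λ.card := by positivity
  have inv : ∀ T ∈ P2 Λ, ∑ D ∈ P2 Λ, F D * sgp D T = g T := fun T hT => by
    simp only [hF, mul_assoc, Finset.sum_mul]
    rw [← Finset.mul_sum, Finset.sum_comm, Finset.sum_eq_single T]
    · rw [← Finset.mul_sum, orth2 Λ hT hT, if_pos rfl]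
      field_simp
    · intro S hS hne
      rw [← Finset.mul_sum, orth2 Λ hS hT, if_neg hne, mul_zero]
    · exact fun h' => absurd hT h'
  refine ⟨F, ?_, ?_, fun S hS => (inv S hS).trans (hg S)⟩
  · have e : ∑ D ∈ P2 Λ, F D ^ 2 = (4 ^ Λ.card)⁻¹ * ∑ S ∈ P2 Λ, g S * g S := by
      have e1 : ∀ D, F D ^ 2 = (4 ^ Λ.card)⁻¹ * ∑ S ∈ P2 Λ, g S * (F D * sgp D S) := fun D => by
        rw [sq]
        nth_rewrite 2 [hF]
        rw [mul_left_comm, Finset.mul_sum]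
        congr 1
        exact Finset.sum_congr rfl fun S _ => by ring
      simp only [e1]
      rw [← Finset.mul_sum, Finset.sum_comm]
      congr 1
      exact Finset.sum_congr rfl fun S hS => by rw [← Finset.mul_sum, inv S hS]
    rw [e, inv_mul_le_iff₀ p2, mul_one]
    refine (Finset.sum_le_sum fun S _ => g1 S).trans ?_
    rw [Finset.sum_const, card_product, card_powerset, nsmul_eq_mul, mul_one, ← mul_pow]
    norm_num
  · rw [hF, div_eq_inv_mul, ← Finset.sum_boole]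
    congr 1
    exact Finset.sum_congr rfl fun S _ => by simp [sgp, hg]

end Pool.Agent.P.MP_b8021b_nt.BJ
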