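import Pool.Agent.P.MP_b8021b_nt.BJ.StA
import Pool.Agent.P.MP_b8021b_nt.BP.PFOUR

/-!
The count of the good pairs of sign vectors.
-/

namespace Pool.Agent.P.MP_b8021b_nt.BJ

open NumberField IsDedekindDomain Finset MeasureTheory
open Pool.Agent.P.MP_b8021b_nt.VE Pool.Agent.P.MP_b8021b_nt.VC Pool.Agent.P.MP_b8021b_nt.BS.CF
open Pool.Agent.P.MP_b8021b_nt.BS Pool.Agent.P.MP_b8021b_nt.BP
open scoped Classical ComplexConjugate Real

namespace JFOU2

variable {ι : Type} [DecidableEq ι]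

theorem half {L D : Finset ι} (hD : D ⊆ L) (h0 : D ≠ ∅) :
    ∑ S ∈ L.powerset, (if Odd (D ∩ S).card then (1 : ℝ) else 0) = 2 ^ L.card / 2 := by
  have h := PFOUR.orth L hD (empty_subset L)
  rw [if_neg h0] at h
  have e : ∀ S : Finset ι, (if Odd (D ∩ S).card then (1 : ℝ) else 0) =
      (1 - (-1 : ℝ) ^ (S ∩ D).card * (-1) ^ (S ∩ ∅).card) / 2 := fun S => by
    rw [inter_comm S D, inter_empty, card_empty, pow_zero, mul_one]
    split_ifs with a
    · rw [a.neg_one_pow]; norm_num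
    · rw [(Nat.not_odd_iff_even.1 a).neg_one_pow]; norm_num
  simp only [e]
  rw [← Finset.sum_div, Finset.sum_sub_distrib, h]
  simp

theorem shift (L : Finset ι) {S : Finset ι} (hS : S ⊆ L) (f : Finset ι → ℝ) :
    ∑ T ∈ L.powerset, f (symmDiff S T) = ∑ R ∈ L.powerset, f R := by
  have m : ∀ T ∈ L.powerset, symmDiff S T ∈ L.powerset := fun T hT =>
    mem_powerset.2 ((symmDiff_subset_union (s := S) (t := T)).trans
      (union_subset hS (mem_powerset.1 hT)))
  exact Finset.sum_nbij' (symmDiff S) (symmDiff S) m m (fun T _ => symmDiff_symmDiff_cancel_left _ _)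
    (fun T _ => symmDiff_symmDiff_cancel_left _ _) fun _ _ => rfl

theorem bad (Γ : Finset ι) (p : Finset ι → Prop) (σ : Finset ι → Finset ι) :
    ∑ S ∈ Γ.powerset, ∑ D ∈ Γ.powerset.erase ∅,
      (if p D then (if S ∩ D = σ D then (1 : ℝ) else 0) else 0) ≤
      2 ^ Γ.card * ∑ D ∈ Γ.powerset.erase ∅, if p D then ((2 : ℝ) ^ D.card)⁻¹ else 0 := by
  rw [Finset.sum_comm, Finset.mul_sum]
  refine Finset.sum_le_sum fun D hD => ?_
  split_ifs
  · exact PFOUR.cnt_le (mem_powerset.1 (mem_of_mem_erase hD)) _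
  · simp

end JFOU2

open JFOU2 in
theorem j_fou2 : J_FOU2 := by
  intro ι _ Γ q₁ q₂ E p p' O σ σ' h1 h2 hE hO
  obtain ⟨L, hL⟩ : ∃ L, L = insert q₂ (insert q₁ Γ) := ⟨_, rfl⟩
  obtain ⟨g, hg⟩ : ∃ g : Finset ι → ℝ, ∀ S, g S = if E S then 1 else 0 := ⟨_, fun _ => rfl⟩
  obtain ⟨I, hI⟩ : ∃ I : Finset ι → Finset ι → ℝ, ∀ S R,
      I S R = if ∃ D, O R D ∧ Odd (D ∩ S).card then 1 else 0 := ⟨_, fun _ _ => rfl⟩
  have g0 : ∀ S, 0 ≤ g S := fun S => by rw [hg]; split_ifs <;> norm_num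
  have I0 : ∀ R, 0 ≤ ∑ S ∈ L.powerset, I S R := fun R =>
    Finset.sum_nonneg fun S _ => by rw [hI]; split_ifs <;> norm_num
  have I1 : ∀ R D, D ⊆ L → D ≠ ∅ → O R D → 2 ^ L.card / 2 ≤ ∑ S ∈ L.powerset, I S R := by
    intro R D a b c
    rw [← half a b]
    refine Finset.sum_le_sum fun S _ => ?_
    rw [hI]
    split_ifs with x y
    · exact le_rfl
    · exact absurd ⟨D, c, x⟩ y
    · norm_num
    · exact le_rfl
  have cL : L.card = Γ.card + 2 := by
    rw [hL, card_insert_of_notMem h2, card_insert_of_notMem h1]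
  rw [← hL]
  have e1 : ((((P2 L).filter fun S => ∃ D, O (symmDiff S.1 S.2) D ∧ Odd (D ∩ S.1).card).card : ℕ) : ℝ)
      = ∑ R ∈ L.powerset, ∑ S ∈ L.powerset, I S R := by
    rw [Finset.sum_comm, ← Finset.sum_congr rfl fun S hS => shift L (mem_powerset.1 hS) (I S),
      ← Finset.sum_product', ← Finset.sum_boole]
    exact Finset.sum_congr rfl fun S _ => (hI _ _).symm
  have e2 : 2 ^ L.card / 2 * ∑ R ∈ (insert q₁ Γ).powerset, g R ≤
      ∑ R ∈ L.powerset, ∑ S ∈ L.powerset, I S R := by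
    nth_rewrite 2 [hL]
    rw [Finset.sum_powerset_insert h2, ← Finset.sum_add_distrib, Finset.mul_sum]
    refine Finset.sum_le_sum fun R hR => ?_
    have b1 := I0 R
    have b2 := I0 (insert q₂ R)
    rw [hg]
    split_ifs with c
    · obtain ⟨D, d1, d2, d3⟩ := hO R (mem_powerset.1 hR) c
      rw [← hL] at d1
      rcases d3 with d3 | d3
      · linarith [I1 _ D d1 d2 d3]
      · linarith [I1 _ D d1 d2 d3]
    · linarith
  have a : ∀ S ∈ Γ.powerset, 1 - (∑ D ∈ Γ.powerset.erase ∅,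
      (if p D then (if S ∩ D = σ D then (1 : ℝ) else 0) else 0)) - ∑ D ∈ Γ.powerset.erase ∅,
      (if p' D then (if S ∩ D = σ' D then (1 : ℝ) else 0) else 0) ≤ g S + g (insert q₁ S) := by
    intro S hS
    have n0 : ∀ D ∈ Γ.powerset.erase ∅,
        0 ≤ (if p D then (if S ∩ D = σ D then (1 : ℝ) else 0) else 0) := fun D _ => by
      split_ifs <;> norm_num
    have n0' : ∀ D ∈ Γ.powerset.erase ∅,
        0 ≤ (if p' D then (if S ∩ D = σ' D then (1 : ℝ) else 0) else 0) := fun D _ => by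
      split_ifs <;> norm_num
    have n1 := Finset.sum_nonneg n0
    have n1' := Finset.sum_nonneg n0'
    have b1 := g0 S
    have b2 := g0 (insert q₁ S)
    by_cases c1 : E S
    · have := hg S
      rw [if_pos c1] at this
      linarith
    by_cases c2 : E (insert q₁ S)
    · have := hg (insert q₁ S)
      rw [if_pos c2] at this
      linarith
    obtain ⟨D, d1, d2, ⟨d3, d4⟩ | ⟨d3, d4⟩⟩ := hE S (mem_powerset.1 hS) c1 c2
    · have := Finset.single_le_sum n0 (mem_erase.2 ⟨d2, mem_powerset.2 d1⟩)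
      rw [if_pos d3, if_pos d4] at this
      linarith
    · have := Finset.single_le_sum n0' (mem_erase.2 ⟨d2, mem_powerset.2 d1⟩)
      rw [if_pos d3, if_pos d4] at this
      linarith
  have e3 := Finset.sum_le_sum a
  rw [Finset.sum_sub_distrib, Finset.sum_sub_distrib, Finset.sum_const, card_powerset,
    nsmul_eq_mul, Finset.sum_add_distrib, ← Finset.sum_powerset_insert h1] at e3
  have e4 := bad Γ p σ
  have e5 := bad Γ p' σ'
  push_cast at e3
  have p2 : (0 : ℝ) < 2 ^ Γ.card := by positivity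
  rw [e1, le_div_iff₀ (by positivity)]
  refine le_trans ?_ e2
  rw [cL, show (4 : ℝ) = 2 * 2 by norm_num, mul_pow, pow_add]
  generalize (2 : ℝ) ^ Γ.card = x at *
  nlinarith

end Pool.Agent.P.MP_b8021b_nt.BJ
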