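import Pool.Agent.P.MP_b8021b_nt.BJ.StA

namespace Pool.Agent.P.MP_b8021b_nt.BJ

open NumberField IsDedekindDomain Finset MeasureTheory
open Pool.Agent.P.MP_b8021b_nt.VE Pool.Agent.P.MP_b8021b_nt.VC Pool.Agent.P.MP_b8021b_nt.BS.CF
open Pool.Agent.P.MP_b8021b_nt.BS Pool.Agent.P.MP_b8021b_nt.BP
open scoped Classical ComplexConjugate Real

namespace JGA1

theorem frob_iter {R R' : Type} [CommRing R] [Fintype R] [CommRing R'] (l : ℕ) [Fact l.Prime]
    [CharP R' l] (χ : MulChar R R') (ψ : AddChar R R') (n : ℕ) :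
    gaussSum χ ψ ^ l ^ n = gaussSum (χ ^ l ^ n) (ψ ^ l ^ n) := by
  induction n with
  | zero => simp
  | succ n ih => rw [pow_succ, pow_mul, ih, gaussSum_frob, ← pow_mul, ← pow_mul]

theorem core {E : Type} [Field E] (p l n : ℕ) [Fact p.Prime] [Fact l.Prime] [CharP E l]
    (χ : MulChar (ZMod p) E) (ψ : AddChar (ZMod p) E) (hψ : ψ.IsPrimitive) (h4 : χ ^ 4 = 1)
    (h2 : χ ^ 2 ≠ 1) (hl : l ≠ p) (hq : l ^ n % 4 = 1) :
    ((p : E) * jacobiSum χ χ ^ 2) ^ ((l ^ n - 1) / 4) * χ ((l ^ n : ℕ) : ZMod p) = 1 := by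
  have hp : p.Prime := Fact.out
  have hl' : l.Prime := Fact.out
  have h1 : χ ≠ 1 := by
    intro h; apply h2; rw [h, one_pow]
  have hpE : ((Fintype.card (ZMod p) : ℕ) : E) ≠ 0 := by
    rw [ZMod.card, Ne, CharP.cast_eq_zero_iff E l, Nat.prime_dvd_prime_iff_eq hl' hp]
    exact hl
  have hg := gaussSum_ne_zero_of_nontrivial hpE h1 hψ
  have hm : χ * χ ≠ 1 := by rwa [← pow_two]
  have e1 := jacobiSum_mul_nontrivial hm ψ
  have hQ : (χ * χ).IsQuadratic := by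
    rw [MulChar.isQuadratic_iff_sq_eq_one, ← pow_two, ← pow_mul]; exact h4
  have e2 := gaussSum_sq hm hQ hψ
  have e3 : (χ * χ) (-1) = 1 := by
    rw [MulChar.coeToFun_mul, Pi.mul_apply, ← map_mul]; simp
  rw [e3, one_mul, ZMod.card] at e2
  have e4 : gaussSum χ ψ ^ 4 = (p : E) * jacobiSum χ χ ^ 2 := by
    have : gaussSum χ ψ ^ 4 = (gaussSum χ ψ * gaussSum χ ψ) ^ 2 := by ring
    rw [this, ← e1, mul_pow, e2]
  obtain ⟨k, hk⟩ : ∃ k, l ^ n = 4 * k + 1 := ⟨l ^ n / 4, by omega⟩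
  have hu : IsUnit ((l ^ n : ℕ) : ZMod p) := by
    rw [isUnit_iff_ne_zero, Ne, ZMod.natCast_eq_zero_iff]
    intro hd
    exact hl ((Nat.prime_dvd_prime_iff_eq hp hl').1 (hp.dvd_of_dvd_pow hd)).symm
  have e5 := frob_iter l χ ψ n
  have e6 : χ ^ l ^ n = χ := by rw [hk, pow_succ, pow_mul, h4, one_pow, one_mul]
  rw [e6, AddChar.pow_mulShift] at e5
  have e7 := gaussSum_mulShift χ ψ hu.unit
  rw [hu.unit_spec, ← e5] at e7
  have e8 : (l ^ n - 1) / 4 = k := by omega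
  rw [e8, ← e4, ← pow_mul]
  apply mul_right_cancel₀ hg
  rw [one_mul]
  calc gaussSum χ ψ ^ (4 * k) * χ ((l ^ n : ℕ) : ZMod p) * gaussSum χ ψ
      = χ ((l ^ n : ℕ) : ZMod p) * gaussSum χ ψ ^ (4 * k + 1) := by ring
    _ = gaussSum χ ψ := by rw [← hk]; exact e7

end JGA1

theorem j_ga1 (h : QX) : J_GA1 := by
  intro F _ _ p _ χ h4 h2 hl hq
  obtain ⟨n, hp', hc⟩ := FiniteField.card F (ringChar F)
  have hch : ringChar F ≠ ringChar (ZMod p) := by rwa [ZMod.ringChar_zmod_n]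
  let ψ := AddChar.FiniteField.primitiveChar (ZMod p) F hch
  let E := CyclotomicField ψ.n F
  have hinj := (algebraMap F E).injective
  have := Fact.mk hp'
  have : CharP E (ringChar F) := charP_of_injective_algebraMap hinj _
  have k4 : χ.ringHomComp (algebraMap F E) ^ 4 = 1 := by
    rw [MulChar.ringHomComp_pow, h4, MulChar.ringHomComp_one]
  have k2 : χ.ringHomComp (algebraMap F E) ^ 2 ≠ 1 := by
    rw [MulChar.ringHomComp_pow]
    exact (MulChar.ringHomComp_ne_one_iff hinj).2 h2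
  have key := JGA1.core p (ringChar F) n (χ.ringHomComp (algebraMap F E)) ψ.char ψ.prim k4 k2 hl
    (hc ▸ hq)
  apply hinj
  rw [map_mul, map_pow, map_mul, map_pow, map_natCast, map_one, ← jacobiSum_ringHomComp, hc]
  exact key

end Pool.Agent.P.MP_b8021b_nt.BJ
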