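import Pool.Agent.P.MP_b8021b_nt.BJ.StA
import Pool.Agent.P.MP_b8021b_nt.BS.PJac4
import Pool.Agent.P.MP_b8021b_nt.BS.CF.PAR1

/-! An unramified place of degree one, and fourth powers of Gauss sums. -/

namespace Pool.Agent.P.MP_b8021b_nt.BJ

open NumberField IsDedekindDomain Finset MeasureTheory
open Pool.Agent.P.MP_b8021b_nt.VE Pool.Agent.P.MP_b8021b_nt.VC Pool.Agent.P.MP_b8021b_nt.BS.CF
open Pool.Agent.P.MP_b8021b_nt.BS Pool.Agent.P.MP_b8021b_nt.BP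
open scoped Classical ComplexConjugate Real

namespace JGAU

variable {L : Type} [Field L] [NumberField L] {ι : 𝓞 L}

/-- a complex embedding that sends `ι` to `I` -/
theorem ex_emb (h : ι ^ 2 = -1) : ∃ σ : 𝓞 L →+* ℂ, σ ι = Complex.I := by
  obtain ⟨τ⟩ : Nonempty (L →+* ℂ) := inferInstance
  let σ : 𝓞 L →+* ℂ := τ.comp (algebraMap (𝓞 L) L)
  have e : σ ι ^ 2 = Complex.I ^ 2 := by rw [← map_pow, h, map_neg, map_one, Complex.I_sq]
  rcases sq_eq_sq_iff_eq_or_eq_neg.1 e with e | e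
  · exact ⟨σ, e⟩
  · exact ⟨(starRingEnd ℂ).comp σ, by rw [RingHom.comp_apply, e, map_neg, Complex.conj_I, neg_neg]⟩

omit [NumberField L] in
theorem ex_pow (h : ι ^ 2 = -1) {u : 𝓞 L} (hu : u ^ 4 = 1) : ∃ j : ℕ, u = ι ^ j := by
  rcases PJac4.four h hu with e | e | e | e
  · exact ⟨0, by rw [e, pow_zero]⟩
  · exact ⟨2, by rw [e, h]⟩
  · exact ⟨1, by rw [e, pow_one]⟩
  · exact ⟨3, by rw [e]; linear_combination (-ι) * h⟩

/-- the congruence at one place -/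
theorem place (hGA1 : J_GA1) (h : ι ^ 2 = -1) {p : ℕ} [Fact p.Prime]
    (χ : MulChar (ZMod p) (𝓞 L)) (h4 : ∀ x, x ≠ 0 → χ x ^ 4 = 1) (a : (ZMod p)ˣ)
    (ha : χ a ^ 2 = -1) (v : Pl L) (h2 : ¬ Dv 2 v) (hp : ¬ Dv p v)
    (hq : Ideal.absNorm v.asIdeal % 4 = 1) :
    (p : 𝓞 L) * jacobiSum χ χ ^ 2 ∉ v.asIdeal ∧ ∃ j : ℕ, χ (Ideal.absNorm v.asIdeal) = ι ^ j ∧
      ((p : 𝓞 L) * jacobiSum χ χ ^ 2) ^ ((Ideal.absNorm v.asIdeal - 1) / 4) - ι ^ (j * 3) ∈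
        v.asIdeal := by
  obtain ⟨F, _, _, _, ρ, -, hk, hc⟩ := exists_res v
  have f2 : (2 : F) ≠ 0 := fun e => h2 ((hk _).1 (by simpa [map_ofNat] using e))
  have fp : ringChar F ≠ p := fun e => hp ((hk _).1 (by
    rw [map_natCast, ← e]
    exact ringChar.Nat.cast_ringChar))
  have key := hGA1 F p (χ.ringHomComp ρ)
    (MulChar.ext fun x => by
      rw [MulChar.pow_apply_coe, MulChar.one_apply_coe, MulChar.ringHomComp_apply, ← map_pow,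
        h4 x x.ne_zero, map_one])
    (MulChar.ne_one_iff.2 ⟨a, fun e => by
      rw [MulChar.pow_apply_coe, MulChar.ringHomComp_apply, ← map_pow, ha, map_neg, map_one] at e
      exact f2 (by linear_combination -e)⟩)
    fp (hc ▸ hq)
  rw [jacobiSum_ringHomComp, MulChar.ringHomComp_apply, hc, ← map_natCast ρ p, ← map_pow,
    ← map_mul] at key
  have q1 : 1 < Ideal.absNorm v.asIdeal := hc ▸ Fintype.one_lt_card
  have x0 : ((Ideal.absNorm v.asIdeal : ℕ) : ZMod p) ≠ 0 := fun e => by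
    rw [e, MulChar.map_zero, map_zero, mul_zero] at key
    exact zero_ne_one key
  obtain ⟨j, hj⟩ := ex_pow h (h4 _ x0)
  refine ⟨fun e => ?_, j, hj, (hk _).1 ?_⟩
  · rw [(hk _).2 e, zero_pow (by omega), zero_mul] at key
    exact zero_ne_one key
  · have e4 := congrArg ρ (h4 _ x0)
    rw [map_pow, map_one] at e4
    rw [map_sub, pow_mul, ← hj, map_pow, map_pow ρ _ 3]
    linear_combination ρ (χ (Ideal.absNorm v.asIdeal)) ^ 3 * key -
      ρ ((p : 𝓞 L) * jacobiSum χ χ ^ 2) ^ ((Ideal.absNorm v.asIdeal - 1) / 4) * e4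

end JGAU

theorem j_ga2 (h : QX) : J_GA2 := by
  intro L _ _ m hL hm
  obtain ⟨v₀, -⟩ := exists_dv L (le_refl 2)
  obtain ⟨ϖ, -, h1⟩ := exists_od_one v₀
  have D0 : Ideal.absNorm (differentIdeal ℤ (𝓞 L)) ≠ 0 :=
    Ideal.absNorm_eq_zero_iff.not.2 differentIdeal_ne_bot
  obtain ⟨v, hp, hv, -⟩ := h.c1 L 2 (2 * m * Ideal.absNorm (differentIdeal ℤ (𝓞 L))) ϖ hL
    (Or.inl rfl) (by positivity) (by
      rintro ⟨z, e⟩
      rw [e, od_pow] at h1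
      omega)
  refine ⟨v, hp, fun e => hv (e.of_dvd ((dvd_mul_left m 2).mul_right _)),
    fun e => hv (e.of_dvd ((dvd_mul_right 2 m).mul_right _)), ?_⟩
  have p0 : ((Ideal.absNorm v.asIdeal : ℕ) : L) ≠ 0 := Nat.cast_ne_zero.2 hp.ne_zero
  have a1 := (od_pos_iff v p0).2 ((vl_nat_lt v).2 (dv_absNorm v))
  by_contra e
  have a2 : ((Ideal.absNorm v.asIdeal : ℕ) : 𝓞 L) ∈ v.asIdeal ^ 2 := by
    rw [← vl_coe_le_exp]
    change vl v ((Ideal.absNorm v.asIdeal : ℕ) : L) ≤ _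
    rw [vl_eq v p0, WithZero.exp_le_exp]
    omega
  have hp' : Prime ((Ideal.absNorm v.asIdeal : ℕ) : ℤ) := Nat.prime_iff_prime_int.1 hp
  have : (Ideal.span {((Ideal.absNorm v.asIdeal : ℕ) : ℤ)}).IsMaximal :=
    PrincipalIdealRing.isMaximal_of_irreducible hp'.irreducible
  have a3 := pow_sub_one_dvd_differentIdeal ℤ
    (p := Ideal.span {((Ideal.absNorm v.asIdeal : ℕ) : ℤ)}) v.asIdeal 2
    (by simpa using hp.ne_zero) (by
      rw [Ideal.map_span, Set.image_singleton, map_natCast, Ideal.dvd_span_singleton]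
      exact a2)
  rw [show 2 - 1 = 1 from rfl, pow_one] at a3
  exact hv ((dv_mul v).2 (Or.inr (Ideal.le_of_dvd a3 (Ideal.absNorm_mem _))))

theorem j_gau (h : QX) (hQB1 : J_QB1) (hGA1 : J_GA1) (hGA2 : J_GA2) : J_GAU := by
  intro L _ _ ι m hι hm
  have hL : Om L := om_of hι
  obtain ⟨v₁, hp, hv, h2, ho⟩ := hGA2 L m hL hm
  have p4 := (hQB1 L ι v₁ hι h2).1
  obtain ⟨F, _, _, _, ρ₁, -, -, hc⟩ := exists_res v₁
  generalize Ideal.absNorm v₁.asIdeal = p at hp ho p4 hc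
  have := Fact.mk hp
  let ρ : 𝓞 L →+* ZMod p := (ZMod.ringEquivOfPrime F hp hc).symm.toRingHom.comp ρ₁
  have hF : ringChar (ZMod p) ≠ 2 := by
    rw [ZMod.ringChar_zmod_n]
    omega
  obtain ⟨k, hk, hq⟩ := PJac4.card_eq hι ρ hF
  obtain ⟨χ, h4, hρ⟩ := PJac4.exists_chi hι ρ hF hk hq
  obtain ⟨a, ha⟩ := quadraticChar_exists_neg_one' hF
  have ha1 : χ a ^ 2 = -1 := by
    rw [PJac4.chi_sq hι ρ hF hq h4 hρ, PJac4.q2_apply, ha]
    simp
  obtain ⟨σ, hσ⟩ := JGAU.ex_emb hι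
  have key := fun (v : Pl L) (e : ¬ Dv (2 * p) v) =>
    JGAU.place hGA1 hι χ h4 a ha1 v (fun e' => e ((dv_mul v).2 (Or.inl e')))
      (fun e' => e ((dv_mul v).2 (Or.inr e')))
      (hQB1 L ι v hι fun e' => e ((dv_mul v).2 (Or.inl e'))).1
  have z0 : (p : 𝓞 L) * jacobiSum χ χ ^ 2 ≠ 0 := fun e => by
    obtain ⟨v, -, e', -⟩ := hGA2 L (2 * p) hL (mul_ne_zero two_ne_zero hp.ne_zero)
    exact (key v e').1 (e ▸ zero_mem _)
  let ψ : DirichletCharacter ℂ p := χ.ringHomComp σ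
  have hξ : ∀ I, Cop (2 * p) I →
      (AR1P.dn L ψ ^ 3 * triv L (2 * p)) I = AR1P.dn L ψ I ^ 3 := fun I c => by
    simp only [MonoidHom.mul_apply, MonoidHom.pow_apply, triv_cop c, mul_one]
  refine ⟨(p : 𝓞 L) * jacobiSum χ χ ^ 2, AR1P.dn L ψ ^ 3 * triv L (2 * p), 2 * p, v₁,
    ⟨by omega, dvd_mul_right 2 p, z0, ⟨⟨fun I c => ?_, fun I c => ?_⟩, fun α e => ?_⟩,
      fun v e => (key v e).1, fun v e => ?_⟩, hv, ?_⟩
  · have := ψ.unit_norm_eq_one (ZMod.unitOfCoprime _ (cop_iff_coprime.1 (cop_mul_nat.1 c).2))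
    rw [ZMod.coe_unitOfCoprime] at this
    rw [hξ I c, norm_pow, AR1P.dn_apply, this, one_pow]
  · simp only [MonoidHom.mul_apply, triv_not c, mul_zero]
  · rw [hξ _ (cop_span_of_dvd e), AR1P.dn_one ψ (((h.pos L hL).2.2.2.1 _ α e).of_mul_left 2),
      one_pow]
  · obtain ⟨j, hj, hm⟩ := (key v e).2
    rw [hξ _ ((cop_prime_iff v).2 e), AR1P.dn_apply,
      (hQB1 L ι v hι fun e' => e ((dv_mul v).2 (Or.inl e'))).2.1 _ _ hm,
      MulChar.ringHomComp_apply, hj, map_pow, hσ, pow_mul]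
  · have J0 : ((jacobiSum χ χ : 𝓞 L) : L) ≠ 0 := fun e => z0 (by
      rw [RingOfIntegers.coe_eq_zero_iff.1 e]
      simp)
    have e : (((p : 𝓞 L) * jacobiSum χ χ ^ 2 : 𝓞 L) : L) = (p : L) * (jacobiSum χ χ : 𝓞 L) ^ 2 := by
      simp
    rw [e, od_mul v₁ (Nat.cast_ne_zero.2 hp.ne_zero) (pow_ne_zero 2 J0), ho, od_pow]
    exact ⟨od v₁ (jacobiSum χ χ : 𝓞 L), by push_cast; ring⟩

end Pool.Agent.P.MP_b8021b_nt.BJ
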