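import Pool.Agent.P.MP_b8021b_nt.BJ.StA
import Pool.Agent.P.MP_b8021b_nt.BS.CF.PX2
import Pool.Agent.P.MP_b8021b_nt.BS.CF.PNV2
import Pool.Agent.P.MP_b8021b_nt.BS.PVal

/-! A maximal isotropic group of local conditions over `m`. -/

namespace Pool.Agent.P.MP_b8021b_nt.BJ

open NumberField IsDedekindDomain Finset MeasureTheory
open Pool.Agent.P.MP_b8021b_nt.VE Pool.Agent.P.MP_b8021b_nt.VC Pool.Agent.P.MP_b8021b_nt.BS.CF
open Pool.Agent.P.MP_b8021b_nt.BS Pool.Agent.P.MP_b8021b_nt.BP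
open scoped Classical ComplexConjugate Real
variable {k : Type} [Field k] [NumberField k] [Algebra k ℂ] {K : Type} [Field K] [NumberField K] [Algebra k K]

namespace JGRP

theorem iso (hH : Z_Hen) (hK : Om K) {m : ℕ} {ζ a b : K} (ha : Locm m ζ a) (hb : Locm m ζ b)
    (v : Pl K) (hv : Dv m v) : LN 2 v a b := by
  have hl : El 2 := Or.inl rfl
  obtain ⟨-, h2, h3⟩ := hH K 2 v hl
  obtain ⟨x₁, p₁, q₁⟩ := ha v hv
  obtain ⟨x₂, p₂, q₂⟩ := hb v hv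
  obtain ⟨-, y₁, e₁⟩ := (h2 _).1 p₁
  obtain ⟨-, y₂, e₂⟩ := (h2 _).1 p₂
  obtain ⟨n₁, r₁, f₁⟩ := (h2 _).1 q₁
  obtain ⟨n₂, r₂, f₂⟩ := (h2 _).1 q₂
  have : CharZero (v.adicCompletion K) := algebraRat.charZero _
  obtain ⟨i, hi⟩ := hK.map (algebraMap K (v.adicCompletion K))
  set f := algebraMap K (v.adicCompletion K)
  have m₁ : f x₁ ≠ 0 := (map_ne_zero f).2 (right_ne_zero_of_mul n₁)
  have m₂ : f x₂ ≠ 0 := (map_ne_zero f).2 (right_ne_zero_of_mul n₂)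
  have s₁ : r₁ ≠ 0 := by
    rintro rfl
    exact (map_ne_zero f).2 n₁ (by simpa using f₁)
  rw [map_mul] at f₁ f₂
  have key : NV 2 (f x₁) (f x₂) := PVal.nv (b := -f ζ) (y₁ := y₁) (y₂ := y₂) hi
    (by rw [← e₁]; simp [sub_eq_add_neg]) (by rw [← e₂]; simp [sub_eq_add_neg]) m₁ m₂
  refine h3 a b (left_ne_zero_of_mul n₂) ?_
  have g₁ : f a = f x₁ * (r₁ / f x₁) ^ 2 := by
    field_simp
    linear_combination f₁
  have g₂ : f b = f x₂ * (r₂ / f x₂) ^ 2 := by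
    field_simp
    linear_combination f₂
  rw [g₁, g₂]
  exact (key.scale hl (div_ne_zero s₁ m₁)).mul hl (NV.pow hl _ _)

/-- the local squares over `m` -/
def Sq (K : Type) [Field K] [NumberField K] (m : ℕ) : Subgroup Kˣ where
  carrier := {x | ∀ v : Pl K, Dv m v → LP 2 v (x : K)}
  one_mem' := fun v _ => by simpa using LP.one v two_ne_zero
  mul_mem' := fun ha hb v hv => by simpa using (ha v hv).mul (hb v hv)
  inv_mem' := fun ha v hv => by simpa using (ha v hv).inv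

theorem idx (hW : Z_WA) {m : ℕ} (h0 : m ≠ 0) (h2 : 2 ∣ m) :
    (Sq K m).index ≠ 0 ∧ (Sq K m).index ≤ 2 ^ (2 * nPl K m + Module.finrank ℚ K) := by
  have hd : 2 ∣ m ^ 3 := h2.trans (dvd_pow_self m (by norm_num))
  obtain ⟨a1, a2⟩ := X2P.index_HH (L := K) hW (n := m ^ 3)
    (Nat.le_of_dvd (Nat.pos_of_ne_zero (pow_ne_zero 3 h0)) hd) hd
  have hle : X2P.HH K (m ^ 3) ≤ Sq K m := by
    rintro x ⟨z, hz, h⟩ v hv
    exact NV2P.lp_of_one h2 le_rfl hz h hv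
  have e : nPl K (m ^ 3) = nPl K m := by
    unfold nPl
    congr 1
    ext v
    exact dv_pow v (by norm_num)
  rw [e] at a2
  have hdv := Subgroup.index_dvd_of_le hle
  exact ⟨fun h => a1 (Nat.eq_zero_of_zero_dvd (h ▸ hdv)),
    (Nat.le_of_dvd (Nat.pos_of_ne_zero a1) hdv).trans a2⟩

end JGRP

open JGRP in
theorem j_grp (c : Cx k K) (Y : Yb k K) (hGRP0 : J_GRP0) (hPAIR : J_PAIR K) : J_GRP K := by
  intro m ζ h0 h2
  obtain ⟨p1, p2, p3, p4, p5, -⟩ := hPAIR m h0 h2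
  obtain ⟨i0, i1⟩ := idx (K := K) c.lib.wa h0 h2
  obtain ⟨W, w1, w2, w3, w4⟩ := hGRP0 Kˣ (fun a b => Bm m (a : K) (b : K)) (Sq K m)
    {a | Locm m ζ (a : K)} i0 (fun a b => p1 _ _) (fun a => p2 _)
    (fun a x y => by simpa using p3 (a : K) x y x.ne_zero y.ne_zero)
    (fun h hh a => p4 _ _ h.ne_zero a.ne_zero hh)
    (fun a ha b hb => p5 _ _ a.ne_zero b.ne_zero (iso c.lib.hen c.om ha hb))
  have j0 : W.index ≠ 0 := fun h =>
    i0 (Nat.eq_zero_of_zero_dvd (h ▸ Subgroup.index_dvd_of_le w1))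
  have : Finite (Kˣ ⧸ W) := Nat.finite_of_card_ne_zero j0
  have : Fintype (Kˣ ⧸ W) := Fintype.ofFinite _
  refine ⟨fun x => ∃ u ∈ W, (u : K) = x, ?_, fun x hx h => ⟨Units.mk0 x hx, w2 h, rfl⟩, ?_,
    fun u hu h => ⟨Units.mk0 u hu, w1 h, rfl⟩, ?_,
    univ.image fun q : Kˣ ⧸ W => ((q.out⁻¹ : Kˣ) : K), ?_, fun x hx => ?_⟩
  · rintro _ ⟨u, -, rfl⟩
    exact u.ne_zero
  · rintro _ _ ⟨u, hu, rfl⟩ ⟨u', hu', rfl⟩
    exact ⟨u * u', W.mul_mem hu hu', Units.val_mul _ _⟩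
  · rintro _ _ ⟨u, hu, rfl⟩ ⟨u', hu', rfl⟩
    exact w3 u hu u' hu'
  · refine card_image_le.trans ?_
    rw [card_univ, ← Nat.card_eq_fintype_card]
    obtain ⟨d, hd⟩ := (c.lib.pos K c.om).1
    refine (Nat.pow_le_pow_iff_left two_ne_zero).1 (w4.trans (i1.trans_eq ?_))
    rw [← pow_mul, hd]
    congr 1
    omega
  · refine ⟨_, mem_image_of_mem _ (mem_univ (QuotientGroup.mk (Units.mk0 x hx))),
      (QuotientGroup.mk (Units.mk0 x hx) : Kˣ ⧸ W).out⁻¹ * Units.mk0 x hx,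
      QuotientGroup.eq.1 (QuotientGroup.out_eq' _), ?_⟩
    rw [Units.val_mul, Units.val_mk0, mul_comm]

end Pool.Agent.P.MP_b8021b_nt.BJ
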