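import Pool.Agent.P.MP_b8021b_nt.BJ.StA
import Pool.Agent.P.MP_b8021b_nt.BS.CF.PKP

set_option autoImplicit false

namespace Pool.Agent.P.MP_b8021b_nt.BJ

open NumberField IsDedekindDomain Finset MeasureTheory
open Pool.Agent.P.MP_b8021b_nt.VE Pool.Agent.P.MP_b8021b_nt.VC Pool.Agent.P.MP_b8021b_nt.BS.CF
open Pool.Agent.P.MP_b8021b_nt.BS Pool.Agent.P.MP_b8021b_nt.BP
open scoped Classical ComplexConjugate Real

theorem j_h90 (h : QX) : J_H90 := by
  intro L M _ _ _ _ _ _ b β hK
  obtain ⟨σ, hσ⟩ := KPP.exists_ne (Or.inl rfl) hK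
  have hc : Fintype.card (M ≃ₐ[L] M) = 2 := by
    rw [← Nat.card_eq_fintype_card]
    exact (IsGalois.card_aut_eq_finrank L M).trans hK.fin
  have hu : (univ : Finset (M ≃ₐ[L] M)) = {1, σ} :=
    (eq_univ_of_card _ (by rw [card_pair hσ.symm, hc])).symm
  have hN : ∀ u : M, algebraMap L M (Algebra.norm L u) = u * σ u := fun u => by
    rw [Algebra.norm_eq_prod_automorphisms, hu, prod_pair hσ.symm]
    rfl
  have hT : ∀ u : M, algebraMap L M (Algebra.trace L M u) = u + σ u := fun u => by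
    rw [trace_eq_sum_automorphisms, hu, sum_pair hσ.symm]
    rfl
  have hβ : σ β = -β := by
    have e : σ β ^ 2 = β ^ 2 := by rw [← map_pow, hK.pow, AlgEquiv.commutes]
    exact (sq_eq_sq_iff_eq_or_eq_neg.1 e).resolve_left (KPP.moves (Or.inl rfl) hK hσ)
  refine ⟨(algebraMap L M).injective ?_, fun u hu0 ⟨r, hr⟩ => ?_⟩
  · rw [hN, hβ, map_neg, ← hK.pow]
    ring
  have hr0 : r ≠ 0 := fun e => Algebra.norm_ne_zero_iff.2 hu0 (by rw [hr, e, mul_zero])
  have key : ∀ s : L, Algebra.norm L u = s * s → Algebra.trace L M u + 2 * s ≠ 0 →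
      ∃ (a : L) (η : M), a ≠ 0 ∧ η ≠ 0 ∧ u = algebraMap L M a * η ^ 2 := by
    intro s hs hA
    have e : u * algebraMap L M (Algebra.trace L M u + 2 * s) = (u + algebraMap L M s) ^ 2 := by
      have e1 := hN u
      rw [hs, map_mul] at e1
      rw [map_add, hT, map_mul, map_ofNat]
      linear_combination -e1
    have hA' : algebraMap L M (Algebra.trace L M u + 2 * s) ≠ 0 := (map_ne_zero _).2 hA
    refine ⟨_, u + algebraMap L M s, inv_ne_zero hA, fun h0 => ?_, ?_⟩
    · rw [h0, zero_pow two_ne_zero] at e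
      exact mul_ne_zero hu0 hA' e
    · rw [← e, map_inv₀]
      field_simp
  by_cases hA : Algebra.trace L M u + 2 * r = 0
  · refine key (-r) (by rw [hr]; ring) fun h0 => hr0 ?_
    linear_combination (hA - h0) / 4
  · exact key r hr hA

end Pool.Agent.P.MP_b8021b_nt.BJ
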