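import Pool.Agent.P.MP_b8021b_nt.BJ.StA

/-! The norm of the radicand is a square or `y` times a square. -/

namespace Pool.Agent.P.MP_b8021b_nt.BJ

open NumberField IsDedekindDomain Finset MeasureTheory
open Pool.Agent.P.MP_b8021b_nt.VE Pool.Agent.P.MP_b8021b_nt.VC Pool.Agent.P.MP_b8021b_nt.BS.CF
open Pool.Agent.P.MP_b8021b_nt.BS Pool.Agent.P.MP_b8021b_nt.BP
open scoped Classical ComplexConjugate Real

namespace JHA1

variable {L M : Type} [Field L] [NumberField L] [Field M] [NumberField M] [Algebra L M]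

/-- the norm in a quadratic extension -/
theorem ex_norm [IsGalois L M] (h : Module.finrank L M = 2) :
    ∃ σ : M ≃ₐ[L] M, ∀ u : M, algebraMap L M (Algebra.norm L u) = u * σ u := by
  have hc : Nat.card (M ≃ₐ[L] M) = 2 := (IsGalois.card_aut_eq_finrank L M).trans h
  obtain ⟨σ, hσ, hu⟩ := (Nat.card_eq_two_iff' (1 : M ≃ₐ[L] M)).1 hc
  refine ⟨σ, fun u => ?_⟩
  have e : (univ : Finset (M ≃ₐ[L] M)) = {1, σ} := by
    ext τ
    by_cases hτ : τ = 1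
    · simp [hτ]
    · simp [hu τ hτ]
  rw [Algebra.norm_eq_prod_automorphisms, e, prod_pair (Ne.symm hσ)]
  rfl

/-- the conjugate place -/
theorem ex_conj (hE : Z_Ex) (σ : M ≃ₐ[L] M) {v : Pl L} {w : Pl M} (hu : Und v w.asIdeal)
    (hn : Ideal.absNorm w.asIdeal = Ideal.absNorm v.asIdeal ^ 1) :
    ∃ (w' : Pl M) (e : ℕ), 1 ≤ e ∧ Und v w'.asIdeal ∧
      Ideal.relNorm (𝓞 L) w'.asIdeal = v.asIdeal ∧ ∀ x : M, vl w (σ x) = vl w' x ^ e := by
  have H := @hE M M _ _ _ _ (σ.toRingEquiv.toRingHom.toAlgebra)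
  obtain ⟨w', e, h1, h2, h3⟩ := H.1 w
  obtain ⟨f, -, -, h4, -⟩ := H.2.2.1 w' w h2
  have h3' : ∀ x : M, vl w (σ x) = vl w' x ^ e := h3
  have h5 : Und v w'.asIdeal := by
    refine Ideal.ext fun a => ?_
    have e1 := h3' (algebraMap L M a)
    rw [σ.commutes] at e1
    rw [Ideal.mem_comap, ← Und_mem hu, ← vl_coe_lt, ← vl_coe_lt, coe_map, e1,
      pow_lt_one_iff (by omega)]
  obtain ⟨f', -, h6, h7, -⟩ := (hE L M).2.2.1 v w' h5
  have h8 : f' * f = 1 := by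
    rw [hn, h7, ← pow_mul] at h4
    have h2 : 2 ≤ Ideal.absNorm v.asIdeal := by
      have a := Ideal.absNorm_eq_zero_iff.not.2 v.ne_bot
      have b := Ideal.absNorm_eq_one_iff.not.2 v.isPrime.ne_top
      omega
    exact (Nat.pow_right_injective h2 h4).symm
  refine ⟨w', e, h1, h5, ?_, h3'⟩
  rw [h6, Nat.eq_one_of_mul_eq_one_right h8, pow_one]

omit [NumberField L] in
theorem lp_iff (σ : M ≃ₐ[L] M) {w w' : Pl M} {e : ℕ} (he : 1 ≤ e)
    (h : ∀ x : M, vl w (σ x) = vl w' x ^ e) (x : M) : LP 2 w (σ x) ↔ LP 2 w' x := by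
  have k : ∀ r : M, vl w (σ x / σ r ^ 2 - 1) < vl w (2 : ℕ) ^ 2 ↔
      vl w' (x / r ^ 2 - 1) < vl w' (2 : ℕ) ^ 2 := fun r => by
    have e1 : σ x / σ r ^ 2 - 1 = σ (x / r ^ 2 - 1) := by simp
    have e2 := h (2 : ℕ)
    rw [map_natCast] at e2
    rw [e1, h, e2, ← pow_mul, mul_comm, pow_mul,
      pow_lt_pow_iff_left₀ zero_le zero_le (by omega)]
  constructor
  · rintro ⟨r, hr⟩
    rw [← σ.apply_symm_apply r] at hr
    exact ⟨_, (k _).1 hr⟩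
  · rintro ⟨r, hr⟩
    exact ⟨_, (k r).2 hr⟩

end JHA1

open JHA1 in
theorem j_ha1 (h : QX) (hQB2 : J_QB2) (hUNR : J_UNR) (hBIQ : J_BIQ) : J_HA1 := by
  intro L M _ _ _ _ _ _ y β u ψ n hL hd
  by_contra hc
  obtain ⟨c1, c2⟩ := not_or.1 hc
  have hy : (y : L) ≠ 0 := fun e => hd.kum.np ⟨0, by simp [e]⟩
  have hn : n ≠ 0 := by have := hd.two; omega
  obtain ⟨v, a1, a2, -, a3⟩ := hBIQ L n (Algebra.norm L u) y 1 hL hn hy one_ne_zero c1
    (by rwa [mul_comm]) (by rwa [mul_one]) (by rwa [mul_one, mul_comm])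
  have h2 : ¬ Dv 2 v := fun e => a1 (e.of_dvd hd.ev)
  obtain ⟨w, hw⟩ := ((h.kp L M 2 y β hL (Or.inl rfl) hd.kum v).2.1 h2 a2).1
  obtain ⟨b1, b2⟩ := split_of h.ex hw
  obtain ⟨σ, hσ⟩ := ex_norm (L := L) (M := M) hd.kum.fin
  obtain ⟨w', e, e1, e2, e3, e4⟩ := ex_conj h.ex σ b1 b2
  obtain ⟨d1, d2⟩ := hd.val w (by rwa [Und_dv b1])
  obtain ⟨d3, d4⟩ := hd.val w' (by rwa [Und_dv e2])
  rw [nrm_apply, hw] at d2
  rw [nrm_apply, e3, d2] at d4
  have hu' : σ u ≠ 0 := by simpa using hd.ne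
  have k1 : LP 2 w (u * σ u) := by
    by_cases k : LP 2 w' u
    · exact (lq_eq_one.1 (d4.trans (lq_eq_one.2 k))).mul ((lp_iff σ e1 e4 u).2 k)
    · refine (h.res M w).2.2 _ _ (by rwa [Und_dv b1]) hd.ne hu' d1.two_dvd ?_
        (lq_eq_neg.1 (d4.trans (lq_eq_neg.2 k))) fun k' => k ((lp_iff σ e1 e4 u).1 k')
      have : od w (σ u) = od w' (u ^ e) := by rw [od, e4, od, map_pow]
      rw [this, od_pow]
      exact d3.two_dvd.mul_left _
  rw [← hσ] at k1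
  obtain ⟨ι, hι⟩ := ex_iota hL
  have k0 : Algebra.norm L u ≠ 0 := fun e => c1 (by rw [e]; exact ⟨0, by simp⟩)
  have k2 := (hQB2 L M ι v w 1 hι h2 b1 b2).2 _ k0
    (by rw [← hUNR L M y β v w hL hd.kum h2 (lp_even a2) b1]; exact lp_even k1)
  rw [lq_eq_one.2 k1, pow_one] at k2
  exact a3 (lq_eq_one.1 k2.symm)

end Pool.Agent.P.MP_b8021b_nt.BJ
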