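import Pool.Agent.P.MP_b8021b_nt.BJ.StA

/-! The quartic symbol at the split places is a ray class character. -/

namespace Pool.Agent.P.MP_b8021b_nt.BJ

open NumberField IsDedekindDomain Finset MeasureTheory
open Pool.Agent.P.MP_b8021b_nt.VE Pool.Agent.P.MP_b8021b_nt.VC Pool.Agent.P.MP_b8021b_nt.BS.CF
open Pool.Agent.P.MP_b8021b_nt.BS Pool.Agent.P.MP_b8021b_nt.BP
open scoped Classical ComplexConjugate Real

namespace JHALF

variable {L : Type} [Field L] [NumberField L]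

theorem od0 {u : 𝓞 L} {v : Pl L} (h : u ∉ v.asIdeal) : od v (u : L) = 0 :=
  od_eq_zero_of_vl v ((vl_coe_eq v u).2 h)

theorem not_dvd {y : 𝓞 L} {p : ℕ} (hp : p.Prime) (h2 : p ≠ 2)
    (h : ∀ v : Pl L, Dv p v → y ∉ v.asIdeal) : ¬ p ∣ 2 * Ideal.absNorm (sp y) := fun e => by
  rcases (Nat.Prime.dvd_mul hp).1 e with e | e
  · exact h2 ((Nat.prime_dvd_prime_iff_eq hp Nat.prime_two).1 e)
  · obtain ⟨P, hP, h1, h3⟩ := Ideal.exists_isMaximal_dvd_of_dvd_absNorm' hp _ e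
    have hm : (p : 𝓞 L) ∈ P := by
      have : (p : ℤ) ∈ P.under ℤ := h1 ▸ Ideal.mem_span_singleton_self _
      simpa using Ideal.mem_comap.1 this
    have h0 : P ≠ ⊥ := fun e' => hp.ne_zero (by
      rw [e', Ideal.mem_bot] at hm
      exact_mod_cast hm)
    exact h ⟨P, hP.isPrime, h0⟩ hm (Ideal.dvd_span_singleton.1 h3)

end JHALF

open JHALF in
theorem j_half (h : QX) (hQB1 : J_QB1) (hQB2 : J_QB2) (hEX2 : J_EX2) (hSQR : J_SQR)
    (hHA1 : J_HA1) (hHA2 : J_HA2) (hHA3 : J_HA3) : J_HALF := by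
  intro L _ _ ι y p hι hy hp hp2 hpy
  have hL : Om L := om_of hι
  have hpn := not_dvd hp hp2 hpy
  have h0 : Ideal.absNorm (sp y) ≠ 0 := by simpa using hy
  have hu : ∀ v : Pl L, ¬ Dv (2 * Ideal.absNorm (sp y)) v → y ∉ v.asIdeal := fun v hv e =>
    hv (Dv.of_dvd ((Ideal.span_singleton_le_iff_mem _).2 e (Ideal.absNorm_mem _))
      (dvd_mul_left _ _))
  have h2n : 2 ∣ 2 * Ideal.absNorm (sp y) := dvd_mul_right _ _
  have hn2 : 2 ≤ 2 * Ideal.absNorm (sp y) := by omega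
  generalize 2 * Ideal.absNorm (sp y) = n at hpn hu h2n hn2
  have hyL : (y : L) ≠ 0 := by exact_mod_cast hy
  by_cases hs : ∃ z : L, (y : L) = z ^ 2
  · obtain ⟨z, hz⟩ := hs
    obtain ⟨s, rfl⟩ : ∃ s : 𝓞 L, y = s ^ 2 :=
      ⟨⟨z, IsIntegral.of_pow two_pos (hz ▸ y.isIntegral_coe)⟩, RingOfIntegers.ext hz⟩
    have hs0 : s ≠ 0 := fun e => hy (by simp [e])
    have hsu : ∀ v : Pl L, ¬ Dv n v → s ∉ v.asIdeal := fun v hv e =>
      hu v hv (v.asIdeal.pow_mem_of_mem e 2 two_pos)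
    obtain ⟨j, χ, hj, hχ, hv, -⟩ := h.chi L n (s : L) hL hn2 h2n (by exact_mod_cast hs0)
      fun v hv => by rw [od0 (hsu v hv)]; exact dvd_zero _
    have k1 : ∀ v : Pl L, ¬ Dv (n ^ j) v → ¬ Dv n v := fun v e e' => e ((dv_pow v hj).2 e')
    have k2 : ∀ v : Pl L, ¬ Dv n v → ¬ Dv 2 v := fun v e e' => e (e'.of_dvd h2n)
    have k3 : ∀ v : Pl L, ¬ Dv n v → χ v.asIdeal = leg s v := fun v e =>
      (hv v e).trans (lq_coe (k2 v e) (hsu v e))
    refine ⟨χ, n ^ j, fun e => hpn (hp.dvd_of_dvd_pow e), hn2.trans (Nat.le_self_pow (by omega) n),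
      h2n.trans (dvd_pow_self n (by omega)), hy, hχ, fun v e => hu v (k1 v e), fun v e => ?_,
      fun v e _ => ?_⟩
    · rw [k3 v (k1 v e), sq s, leg_mul, sq]
    · rw [k3 v (k1 v e), (hQB1 L ι v hι (k2 v (k1 v e))).2.2.2.2.2 s]
  · obtain ⟨M, _, _, _, _, β, hβ, -⟩ := h.kum L 2 (y : L) hL (Or.inl rfl) hs
    obtain ⟨n', ψ, hnn, hn0, hpn', hψ, hsq⟩ := hSQR L n p (y : L) hL hn2 h2n hyL
      (fun v hv => by rw [od0 (hu v hv)]; exact Even.zero) hp hpn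
    have h2n' : 2 ∣ n' := h2n.trans hnn
    have hn2' : 2 ≤ n' := Nat.le_of_dvd (Nat.pos_of_ne_zero hn0) h2n'
    have hu' : ∀ v : Pl L, ¬ Dv n' v → y ∉ v.asIdeal := fun v e => hu v fun e' => e (e'.of_dvd hnn)
    have k2 : ∀ v : Pl L, ¬ Dv n' v → ¬ Dv 2 v := fun v e e' => e (e'.of_dvd h2n')
    have hβ0 : β ≠ 0 := fun e => by
      have := hβ.pow
      rw [e, zero_pow two_ne_zero, eq_comm, _root_.map_eq_zero] at this
      exact hyL this
    obtain ⟨u, hu0, hval⟩ := hEX2 M n' (nrm M ψ) (hL.map (algebraMap L M)) hn2' h2n'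
      ((h.i.bc L hL n' ψ hn2' hψ).2.2.2 M) fun w hw => by
        obtain ⟨v, -, -, hv, -⟩ := (h.ex L M).1 w
        obtain ⟨f, -, e1, e2, -⟩ := (h.ex L M).2.2.1 v w hv
        have hv' : ¬ Dv n' v := fun e => hw ((Und_dv hv).2 e)
        rw [nrm_apply, e1, map_pow, ← pow_mul, mul_comm, pow_mul, hsq v hv',
          ← (hQB2 L M ι v w f hι (k2 v hv') hv e2).2 _ hyL
            (by rw [od0 (hu' v hv')]; exact Even.zero), ← hβ.pow]
        exact lq_eq_one.2 (lp_sq w hβ0)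
    have hd : HD y β u ψ n' := ⟨hβ, hn2', h2n', hψ, hu',
      fun v e => (hsq v e).trans (lq_coe (k2 v e) (hu' v e)), hu0, hval⟩
    obtain ⟨φ, j, -, hφ⟩ := hHA3 L M ι y β u ψ n' hι hd
      ((hHA1 L M y β u ψ n' hL hd).resolve_left (hHA2 L M y β u ψ n' hL hd))
    exact ⟨φ, n' ^ j, fun e => hpn' (hp.dvd_of_dvd_pow e), hφ⟩

end Pool.Agent.P.MP_b8021b_nt.BJ
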