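import Pool.Agent.P.MP_b8021b_nt.BJ.StA

/-! Half of the mass is lost at the places where `e` is not a square. -/

namespace Pool.Agent.P.MP_b8021b_nt.BJ

open NumberField IsDedekindDomain Finset MeasureTheory
open Pool.Agent.P.MP_b8021b_nt.VE Pool.Agent.P.MP_b8021b_nt.VC Pool.Agent.P.MP_b8021b_nt.BS.CF
open Pool.Agent.P.MP_b8021b_nt.BS Pool.Agent.P.MP_b8021b_nt.BP
open scoped Classical ComplexConjugate Real

variable {k : Type} [Field k] [NumberField k] [Algebra k ℂ] {K : Type} [Field K] [NumberField K]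
  [Algebra k K]

namespace JHM

theorem gg_pos (v : Pl K) : 0 < gg v := by have := nv_pos v; unfold gg; positivity

theorem gg_le (v : Pl K) : gg v ≤ 1 := by
  have := nv_pos v
  exact inv_le_one_of_one_le₀ (by linarith)

theorem term (e : 𝓞 K) (D : Finset (Pl K)) : (if jac e (eI D) = 1 then gS D else 0) ≤
    (∏ v ∈ D, gg v + ∏ v ∈ D, lr e v * gg v) / 2 := by
  have h0 : 0 ≤ ∏ v ∈ D, gg v := prod_nonneg fun v _ => (gg_pos v).le
  have h1 : ((∏ v ∈ D, lr e v : ℝ) : ℂ) = jac e (eI D) := by
    rw [jac_eI, Complex.ofReal_prod]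
    exact prod_congr rfl fun v _ => lr_coe e v
  rw [prod_mul_distrib]
  split_ifs with h
  · rw [h] at h1
    rw [Complex.ofReal_eq_one.1 h1, gS]
    linarith
  · have h2 : -1 ≤ ∏ v ∈ D, lr e v := by
      rcases jac_cases e (eI D) with a | a | a <;> rw [a] at h1 <;> norm_cast at h1 <;>
        rw [h1] <;> norm_num
    nlinarith

theorem fac (e : 𝓞 K) (v : Pl K) : (1 + gg v)⁻¹ * (1 + lr e v * gg v) ≤
    Real.exp (if Ins (e : K) v then -((nv v)⁻¹ / 3) else 0) := by
  have h0 := gg_pos v
  have h1 := abs_le.1 (abs_lr e v)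
  split_ifs with h
  · have h2 : lr e v ≤ 0 := by
      by_cases a : e ∈ v.asIdeal
      · simp [lr, leg_eq_zero.2 a]
      · simp [lr, (leg_eq_neg_iff h.1 a).2 h.2]
    have h3 := two_le_NN v
    have h4 : -((nv v)⁻¹ / 3) + 1 - (1 + gg v)⁻¹ = (nv v - 2) / (3 * nv v * (2 * nv v + 2)) := by
      have := nv_pos v
      unfold gg
      field_simp
      ring
    have h5 : 0 ≤ (nv v - 2) / (3 * nv v * (2 * nv v + 2)) := by
      have := nv_pos v
      exact div_nonneg (by linarith) (by positivity)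
    refine le_trans ?_ (Real.add_one_le_exp _)
    refine (mul_le_of_le_one_right (by positivity) (by nlinarith)).trans (by linarith)
  · rw [Real.exp_zero, inv_mul_le_one₀ (by linarith)]
    nlinarith

theorem main (e : 𝓞 K) (S : Finset (Pl K)) :
    GG S * ∑ D ∈ S.powerset, (if jac e (eI D) = 1 then gS D else 0) ≤
      (1 + Real.exp (-((∑ v ∈ S.filter (Ins (e : K)), (nv v)⁻¹) / 3))) / 2 := by
  have h0 : 0 ≤ GG S := prod_nonneg fun v _ => by have := gg_pos v; positivity
  refine (mul_le_mul_of_nonneg_left (sum_le_sum fun D _ => term e D) h0).trans ?_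
  rw [← sum_div, sum_add_distrib, ← prod_one_add, ← prod_one_add, ← mul_div_assoc, mul_add, GG,
    ← prod_mul_distrib, ← prod_mul_distrib, prod_eq_one fun v _ =>
      inv_mul_cancel₀ (by have := gg_pos v; positivity), sum_div, ← sum_neg_distrib, sum_filter,
    Real.exp_sum]
  gcongr with v
  · intro v _
    have h1 := gg_pos v
    have h2 := gg_le v
    have h3 := abs_le.1 (abs_lr e v)
    exact mul_nonneg (by positivity) (by nlinarith)
  · exact fac e v

end JHM

theorem j_hm (c : Cx k K) (Y : Yb k K) (hMER : J_MER K) : J_HM K := by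
  intro e he W
  obtain ⟨C, hC⟩ := (hMER.2 e he).2 W
  refine ⟨max 3 (Real.exp (Real.exp (2 * (C + 27)))), fun y hy => (JHM.main e _).trans ?_⟩
  have h1 := hC y ((le_max_left _ _).trans hy)
  have h2 : 2 * (C + 27) ≤ Real.log (Real.log y) := by
    have h3 := (Real.le_log_iff_exp_le ((Real.exp_pos _).trans_le ((le_max_right _ _).trans hy))).2
      ((le_max_right _ _).trans hy)
    exact (Real.le_log_iff_exp_le ((Real.exp_pos _).trans_le h3)).2 h3
  have h4 : Real.exp (-((∑ v ∈ (pls K W y).filter (Ins (e : K)), (nv v)⁻¹) / 3)) ≤ 10⁻¹ := by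
    rw [Real.exp_neg]
    exact inv_anti₀ (by norm_num) (le_trans (by linarith) (Real.add_one_le_exp _))
  linarith

end Pool.Agent.P.MP_b8021b_nt.BJ
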