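import Pool.Agent.P.MP_b8021b_nt.BJ.StA

/-! The invariant of the tower exists, and the quartic symbol is a ray class character. -/

namespace Pool.Agent.P.MP_b8021b_nt.BJ

open NumberField IsDedekindDomain Finset MeasureTheory
open Pool.Agent.P.MP_b8021b_nt.VE Pool.Agent.P.MP_b8021b_nt.VC Pool.Agent.P.MP_b8021b_nt.BS.CF
open Pool.Agent.P.MP_b8021b_nt.BS Pool.Agent.P.MP_b8021b_nt.BP
open scoped Classical ComplexConjugate Real

theorem j_inv (_h : QX) (hHALF : J_HALF) (hGAU : J_GAU) (hCROSS : J_CROSS) : J_INV := by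
  intro L _ _ ι y hι hy
  obtain ⟨p, hp, hp2, -, hpy⟩ := ex_prime hy 1 one_ne_zero
  obtain ⟨ψ, n₁, -, H1⟩ := hHALF L ι y p hι hy hp hp2 hpy
  have h1 : n₁ ≠ 0 := by have := H1.two; omega
  obtain ⟨z, θ, n₂, v₁, F, hv, ho⟩ := hGAU L ι n₁ hι h1
  have h2 : n₂ ≠ 0 := by have := F.two; omega
  have hyz : y * z ≠ 0 := mul_ne_zero hy F.ne
  obtain ⟨p', hp', hp2', -, hpy'⟩ := ex_prime hyz 1 one_ne_zero
  obtain ⟨φ, n₃, -, H3⟩ := hHALF L ι (y * z) p' hι hyz hp' hp2' hpy'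
  have h3 : n₃ ≠ 0 := by have := H3.two; omega
  obtain ⟨c, hc, hval⟩ := hCROSS L ι y z ψ θ φ n₁ n₂ n₃ hι H1 F H3
  refine ⟨z, ψ * triv L (n₁ * n₂ * n₃), n₁ * n₂ * n₃, c,
    H1.mono ((dvd_mul_right n₁ n₂).mul_right n₃) (mul_ne_zero (mul_ne_zero h1 h2) h3), hc,
    fun v e e1 e2 => by rw [mul_triv e, hval v e e1 e2],
    v₁, fun e => hv (e.of_dvd H1.ev), ho, ?_⟩
  rw [od_eq_zero_of_vl v₁ ((vl_coe_eq v₁ y).2 (H1.unit v₁ hv))]
  exact Even.zero

namespace JINV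

theorem conj_of_sq_one {w : ℂ} (h : w ^ 2 = 1) : conj w = w := by
  have e : (w - 1) * (w + 1) = 0 := by linear_combination h
  rcases mul_eq_zero.1 e with e | e
  · rw [sub_eq_zero.1 e]; simp
  · rw [eq_neg_of_add_eq_zero_left e]; simp

theorem conj_of_sq_neg {w : ℂ} (h : w ^ 2 = -1) : conj w = -w := by
  have e : (w - Complex.I) * (w + Complex.I) = 0 := by
    linear_combination h - Complex.I_sq
  rcases mul_eq_zero.1 e with e | e
  · rw [sub_eq_zero.1 e]; simp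
  · rw [eq_neg_of_add_eq_zero_left e]; simp

end JINV

theorem j_qua (_h : QX) (_hQB1 : J_QB1) (hINV : J_INV) (hTOW3 : J_TOW3) : J_QUA := by
  intro L _ _ ι y hι hy
  obtain ⟨z, ψ, n, c, I⟩ := hINV L ι y hι hy
  have H := I.half
  rcases I.sgn with hc | hc
  · refine ⟨ψ, n, H.two, H.ev, H.ne, H.rc, H.unit, fun v e => ?_⟩
    rcases leg_of_not_mem (H.unit v e) with e1 | e1
    · exact H.res v e e1
    · rw [hTOW3 L ι y z ψ n c v hι I e e1, hc, one_mul]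
  · refine ⟨VC.cj ψ, n, H.two, H.ev, H.ne, H.rc.cj, H.unit, fun v e => ?_⟩
    have e0 : VC.cj ψ v.asIdeal = conj (ψ v.asIdeal) := rfl
    rw [e0]
    rcases leg_of_not_mem (H.unit v e) with e1 | e1
    · rw [JINV.conj_of_sq_one ((H.sq v e).trans e1)]
      exact H.res v e e1
    · rw [JINV.conj_of_sq_neg ((H.sq v e).trans e1), hTOW3 L ι y z ψ n c v hι I e e1, hc,
        neg_one_mul]

end Pool.Agent.P.MP_b8021b_nt.BJ
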