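import Pool.Agent.P.MP_b8021b_nt.BJ.StA
import Pool.Agent.P.MP_b8021b_nt.BS.PSel

/-! The auxiliary places that kill the Selmer group. -/

namespace Pool.Agent.P.MP_b8021b_nt.BJ

open NumberField IsDedekindDomain Finset MeasureTheory
open Pool.Agent.P.MP_b8021b_nt.VE Pool.Agent.P.MP_b8021b_nt.VC Pool.Agent.P.MP_b8021b_nt.BS.CF
open Pool.Agent.P.MP_b8021b_nt.BS Pool.Agent.P.MP_b8021b_nt.BP
open scoped Classical ComplexConjugate Real

variable {k : Type} [Field k] [NumberField k] [Algebra k ℂ] {K : Type} [Field K] [NumberField K]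
  [Algebra k K]

namespace JKIL0

open PSel

/-- the classes that satisfy the local conditions -/
def Sl (n : ℕ) (𝓛 : K → Prop) (x : K) : Prop :=
  x ≠ 0 ∧ (∀ v : Pl K, ¬ Dv n v → Even (od v x)) ∧ 𝓛 x

/-- there are `m` independent classes -/
def Pm (n : ℕ) (e : K) (𝓛 : K → Prop) (m : ℕ) : Prop :=
  ∃ y : Fin m → K, (∀ i, Sl n 𝓛 (y i)) ∧ Idp (Fin.cons e y : Fin (m + 1) → K)

theorem pm0 (n : ℕ) {e : K} (h : ¬ IsSquare e) (𝓛 : K → Prop) : Pm n e 𝓛 0 := by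
  have h0 : e ≠ 0 := fun e0 => h ⟨0, by simp [e0]⟩
  refine ⟨Fin.elim0, fun i => i.elim0, fun c ⟨z, hz⟩ i => ?_⟩
  obtain ⟨z', hz'⟩ := red (fun i => by
    refine Fin.cases ?_ (fun j => j.elim0) i
    exact h0) hz
  obtain rfl : i = 0 := Fin.fin_one_eq_zero i
  by_contra hn
  rw [Fin.prod_univ_succ, Fin.prod_univ_zero, mul_one, Nat.two_dvd_ne_zero.1 hn, pow_one] at hz'
  exact h ⟨z', by rw [← sq]; exact hz'⟩

theorem pm1 (hes : Z_ES) {n : ℕ} (hn : n ≠ 0) (e : K) (𝓛 : K → Prop) : ∃ M, ¬ Pm n e 𝓛 M := by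
  obtain ⟨Y, hY⟩ := (hes K).2 n 2 hn two_ne_zero
  refine ⟨Y.card + 1, fun ⟨y, hy, hI⟩ => ?_⟩
  choose f hf z hz using fun i => hY (y i) (hy i).1 fun v hv => ((hy i).2.1 v hv).two_dvd
  obtain ⟨i, -, j, -, hij, e⟩ := exists_ne_map_eq_of_card_lt_of_maps_to
    (s := (univ : Finset (Fin (Y.card + 1)))) (t := Y) (by simp) (f := f) fun i _ => hf i
  have := hI (Fin.cons 0 (Pi.single i 1 + Pi.single j 1)) ⟨f i * z i * z j, by
    rw [Fin.prod_univ_succ]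
    simp only [Fin.cons_zero, Fin.cons_succ, pow_zero, one_mul, Pi.add_apply, pow_add,
      prod_mul_distrib]
    rw [prod_eq_single i (fun b _ hb => by simp [hb]) (by simp),
      prod_eq_single j (fun b _ hb => by simp [hb]) (by simp)]
    simp only [Pi.single_eq_same, pow_one]
    rw [hz i, hz j, ← e]
    ring⟩ i.succ
  simp [hij] at this

end JKIL0

open PSel in
theorem j_kil0 (c : Cx k K) (Y : Yb k K) (hPAIR : J_PAIR K) : J_KIL0 K := by
  intro n ζ e 𝓛 hn0 hn2 hG he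
  have _ := Y
  have e0 : e ≠ 0 := fun e0 => he ⟨0, by simp [e0]⟩
  obtain ⟨M, hM⟩ := JKIL0.pm1 c.lib.es hn0 e 𝓛
  obtain ⟨m, ⟨y, hy, hI⟩, hmax⟩ := ex_max (JKIL0.pm0 n he 𝓛) M hM
  have hw : ∀ i, (Fin.cons e y : Fin (m + 1) → K) i ≠ 0 := Fin.cases e0 fun i => (hy i).1
  obtain ⟨ϖ, hϖ⟩ := c.lib.c K 2 n (m + 1) _ c.om (Or.inl rfl) hn0 hw hI
  have pζ : ∀ j : Fin m, LP 2 (ϖ j.succ) e := fun j => ((hϖ _).2 0).2 (Fin.succ_ne_zero j).symm
  have py : ∀ i j : Fin m, LP 2 (ϖ j.succ) (y i) ↔ i ≠ j := fun i j =>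
    ((hϖ _).2 i.succ).trans (by simp)
  refine ⟨univ.image fun j : Fin m => ϖ j.succ, fun v hv => ?_, fun x hL ho hV => ?_⟩
  · obtain ⟨j, -, rfl⟩ := mem_image.1 hv
    exact ⟨(hϖ _).1, pζ j⟩
  have hx := hG.ne x hL
  have hin : ∀ j : Fin m, Even (od (ϖ j.succ) x) := fun j => by
    by_contra hodd
    have h0 := hG.iso _ _ (hy j).2.2 hL
    rw [(hPAIR n hn0 hn2).2.2.2.2.2 (y j) x {ϖ j.succ} (by simpa using (hϖ j.succ).1)
      (fun v hv hne => ?_), sum_singleton,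
      RecP.sy_eo (fun h => (hϖ j.succ).1 (h.of_dvd hn2))
        ((hy j).2.1 _ (hϖ j.succ).1).two_dvd (fun h => hodd (even_iff_two_dvd.2 h)),
      if_neg fun h => (py j j).1 h rfl] at h0
    · exact one_ne_zero h0
    by_cases hm : v ∈ univ.image fun j : Fin m => ϖ j.succ
    · obtain ⟨i, -, rfl⟩ := mem_image.1 hm
      rw [RecP.sy_comm]
      exact RecP.sy_lp _ ((py j i).2 fun h => hne (by rw [h]; exact mem_singleton_self _))
    · exact RecP.sy_even ((hy j).2.1 v hv).two_dvd (ho v hv hm).two_dvd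
  have hS : JKIL0.Sl n 𝓛 x := ⟨hx, fun v hv => by
    by_cases hm : v ∈ univ.image fun j : Fin m => ϖ j.succ
    · obtain ⟨i, -, rfl⟩ := mem_image.1 hm
      exact hin i
    · exact ho v hv hm, hL⟩
  have px : ∀ j : Fin m, LP 2 (ϖ j.succ) x := fun j =>
    hV _ (mem_image.2 ⟨j, mem_univ _, rfl⟩) (hin j)
  have hn : ¬ Idp (Fin.cons e (Fin.cons x y : Fin (m + 1) → K) : Fin (m + 2) → K) := fun h =>
    hmax ⟨Fin.cons x y, Fin.cases hS hy, h⟩
  simp only [Idp, not_forall] at hn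
  obtain ⟨a, ⟨z, hz⟩, i₀, hi₀⟩ := hn
  have hw' : ∀ i, (Fin.cons e (Fin.cons x y : Fin (m + 1) → K) : Fin (m + 2) → K) i ≠ 0 :=
    Fin.cases e0 (Fin.cases hx fun i => (hy i).1)
  obtain ⟨z', hz'⟩ := red hw' hz
  have hz0 : z' ≠ 0 := fun h0 => by
    rw [h0, zero_pow two_ne_zero] at hz'
    exact prod_ne_zero_iff.2 (fun i _ => pow_ne_zero _ (hw' i)) hz'
  simp only [Fin.prod_univ_succ, Fin.cons_zero, Fin.cons_succ] at hz'
  have hev : ∀ j : Fin m, a j.succ.succ % 2 = 0 := fun j => by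
    by_contra ho
    have h1 := ((LP.pow_self (ϖ j.succ) two_ne_zero hz0).div
      ((pζ j).pow two_ne_zero (a 0 % 2))).div ((px j).pow two_ne_zero (a (Fin.succ 0) % 2))
    have h2 : LP 2 (ϖ j.succ) (∏ i ∈ univ.erase j, y i ^ (a i.succ.succ % 2)) :=
      LP.prod two_ne_zero _ fun i hi => ((py i j).2 (ne_of_mem_erase hi)).pow two_ne_zero _
    have h3 := h1.div h2
    rw [← hz', ← mul_prod_erase univ _ (mem_univ j), Nat.mod_two_ne_zero.1 ho, pow_one,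
      mul_div_cancel_left₀ _ (pow_ne_zero _ e0), mul_div_cancel_left₀ _ (pow_ne_zero _ hx),
      mul_div_cancel_right₀ _ h2.ne_zero] at h3
    exact (py j j).1 h3 rfl
  simp only [hev, pow_zero, prod_const_one, mul_one] at hz'
  rcases Nat.mod_two_eq_zero_or_one (a 0) with h0 | h0 <;>
    rcases Nat.mod_two_eq_zero_or_one (a (Fin.succ 0)) with h1 | h1 <;>
    simp only [h0, h1, pow_zero, pow_one, one_mul, mul_one] at hz'
  · refine absurd (Nat.dvd_of_mod_eq_zero ?_) hi₀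
    exact Fin.cases h0 (Fin.cases h1 hev) i₀
  · exact Or.inl ⟨z', by rw [hz', sq]⟩
  · exact absurd ⟨z', by rw [hz', sq]⟩ he
  · exact Or.inr ⟨z', by rw [hz', sq]⟩

end Pool.Agent.P.MP_b8021b_nt.BJ
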