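import Pool.Agent.P.MP_b8021b_nt.BJ.StA
import Pool.Agent.P.MP_b8021b_nt.BP.PLG

/-! The large indices in the first moment. -/

namespace Pool.Agent.P.MP_b8021b_nt.BJ

open NumberField IsDedekindDomain Finset MeasureTheory
open Pool.Agent.P.MP_b8021b_nt.VE Pool.Agent.P.MP_b8021b_nt.VC Pool.Agent.P.MP_b8021b_nt.BS.CF
open Pool.Agent.P.MP_b8021b_nt.BS Pool.Agent.P.MP_b8021b_nt.BP
open scoped Classical ComplexConjugate Real

variable {k : Type} [Field k] [NumberField k] [Algebra k ℂ] {K : Type} [Field K] [NumberField K]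
  [Algebra k K]

set_option linter.unusedSectionVars false
set_option linter.unusedVariables false

namespace JLG

open PLG

theorem adg {n : ℕ} {χ Ψ : Ideal (𝓞 K) →* ℂ} {ℓ : ℝ} (hχ : Ch n χ) (hΨ : Ch n Ψ) (hℓ : 0 < ℓ)
    (hEV0 : Y_EV0) (a b : ℝ) {Γ : Finset (Pl K)} {τ : 𝓞 K} (hτ : τ ≠ 0) (hΓ : Γ ⊆ pr τ)
    {a₁ a₂ : 𝓞 K → ℂ} (h1 : ∀ t, ‖a₁ t‖ ≤ 1) (h2 : ∀ t, ‖a₂ t‖ ≤ 1) {F : PF K}
    (hF : ∑ D ∈ P2 Γ, F D ^ 2 ≤ 1) :
    Adg n Γ a₁ a₂ F fun S => jac τ (eI S) * ∏ v ∈ S,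
      Od (cf Ψ (sx ℓ a) v) (cf χ (sx ℓ b) v) / Ev (cf Ψ (sx ℓ a) v) (cf χ (sx ℓ b) v) := by
  refine ⟨h1, h2, hF, fun S => ?_, fun S hS => ⟨disjoint_left.2 fun v hv hv' => ?_, fun v hv hn => ?_⟩⟩
  · rw [norm_mul, norm_prod]
    refine (mul_le_of_le_one_left (prod_nonneg fun _ _ => norm_nonneg _) (norm_jac_le _ _)).trans ?_
    rw [nS_eq, Real.sqrt_prod _ fun v _ => (nv_pos v).le, ← prod_const, ← prod_div_distrib]
    refine prod_le_prod (fun _ _ => norm_nonneg _) fun v _ => ?_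
    rw [div_eq_mul_inv (4 : ℝ)]
    linarith [(hEV0 _ _ (norm_cf_sq hΨ.bd (re_sx hℓ a) v)
      (norm_cf_sq hχ.bd (re_sx hℓ b) v)).2.2.2.2.1, norm_dif hχ hΨ hℓ a b v]
  · refine left_ne_zero_of_mul hS ?_
    rw [jac_eI]
    exact prod_eq_zero hv (leg_eq_zero.2 ((mem_pr hτ).1 (hΓ hv')))
  · refine right_ne_zero_of_mul hS (prod_eq_zero hv ?_)
    simp [cf, hχ.zero v hn, hΨ.zero v hn, Od]

theorem pointg {e o : Pl K → ℂ} (he : ∀ v, e v ≠ 0) {U : Finset (Pl K)} {𝒮 : Finset (Finset (Pl K))}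
    (hS : ∀ S ∈ 𝒮, S ⊆ U) {τ : 𝓞 K} {T₁ T₂ : Finset (𝓞 K)} (hτ : τ ≠ 0) (n1 : ∀ t ∈ T₁, t ≠ 0)
    (n2 : ∀ t ∈ T₂, t ≠ 0) (c1 : ∀ t ∈ T₁, IsCoprime τ t) (c2 : ∀ t ∈ T₂, IsCoprime τ t)
    (c3 : ∀ t ∈ T₁, ∀ t' ∈ T₂, IsCoprime t t') (F : PF K) (Γ : Finset (Pl K))
    (H z : ℂ) (u₁ u₂ : 𝓞 K → ℂ) :
    ∑ t ∈ T₁, ∑ t' ∈ T₂, wG F Γ t t' * ∑ S ∈ 𝒮, jac (τ * t * t') (eI S) *
      (H * u₁ t * u₂ t' * z * ((∏ v ∈ S, o v) * ∏ v ∈ (U \ S) \ pr (τ * t * t'), e v)) =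
      H * z * (∏ v ∈ U, e v) * iv e U (pr τ) * 729 *
        bg T₁ T₂ (fun t => if t ∈ T₁ then u₁ t * iv e U (pr t) / 27 else 0)
          (fun t => if t ∈ T₂ then u₂ t * iv e U (pr t) / 27 else 0) F Γ
          (fun S => jac τ (eI S) * ∏ v ∈ S, o v / e v) 𝒮 := by
  rw [bg, mul_sum]
  refine sum_congr rfl fun t ht => ?_
  rw [mul_sum]
  refine sum_congr rfl fun t' ht' => ?_
  rw [if_pos ht, if_pos ht', mul_sum, mul_sum, mul_sum]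
  refine sum_congr rfl fun S hS' => ?_
  have h := term (o := o) he (hS S hS') hτ (n1 t ht) (n2 t' ht') (c1 t ht) (c2 t' ht') (c3 t ht t' ht')
  linear_combination (wG F Γ t t' * (H * u₁ t * u₂ t' * z)) * h

end JLG

open PLG JLG in
theorem j_lg (c : Cx k K) (Y : Yb k K) (hBIL : J_BIL k K) : J_LG k K := by
  have hEV0 := Y.ev0
  intro n 𝒜 h C₀ C₁ j hn hh hC₁
  obtain ⟨C, hC, hB⟩ := hBIL n 𝒜 C₀ hn
  set g : ℝ → ℝ := fun a => (1 + |a|) ^ j * ‖h a‖ with hg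
  set M : ℝ := C₁ * C₁ * Real.exp (8 * C₀) * 729 * C with hM
  have hM0 : 0 ≤ M := by positivity
  have hI : 0 ≤ ∫ a, g a := integral_nonneg fun a => by positivity
  refine ⟨1 + M * ((∫ a, g a) * ∫ a, g a), le_add_of_nonneg_right (by positivity), fun R hR => ?_⟩
  obtain ⟨X₁, hB⟩ := hB R hR
  obtain ⟨X₂, h3, hX₂⟩ := c.ev_el 1
  refine ⟨max X₁ X₂, fun X y₁ y₂ χ Ψ Γ τ T₁ T₂ F H u₁ u₂ 𝒮 hX hχ hΨ hE hc hF hH hHb hu₁ hu₂ h𝒮 => ?_⟩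
  have hX1 : X₁ ≤ X := (le_max_left _ _).trans hX
  have hX2 : X₂ ≤ X := (le_max_right _ _).trans hX
  have hℓ : 0 < el k K X := one_pos.trans_le (hX₂ X hX2)
  obtain ⟨-, -, hy1, hy2⟩ := c.lo hc.toPair (by linarith)
  set Q : ℝ := R ^ (-(1 / 4 : ℝ)) * (y₁ * y₂ / Real.log X ^ 2) with hQ
  have hQ0 : 0 ≤ Q := by positivity
  rw [mul_assoc, ← hQ]
  rcases T₁.eq_empty_or_nonempty with rfl | ⟨t₀, ht₀⟩
  · simp only [sum_empty, norm_zero]; positivity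
  rcases T₂.eq_empty_or_nonempty with rfl | ⟨t₀', ht₀'⟩
  · simp only [sum_empty, sum_const_zero, norm_zero]; positivity
  have hτ : τ ≠ 0 := hc.pri.ne_zero
  have n1 : ∀ t ∈ T₁, t ≠ 0 := fun t ht => (hc.b1.pri t ht).ne_zero
  have n2 : ∀ t ∈ T₂, t ≠ 0 := fun t ht => (hc.b2.pri t ht).ne_zero
  have hlw : lw (pr τ) ≤ C₀ := by
    refine (lw_mono ?_).trans (hc.tame t₀ ht₀ t₀' ht₀')
    rw [mul_assoc, pr_mul hτ (mul_ne_zero (n1 _ ht₀) (n2 _ ht₀'))]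
    exact subset_union_left
  have hi : Integrable fun p : ℝ × ℝ => M * Q * (g p.1 * g p.2) :=
    ((hh.int j).mul_prod (hh.int j)).const_mul _
  simp only [dX, dd]
  rw [swap T₁ T₂ 𝒮 _ _ _ fun t ht t' ht' S _ => integrable_term hχ hΨ hℓ hEV0 hh
    (G := fun b => H b * u₁ t b * u₂ t' b) ((hH.mul (hu₁ t ht).1).mul (hu₂ t' ht').1) (C₁ := C₁)
    (fun b => by
      rw [norm_mul, norm_mul]
      exact (mul_le_of_le_one_right (by positivity) ((hu₂ t' ht').2 b)).trans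
        ((mul_le_of_le_one_right (norm_nonneg _) ((hu₁ t ht).2 b)).trans (hHb b))) _ _]
  refine (norm_integral_le_of_norm_le hi (ae_of_all _ fun p => ?_)).trans ?_
  swap
  · rw [integral_const_mul, Measure.volume_eq_prod, integral_prod_mul]
    nlinarith
  obtain ⟨b, a⟩ := p
  have E := fun v : Pl K => hEV0 _ _ (norm_cf_sq hΨ.bd (re_sx hℓ a) v)
    (norm_cf_sq hχ.bd (re_sx hℓ b) v)
  have e3 := fun v => (E v).2.1
  have e4 : ∀ v : Pl K, ‖(Ev (cf Ψ (sx (el k K X) a) v) (cf χ (sx (el k K X) b) v))⁻¹ - 1‖ ≤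
      4 * (nv v)⁻¹ := fun v => by
    refine (E v).2.2.2.2.2.2.1.trans ?_
    have h1 := mul_le_mul (norm_cf hχ.bd (re_sx hℓ b) v) (norm_dif hχ hΨ hℓ a b v) (norm_nonneg _)
      (by positivity)
    have h2 : (√(nv v))⁻¹ * (√(nv v))⁻¹ = (nv v)⁻¹ := by
      rw [← mul_inv, Real.mul_self_sqrt (nv_pos v).le]
    nlinarith
  have hb := hB X y₁ y₂ Γ T₁ T₂ _ _ F _ 𝒮 hX1 hc.toPair (adg hχ hΨ hℓ hEV0 a b hτ hc.sub
    (norm_co e3 (PP K (el k K X)) (fun t ht => hc.b1.card_pr ht) fun t ht => (hu₁ t ht).2 b)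
    (norm_co e3 (PP K (el k K X)) (fun t ht => hc.b2.card_pr ht) fun t ht => (hu₂ t ht).2 b) hF)
    fun S hS => (h𝒮 S hS).2
  rw [mul_assoc, ← hQ] at hb
  have h1 := (norm_iv' e4 (PP K (el k K X)) (pr τ)).trans
    (Real.exp_le_exp.2 (mul_le_mul_of_nonneg_left hlw (by norm_num)))
  have h2 := (hE a b).trans (mul_le_mul_of_nonneg_left (pow_le a b j) hC₁)
  simp only [OdP, EvP] at h2 ⊢
  rw [pointg (fun v => (E v).1) (fun S hS => (h𝒮 S hS).1) hτ n1 n2 hc.c1 hc.c2 hc.c12 F Γ (H b) (h a)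
    (fun t => u₁ t b) fun t => u₂ t b]
  simp only [norm_mul, Complex.norm_ofNat]
  calc _ ≤ C₁ * ‖h b‖ * ‖h a‖ * (C₁ * ((1 + |b|) ^ j * (1 + |a|) ^ j)) * Real.exp (8 * C₀) * 729 *
        (C * Q) := by
        have := hHb b
        gcongr
    _ = _ := by simp only [hM, hg]; ring

end Pool.Agent.P.MP_b8021b_nt.BJ
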