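import Pool.Agent.P.MP_b8021b_nt.BJ.StA
import Pool.Agent.P.MP_b8021b_nt.BP.PLIN

/-! The local condition at a sensitive place. -/

namespace Pool.Agent.P.MP_b8021b_nt.BJ

open NumberField IsDedekindDomain Finset MeasureTheory
open Pool.Agent.P.MP_b8021b_nt.VE Pool.Agent.P.MP_b8021b_nt.VC Pool.Agent.P.MP_b8021b_nt.BS.CF
open Pool.Agent.P.MP_b8021b_nt.BS Pool.Agent.P.MP_b8021b_nt.BP
open scoped Classical ComplexConjugate Real

variable {k : Type} [Field k] [NumberField k] [Algebra k ℂ] {K : Type} [Field K] [NumberField K]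
  [Algebra k K]

set_option linter.unusedSectionVars false
set_option linter.unusedVariables false

namespace JLIN

open PVal PLIN

theorem val (hK : Om K) {ζ t x y : K} {v : Pl K} (hv : ¬ Dv 2 v) (z0 : ζ ≠ 0) (hζ : od v ζ = 0)
    (ht : t ≠ 0) (hx : x ≠ 0) (h : y ^ 2 = x ^ 3 - ζ * t ^ 2 * x) :
    (Even (od v t) → Even (od v x)) ∧ (¬ LP 2 v ζ → Even (od v x)) ∧
      (Odd (od v t) → LP 2 v ζ → Even (od v x) → LP 2 v x) := by
  obtain ⟨i, hi⟩ := hK
  have i0 : i ≠ 0 := by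
    rintro rfl
    simp at hi
  have e0 : ζ * t ^ 2 / x ^ 2 ≠ 0 := div_ne_zero (mul_ne_zero z0 (pow_ne_zero 2 ht)) (pow_ne_zero 2 hx)
  have eo : od v (ζ * t ^ 2 / x ^ 2) = 2 * (od v t - od v x) := by
    rw [od_div v (mul_ne_zero z0 (pow_ne_zero 2 ht)) (pow_ne_zero 2 hx),
      od_mul v z0 (pow_ne_zero 2 ht), od_pow, od_pow, hζ]
    push_cast
    ring
  have h1 : y ^ 2 = x * x ^ 2 * (1 - ζ * t ^ 2 / x ^ 2) := by
    rw [h]
    field_simp
  rcases lt_trichotomy (od v x) (od v t) with l | l | l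
  · have : LP 2 v x := lp_of hx ((LP.pow_self v two_ne_zero hx).mul
      (lp_one_sub hv ((od_pos_iff v e0).1 (by rw [eo]; omega)))) (by rw [h1, mul_assoc])
    exact ⟨fun _ => PVal.lp_even this, fun _ => PVal.lp_even this, fun _ _ _ => this⟩
  · refine ⟨fun e => l ▸ e, fun n => ?_, fun o _ e => absurd (l ▸ e) (Int.not_even_iff_odd.2 o)⟩
    have e1 : vl v (ζ * t ^ 2 / x ^ 2) = 1 := (od_eq_zero_iff v e0).1 (by rw [eo]; omega)
    refine even_of hx hx (le_antisymm ?_ (not_lt.1 fun l' => n ?_)) h1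
    · exact Valuation.map_sub_le _ (by simp) e1.le
    · have h2 : LP 2 v (ζ * t ^ 2 / x ^ 2) := by simpa using lp_one_sub hv l'
      refine lp_of (y := ζ) z0 ((h2.mul (LP.pow_self v two_ne_zero hx)).div
        (LP.pow_self v two_ne_zero ht)) ?_
      field_simp
  · have l1 : vl v (ζ * t ^ 2 / x ^ 2)⁻¹ < 1 :=
      (od_pos_iff v (inv_ne_zero e0)).1 (by rw [od_inv, eo]; omega)
    have h2 : y ^ 2 = x * (i * t) ^ 2 * (ζ * (1 - (ζ * t ^ 2 / x ^ 2)⁻¹)) := by
      rw [h, mul_pow, hi]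
      field_simp
      ring
    have ev : Even (od v x) := even_of hx (mul_ne_zero i0 ht) (by
      rw [map_mul, (od_eq_zero_iff v z0).1 hζ, one_mul]
      exact vl_of_near v (by simpa using l1)) h2
    exact ⟨fun _ => ev, fun _ => ev, fun _ p _ => lp_of hx ((LP.pow_self v two_ne_zero
      (mul_ne_zero i0 ht)).mul (p.mul (lp_one_sub hv l1))) (by rw [h2, mul_assoc])⟩

theorem lin_iff (hK : Om K) {ζ s : K} {v : Pl K} (hv : ¬ Dv 2 v) (h1 : vl v ζ = 1)
    (hs : vl v (s ^ 2 - ζ) < 1) (T x : K) : Lin ζ v T x ↔ LP 2 v x ∨ LP 2 v (x * (s * T)) := by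
  refine or_congr_right ⟨fun ⟨s', a, b⟩ => ?_, fun h => ⟨s, hs, by rwa [mul_assoc]⟩⟩
  exact cancel (b.mul (roots hK hv h1 a hs)) (lp_sq v (root h1 a).1) (by ring)

end JLIN

theorem j_val (c : Cx k K) (Y : Yb k K) : J_VAL K := by
  intro ζ t x y ht hx h
  refine ⟨fun v hv z0 hζ => JLIN.val c.om hv z0 hζ ht hx h, fun m hy hm v hv => ⟨x / t, ?_, ?_⟩⟩
  · refine PLIN.cancel (lp_sq v hy) ((lp_sq v ht).mul (hm v hv)) ?_
    rw [h]
    field_simp
  · refine PLIN.cancel (lp_sq v hx) (hm v hv) ?_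
    field_simp

open PLIN JLIN RecP in
theorem j_lin (c : Cx k K) (Y : Yb k K) : J_LIN K := by
  intro ζ T v hv hs hζ hT ho
  have h1 : vl v ζ = 1 := (od_eq_zero_iff v hs.ne_zero).1 hζ
  have hR := c.lib.res
  have two : ∀ a b : K, a ≠ 0 → b ≠ 0 → Even (od v a) → Even (od v b) → ¬ LP 2 v a → ¬ LP 2 v b →
      LP 2 v (a * b) := fun a b a0 b0 ea eb => (hR K v).2.2 a b hv a0 b0 ea.two_dvd eb.two_dvd
  obtain ⟨s, hs'⟩ : ∃ s, vl v (s ^ 2 - ζ) < 1 := by
    have z0 := hs.ne_zero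
    rw [LP, (vl_nat_eq v).2 hv, one_pow] at hs
    obtain ⟨z, hz⟩ := hs
    have e := vl_of_near v hz
    have e0 : z ^ 2 ≠ 0 := fun e' => by simp [e'] at e
    rw [map_div₀, h1, one_div, inv_eq_one] at e
    refine ⟨z, ?_⟩
    rwa [← neg_sub, Valuation.map_neg, ← div_mul_cancel₀ (ζ - z ^ 2) e0, map_mul, e, mul_one,
      sub_div, div_self e0]
  have L := lin_iff c.om hv h1 hs'
  obtain ⟨s0, s1⟩ := root h1 hs'
  have p0 : s * T ≠ 0 := mul_ne_zero s0 hT
  have p1 : Odd (od v (s * T)) := by rwa [od_mul v s0 hT, s1, zero_add]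
  have p2 := lp_sq v p0
  have oe : ∀ a : K, a ≠ 0 → Odd (od v a) → Even (od v (a * (s * T))) := fun a a0 h => by
    rw [od_mul v a0 p0]; exact h.add_odd p1
  have eo : ∀ a : K, a ≠ 0 → Even (od v a) → Odd (od v (a * (s * T))) := fun a a0 h => by
    rw [od_mul v a0 p0]; exact h.add_odd p1
  have tw : ∀ a T' : K, a * (s * T') = a * (s * T) * (T' / T) := fun a T' => by field_simp
  refine ⟨fun x y hx e => ?_, fun a b ha hb => ?_, fun b hb he => ?_,
    fun a b T' h0 eu hu ha hb oa ob => ?_, fun b T' b0 h0 eu hu ob => ?_,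
    fun a b a0 b0 ha hb => ?_, fun b w u hu hw hb => ?_⟩
  · rcases Int.even_or_odd (od v x) with h | h
    · exact Or.inl ((val c.om hv hs.ne_zero hζ hT hx e).2.2 ho hs h)
    refine Or.inr ⟨x / T, ?_, by
      rw [show x * (x / T) * T = x ^ 2 by field_simp]; exact LP.pow_self v two_ne_zero hx⟩
    have e' : y ^ 2 = x * T ^ 2 * ((x / T) ^ 2 - ζ) := by rw [e]; field_simp
    generalize x / T = s at e' ⊢
    by_cases h0 : s ^ 2 - ζ = 0
    · simp [h0]
    have h2 := congrArg (od v) e'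
    rw [od_mul v (mul_ne_zero hx (pow_ne_zero 2 hT)) h0, od_mul v hx (pow_ne_zero 2 hT), od_pow,
      od_pow] at h2
    obtain ⟨j, hj⟩ := h
    rcases le_or_gt (vl v (s ^ 2)) 1 with h3 | h3
    · have := (od_nonneg_iff v h0).2 ((vl v).map_sub_le h3 h1.le)
      exact (od_pos_iff v h0).1 (by omega)
    · have := od_eq_of_vl v ((vl v).map_sub_eq_of_lt_left (h1 ▸ h3 : vl v ζ < vl v (s ^ 2)))
      rw [od_pow] at this
      omega
  · have a0 := lin_ne ha
    have b0 := lin_ne hb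
    rw [L] at ha hb ⊢
    rcases hb with hb | hb
    · exact ⟨by rwa [mul_right_comm, lp_mul_iff hb, lp_mul_iff hb], sy_lp a hb⟩
    rcases ha with ha | ha
    · exact ⟨Or.inr (by rw [mul_assoc]; exact ha.mul hb), by rw [sy_comm, sy_lp b ha]⟩
    have h4 : LP 2 v (a * b) := cancel (ha.mul hb) p2 (by ring)
    have h5 := sy_lp a h4
    rw [sy_mul hR v a a0 b0, sy_self, zero_add] at h5
    exact ⟨Or.inl h4, h5⟩
  · exact ((L T b).1 hb).resolve_right (not_lp (eo b (lin_ne hb) he))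
  · have a0 := lin_ne ha
    have b0 := lin_ne hb
    have u0 := div_ne_zero h0 hT
    have h2 := ((L _ _).1 ha).resolve_left (not_lp oa)
    have h3 := ((L _ _).1 hb).resolve_left (not_lp ob)
    rw [tw] at h3
    have h5 := sy_lp a (cancel (z := a * (b * (T' / T))) (h2.mul h3) p2 (by ring))
    rw [sy_mul hR v a a0 (mul_ne_zero b0 u0), sy_mul hR v a b0 u0, sy_self, zero_add,
      sy_comm v a (T' / T), sy_eo hv eu.two_dvd (by rwa [← even_iff_two_dvd, Int.not_even_iff_odd]),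
      if_neg hu] at h5
    revert h5
    generalize sy v a b = z
    decide +revert
  · rw [L, L, tw b T']
    by_cases h : LP 2 v (b * (s * T))
    · exact Or.inl (Or.inr h)
    · exact Or.inr (Or.inr (two _ _ (mul_ne_zero b0 p0) (div_ne_zero h0 hT) (oe b b0 ob) eu h hu))
  · rw [L, not_or] at ha hb
    rw [L]
    rcases Int.even_or_odd (od v a) with ea | ea <;> rcases Int.even_or_odd (od v b) with eb | eb
    · exact Or.inl (two a b a0 b0 ea eb ha.1 hb.1)
    · exact Or.inr (mul_assoc a b _ ▸ two a _ a0 (mul_ne_zero b0 p0) ea (oe b b0 eb) ha.1 hb.2)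
    · exact Or.inr (mul_right_comm a _ b ▸ two _ b (mul_ne_zero a0 p0) b0 (oe a a0 ea) eb ha.2 hb.1)
    · exact Or.inl (cancel (two _ _ (mul_ne_zero a0 p0) (mul_ne_zero b0 p0) (oe a a0 ea)
        (oe b b0 eb) ha.2 hb.2) p2 (by ring))
  · have b0 := lin_ne hb
    have w0 := right_ne_zero_of_mul hw.ne_zero
    have u0 : (u : K) ≠ 0 := fun e => hu (by simp [RingOfIntegers.coe_eq_zero_iff.1 e])
    rw [L, show b * (s * (T * u)) = b * (s * T) * u by ring] at hb
    refine ⟨fun eb hw' => (leg_eq_one_iff_LP hv hw').2 (cancel hw (hb.resolve_right (not_lp ?_))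
      (mul_comm _ _)), fun ob => ?_⟩
    · rw [od_mul v (mul_ne_zero b0 p0) u0, TopL.od_zero hu, add_zero]
      exact eo b b0 eb
    have h2 : LP 2 v (w * (s * T) * u) :=
      cancel (hw.mul (hb.resolve_left (not_lp ob))) (lp_sq v b0) (by ring)
    have h3 : Odd (od v (w : K)) := by
      have := lp_even hw
      rw [od_mul v b0 w0] at this
      exact (Int.even_add'.1 this).1 ob
    rw [leg_eq_neg_iff hv hu, L, or_iff_right (not_lp h3), not_iff_not]
    exact ⟨fun e => cancel h2 e rfl, fun e => cancel h2 e (mul_comm _ _)⟩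

end Pool.Agent.P.MP_b8021b_nt.BJ
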