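import Pool.Agent.P.MP_b8021b_nt.BJ.StA
import Pool.Agent.P.MP_b8021b_nt.BP.PMER
import Pool.Agent.P.MP_b8021b_nt.BP.PBLK

/-! Primes at which an element is or is not a square. -/

namespace Pool.Agent.P.MP_b8021b_nt.BJ

open NumberField IsDedekindDomain Finset MeasureTheory
open Pool.Agent.P.MP_b8021b_nt.VE Pool.Agent.P.MP_b8021b_nt.VC Pool.Agent.P.MP_b8021b_nt.BS.CF
open Pool.Agent.P.MP_b8021b_nt.BS Pool.Agent.P.MP_b8021b_nt.BP
open scoped Classical ComplexConjugate Real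

variable {k : Type} [Field k] [NumberField k] [Algebra k ℂ] {K : Type} [Field K] [NumberField K]
  [Algebra k K]

set_option linter.unusedSectionVars false
set_option linter.unusedVariables false

namespace JMER

/-- the quadratic character of a non-square -/
theorem chi (c : Cx k K) {ζ : K} (h : ¬ IsSquare ζ) : ∃ (N : ℕ) (χ : Ideal (𝓞 K) →* ℂ), 2 ≤ N ∧
    RC N χ ∧ ¬ IsTriv N χ ∧ (∃ C : ℝ, ∀ s : ℝ, 1 < s → s ≤ 2 → -C ≤ dsum (lam χ) s) ∧
    ∀ v : Pl K, ¬ Dv N v → (1 + 1 * (χ v.asIdeal).re) / 2 ≤ (if Sens ζ v then 1 else 0) ∧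
      (1 + -1 * (χ v.asIdeal).re) / 2 ≤ if Ins ζ v then 1 else 0 := by
  have z0 : ζ ≠ 0 := fun e => h (e ▸ IsSquare.zero)
  obtain ⟨n, n0, n2, hn⟩ := ex_mod ζ 2 two_ne_zero
  have h2 : 2 ≤ n := Nat.le_of_dvd (Nat.pos_of_ne_zero n0) n2
  obtain ⟨j, χ, hj, hχ, hv, hlow⟩ := c.lib.chi K n ζ c.om h2 n2 z0
    fun v e => by rw [hn v e]; exact dvd_zero _
  refine ⟨n ^ j, χ, h2.trans (Nat.le_self_pow (by omega) _), hχ, fun e => ?_,
    hlow (not_sq_iff.2 h), fun v e => ?_⟩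
  · obtain ⟨v, -, d, l⟩ := c.lib.c1 K 2 n ζ c.om (Or.inl rfl) n0 (not_sq_iff.2 h)
    have := e _ ((cop_prime_iff v).2 fun e' => d ((dv_pow v hj).1 e'))
    rw [hv v d, if_neg l] at this
    norm_num at this
  · rw [dv_pow v hj] at e
    have d : ¬ Dv 2 v := fun e' => e (e'.of_dvd n2)
    rw [hv v e]
    by_cases l : LP 2 v ζ <;> simp [Sens, Ins, l, d]

theorem big (c : Cx k K) (hCH2 : Y_CH2 K) {N : ℕ} {χ : Ideal (𝓞 K) →* ℂ} (hN : 2 ≤ N)
    (hχ : RC N χ) (e : ℝ) (P : Pl K → Prop)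
    (hP : ∀ v : Pl K, ¬ Dv N v → (1 + e * (χ v.asIdeal).re) / 2 ≤ if P v then 1 else 0)
    (hl : ∃ C : ℝ, ∀ s : ℝ, 1 < s → s ≤ 2 → -C ≤ e * dsum (lam χ) s) : Big P := by
  intro W
  obtain ⟨C, hC⟩ := PMER.key hCH2 W
  obtain ⟨C1, h1⟩ := c.lib.i.den1 K c.om _ hN
  obtain ⟨C3, h3⟩ := hl
  obtain ⟨A1, a1⟩ := DS.re_bdd c.lib.i.hl (DS.triv_isChar (E := K) N)
  obtain ⟨A2, a2⟩ := DS.re_bdd c.lib.i.hl hχ.toIsChar
  refine ⟨(C1 + C3) / 2 + C, fun y hy => ?_⟩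
  obtain ⟨s1, s2, s3⟩ := PMER.range_s hy
  have h2 := hC (fun I => ((triv K N I).re + e * (χ I).re) / 2) P (fun v => by
    rw [DS.triv_apply]
    by_cases d : Dv N v
    · rw [hχ.zero _ fun h => (cop_prime_iff v).1 h d, if_neg fun h => (cop_prime_iff v).1 h d]
      split_ifs <;> simp
    · rw [if_pos ((cop_prime_iff v).2 d)]
      exact hP v d) y hy
  have e : DS.ds (fun q => ∑ I ∈ DS.idl K q, ((triv K N I).re + e * (χ I).re) / 2)
      (1 + 1 / Real.log y) = (dsum (lam (triv K N)) (1 + 1 / Real.log y) +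
        e * dsum (lam χ) (1 + 1 / Real.log y)) / 2 := by
    unfold DS.ds dsum
    rw [← tsum_mul_left, ← (DS.summable_ds a1 s1).tsum_add ((DS.summable_ds a2 s1).mul_left e),
      ← tsum_div_const]
    refine tsum_congr fun q => ?_
    simp only [DS.lam_eq, Complex.re_sum, ← sum_div, sum_add_distrib, ← mul_sum]
    ring
  have h4 := (abs_le.1 (h1 _ s1 s2)).1
  have h5 := h3 _ s1 s2
  rw [s3] at h4
  rw [e] at h2
  linarith

theorem blk (Y : Yb k K) {N : ℕ} {χ : Ideal (𝓞 K) →* ℂ} (hN : 2 ≤ N) (hχ : RC N χ)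
    (nt : ¬ IsTriv N χ) (hl : ∃ C : ℝ, ∀ s : ℝ, 1 < s → s ≤ 2 → -C ≤ dsum (lam χ) s) (e : ℝ)
    (he : |e| = 1) (P : Pl K → Prop)
    (hP : ∀ v : Pl K, ¬ Dv N v → (1 + e * (χ v.asIdeal).re) / 2 ≤ if P v then 1 else 0) :
    ∃ C : ℝ, 0 ≤ C ∧ (∀ a b : ℝ, 1 ≤ a → a ≤ b →
      Real.log (b / a) / 2 - C ≤ lw ((pls K a b).filter P)) ∧ ∀ y, 2 ≤ y → Real.exp (10 * C) ≤ y →
      1 / 5 ≤ ∑ v ∈ (pls K y (y ^ 2)).filter P, (nv v)⁻¹ := by
  obtain ⟨C₂, h2⟩ := Y.me2 _ χ hN hχ nt hl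
  have hE : ∀ v : Pl K, v ∈ (finite_dv K (show N ≠ 0 by omega)).toFinset ↔ Dv N v := fun v =>
    Set.Finite.mem_toFinset _
  obtain ⟨C, h0, hC⟩ := PBLK.key Y.me1 (fun v => e * (χ v.asIdeal).re) P
    (finite_dv K (show N ≠ 0 by omega)).toFinset C₂ (fun v => by
      by_cases d : Dv N v
      · rw [hχ.zero _ fun h => (cop_prime_iff v).1 h d, if_pos ((hE v).2 d)]
        split_ifs <;> norm_num
      · rw [if_neg ((hE v).not.2 d), add_zero]
        exact hP v d) fun y hy => by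
      refine le_trans (le_of_eq ?_) ((Complex.abs_re_le_norm _).trans (h2 y hy))
      simp only [Complex.re_sum, Complex.re_mul_ofReal, mul_assoc, ← mul_sum, abs_mul, he, one_mul]
  refine ⟨C, h0, hC, fun y y1 hy => ?_⟩
  have y0 : 0 < y := by linarith
  have l0 : 0 < Real.log y := Real.log_pos (by linarith)
  have y2 : 10 * C ≤ Real.log y := (Real.le_log_iff_exp_le y0).2 hy
  have h4 := hC y (y ^ 2) (by linarith) (by nlinarith)
  rw [sq, mul_div_cancel_right₀ _ y0.ne', ← sq] at h4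
  have h5 : lw ((pls K y (y ^ 2)).filter P) ≤
      2 * Real.log y * ∑ v ∈ (pls K y (y ^ 2)).filter P, (nv v)⁻¹ := by
    rw [mul_sum]
    refine sum_le_sum fun v hv => ?_
    have := Real.log_le_log (nv_pos v) (mem_pls.1 (mem_filter.1 hv).1).2
    rw [Real.log_pow, Nat.cast_ofNat] at this
    exact mul_le_mul_of_nonneg_right this (inv_nonneg.2 (nv_pos v).le)
  refine le_of_mul_le_mul_left (le_trans ?_ (h4.trans h5)) (by positivity : 0 < 2 * Real.log y)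
  linarith

end JMER

open JMER in
theorem j_mer (c : Cx k K) (Y : Yb k K) : J_MER K := by
  refine ⟨fun W => ?_, fun ζ hζ => ?_⟩
  · obtain ⟨⟨C, h⟩, -⟩ := Y.mer W
    refine ⟨C, fun y hy => ?_⟩
    have l1 : 1 ≤ Real.log y := (Real.le_log_iff_exp_le (by linarith)).2
      (Real.exp_one_lt_d9.le.trans (by linarith))
    rw [filter_true]
    linarith [h y hy, Real.log_nonneg l1]
  · obtain ⟨N, χ, hN, hχ, nt, hl, hv⟩ := chi c hζ
    obtain ⟨C, hC⟩ := c.lib.i.den2 K c.om N χ hN hχ nt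
    exact ⟨big c Y.ch2 hN hχ 1 _ (fun v e => (hv v e).1) (by simpa using hl),
      big c Y.ch2 hN hχ (-1) _ (fun v e => (hv v e).2) ⟨C, by simpa using hC⟩⟩

open JMER in
theorem j_blk (c : Cx k K) (Y : Yb k K) : J_BLK K := by
  intro ζ hζ
  obtain ⟨N, χ, hN, hχ, nt, hl, hv⟩ := chi c hζ
  obtain ⟨C, h0, hC, hD⟩ := blk Y hN hχ nt hl (-1) (by simp) _ fun v e => (hv v e).2
  obtain ⟨C', -, -, hD'⟩ := blk Y hN hχ nt hl 1 (by simp) _ fun v e => (hv v e).1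
  set B := Real.exp (2 * C + 2) with hB
  have hB2 : 2 ≤ B := by linarith [Real.add_one_le_exp (2 * C + 2)]
  refine ⟨B, B⁻¹, max B (max (Real.exp (10 * C)) (Real.exp (10 * C'))), hB2, by positivity,
    fun y hy => ?_⟩
  simp only [max_le_iff] at hy
  obtain ⟨y1, y2, y3⟩ := hy
  have y0 : 0 < y := by linarith
  have l0 : 0 < Real.log y := Real.log_pos (by linarith)
  refine ⟨?_, hD' y (hB2.trans y1) y3, hD y (hB2.trans y1) y2⟩
  have h4 := hC (y / B) y ((one_le_div (by linarith)).2 y1) (div_le_self y0.le (by linarith))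
  rw [div_div_cancel₀ y0.ne', hB, Real.log_exp, ← hB] at h4
  have h5 := sum_le_card_nsmul ((pls K (y / B) y).filter (Ins ζ))
    (fun v => Real.log (nv v) / nv v) (Real.log y / (y / B)) fun v hv => by
      obtain ⟨b1, b2⟩ := mem_pls.1 (mem_filter.1 hv).1
      exact div_le_div₀ l0.le (Real.log_le_log (nv_pos v) b2) (by positivity) b1.le
  rw [nsmul_eq_mul] at h5
  have h6 : 1 ≤ (((pls K (y / B) y).filter (Ins ζ)).card : ℝ) * (Real.log y / (y / B)) := by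
    unfold lw at h4
    linarith
  rw [← div_le_iff₀ (by positivity)] at h6
  refine le_of_eq_of_le ?_ h6
  field_simp

end Pool.Agent.P.MP_b8021b_nt.BJ
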