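import Pool.Agent.P.MP_b8021b_nt.BJ.StA

/-! The first moment over the family and the inequality of Cauchy and Schwarz. -/

namespace Pool.Agent.P.MP_b8021b_nt.BJ

open NumberField IsDedekindDomain Finset MeasureTheory
open Pool.Agent.P.MP_b8021b_nt.VE Pool.Agent.P.MP_b8021b_nt.VC Pool.Agent.P.MP_b8021b_nt.BS.CF
open Pool.Agent.P.MP_b8021b_nt.BS Pool.Agent.P.MP_b8021b_nt.BP
open scoped Classical ComplexConjugate Real

variable {k : Type} [Field k] [NumberField k] [Algebra k ℂ] {K : Type} [Field K] [NumberField K]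
  [Algebra k K]

set_option linter.unusedSectionVars false
set_option linter.unusedVariables false

theorem j_nv1 (c : Cx k K) (Y : Yb k K) (hFM0 : J_FM0 k K) (hCELL : J_CELL k K) :
    J_NV1 k K := by
  intro n Ψ f Ct γ c₀ A C B c₅ a hG hΨ hFE hC hB hc ha
  obtain ⟨h, hh⟩ := Y.fi
  obtain ⟨-, -, I0, -⟩ := Y.vw h f hh hFE.ker
  set I : ℝ := ∫ z in Set.Ioi (0 : ℝ), f z with hI
  obtain ⟨C₃, X₁, C0, hF⟩ := hFM0 n C hG
  set e : ℝ := c₅ ^ 2 * a / B with he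
  have e0 : 0 < e := by positivity
  obtain ⟨X₂, hX₂⟩ := hCELL n Ψ f Ct γ c₀ A ∅ C (I * e / 4) hG hΨ hFE hC (by positivity)
  refine ⟨max 1 ((2 * C₃ / e) ^ 2), fun c₁ hc₁ => ⟨I * e / 4 * (c₁ * c₁), max (max X₁ X₂) 3,
    by positivity, fun Φ W X F hX hW ok hZ hJ hFs hm => ?_⟩⟩
  have W1 : 1 ≤ W := (le_max_left _ _).trans hW
  have W2 : C₃ / √W ≤ e / 2 := by
    have := Real.le_sqrt_of_sq_le ((le_max_right _ _).trans hW)
    rw [div_le_iff₀ e0] at this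
    rw [div_le_div_iff₀ (Real.sqrt_pos.2 (by linarith)) (by norm_num)]
    linarith
  simp only [max_le_iff] at hX
  obtain ⟨⟨x1, x2⟩, x3⟩ := hX
  have L0 : 0 < Real.log X := Real.log_pos (by linarith)
  have h1 := hF Φ B c₅ W X a F x1 hB hc.le W1 ok (fun s hs => ⟨(hFs s hs).1, (hFs s hs).2.1⟩) hm
  set M := X / Real.log X ^ 2 * Φ.𝒥.card * Z0 Φ.U with hM
  have M1 : c₁ * c₁ * X ≤ M := by
    rw [show c₁ * c₁ * X = X / Real.log X ^ 2 * (c₁ * Real.log X) * (c₁ * Real.log X) by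
      field_simp, hM]
    gcongr
  have M0 : 0 ≤ M := le_trans (by positivity) M1
  set G : Finset (Pl K) → 𝓞 K → 𝓞 K → ℂ := fun s t t' =>
    Lam f Ψ (Φ.τ s * t * t') * MX k Ψ X (Φ.τ s * t * t') with hGd
  set w : Finset (Pl K) → 𝓞 K → 𝓞 K → ℂ := fun s t t' => wG (F s) s t t' with hw
  have h2 : ‖Φ.sum fun s t t' => w s t t' * (G s t t' - I)‖ ≤ I * e / 4 * M := by
    have b : ∀ s ∈ Φ.𝔖, ∀ j ∈ Φ.𝒥,
        ‖∑ t ∈ Φ.T₁ (Φ.ι s j), ∑ t' ∈ Φ.T₂ j, w s t t' * (G s t t' - I)‖ ≤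
          I * e / 4 * (X / Real.log X ^ 2) * (nS s)⁻¹ := fun s hs j hj => by
      refine (hX₂ X _ _ _ _ _ _ (F s) x2 (ok.cell s hs j hj) (hFs s hs).1
        ((hFs s hs).2.2 j hj)).trans ?_
      have e1 := (le_inv_mul_iff₀ (nS_pos s)).2 (ok.hi s hs j hj)
      calc _ ≤ I * e / 4 * ((nS s)⁻¹ * X / Real.log X ^ 2) := by gcongr
        _ = _ := by ring
    refine (norm_sum_le_of_le _ fun s hs => norm_sum_le_of_le _ fun j hj => b s hs j hj).trans ?_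
    simp only [sum_const, nsmul_eq_mul, ← mul_sum]
    have : ∑ s ∈ Φ.𝔖, (nS s)⁻¹ ≤ Z0 Φ.U := by
      rw [Z0, prod_one_add]
      refine (sum_le_sum_of_subset_of_nonneg (fun s hs => mem_powerset.2 (ok.sub s hs))
        fun S _ _ => inv_nonneg.2 (nS_pos S).le).trans (le_of_eq (sum_congr rfl fun S _ => ?_))
      rw [nS_eq, prod_inv_distrib]
    rw [hM]
    calc _ = I * e / 4 * (X / Real.log X ^ 2 * Φ.𝒥.card * ∑ s ∈ Φ.𝔖, (nS s)⁻¹) := by ring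
      _ ≤ _ := by gcongr
  have h3 : (Φ.sum fun s t t' => w s t t' * G s t t') =
      (Φ.sum fun s t t' => w s t t' * (G s t t' - I)) + I * Φ.sum w := by
    simp only [FB.sum, mul_sum, ← sum_add_distrib]
    refine sum_congr rfl fun _ _ => sum_congr rfl fun _ _ => sum_congr rfl fun _ _ =>
      sum_congr rfl fun _ _ => by ring
  change _ ≤ ‖Φ.sum fun s t t' => w s t t' * G s t t'‖
  refine le_trans ?_ (Complex.re_le_norm _)
  rw [h3, Complex.add_re, Complex.re_ofReal_mul]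
  have h4 := (abs_le.1 ((Complex.abs_re_le_norm _).trans h2)).1
  have h5 : I * (M * (e / 2)) ≤ I * (Φ.sum w).re :=
    mul_le_mul_of_nonneg_left (le_trans (mul_le_mul_of_nonneg_left (by linarith) M0) h1) I0.le
  have h6 := mul_le_mul_of_nonneg_left M1 (show 0 ≤ I * e / 4 by positivity)
  linarith

theorem j_nv2 (c : Cx k K) (Y : Yb k K) : J_NV2 k K := by
  intro n Φ C B c' W X M w G P C1 X1 hΦ hw hM
  set s := (Φ.𝔖.sigma fun S => Φ.𝒥.sigma fun j => (Φ.T₁ (Φ.ι S j)).sigma fun _ => Φ.T₂ j).filter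
    fun p => w p.1 p.2.2.1 p.2.2.2 * G (Φ.τ p.1 * p.2.2.1 * p.2.2.2) ≠ 0 with hs
  set g : (Σ _ : Finset (Pl K), Σ _ : ℕ, Σ _ : 𝓞 K, 𝓞 K) → 𝓞 K := fun p =>
    Φ.τ p.1 * p.2.2.1 * p.2.2.2 with hg
  have inj : ∀ p ∈ s, ∀ p' ∈ s, sp (g p) = sp (g p') → p = p' := by
    rintro ⟨S, j, t, t'⟩ h ⟨S', j', r, r'⟩ h' e
    simp only [hs, mem_filter, mem_sigma] at h h'
    obtain ⟨rfl, rfl, rfl, rfl⟩ := hΦ.inj S h.1.1 j h.1.2.1 t h.1.2.2.1 t' h.1.2.2.2 S' h'.1.1 j'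
      h'.1.2.1 r h'.1.2.2.1 r' h'.1.2.2.2 e
    rfl
  have key : ∀ p ∈ s, (Pri (n ^ 2) (g p) ∧ NN (sp (g p)) ≤ X ∧ Bal k C X (g p)) ∧
      w p.1 p.2.2.1 p.2.2.2 = 1 ∧ P (g p) ∧ G (g p) ≠ 0 := by
    rintro ⟨S, j, t, t'⟩ h
    simp only [hs, mem_filter, mem_sigma] at h
    obtain ⟨⟨h1, h3, h4, h5⟩, h6⟩ := h
    have := (hw S h1 j h3 t h4 t' h5).resolve_left (left_ne_zero_of_mul h6)
    exact ⟨(hΦ.cell S h1 j h3).mem c.toCtx C1 X1 h4 h5, this.1, this.2, right_ne_zero_of_mul h6⟩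
  have e : (Φ.sum fun S t t' => w S t t' * G (Φ.τ S * t * t')) = ∑ t ∈ s.image g, G t := by
    rw [sum_image fun p h p' h' e => inj p h p' h' (congrArg sp e),
      sum_congr rfl fun p h => (one_mul (G (g p))).symm.trans (by rw [← (key p h).2.1]),
      hs, sum_filter_ne_zero]
    simp only [FB.sum, sum_sigma]
  refine ⟨s.image g, fun t h t' h' e => ?_, fun t h => ?_, ?_⟩
  · obtain ⟨p, hp, rfl⟩ := mem_image.1 h
    obtain ⟨p', hp', rfl⟩ := mem_image.1 h'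
    rw [inj p hp p' hp' e]
  · obtain ⟨p, hp, rfl⟩ := mem_image.1 h
    exact ⟨(key p hp).1.1, (key p hp).1.2.1, (key p hp).2.2⟩
  · rw [e]
    refine (pow_le_pow_left₀ (norm_nonneg _) (norm_sum_le _ _) 2).trans
      (sq_sum_le_card_mul_sum_sq.trans (mul_le_mul_of_nonneg_left (hM _ fun t h => ?_)
        (Nat.cast_nonneg _)))
    obtain ⟨p, hp, rfl⟩ := mem_image.1 h
    exact (key p hp).1

end Pool.Agent.P.MP_b8021b_nt.BJ
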