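import Pool.Agent.P.MP_b8021b_nt.BJ.StA

/-! Many good twists in the first case. -/

namespace Pool.Agent.P.MP_b8021b_nt.BJ

open NumberField IsDedekindDomain Finset MeasureTheory
open Pool.Agent.P.MP_b8021b_nt.VE Pool.Agent.P.MP_b8021b_nt.VC Pool.Agent.P.MP_b8021b_nt.BS.CF
open Pool.Agent.P.MP_b8021b_nt.BS Pool.Agent.P.MP_b8021b_nt.BP
open scoped Classical ComplexConjugate Real

variable {k : Type} [Field k] [NumberField k] [Algebra k ℂ] {K : Type} [Field K] [NumberField K]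
  [Algebra k K]

set_option linter.unusedSectionVars false
set_option linter.unusedVariables false

theorem j_nva (c : Cx k K) (Y : Yb k K) (hSELA : J_SELA k K) (hTAUA : J_TAUA k K)
    (hCON : J_CON k K) : J_NVA k K := by
  have hNV1 := Y.nv1
  have hNV2 := Y.nv2
  have hSM := Y.sm
  intro ζ hU
  obtain ⟨n₁, n10, hC⟩ := hCON ζ hU
  obtain ⟨N₀, N0, hT⟩ := hTAUA ζ hU
  obtain ⟨M, t₀, M0, t0, hS⟩ := hSELA ζ hU
  obtain ⟨d, hN, hd, hS⟩ := hS N₀ N0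
  refine ⟨t₀, n₁ * M, t0, mul_ne_zero n10 M0, fun n₀ n ℛ ℛ' Ψ f Ct γ c₀ A hn' hG2 hΨ hF => ?_⟩
  have hn : n₁ ∣ n := (dvd_mul_right _ _).trans hn'
  have hG := hG2.g
  obtain ⟨𝒜, C, B, c', W₀, C1, B0, c0, hC⟩ := hC n hn hG.two_le
  obtain ⟨u, A', W₁, u1, A1, hT⟩ := hT d hd hN
  obtain ⟨W₂, hV1⟩ := hNV1 n Ψ f Ct γ c₀ A 𝒜 C B c' hG hΨ hF C1 B0 c0
  obtain ⟨W, w1, w0, w2, wd⟩ : ∃ W, W₁ ≤ W ∧ W₀ ≤ W ∧ W₂ ≤ W ∧ d.W ≤ W :=
    ⟨max (max W₁ W₀) (max W₂ d.W), by simp, by simp, by simp, by simp⟩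
  obtain ⟨y₁, hT⟩ := hT W w1
  obtain ⟨c₁, X₀, c1, hC⟩ := hC W u A' w0 u1 A1
  obtain ⟨c₄, X₁, c4, hV1⟩ := hV1 W c₁ w2 c1
  obtain ⟨C₅, X₂, C5, hSM⟩ := hSM n₀ n ℛ ℛ' Ψ f Ct γ c₀ A C hG2 hΨ hF
  refine ⟨c₄ ^ 2 / C₅, max (max X₀ X₁) (max X₂ (max 2 (max y₁ 1 ^ c₁⁻¹))), by positivity,
    fun X hX => ?_⟩
  simp only [max_le_iff] at hX
  obtain ⟨⟨x0, x1⟩, x2, x3, x4⟩ := hX
  obtain ⟨Φ, hΦ, hq, hy, hJ⟩ := hC X x0
  have y1 : y₁ ≤ Φ.y := by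
    refine ((le_max_left y₁ 1).trans ?_).trans hy
    rw [← Real.rpow_inv_rpow (x := max y₁ 1) (by positivity) c1.ne']
    exact Real.rpow_le_rpow (by positivity) x4 c1.le
  obtain ⟨hQ, hZ⟩ := hT Φ.y Φ.yq y1 hq
  obtain ⟨j₀, hj₀⟩ : Φ.𝒥.Nonempty := card_pos.1 (Nat.cast_pos.1
    ((mul_pos c1 (Real.log_pos (by linarith))).trans_le hJ))
  have lp : ∀ t : 𝓞 K, Pri (n ^ 2) t → ∀ v, Dv M v → LP 2 v (t : K) := fun t ht v hv =>
    lp_of_dvd hG.eight (ht.mono (dvd_pow_self n two_ne_zero)).1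
      (hv.of_dvd ((dvd_mul_left _ _).trans hn'))
  have sn : ∀ S ∈ TT K W Φ.y u, ∀ q ∈ QQ (ζ : K) Φ.yq, ∀ v ∈ insert q (S.filter (Sens (ζ : K))),
      Sens (ζ : K) v ∧ d.W < nv v := fun S hS q hq v hv => by
    rcases mem_insert.1 hv with rfl | hv
    · exact ⟨(mem_filter.1 hq).2, (wd.trans hΦ.big).trans_lt (mem_pls.1 (mem_filter.1 hq).1).1⟩
    · exact ⟨(mem_filter.1 hv).2, wd.trans_lt
        (mem_pls.1 (mem_powerset.1 (mem_filter.1 hS).1 (mem_filter.1 hv).1)).1⟩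
  have key := fun S (hS' : S ∈ TT K W Φ.y u) q (hq : q ∈ QQ (ζ : K) Φ.yq) =>
    hS (S.filter (Sens (ζ : K))) q (Φ.τ (insert q S)) (sn S hS' q hq)
      (fun hv => hΦ.alone S hS' q hq q (mem_filter.1 hv).1 (dv_absNorm q))
      (hΦ.cell S hS' q hq j₀ hj₀).pri.ne_zero
      (lp _ (hΦ.cell S hS' q hq j₀ hj₀).pri) fun v hv => by
        rw [TopL.od_eq (hΦ.cell S hS' q hq j₀ hj₀).pri.2, hΦ.sens S hS' q hq v hv]
        simp only [mem_insert, mem_filter, hv, and_true]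
        split_ifs with e <;> simp [e]
  choose! F F1 F2 F3 F4 using key
  have ins : ∀ S ∈ TT K W Φ.y u, ∀ q ∈ QQ (ζ : K) Φ.yq, ∀ j ∈ Φ.𝒥, ∀ t ∈ Φ.T₁ (insert q S) j,
      ∀ t' ∈ Φ.T₂ j, ∀ v, Sens (ζ : K) v → t * t' ∉ v.asIdeal :=
    fun S hS q hq j hj t ht t' ht' v hv e => (v.isPrime.mem_or_mem e).elim
      (hΦ.ins S hS q hq j hj t (mem_union_left _ ht) v hv)
      (hΦ.ins S hS q hq j hj t' (mem_union_right _ ht') v hv)
  have F5 := fun S hS q hq j hj t ht t' ht' => F4 S hS q hq (t * t') fun v hv =>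
    ins S hS q hq j hj t ht t' ht' v (sn S hS q hq v hv).1
  have h1 := hV1 Φ ζ u X F x1 hΦ hy hJ hQ (fun S hS q hq => ⟨F1 S hS q hq, F2 S hS q hq,
    fun j hj t ht t' ht' => by rcases (F5 S hS q hq j hj t ht t' ht').1 with e | e <;> simp [e]⟩)
    (hZ.trans (sum_le_sum fun S hS => sum_le_sum fun q hq => mul_le_mul_of_nonneg_left
      (F3 S hS q hq) (inv_nonneg.2 (mul_pos (nS_pos S) (nv_pos q)).le)))
  obtain ⟨𝒢, g1, g2, g3⟩ := hNV2 n 𝒜 Φ ζ C B c' W u X (C₅ * X)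
    (fun S q t t' => wF (F S q) (insert q (S.filter (Sens (ζ : K)))) (t * t'))
    (fun t => Lam f Ψ t * MX k Ψ X t)
    (fun t => Finite (Wb (-((ζ : K) * (t₀ * t) ^ 2))).toAffine.Point) C1 (by linarith) hΦ
    (fun S hS q hq j hj t ht t' ht' => by
      obtain ⟨e, e'⟩ := F5 S hS q hq j hj t ht t' ht'
      have hc := hΦ.cell S hS q hq j hj
      refine e.imp_right fun e => ⟨e, ?_⟩
      have := e' e (lp _ (pri_mul (hc.b1.pri t ht) (hc.b2.pri t' ht') (hc.c12 t ht t' ht')))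
        fun v hv => by rw [TopL.od_zero (ins S hS q hq j hj t ht t' ht' v hv)]; exact Even.zero
      rwa [show (t₀ : K) * Φ.τ (insert q S) * (t * t' : 𝓞 K) =
        t₀ * (Φ.τ (insert q S) * t * t' : 𝓞 K) by push_cast; ring] at this)
    (fun 𝒢 => hSM X 𝒢 x2)
  refine ⟨𝒢, ?_, g1, fun t ht => ⟨(g2 t ht).1, (g2 t ht).2.1, (g2 t ht).2.2.1,
    fun e => (g2 t ht).2.2.2 (by simp only [e, zero_mul])⟩⟩
  have h2 := (pow_le_pow_left₀ (mul_pos c4 (by linarith)).le h1 2).trans g3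
  rw [div_mul_eq_mul_div, div_le_iff₀ (by positivity)]
  refine le_of_mul_le_mul_right ?_ (show 0 < X by linarith)
  linarith

end Pool.Agent.P.MP_b8021b_nt.BJ
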