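import Pool.Agent.P.MP_b8021b_nt.BJ.StA
import Pool.Agent.P.MP_b8021b_nt.BP.PNV1

/-! Many twists with finitely many points and nonzero central value, second case. -/

namespace Pool.Agent.P.MP_b8021b_nt.BJ

open NumberField IsDedekindDomain Finset MeasureTheory
open Pool.Agent.P.MP_b8021b_nt.VE Pool.Agent.P.MP_b8021b_nt.VC Pool.Agent.P.MP_b8021b_nt.BS.CF
open Pool.Agent.P.MP_b8021b_nt.BS Pool.Agent.P.MP_b8021b_nt.BP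
open scoped Classical ComplexConjugate Real

variable {k : Type} [Field k] [NumberField k] [Algebra k ℂ] {K : Type} [Field K] [NumberField K]
  [Algebra k K]

set_option linter.unusedSectionVars false

namespace JNVB

theorem nc {a b : 𝓞 K} (h : IsCoprime a b) {v : Pl K} (ha : a ∈ v.asIdeal) :
    b ∉ v.asIdeal := fun hb => by
  obtain ⟨x, y, e⟩ := h
  exact v.isPrime.ne_top ((Ideal.eq_top_iff_one _).2
    (e ▸ add_mem (v.asIdeal.mul_mem_left x ha) (v.asIdeal.mul_mem_left y hb)))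

theorem gen {n : ℕ} {C y : ℝ} {T : Finset (𝓞 K)} {t : 𝓞 K} (h : Blk k n ∅ C y T) (ht : t ∈ T) :
    ∃ p : Pl K, sp t = p.asIdeal ∧ t ∈ p.asIdeal := by
  obtain ⟨p, a, h1, -, h2, -⟩ := h.dec t ht
  rw [subset_empty.1 h1, eI_empty, Ideal.mul_top] at h2
  exact ⟨p, h2, h2 ▸ Ideal.mem_span_singleton_self t⟩

theorem Z0_mono {A B : Finset (Pl K)} (h : A ⊆ B) : Z0 A ≤ Z0 B :=
  prod_le_prod_of_subset_of_one_le h (fun v _ => by have := nv_pos v; positivity)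
    fun v _ _ => le_add_of_nonneg_right (inv_nonneg.2 (nv_pos v).le)

end JNVB

open JNVB in
theorem j_nvb (c : Cx k K) (Y : Yb k K) (hSELB : J_SELB k K) (hTAUB : J_TAUB k K)
    (hCB1 : J_CB1 k K) (hCB2 : J_CB2 K) (hCB3 : J_CB3 k K) (hCB4 : J_CB4 k K) (hNV1 : J_NV1 k K)
    (hNV2 : J_NV2 k K) : J_NVB k K := by
  intro σ σ0
  obtain ⟨M, t₀, M0, hU, hS⟩ := hSELB
  obtain ⟨N₀, N0, hT⟩ := hTAUB t₀ hU
  obtain ⟨d, hN, hd, hd', hr, hS⟩ := hS N₀ N0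
  have t0 : t₀ ≠ 0 := fun e => hU (by simp [e])
  refine ⟨σ * t₀, M, mul_ne_zero σ0 t0, M0, fun n₀ n ℛ ℛ' Ψ f Ct γ c₀ A hn hG2 hΨ hF => ?_⟩
  have hG := hG2.g
  obtain ⟨τ, C, B, c', y₀, hD⟩ := hCB1 n hG.two_le
  obtain ⟨κ, y₀', κ0, hC2⟩ := hCB2 (n ^ 2) (hG.two_le.trans (Nat.le_self_pow two_ne_zero n))
  obtain ⟨u, A', W₁, u1, A1, hT⟩ := hT d hd hd' hN hr
  obtain ⟨C', cc, c5⟩ : ∃ C', C ≤ C' ∧ 5 ≤ C' := ⟨max C 5, le_max_left _ _, le_max_right _ _⟩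
  have C1 : 1 ≤ C' := by linarith
  have r1 : 1 ≤ C' ^ rk k K := Real.one_le_rpow C1 (zero_le_one.trans c.one_le_rk)
  have B1 : 1 ≤ C' ^ rk k K * C' ^ rk k K := one_le_mul_of_one_le_of_one_le r1 r1
  have B2 := hD.B2
  obtain ⟨W₂, hV1⟩ := hNV1 n Ψ f Ct γ c₀ A C' (B * (C' ^ rk k K * C' ^ rk k K)) c' (κ ^ 2 / 250)
    hG hΨ hF C1 (by positivity) hD.c0 (by positivity)
  obtain ⟨W, w1, w0, w2, wd⟩ : ∃ W, W₁ ≤ W ∧ C ≤ W ∧ W₂ ≤ W ∧ d.W + 1 ≤ W :=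
    ⟨max (max W₁ C) (max W₂ (d.W + 1)), by simp, by simp, by simp, by simp⟩
  obtain ⟨y₁, hT⟩ := hT W w1
  obtain ⟨a', a0, ha⟩ := PNV1.z0 Y.ch2 Y.mer W
  obtain ⟨c₁, X₀, c1, hC⟩ := hCB3 C B _ (max y₀ y₀') W u A' B2 B1 w0 u1 A1
  obtain ⟨c₄, X₁, c4, hV1⟩ := hV1 (min c₁ (a' * c₁)) (by positivity)
  obtain ⟨C₅, X₂, C5, hSM⟩ := Y.sm n₀ n ℛ ℛ' Ψ f Ct γ c₀ A C' hG2 hΨ hF
  refine ⟨c₄ ^ 2 / C₅, max (max X₀ X₁) (max X₂ (max 2 (max y₁ 3 ^ c₁⁻¹))), by positivity,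
    fun X hX => ?_⟩
  simp only [max_le_iff] at hX
  obtain ⟨⟨x0, x1⟩, x2, x3, x4⟩ := hX
  obtain ⟨y, yq, 𝒥, ℐ, a, hc, hq, hy, hJ⟩ := hC X x0
  have y1 : max y₁ 3 ≤ y := by
    refine le_trans ?_ hy
    rw [← Real.rpow_inv_rpow (x := max y₁ 3) (by positivity) c1.ne']
    exact Real.rpow_le_rpow (by positivity) x4 c1.le
  have hZ := hT y yq ((le_max_left _ _).trans y1) hq
  have hΦ := hCB4 n (t₀ : K) τ C C' B c' _ W u X y yq 𝒥 ℐ a (hD.mono (le_max_left y₀ y₀')) cc c5 hc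
  obtain ⟨k1, σ', ρ, ρ', k2, k3⟩ := hC2 (t₀ : K) W y u yq ((le_max_right _ _).trans hc.y0) hc.yy
    hc.Wq fun v hv => (hD.dv v ((dv_pow v one_le_two).1 hv)).trans w0
  generalize hΦ' : famB (n ^ 2) (t₀ : K) τ B W y u yq 𝒥 ℐ a = Φ at hΦ
  have eU : Φ.U = pls K W y ∪ pls K yq (yq ^ 4) := by rw [← hΦ']; rfl
  have eS : Φ.𝔖 = S3 (n ^ 2) (t₀ : K) W y u yq := by rw [← hΦ']; rfl
  have eJ : Φ.𝒥 = 𝒥 := by rw [← hΦ']; rfl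
  rw [← eS] at k2 k3
  rw [← eU] at k1
  rw [← eJ] at hJ
  have L0 : 0 < Real.log X := Real.log_pos (by linarith)
  obtain ⟨j₀, hj₀⟩ : Φ.𝒥.Nonempty := card_pos.1 (Nat.cast_pos.1 ((mul_pos c1 L0).trans_le hJ))
  have md : ∀ t : 𝓞 K, Pri (n ^ 2) t → (M : 𝓞 K) ∣ t - 1 := fun t ht =>
    (ht.mono (hn.trans (dvd_pow_self n two_ne_zero))).1
  have key : ∀ s ∈ Φ.𝔖, ∃ F : PF K, ∑ D ∈ P2 s, F D ^ 2 ≤ 1 ∧ 0 ≤ F (∅, ∅) ∧
      (1 - Yv d.r d.z (σ' s) (ρ s) - Yv d.r (tw d t₀).z (σ' s) (ρ s)) / 8 ≤ F (∅, ∅) ∧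
      ∀ j ∈ Φ.𝒥, ∀ t ∈ Φ.T₁ (Φ.ι s j), ∀ t' ∈ Φ.T₂ j, wG F s t t' = 0 ∨ wG F s t t' = 1 ∧
        Finite (Wb (-(((σ ^ 2 : 𝓞 K) : K) *
          ((σ * t₀ : 𝓞 K) * (Φ.τ s * t * t' : 𝓞 K)) ^ 2))).toAffine.Point := fun s hs => by
    obtain ⟨-, e1, -, e, e2, e3⟩ := k2 s hs
    have h := hS (σ' s) (ρ s) (ρ' s) (Φ.τ s)
    rw [← e] at h
    obtain ⟨F, F1, F2, F3, F4⟩ := h (fun v hv => by linarith [hΦ.big v (hΦ.sub s hs hv)]) e2 e3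
      (mem_filter.1 e1).2.2 (hΦ.gen s hs) (md _ (hΦ.cell s hs j₀ hj₀).pri)
    refine ⟨F, F1, F2, F3, fun j hj t ht t' ht' => ?_⟩
    have hc := hΦ.cell s hs j hj
    obtain ⟨p, p1, p2⟩ := gen hc.b1 ht
    obtain ⟨p', p3, p4⟩ := gen hc.b2 ht'
    obtain ⟨g1, g2⟩ := F4 t t' p p' p1 p3 (md _ (hc.b1.pri t ht)) (md _ (hc.b2.pri t' ht'))
      (fun e => nc (hc.c12 t ht t' ht') p2 (e ▸ p4))
      (fun e => nc (hc.c1 t ht) ((mem_pr hc.pri.ne_zero).1 (hc.sub e)) p2)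
      fun e => nc (hc.c2 t' ht') ((mem_pr hc.pri.ne_zero).1 (hc.sub e)) p4
    refine g1.imp_right fun e => ⟨e, ?_⟩
    have := g2 e σ (by simpa using σ0)
    rwa [show (-((σ : K) ^ 2 * t₀ * Φ.τ s * t * t') ^ 2) = -(((σ ^ 2 : 𝓞 K) : K) *
      ((σ * t₀ : 𝓞 K) * (Φ.τ s * t * t' : 𝓞 K)) ^ 2) by push_cast; ring] at this
  choose! F F1 F2 F3 F4 using key
  have z1 : min c₁ (a' * c₁) * Real.log X ≤ Z0 Φ.U := by
    refine le_trans ?_ ((ha y ((le_max_right _ _).trans y1)).trans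
      (Z0_mono (eU ▸ subset_union_left)))
    refine (mul_le_mul_of_nonneg_right (min_le_right _ _) L0.le).trans ?_
    rw [mul_assoc, ← Real.log_rpow (by linarith)]
    exact mul_le_mul_of_nonneg_left (Real.log_le_log (by positivity) hy) a0.le
  have h1 := hV1 Φ W X F x1 w2 hΦ z1
    ((mul_le_mul_of_nonneg_right (min_le_left _ _) L0.le).trans hJ)
    (fun s hs => ⟨F1 s hs, F2 s hs, fun j hj t ht t' ht' => by
      rcases F4 s hs j hj t ht t' ht' with e | ⟨e, -⟩ <;> simp [e]⟩)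
    (le_trans (by nlinarith [mul_le_mul_of_nonneg_left k1 κ0.le, mul_le_mul_of_nonneg_left hZ κ0.le])
      (k3 (fun S q => (1 - Yv d.r d.z S q - Yv d.r (tw d t₀).z S q) / 8) (fun s => F s (∅, ∅))
        fun s hs => ⟨F2 s hs, F3 s hs⟩))
  obtain ⟨𝒢, g1, g2, g3⟩ := hNV2 n Φ C' _ c' W X (C₅ * X) (fun s t t' => wG (F s) s t t')
    (fun t => Lam f Ψ t * MX k Ψ X t)
    (fun t => Finite (Wb (-(((σ ^ 2 : 𝓞 K) : K) * ((σ * t₀ : 𝓞 K) * t) ^ 2))).toAffine.Point) C1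
    (by linarith) hΦ F4 fun 𝒢 => hSM X 𝒢 x2
  refine ⟨𝒢, ?_, g1, fun t ht => ⟨(g2 t ht).1, (g2 t ht).2.1, (g2 t ht).2.2.1,
    fun e => (g2 t ht).2.2.2 (by simp only [e, zero_mul])⟩⟩
  have h2 := (pow_le_pow_left₀ (mul_pos c4 (by linarith)).le h1 2).trans g3
  rw [div_mul_eq_mul_div, div_le_iff₀ (by positivity)]
  refine le_of_mul_le_mul_right ?_ (show 0 < X by linarith)
  linarith

end Pool.Agent.P.MP_b8021b_nt.BJ
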