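import Pool.Agent.P.MP_b8021b_nt.BJ.StA
import Pool.Agent.P.MP_b8021b_nt.BS.CF.PWR
import Pool.Agent.P.MP_b8021b_nt.BS.RecC

/-! The pairing given by the tame symbols outside `m`. -/

namespace Pool.Agent.P.MP_b8021b_nt.BJ

open NumberField IsDedekindDomain Finset MeasureTheory
open Pool.Agent.P.MP_b8021b_nt.VE Pool.Agent.P.MP_b8021b_nt.VC Pool.Agent.P.MP_b8021b_nt.BS.CF
open Pool.Agent.P.MP_b8021b_nt.BS Pool.Agent.P.MP_b8021b_nt.BP
open scoped Classical ComplexConjugate Real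
variable {k : Type} [Field k] [NumberField k] [Algebra k ℂ] {K : Type} [Field K] [NumberField K] [Algebra k K]

namespace JPAIR

theorem lp1 {v : Pl K} (hv : ¬ Dv 2 v) {e : K} (he : vl v e < 1) : LP 2 v (1 - e) :=
  LP.of_near_one hv (by simpa using he)

theorem stein (hR : Z_Res) (hL : Om K) {v : Pl K} (hv : ¬ Dv 2 v) {x : K} (hx : x ≠ 0)
    (h1 : 1 - x ≠ 0) : RecP.sy v x (1 - x) = 0 := by
  rcases lt_trichotomy (od v x) 0 with h | h | h
  · have hl : LP 2 v (-(1 - x⁻¹)) := lp_neg hL (lp1 hv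
      ((od_pos_iff v (inv_ne_zero hx)).1 (by rw [od_inv]; omega)))
    rw [show 1 - x = x * -(1 - x⁻¹) by field_simp; ring, RecP.sy_mul hR v x hx hl.ne_zero,
      RecP.sy_self, RecP.sy_lp x hl, add_zero]
  · by_cases h2 : vl v (1 - x) < 1
    · have := lp1 hv h2
      rw [sub_sub_cancel] at this
      rw [RecP.sy_comm, RecP.sy_lp _ this]
    · have h3 : vl v (1 - x) ≤ 1 :=
        Valuation.map_sub_le _ (by simp) ((od_eq_zero_iff v hx).1 h).le
      exact RecP.sy_even (by rw [h]; simp)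
        (by rw [od_eq_zero_of_vl v (le_antisymm h3 (not_lt.1 h2))]; simp)
  · exact RecP.sy_lp x (lp1 hv ((od_pos_iff v hx).1 h))

theorem norm0 (hR : Z_Res) (hL : Om K) {v : Pl K} (hv : ¬ Dv 2 v) {a r s : K} (ha : a ≠ 0)
    (hP : r ^ 2 - a * s ^ 2 ≠ 0) : RecP.sy v a (r ^ 2 - a * s ^ 2) = 0 := by
  by_cases hs : s = 0
  · subst hs
    have : r ≠ 0 := by rintro rfl; simp at hP
    simpa using RecP.sy_lp a (lp_sq v this)
  by_cases hr : r = 0
  · have hl := lp_neg hL (lp_sq v hs)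
    rw [show r ^ 2 - a * s ^ 2 = a * -s ^ 2 by rw [hr]; ring, RecP.sy_mul hR v a ha hl.ne_zero,
      RecP.sy_self, RecP.sy_lp a hl, add_zero]
  have hq := lp_sq v (div_ne_zero hs hr)
  have e : r ^ 2 - a * s ^ 2 = (1 - a * (s / r) ^ 2) * r ^ 2 := by field_simp
  rw [e] at hP ⊢
  have h1 := left_ne_zero_of_mul hP
  have h2 := stein hR hL hv (mul_ne_zero ha hq.ne_zero) h1
  rw [RecP.sy_comm, RecP.sy_mul hR v _ ha hq.ne_zero, RecP.sy_lp _ hq, add_zero] at h2
  rw [RecP.sy_mul hR v a h1 (pow_ne_zero 2 hr), RecP.sy_lp a (lp_sq v hr), add_zero,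
    RecP.sy_comm, h2]

theorem fin (m : ℕ) (a c : K) :
    (Function.support fun v : Pl K => if Dv m v then 0 else RecP.sy v a c).Finite :=
  (RecP.sy_fin a c).subset fun v hv h => hv (by simp only at h; simp [h])

end JPAIR

open JPAIR

theorem j_pair (c : Cx k K) (Y : Yb k K) : J_PAIR K := by
  intro m hm h2
  have p1 : ∀ a b : K, Bm m a b = Bm m b a := fun a b =>
    finsum_congr fun v => by rw [RecP.sy_comm]
  have p3 : ∀ a x y : K, x ≠ 0 → y ≠ 0 → Bm m a (x * y) = Bm m a x + Bm m a y := by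
    intro a x y hx hy
    unfold Bm
    rw [← finsum_add_distrib (fin m a x) (fin m a y)]
    refine finsum_congr fun v => ?_
    rw [RecP.sy_mul c.lib.res v a hx hy]
    split_ifs <;> simp
  have p4 : ∀ a b : K, a ≠ 0 → b ≠ 0 → (∀ v, Dv m v → LP 2 v a) → Bm m a b = 0 := by
    intro a b ha hb hl
    rw [← RecP.prod c.lib.toT1 c.lib.wr c.lib.chi c.lib.pc c.om ha hb
      fun v hv => hl v (hv.of_dvd h2)]
    refine finsum_congr fun v => ?_
    split_ifs with hv
    · rw [RecP.sy_comm, RecP.sy_lp _ (hl v hv)]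
    · rfl
  refine ⟨p1, fun a => ?_, p3, p4, fun a b ha hb hl => ?_, fun a b S h1 h3 => ?_⟩
  · simp [Bm, RecP.sy_self]
  · obtain ⟨j, hj⟩ := RecP.ex_k (L := K) (n := 4) (by norm_num) (finite_dv K hm).toFinset
    obtain ⟨P, ⟨r, s, t, rfl⟩, h0, hP⟩ := WRP.glob c.lib.wa (Or.inl rfl : El 2)
      (Nat.le_of_dvd (Nat.pos_of_ne_zero hm) h2) hb (j := j + 1) (by omega)
      fun v hv => Or.inl (hl v hv)
    have h4 : ∀ w : Pl K, vl w ((4 : ℕ) : K) = vl w ((2 : ℕ) : K) ^ 2 := fun w => by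
      rw [← map_pow]; norm_num
    have h5 : ∀ v, Dv m v → LP 2 v (b / Nf 2 a r s t) := fun v hv =>
      LP.of_near ((((hP v hv).2 (hl v hv)).trans (WithZero.exp_le_exp.2 (by omega))).trans_lt
        (h4 v ▸ hj v (by simpa using hv)))
    rw [← div_mul_cancel₀ b h0, p3 a _ _ (div_ne_zero hb h0) h0, p1,
      p4 _ _ (div_ne_zero hb h0) ha h5, zero_add]
    rw [Nf_two] at h0 ⊢
    refine (finsum_congr fun v => ?_).trans finsum_zero
    split_ifs with hv
    · rfl
    · exact norm0 c.lib.res c.om (fun e => hv (e.of_dvd h2)) ha h0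
  · unfold Bm
    rw [finsum_eq_sum_of_support_subset (s := S)]
    · exact sum_congr rfl fun v hv => if_neg (h1 v hv)
    · intro v hv
      by_contra hS
      apply hv
      by_cases e : Dv m v
      · simp [e]
      · simp [e, h3 v e hS]

end Pool.Agent.P.MP_b8021b_nt.BJ
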