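import Pool.Agent.P.MP_b8021b_nt.BJ.StA
import Pool.Agent.P.MP_b8021b_nt.BS.PPsi
import Pool.Agent.P.MP_b8021b_nt.BS.PPrim
import Pool.Agent.P.MP_b8021b_nt.BS.PJac4

/-! The Hecke character of the curves `y ^ 2 = x ^ 3 - ζ T ^ 2 x` for every `ζ`. -/

namespace Pool.Agent.P.MP_b8021b_nt.BJ

open NumberField IsDedekindDomain Finset MeasureTheory
open Pool.Agent.P.MP_b8021b_nt.VE Pool.Agent.P.MP_b8021b_nt.VC Pool.Agent.P.MP_b8021b_nt.BS.CF
open Pool.Agent.P.MP_b8021b_nt.BS Pool.Agent.P.MP_b8021b_nt.BP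
open scoped Classical ComplexConjugate Real

variable {k : Type} [Field k] [NumberField k] [Algebra k ℂ] {K : Type} [Field K] [NumberField K]
  [Algebra k K]

open PPsi in
theorem j_psi (c : Cx k K) (Y : Yb k K) (hQB1 : J_QB1) (hQUA : J_QUA) : J_PSI k K := by
  intro ζ hζ
  obtain ⟨B, hD⟩ := c.bf
  have hP := x_prim B hD
  obtain ⟨g, hg, hg'⟩ := prim_ex hP
  have hω := om_sq hD
  obtain ⟨w, hw2, hw⟩ : ∃ w : 𝓞 k, w ^ 2 = -1 ∧ B.σ w = Complex.I := by
    have e : (B.σ B.ω) ^ 2 = Complex.I ^ 2 := by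
      have := congrArg (fun a : 𝓞 k => B.σ a) hω
      simpa using this
    rcases sq_eq_sq_iff_eq_or_eq_neg.1 e with e | e
    · exact ⟨B.ω, hω, e⟩
    · exact ⟨-B.ω, by rw [neg_sq, hω], by simpa [neg_eq_iff_eq_neg] using e⟩
  have hw4 : w ^ 4 = 1 := by rw [show 4 = 2 * 2 from rfl, pow_mul, hw2]; simp
  have hι := iota_map (M := K) hw2
  obtain ⟨ψ, n, hψ⟩ := hQUA K _ ζ hι hζ
  have gmul : ∀ I J, Cop 2 I → Cop 2 J → g (I * J) = g I * g J := fun I J hI hJ => by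
    have e : sp (g I * g J) = I * J := by rw [sp_mul, (hg I hI).1, (hg J hJ).1]
    rw [← e]
    refine hg' _ (e ▸ cop_mul.2 ⟨hI, hJ⟩) ?_
    rw [show g I * g J - 1 = (g I - 1) * g J + (g J - 1) by ring]
    exact ((hg I hI).2.mul_right _).add (hg J hJ).2
  let Ψ : Ideal (𝓞 K) →* ℂ :=
    { toFun := fun I => if Cop 2 I then conj (ψ I) * dir (B.σ (g (Ideal.relNorm (𝓞 k) I))) else 0
      map_one' := by
        have e := hg' 1 (by rw [sp, Ideal.span_singleton_one]; exact cop_top) (by simp)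
        rw [sp, Ideal.span_singleton_one] at e
        rw [map_one, Ideal.one_eq_top, if_pos cop_top, Ideal.relNorm_top, e]
        simp [dir_one]
      map_mul' := fun I J => by
        by_cases hI : Cop 2 I
        · by_cases hJ : Cop 2 J
          · rw [if_pos hI, if_pos hJ, if_pos (cop_mul.2 ⟨hI, hJ⟩), map_mul (Ideal.relNorm (𝓞 k)),
              gmul _ _ (cop_rel.2 hI) (cop_rel.2 hJ)]
            simp only [map_mul, dir_mul]
            ring
          · rw [if_neg hJ, if_neg fun e => hJ (cop_mul.1 e).2, mul_zero]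
        · rw [if_neg hI, if_neg fun e => hI (cop_mul.1 e).1, zero_mul] }
  have hΨ : ∀ I, Cop 2 I → Ψ I = conj (ψ I) * dir (B.σ (g (Ideal.relNorm (𝓞 k) I))) :=
    fun I hI => if_pos hI
  have hm : 0 < 3 := by omega
  have hn3 : n ∣ n ^ 3 := dvd_pow_self n hm.ne'
  have h43 : 4 ∣ n ^ 3 := (by norm_num : 4 ∣ 2 ^ 3).trans (pow_dvd_pow_of_dvd hψ.ev 3)
  refine ⟨n ^ 3, Ψ, hψ.two.trans (Nat.le_self_pow hm.ne' n), hψ.ev.trans hn3,
    ⟨⟨fun I hI => ?_, fun I hI => ?_⟩, by simp, fun α hα => ?_⟩, fun v hv => ?_⟩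
  · have hn := (cop_pow_nat hm).1 hI
    have hI := Cop_of_dvd hn hψ.ev
    have h0 : g (Ideal.relNorm (𝓞 k) I) ≠ 0 := fun e => Cop_ne_bot le_rfl (cop_rel.2 hI) (by
      rw [← (hg _ (cop_rel.2 hI)).1, e, sp, Ideal.span_singleton_eq_bot])
    rw [hΨ I hI, norm_mul, Complex.norm_conj, hψ.rc.norm_cop I hn, one_mul, norm_dir]
    rw [_root_.map_ne_zero]
    exact_mod_cast h0
  · by_cases h2 : Cop 2 I
    · rw [hΨ I h2, hψ.rc.zero I fun e => hI ((cop_pow_nat hm).2 e), map_zero, zero_mul]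
    · exact if_neg h2
  · have hI := Cop_of_dvd (cop_span_of_dvd hα) (hψ.ev.trans hn3)
    have h2 : (4 : 𝓞 K) ∣ α - 1 := Dvd.dvd.trans (by
      exact_mod_cast Nat.cast_dvd_cast (α := 𝓞 K) h43) hα
    have h3 := cop_rel (E := k).2 hI
    rw [Ideal.relNorm_singleton] at h3
    rw [hΨ _ hI, Ideal.relNorm_singleton, hg' _ h3 (Dvd.dvd.trans ⟨1 - B.ω, by
      linear_combination 2 * hω⟩ (norm_cong c.toCtx B h2)), sig_norm c.toCtx B, ty_const, zpow_one,
      hψ.rc.prin α ((Nat.cast_dvd_cast hn3).trans hα), map_one, one_mul]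
  · have hvn : ¬ Dv n v := fun e => hv (e.of_dvd hn3)
    have hv2 : ¬ Dv 2 v := fun e => hvn (e.of_dvd hψ.ev)
    refine ⟨hψ.unit v hvn, fun T hT => ?_⟩
    have hI : Cop 2 v.asIdeal := (cop_prime_iff v).2 hv2
    obtain ⟨F, _, _, _, ρ, hs, hk, hc⟩ := exists_res v
    have h2 : ringChar F ≠ 2 := fun e => hv2 ((hk _).1 (by rw [map_natCast, ringChar.spec, e]))
    obtain ⟨J, hJ1, hJ2, hJ3, hJ4, hJ5⟩ :=
      x_jac4 B hD hP F (ρ.comp (algebraMap (𝓞 k) (𝓞 K))) h2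
    have hJ := span_J c.toCtx hD hP ρ v hk hc h2 hJ2 hJ3 hJ4
    have hgJ : g (Ideal.relNorm (𝓞 k) v.asIdeal) = -J := by
      have e : sp (-J) = Ideal.relNorm (𝓞 k) v.asIdeal := by rw [← hJ, sp, Ideal.span_singleton_neg]
      rw [← e]
      refine hg' _ (e ▸ cop_rel.2 hI) ?_
      rw [show -J - 1 = -(J + 1) by ring, dvd_neg]
      exact hJ1
    obtain ⟨q1, q2, q3, -⟩ := hQB1 K _ v hι hv2
    obtain ⟨j, hj⟩ := q3 ζ (hψ.unit v hvn)
    rw [hΨ _ hI, hgJ, hψ.all v hvn, q2 ζ j hj, ← hw, map_pow]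
    have hj' := (hk _).2 hj
    rw [map_sub, map_pow, map_pow, sub_eq_zero, ← hc] at hj'
    have hT0 : ρ T ≠ 0 := fun e => hT ((hk T).1 e)
    have hq2 : Fintype.card F / 2 = 2 * ((Fintype.card F - 1) / 4) := by rw [hc]; omega
    have he := quadraticChar_sq_one hT0
    have hsum := hJ5 (ρ (ζ * T ^ 2)) (w ^ j * (quadraticChar F (ρ T) : ℤ)) (by
      rw [mul_pow, ← pow_mul, mul_comm j, pow_mul, hw4, show 4 = 2 * 2 from rfl, pow_mul,
        ← Int.cast_pow, he]; simp) (by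
      rw [map_mul, map_intCast, quadraticChar_eq_pow_of_char_ne_two' h2, hq2, map_pow,
        RingHom.comp_apply, ← hj', map_mul, mul_pow, map_pow, ← pow_mul])
    have hl : chs (-(ζ * T ^ 2)) v =
        ∑ x : F, ((quadraticChar F (x ^ 3 - ρ (ζ * T ^ 2) * x) : ℤ) : ℂ) := by
      obtain ⟨r, hr⟩ := hs.hasRightInverse
      have hp : Peri v.asIdeal fun x => leg (x ^ 3 + -(ζ * T ^ 2) * x) v := fun x y e =>
        leg_congr (by
          rw [show x ^ 3 + -(ζ * T ^ 2) * x - (y ^ 3 + -(ζ * T ^ 2) * y) =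
            (x ^ 2 + x * y + y ^ 2 - ζ * T ^ 2) * (x - y) by ring]
          exact v.asIdeal.mul_mem_left _ e)
      rw [chs, hp.finsum_eq r ⟨fun x y e => ?_, fun x => ?_⟩]
      · refine sum_congr rfl fun x _ => ?_
        rw [leg_eq_quad ρ hs hk, map_add, map_mul, map_neg, map_pow, hr x, neg_mul, sub_eq_add_neg]
      · have := (hk _).2 (Ideal.Quotient.eq.1 e)
        rwa [map_sub, hr x, hr y, sub_eq_zero] at this
      · obtain ⟨x, rfl⟩ := Ideal.Quotient.mk_surjective x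
        exact ⟨ρ x, Ideal.Quotient.eq.2 ((hk _).1 (by rw [map_sub, hr, sub_self]))⟩
    have h := congrArg (fun a : 𝓞 k => B.σ a) hsum
    simp only [map_sum, map_add, map_mul, map_intCast, map_pow, hP.2.1] at h
    have hn : √(NN v.asIdeal) = ‖B.σ J‖ := by
      rw [NN, ← absNorm_rel (E := k), ← hJ, ← NN, NN_sp c.toCtx B, Real.sqrt_sq (norm_nonneg _)]
    have h' : B.σ (-J : 𝓞 k) = -B.σ J := by simp
    rw [hl, leg_eq_quad ρ hs hk, hn, h', map_mul, map_pow]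
    exact h.trans (fin _ _ _ _)

end Pool.Agent.P.MP_b8021b_nt.BJ
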