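import Pool.Agent.P.MP_b8021b_nt.BJ.StA

/-! Package QB1: the basic properties of the quartic symbol. -/

namespace Pool.Agent.P.MP_b8021b_nt.BJ

open NumberField IsDedekindDomain Finset MeasureTheory
open Pool.Agent.P.MP_b8021b_nt.VE Pool.Agent.P.MP_b8021b_nt.VC Pool.Agent.P.MP_b8021b_nt.BS.CF
open Pool.Agent.P.MP_b8021b_nt.BS Pool.Agent.P.MP_b8021b_nt.BP
open scoped Classical ComplexConjugate Real

namespace JQB1

variable {F : Type} [Field F] {i : F}

theorem pow_mod {R : Type} [CommRing R] {x : R} (h : x ^ 2 = -1) (j : ℕ) : x ^ j = x ^ (j % 4) := by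
  have h4 : x ^ 4 = 1 := by linear_combination (x ^ 2 - 1) * h
  conv_lhs => rw [← Nat.div_add_mod j 4, pow_add, pow_mul, h4, one_pow, one_mul]

theorem ne_zero (h : i ^ 2 = -1) : i ≠ 0 := by
  rintro rfl
  simp at h

theorem inj (h : i ^ 2 = -1) (h2 : (2 : F) ≠ 0) {a b : ℕ} (ha : a < 4) (hb : b < 4)
    (e : i ^ a = i ^ b) : a = b := by
  have h0 := ne_zero h
  have key : ∀ c : ℕ, c < 4 → i ^ c = 1 → c = 0 := by
    intro c hc e
    interval_cases c
    · rfl
    · exact absurd (by linear_combination h - (i + 1) * e) h2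
    · exact absurd (by linear_combination h - e) h2
    · exact absurd (by linear_combination (i ^ 4 - i ^ 2 + 1) * h - (i ^ 3 + 1) * e) h2
  rcases le_total a b with hab | hab
  · obtain ⟨c, rfl⟩ := Nat.exists_eq_add_of_le hab
    rw [pow_add] at e
    have := key c (by omega) (mul_left_cancel₀ (pow_ne_zero a h0) (by rw [← e, mul_one]))
    omega
  · obtain ⟨c, rfl⟩ := Nat.exists_eq_add_of_le hab
    rw [pow_add] at e
    have := key c (by omega) (mul_left_cancel₀ (pow_ne_zero b h0) (by rw [e, mul_one]))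
    omega

/-- the symbol of a field element -/
noncomputable def S (i z : F) : ℂ := ∑ j ∈ range 4, if z = i ^ j then Complex.I ^ j else 0

theorem S_pow (h : i ^ 2 = -1) (h2 : (2 : F) ≠ 0) (j : ℕ) : S i (i ^ j) = Complex.I ^ j := by
  have hj : j % 4 < 4 := Nat.mod_lt _ (by norm_num)
  rw [pow_mod h j, pow_mod Complex.I_sq j, S, Finset.sum_eq_single (j % 4)]
  · simp
  · intro b hb hne
    rw [if_neg fun e => hne (inj h h2 hj (mem_range.1 hb) e).symm]
  · intro hn
    exact absurd (mem_range.2 hj) hn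

theorem S_zero (h : i ^ 2 = -1) : S i 0 = 0 :=
  Finset.sum_eq_zero fun j _ => if_neg (pow_ne_zero j (ne_zero h)).symm

theorem root (h : i ^ 2 = -1) {z : F} (hz : z ^ 4 = 1) : ∃ j : ℕ, z = i ^ j := by
  have e : (z - i ^ 0) * (z - i ^ 1) * (z - i ^ 2) * (z - i ^ 3) = 0 := by
    have h3 : i ^ 3 = -i := by linear_combination i * h
    rw [h3, h]
    linear_combination hz - (z ^ 2 - 1) * h
  simp only [mul_eq_zero, sub_eq_zero] at e
  rcases e with ((e | e) | e) | e <;> exact ⟨_, e⟩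

end JQB1

open JQB1 in
theorem j_qb1 (h : QX) : J_QB1 := by
  intro L _ _ ι v hι hv
  obtain ⟨F, _, _, _, ρ, hs, hk, hc⟩ := exists_res v
  rw [← hc]
  have hi : ρ ι ^ 2 = -1 := by rw [← map_pow, hι, map_neg, map_one]
  have h2 : (2 : F) ≠ 0 := fun e => hv ((hk _).1 (by rw [map_natCast]; exact_mod_cast e))
  have hF : ringChar F ≠ 2 := fun e => h2 (by
    have := ringChar.Nat.cast_ringChar (R := F)
    rw [e] at this
    simpa using this)
  have hodd := FiniteField.odd_card_of_char_ne_two hF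
  have h3 : Fintype.card F % 4 ≠ 3 :=
    FiniteField.isSquare_neg_one_iff.1 ⟨ρ ι, by rw [← hi, sq]⟩
  have h1 : Fintype.card F % 4 = 1 := by omega
  have hq : 1 < Fintype.card F := Fintype.one_lt_card
  set e := (Fintype.card F - 1) / 4 with he
  have he0 : e ≠ 0 := by omega
  have hm : ∀ (y : 𝓞 L) (j : ℕ), y ^ e - ι ^ j ∈ v.asIdeal ↔ ρ y ^ e = ρ ι ^ j := by
    intro y j
    rw [← hk, map_sub, map_pow, map_pow, sub_eq_zero]
  have hS : ∀ y : 𝓞 L, q4 ι y v = S (ρ ι) (ρ y ^ e) := by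
    intro y
    rw [q4, S, ← hc, ← he]
    refine Finset.sum_congr rfl fun j _ => ?_
    by_cases hj : ρ y ^ e = ρ ι ^ j
    · rw [if_pos hj, if_pos ((hm y j).2 hj)]
    · rw [if_neg hj, if_neg fun c => hj ((hm y j).1 c)]
  have hroot : ∀ z : F, z ≠ 0 → ∃ j : ℕ, z ^ e = ρ ι ^ j := by
    intro z hz
    refine root hi ?_
    rw [← pow_mul, show e * 4 = Fintype.card F - 1 by omega]
    exact FiniteField.pow_card_sub_one_eq_one z hz
  have hmul : ∀ x y : 𝓞 L, q4 ι (x * y) v = q4 ι x v * q4 ι y v := by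
    intro x y
    rw [hS, hS, hS, map_mul]
    by_cases hx : ρ x = 0
    · simp [hx, he0, S_zero hi]
    by_cases hy : ρ y = 0
    · simp [hy, he0, S_zero hi]
    obtain ⟨a, ha⟩ := hroot _ hx
    obtain ⟨b, hb⟩ := hroot _ hy
    rw [mul_pow, ha, hb, ← pow_add, S_pow hi h2, S_pow hi h2, S_pow hi h2, pow_add]
  have hsq : ∀ y : 𝓞 L, q4 ι y v ^ 2 = leg y v := by
    intro y
    rw [hS, leg_eq_quad ρ hs hk]
    by_cases hy : ρ y = 0
    · simp [hy, he0, S_zero hi]
    obtain ⟨a, ha⟩ := hroot _ hy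
    have e1 : ρ y ^ (Fintype.card F / 2) = (-1) ^ a := by
      rw [show Fintype.card F / 2 = e * 2 by omega, pow_mul, ha, ← pow_mul, mul_comm, pow_mul, hi]
    rw [ha, S_pow hi h2, ← pow_mul, mul_comm, pow_mul, Complex.I_sq,
      quadraticChar_eq_pow_of_char_ne_two hF hy, e1]
    have hne : (-1 : F) ≠ 1 := fun e => h2 (by linear_combination -e)
    rcases Nat.even_or_odd a with ha2 | ha2
    · simp [ha2.neg_one_pow]
    · simp [ha2.neg_one_pow, hne]
  refine ⟨h1, fun y j hj => ?_, fun y hy => ?_, hmul, hsq, fun s => ?_⟩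
  · rw [hS, (hm y j).1 hj, S_pow hi h2]
  · obtain ⟨j, hj⟩ := hroot (ρ y) fun e => hy ((hk y).1 e)
    exact ⟨j, (hm y j).2 hj⟩
  · rw [sq, hmul, ← sq, hsq]

end Pool.Agent.P.MP_b8021b_nt.BJ
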