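import Pool.Agent.P.MP_b8021b_nt.BJ.StA

/-! The residue symbols in an extension; unramified quadratic extensions. -/

namespace Pool.Agent.P.MP_b8021b_nt.BJ

open NumberField IsDedekindDomain Finset MeasureTheory
open Pool.Agent.P.MP_b8021b_nt.VE Pool.Agent.P.MP_b8021b_nt.VC Pool.Agent.P.MP_b8021b_nt.BS.CF
open Pool.Agent.P.MP_b8021b_nt.BS Pool.Agent.P.MP_b8021b_nt.BP
open scoped Classical ComplexConjugate Real

namespace JQB2

theorem geo (a f : ℕ) : ∃ S : ℕ, (4 * a + 1) ^ f = 4 * (a * S) + 1 ∧ S % 4 = f % 4 := by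
  induction f with
  | zero => exact ⟨0, by simp, rfl⟩
  | succ f ih =>
    obtain ⟨S, h1, h2⟩ := ih
    exact ⟨4 * (a * S) + S + 1, by rw [pow_succ, h1]; ring, by omega⟩

theorem ipow (j S f : ℕ) (h : S % 4 = f % 4) : Complex.I ^ (j * S) = (Complex.I ^ j) ^ f := by
  have h4 : (Complex.I ^ j) ^ 4 = 1 := by rw [← pow_mul, mul_comm, pow_mul, Complex.I_pow_four, one_pow]
  rw [pow_mul, pow_eq_pow_mod S h4, pow_eq_pow_mod f h4, h]

/-- an element of even valuation is an integral unit times a local square -/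
theorem ex_unit {L : Type} [Field L] [NumberField L] (hW : Z_WA) {v : Pl L} (h2 : ¬ Dv 2 v) {a : L}
    (ha : a ≠ 0) (he : Even (od v a)) :
    ∃ (y : 𝓞 L) (u : L), y ∉ v.asIdeal ∧ LP 2 v u ∧ a = y * u := by
  obtain ⟨ϖ, hϖ, h1⟩ := exists_od_one v
  obtain ⟨k, hk⟩ := he
  have hp : ((ϖ : L) ^ k) ≠ 0 := zpow_ne_zero _ hϖ
  set x : L := a / ((ϖ : L) ^ k) ^ 2 with hx
  have x0 : x ≠ 0 := div_ne_zero ha (pow_ne_zero _ hp)
  have x1 : vl v x = 1 := by
    rw [← od_eq_zero_iff v x0, hx, od_div v ha (pow_ne_zero _ hp), od_pow, od_zpow, h1, hk]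
    push_cast
    ring
  obtain ⟨y, hy⟩ := (hW L).1 {v} (fun _ => x) 1 fun w hw => by
    rw [mem_singleton.1 hw]
    exact x1.le
  have hy1 : vl v (y - x) < 1 := (vl_lt_one_iff v).2 (by simpa using hy v (mem_singleton_self v))
  have hy2 : vl v (y / x - 1) < 1 := by
    rw [show (y : L) / x - 1 = (y - x) / x by field_simp, map_div₀, x1, div_one]
    exact hy1
  have hy3 : vl v (y : L) = 1 := by
    have := vl_of_near v hy2
    rwa [map_div₀, x1, div_one] at this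
  have y0 : (y : L) ≠ 0 := fun e => by simp [e] at hy3
  refine ⟨y, (y / x)⁻¹ * ((ϖ : L) ^ k) ^ 2, (vl_coe_eq v y).1 hy3,
    (LP.of_near_one h2 hy2).inv.mul (lp_sq v hp), ?_⟩
  rw [hx]
  field_simp

end JQB2

theorem j_qb2 (h : QX) (hQB1 : J_QB1) : J_QB2 := by
  intro L M _ _ _ _ _ ι v w f hι h2 hU hN
  have h2' : ¬ Dv 2 w := fun e => h2 ((Und_dv hU).1 e)
  obtain ⟨a1, a2, a3, -, a5, -⟩ := hQB1 L ι v hι h2
  obtain ⟨-, b2, -, -, b5, -⟩ := hQB1 M _ w (iota_map hι) h2'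
  have f0 : f ≠ 0 := by
    rintro rfl
    exact w.isPrime.ne_top (Ideal.absNorm_eq_one_iff.1 (by simpa using hN))
  obtain ⟨a, ha⟩ : ∃ a, Ideal.absNorm v.asIdeal = 4 * a + 1 := ⟨Ideal.absNorm v.asIdeal / 4, by omega⟩
  obtain ⟨S, s1, s2⟩ := JQB2.geo a f
  have e1 : (Ideal.absNorm v.asIdeal - 1) / 4 = a := by omega
  have e2 : (Ideal.absNorm w.asIdeal - 1) / 4 = a * S := by rw [hN, ha, s1]; omega
  have key : ∀ y : 𝓞 L, q4 (algebraMap (𝓞 L) (𝓞 M) ι) (algebraMap (𝓞 L) (𝓞 M) y) w =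
      q4 ι y v ^ f := by
    intro y
    by_cases hy : y ∈ v.asIdeal
    · have c1 : q4 ι y v = 0 := pow_eq_zero_iff two_ne_zero |>.1 ((a5 y).trans (leg_eq_zero.2 hy))
      have c2 := pow_eq_zero_iff two_ne_zero |>.1
        ((b5 _).trans (leg_eq_zero.2 ((Und_mem hU y).2 hy)))
      rw [c1, c2, zero_pow f0]
    · obtain ⟨j, hj⟩ := a3 y hy
      rw [a2 y j hj, ← JQB2.ipow j S f s2]
      apply b2
      rw [e2, pow_mul, pow_mul]
      refine w.asIdeal.mem_of_dvd (sub_dvd_pow_sub_pow _ _ S) ?_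
      have := (Und_mem hU _).2 hj
      rwa [map_sub, map_pow, map_pow, e1] at this
  have key2 : ∀ y : 𝓞 L, leg (algebraMap (𝓞 L) (𝓞 M) y) w = leg y v ^ f := fun y => by
    rw [← b5, key, ← a5, ← pow_mul, ← pow_mul, mul_comm]
  refine ⟨fun y => ⟨key y, key2 y⟩, fun x hx he => ?_⟩
  obtain ⟨y, u, y1, u1, rfl⟩ := JQB2.ex_unit h.wa h2 hx he
  rw [map_mul, lq_mul_lp u1, lq_mul_lp ((h.ex L M).2.2.2.1 2 v w u hU u1), lq_coe h2 y1, ← key2,
    ← coe_map, lq_coe h2' fun e => y1 ((Und_mem hU y).1 e)]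

theorem j_unr (h : QX) : J_UNR := by
  intro L M _ _ _ _ _ _ b β v w hL hK h2 he hU x
  obtain ⟨v', e, e1, hU', hv⟩ := (h.ex L M).1 w
  obtain rfl : v = v' := HeightOneSpectrum.ext (hU.trans hU'.symm)
  have e2 : e = 1 := by
    by_contra e2
    have hr : RamP L w.asIdeal := by
      rw [RamP, Ideal.map_le_iff_le_comap, ← hU]
      intro a ha
      rw [Ideal.mem_comap, ← vl_coe_le_exp, coe_map, hv]
      have h1 := (vl_lt_one_iff v).1 ((vl_coe_lt v a).2 ha)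
      refine (pow_le_pow_left' h1 e).trans ?_
      rw [← WithZero.exp_nsmul, WithZero.exp_le_exp]
      simp only [nsmul_eq_mul]
      push_cast
      omega
    rcases ((h.kp L M 2 b β hL (Or.inl rfl) hK v).1 w.asIdeal w.isMaximal hr hU).1 with c | c
    · exact h2 c
    · exact c he.two_dvd
  rw [od, hv, e2, pow_one, od]

end Pool.Agent.P.MP_b8021b_nt.BJ
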