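import Pool.Agent.P.MP_b8021b_nt.BJ.StA
import Pool.Agent.P.MP_b8021b_nt.BP.PDIR

/-! Primes in a ray class, in short blocks. -/

namespace Pool.Agent.P.MP_b8021b_nt.BJ

open NumberField IsDedekindDomain Finset MeasureTheory
open Pool.Agent.P.MP_b8021b_nt.VE Pool.Agent.P.MP_b8021b_nt.VC Pool.Agent.P.MP_b8021b_nt.BS.CF
open Pool.Agent.P.MP_b8021b_nt.BS Pool.Agent.P.MP_b8021b_nt.BP
open scoped Classical ComplexConjugate Real
variable {k : Type} [Field k] [NumberField k] [Algebra k ℂ] {K : Type} [Field K] [NumberField K]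
  [Algebra k K]

namespace JRBL

theorem sum_pls (F : Pl K → ℂ) {a b : ℝ} (hab : a ≤ b) :
    ∑ v ∈ pls K a b, F v = ∑ v ∈ pls K 0 b, F v - ∑ v ∈ pls K 0 a, F v := by
  rw [← sum_sdiff_eq_sub (pls_mono le_rfl hab)]
  refine sum_congr (Finset.ext fun v => ?_) fun _ _ => rfl
  simp only [mem_sdiff, mem_pls, nv_pos v, true_and, not_le, and_comm]

theorem two (c : Cx k K) (Y : Yb k K) {N : ℕ} (hN : 2 ≤ N) (ψ : Ideal (𝓞 K) →* ℂ) :
    ∃ C : ℝ, RC N ψ → ∀ y : ℝ, 1 ≤ y →
      ‖∑ v ∈ pls K 0 y, ψ v.asIdeal * (Real.log (nv v) / nv v : ℝ) -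
        (if ψ = triv K N then Real.log y else 0 : ℝ)‖ ≤ C := by
  by_cases hψ : RC N ψ
  swap
  · exact ⟨0, fun h => absurd h hψ⟩
  by_cases e : ψ = triv K N
  · obtain ⟨C, hC⟩ := Y.me1
    refine ⟨C + lw (pls K 0 (NN (sp (N : 𝓞 K)))), fun _ y hy => ?_⟩
    have h1 := abs_le.1 (hC y hy)
    have h2 : ∑ v ∈ pls K 0 y, triv K N v.asIdeal * (Real.log (nv v) / nv v : ℝ) =
        ((lw (pls K 0 y) - lw ((pls K 0 y).filter (Dv N)) : ℝ) : ℂ) := by
      rw [lw, lw, sum_filter, ← sum_sub_distrib, Complex.ofReal_sum]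
      refine sum_congr rfl fun v _ => ?_
      by_cases d : Dv N v
      · rw [if_pos d, triv_not fun h => (cop_prime_iff v).1 h d, zero_mul, sub_self,
          Complex.ofReal_zero]
      · rw [if_neg d, triv_cop ((cop_prime_iff v).2 d), one_mul, sub_zero]
    have h3 : lw ((pls K 0 y).filter (Dv N)) ≤ lw (pls K 0 (NN (sp (N : 𝓞 K)))) :=
      lw_mono fun v hv => mem_pls.2 ⟨nv_pos v, nv_le_of_dv (by omega) (mem_filter.1 hv).2⟩
    have h4 : 0 ≤ lw ((pls K 0 y).filter (Dv N)) := sum_nonneg fun v _ => PDIR.w_nonneg v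
    rw [if_pos e, e, h2, ← Complex.ofReal_sub, Complex.norm_real, Real.norm_eq_abs, abs_le]
    constructor <;> linarith [h1.1, h1.2]
  · have t : ¬ IsTriv N ψ := fun t => e (eq_triv hψ.toIsChar t)
    have : ∃ C : ℝ, ∀ s : ℝ, 1 < s → s ≤ 2 → -C ≤ dsum (lam ψ) s := by
      by_cases e : ∀ I, Cop N I → ψ I ^ 2 = 1
      · exact c.nv2 K N ψ c.om hN hψ t e
      · push Not at e
        exact c.nvc K N ψ c.om hN hψ e
    obtain ⟨C, hC⟩ := Y.me2 N ψ hN hψ t this
    refine ⟨C, fun _ y hy => ?_⟩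
    rw [if_neg e, Complex.ofReal_zero, sub_zero]
    exact hC y hy

theorem key (c : Cx k K) (Y : Yb k K) {N : ℕ} (hN : 2 ≤ N) :
    ∃ C H : ℝ, 0 ≤ C ∧ 0 < H ∧ ∀ I : Ideal (𝓞 K), Cop N I → ∀ a b : ℝ, 1 ≤ a → a ≤ b →
      Real.log (b / a) - C ≤ H * lw ((pls K a b).filter (Cl N I)) := by
  obtain ⟨𝒳, hX, hO⟩ := c.lib.i.rep K c.om N hN
  choose C hC using two c Y hN
  have top : ∀ ψ : Ideal (𝓞 K) →* ℂ, ψ ⊤ = 1 := fun ψ => by rw [← Ideal.one_eq_top, map_one]
  have ht : triv K N ∈ 𝒳 := (hX _).2 (RC.triv K N)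
  refine ⟨∑ ψ ∈ 𝒳, 2 * |C ψ|, 𝒳.card, sum_nonneg fun ψ _ => by positivity,
    Nat.cast_pos.2 (card_pos.2 ⟨_, ht⟩), fun I hI a b ha hab => ?_⟩
  have low : ∀ ψ ∈ 𝒳, (if ψ = triv K N then Real.log (b / a) else 0) - 2 * |C ψ| ≤
      (ψ I * ∑ v ∈ pls K a b, ψ v.asIdeal * (Real.log (nv v) / nv v : ℝ)).re := by
    intro ψ hψ
    have r := (hX ψ).1 hψ
    have h1 := hC ψ r a ha
    have h2 := hC ψ r b (ha.trans hab)
    have h3 := (abs_le.1 ((Complex.abs_re_le_norm _).trans ((norm_mul (ψ I) _).le.trans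
      (mul_le_mul (r.norm_cop I hI).le ((norm_sub_le _ _).trans (add_le_add h2 h1)) (norm_nonneg _)
        zero_le_one)))).1
    have h4 := le_abs_self (C ψ)
    rw [sum_pls _ hab, Real.log_div (by linarith) (by linarith)]
    by_cases e : ψ = triv K N
    · have e1 : ψ I = 1 := by rw [e, triv_cop hI]
      simp only [if_pos e, e1, one_mul, Complex.sub_re, Complex.ofReal_re] at h3 ⊢
      linarith
    · simp only [if_neg e, Complex.ofReal_zero, sub_zero] at h3 ⊢
      linarith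
  have h1 := sum_le_sum low
  rw [sum_sub_distrib, sum_ite_eq' 𝒳, if_pos ht, ← Complex.re_sum] at h1
  refine h1.trans ?_
  simp only [mul_sum]
  rw [sum_comm, Complex.re_sum, lw, sum_filter, mul_sum]
  refine sum_le_sum fun v _ => ?_
  have w0 := PDIR.w_nonneg v
  by_cases d : Dv N v
  · rw [sum_eq_zero fun ψ hψ => by
      rw [((hX ψ).1 hψ).zero v.asIdeal fun h => (cop_prime_iff v).1 h d, zero_mul, mul_zero],
      Complex.zero_re]
    split_ifs <;> positivity
  · have o := hO (I * v.asIdeal) ⊤ (IsCoprime.mul_left hI ((cop_prime_iff v).2 d))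
      (by rw [Cop, ← Ideal.one_eq_top]; exact isCoprime_one_left)
    simp only [top, map_one, mul_one, map_mul] at o
    simp only [← mul_assoc]
    rw [← sum_mul, o]
    by_cases r : Ray N (I * v.asIdeal) ⊤
    · obtain ⟨u, h3, h4⟩ := PCP.gen r
      rw [if_pos r, if_pos (show Cl N I v from ⟨u, h3, h4.symm⟩), ← Complex.ofReal_natCast,
        ← Complex.ofReal_mul, Complex.ofReal_re]
    · rw [if_neg r, zero_mul, Complex.zero_re]
      split_ifs <;> positivity

end JRBL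

open JRBL in
theorem j_rbl (c : Cx k K) (Y : Yb k K) : J_RBL K := by
  intro N hN
  obtain ⟨C, H, h0, hH, hC⟩ := key c Y hN
  set B := Real.exp (C + 1) with hB
  have hB2 : 2 ≤ B := by linarith [Real.add_one_le_exp (C + 1)]
  refine ⟨B, (4 * H * B)⁻¹, max B (Real.exp (2 * C)), hB2, by positivity, fun I hI y hy => ?_⟩
  have y1 : B ≤ y := (le_max_left _ _).trans hy
  have y0 : 0 < y := by linarith
  have l0 : 0 < Real.log y := Real.log_pos (by linarith)
  constructor
  · have h4 := hC I hI (y / B) y ((one_le_div (by linarith)).2 y1) (div_le_self y0.le (by linarith))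
    rw [div_div_cancel₀ y0.ne', hB, Real.log_exp, ← hB] at h4
    have h5 := sum_le_card_nsmul ((pls K (y / B) y).filter (Cl N I))
      (fun v => Real.log (nv v) / nv v) (Real.log y / (y / B)) fun v hv => by
        obtain ⟨b1, b2⟩ := mem_pls.1 (mem_filter.1 hv).1
        exact div_le_div₀ l0.le (Real.log_le_log (nv_pos v) b2) (by positivity) b1.le
    rw [nsmul_eq_mul] at h5
    have h6 : 1 ≤ (((pls K (y / B) y).filter (Cl N I)).card : ℝ) * (H * (Real.log y / (y / B))) := by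
      unfold lw at h4
      have := mul_le_mul_of_nonneg_left h5 hH.le
      linarith
    rw [← div_le_iff₀ (by positivity)] at h6
    refine le_trans ?_ h6
    rw [show 1 / (H * (Real.log y / (y / B))) = 4 * ((4 * H * B)⁻¹ * y / Real.log y) by field_simp]
    have : 0 ≤ (4 * H * B)⁻¹ * y / Real.log y := by positivity
    linarith
  · have y2 : 2 * C ≤ Real.log y := (Real.le_log_iff_exp_le y0).2 ((le_max_right _ _).trans hy)
    have h4 := hC I hI y (y ^ 2) (by linarith) (by nlinarith)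
    rw [sq, mul_div_cancel_right₀ _ y0.ne', ← sq] at h4
    have h5 : lw ((pls K y (y ^ 2)).filter (Cl N I)) ≤
        2 * Real.log y * ∑ v ∈ (pls K y (y ^ 2)).filter (Cl N I), (nv v)⁻¹ := by
      rw [mul_sum]
      refine sum_le_sum fun v hv => ?_
      have := Real.log_le_log (nv_pos v) (mem_pls.1 (mem_filter.1 hv).1).2
      rw [Real.log_pow, Nat.cast_ofNat] at this
      exact mul_le_mul_of_nonneg_right this (inv_nonneg.2 (nv_pos v).le)
    have h6 := mul_le_mul_of_nonneg_left h5 hH.le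
    have h7 : (4 * H * B)⁻¹ ≤ (4 * H)⁻¹ :=
      inv_anti₀ (by positivity) (le_mul_of_one_le_right (by positivity) (by linarith))
    refine h7.trans (le_of_mul_le_mul_left ?_ (by positivity : 0 < H * (2 * Real.log y)))
    rw [show H * (2 * Real.log y) * (4 * H)⁻¹ = Real.log y / 2 by field_simp; ring, mul_assoc]
    linarith

end Pool.Agent.P.MP_b8021b_nt.BJ
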