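import Pool.Agent.P.MP_b8021b_nt.BJ.StA
import Pool.Agent.P.MP_b8021b_nt.BP.PRDAT

/-! The classes attached to the sets of places. -/

namespace Pool.Agent.P.MP_b8021b_nt.BJ

open NumberField IsDedekindDomain Finset MeasureTheory
open Pool.Agent.P.MP_b8021b_nt.VE Pool.Agent.P.MP_b8021b_nt.VC Pool.Agent.P.MP_b8021b_nt.BS.CF
open Pool.Agent.P.MP_b8021b_nt.BS Pool.Agent.P.MP_b8021b_nt.BP
open scoped Classical ComplexConjugate Real

variable {k : Type} [Field k] [NumberField k] [Algebra k ℂ] {K : Type} [Field K] [NumberField K]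
  [Algebra k K]

namespace JRDAT

/-- an integral class -/
theorem ex_om (hRELM : J_RELM K) {s : SD K} (hs : s.Ok) (A : Finset (Pl K)) :
    ∃ ω : 𝓞 K, ω ≠ 0 ∧ ((∃ c, s.Rel A c) → s.Rel A ω) := by
  by_cases h : ∃ c, s.Rel A c
  · obtain ⟨c, hc⟩ := h
    obtain ⟨x, y, hy, rfl⟩ := IsFractionRing.div_surjective (A := 𝓞 K) c
    have y0 : algebraMap (𝓞 K) K y ≠ 0 := by simpa using nonZeroDivisors.ne_zero hy
    have h := (hRELM s hs).2.2 A _ _ hc y0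
    have e : algebraMap (𝓞 K) K x / algebraMap (𝓞 K) K y * algebraMap (𝓞 K) K y ^ 2 =
        ((x * y : 𝓞 K) : K) := by
      rw [RingOfIntegers.coe_eq_algebraMap, map_mul]
      field_simp
    rw [e] at h
    exact ⟨x * y, fun e' => hs.grp.ne _ h.1 (by simp [e']), fun _ => h⟩
  · exact ⟨1, one_ne_zero, fun h' => absurd h' h⟩

theorem nv_le {a : 𝓞 K} (ha : a ≠ 0) {v : Pl K} (h : a ∈ v.asIdeal) : nv v ≤ NN (sp a) :=
  NN_le_of_le (Ideal.span_singleton_eq_bot.not.2 ha) ((Ideal.span_singleton_le_iff_mem _).2 h)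

end JRDAT

open JRDAT in
theorem j_rdat (c : Cx k K) (Y : Yb k K) (hRELM : J_RELM K) : J_RDAT k K := by
  intro s e N₀ hs he hN₀
  have hm : s.m ≠ 0 := by have := hs.md.two; omega
  obtain ⟨N, hN, h8, hN0, hNm, hNV⟩ : ∃ N : ℕ, N ≠ 0 ∧ 8 ∣ N ∧ N₀ ∣ N ∧ s.m ∣ N ∧
      ∀ v ∈ s.V, Ideal.absNorm v.asIdeal ∣ N :=
    ⟨8 * N₀ * s.m * ∏ v ∈ s.V, Ideal.absNorm v.asIdeal,
      mul_ne_zero (mul_ne_zero (mul_ne_zero (by norm_num) hN₀) hm)
        (prod_ne_zero_iff.2 fun v _ e => v.ne_bot (Ideal.absNorm_eq_zero_iff.1 e)),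
      ((dvd_mul_right _ _).mul_right _).mul_right _,
      ((dvd_mul_left _ _).mul_right _).mul_right _, (dvd_mul_left _ _).mul_right _,
      fun v hv => (dvd_prod_of_mem _ hv).mul_left _⟩
  have h2 : 2 ≤ N := le_trans (by norm_num) (Nat.le_of_dvd (Nat.pos_of_ne_zero hN) h8)
  have hdv (v : Pl K) (hv : Dv s.m v ∨ v ∈ s.V) : Dv N v :=
    hv.elim (fun h => h.of_dvd hNm) fun h => Dv.of_dvd (Ideal.absNorm_mem _) (hNV v h)
  obtain ⟨ℛ, hR, -, hray⟩ := Y.rep N 0 h2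
  obtain ⟨C, hC, hgen⟩ := PRDAT.ex_gen c (one_le_two.trans h2) hR
  choose cl β hcl hβ using hgen
  choose ω ω0 hω using fun v : Pl K => ex_om hRELM hs {v}
  obtain ⟨W, W1, hWN, hWe, hW⟩ : ∃ W : ℝ, 1 ≤ W ∧ (∀ v : Pl K, Dv N v → nv v ≤ W) ∧
      NN (sp e) ≤ W ∧ ∀ v ∈ ℛ, nv v ≤ W ∧ NN (sp (ω v)) ≤ W ∧ NN (sp (e * ω v)) ≤ W := by
    have n1 : 1 ≤ NN (sp (N : 𝓞 K)) :=
      one_le_NN (Ideal.span_singleton_eq_bot.not.2 (Nat.cast_ne_zero.2 hN))
    have p (v : Pl K) : 0 ≤ nv v + NN (sp (ω v)) + NN (sp (e * ω v)) := by positivity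
    have s0 := sum_nonneg fun v (_ : v ∈ ℛ) => p v
    have e0 : 0 ≤ NN (sp e) := Nat.cast_nonneg _
    refine ⟨NN (sp (N : 𝓞 K)) + NN (sp e) +
      ∑ v ∈ ℛ, (nv v + NN (sp (ω v)) + NN (sp (e * ω v))), by linarith,
      fun v hv => by linarith [nv_le_of_dv hN hv], by linarith, fun v hv => ?_⟩
    have := single_le_sum (fun v (_ : v ∈ ℛ) => p v) hv
    have := nv_pos v
    have : 0 ≤ NN (sp (ω v)) := Nat.cast_nonneg _
    have : 0 ≤ NN (sp (e * ω v)) := Nat.cast_nonneg _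
    exact ⟨by linarith, by linarith, by linarith⟩
  have hcop (D : Finset (Pl K)) (hD : ∀ v ∈ D, W < nv v) : Cop N (eI D) :=
    (cop_eI hN).2 fun v hv h => (hD v hv).not_ge (hWN v h)
  have hok (o : Pl K → 𝓞 K) (o0 : ∀ v, o v ≠ 0) (ho : ∀ v ∈ ℛ, NN (sp (o v)) ≤ W) :
      (⟨N, W, C * W, cl, o, β, fun v => ∃ c, s.Rel {v} c⟩ : RD K).Ok k := by
    refine ⟨h2, h8, one_le_mul_of_one_le_of_one_le hC W1, hWN, fun D => (hW _ (hcl D)).1,
      fun D => o0 _, fun D v h => (nv_le (o0 _) h).trans (ho _ (hcl D)),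
      fun D => (ho _ (hcl D)).trans (le_mul_of_one_le_left (by linarith) hC),
      fun D hD => ?_, fun D D' hD hD' => ?_⟩
    · obtain ⟨e, h1, hb⟩ := hβ D (hcop D hD)
      refine ⟨e, h1, fun φ => (hb φ).trans ?_⟩
      have := (hW _ (hcl D)).1
      have := nS_pos D
      have : 0 ≤ C := by linarith
      dsimp only
      gcongr
    · obtain ⟨e, h1, -⟩ := hβ D (hcop D hD)
      obtain ⟨e', h1', -⟩ := hβ D' (hcop D' hD')
      have h := hray _ _ _ (hcop D hD) (hcop D' hD') (hcl D) ⟨_, h1, e⟩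
      exact ⟨fun a => h.1 ⟨_, h1', (show cl D = cl D' from a) ▸ e'⟩,
        fun a => (hR _ (hcop D' hD')).unique ⟨hcl D, h.2 a⟩ ⟨hcl D', _, h1', e'⟩⟩
  refine ⟨⟨N, W, C * W, cl, ω, β, fun v => ∃ c, s.Rel {v} c⟩, hN0,
    hok ω ω0 fun v hv => (hW v hv).2.1,
    hok (fun v => e * ω v) (fun v => mul_ne_zero he (ω0 v)) fun v hv => (hW v hv).2.2,
    fun v hv => ?_, fun D hD => ?_⟩
  · have hv' : W < nv v := hv
    exact ⟨fun h => hv'.not_ge (hWN v (hdv v (Or.inl h))),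
      fun h => hv'.not_ge (hWN v (hdv v (Or.inr h))),
      fun h => hv'.not_ge ((nv_le he h).trans hWe)⟩
  · obtain ⟨g, h1, -⟩ := hβ D (hcop D hD)
    obtain ⟨β0, ho⟩ := PRDAT.odd_gen (fun h => (hD _ h).not_ge (hW _ (hcl D)).1) g
    have β0' : (β D : K) ≠ 0 := by simpa using β0
    have hb : s.Rel (symmDiff D {cl D}) (β D : K) :=
      (hRELM s hs).2.1 _ _ ⟨β0', fun v hv => lp_of_dvd h8 h1 (hdv v hv)⟩ fun v _ _ => by
        rw [ho v, mem_symmDiff]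
        tauto
    have hz : (∃ c, s.Rel {cl D} c) → s.Rel D ((ω (cl D) * β D : 𝓞 K) : K) := fun hr => by
      have h := (hRELM s hs).1 _ _ _ _ (hω _ hr) hb
      rw [symmDiff_comm D, symmDiff_symmDiff_cancel_left] at h
      simpa using h
    refine ⟨⟨fun hr => ⟨_, hz hr⟩, fun ⟨a, ha⟩ => ?_⟩, hz, fun v hv => ?_⟩
    · have h := (hRELM s hs).1 _ _ _ _ ha hb
      rw [symmDiff_symmDiff_cancel_left] at h
      exact ⟨_, h⟩
    · change ω (cl D) * β D ∈ v.asIdeal ↔ v ∈ D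
      have hv' : W < nv v := hv
      rw [v.isPrime.mul_mem_iff_mem_or_mem,
        or_iff_right fun h => hv'.not_ge ((nv_le (ω0 _) h).trans (hW _ (hcl D)).2.1),
        ← Ideal.span_singleton_le_iff_mem, ← sp, ← g, v.isPrime.mul_le, eI_le_iff, or_iff_left]
      exact fun h => hv'.not_ge ((NN_le_of_le (cl D).ne_bot h).trans (hW _ (hcl D)).1)

end Pool.Agent.P.MP_b8021b_nt.BJ
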