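import Pool.Agent.P.MP_b8021b_nt.BJ.StA
import Pool.Agent.P.MP_b8021b_nt.BP.PRED2

/-! The Redei moment. -/

namespace Pool.Agent.P.MP_b8021b_nt.BJ

open NumberField IsDedekindDomain Finset MeasureTheory
open Pool.Agent.P.MP_b8021b_nt.VE Pool.Agent.P.MP_b8021b_nt.VC Pool.Agent.P.MP_b8021b_nt.BS.CF
open Pool.Agent.P.MP_b8021b_nt.BS Pool.Agent.P.MP_b8021b_nt.BP
open scoped Classical ComplexConjugate Real

variable {k : Type} [Field k] [NumberField k] [Algebra k ℂ] {K : Type} [Field K] [NumberField K]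
  [Algebra k K]

set_option linter.unusedSectionVars false
set_option linter.unusedVariables false

namespace JRED2

theorem splitg {ι : Type} [DecidableEq ι] (P : Finset ι) {e : ι} (he : e ∈ P) (p q : ι → Prop)
    [DecidablePred p] [DecidablePred q] (hq : ∀ i, q i ↔ ¬ p i) (hp : p e) (g : ι → ℝ)
    (h0 : ∀ i, 0 ≤ g i) (h1 : g e = 1) (κ : ι → ι → ℂ) (hκ : ∀ i j, ‖κ i j‖ ≤ 1)
    (ρ : ι → ℝ) (hρ : ∀ i, ‖κ i e * (g i : ℝ)‖ ≤ ρ i) :
    ‖∑ D ∈ P.filter q, ∑ E ∈ P, κ D E * (g D * g E : ℝ)‖ ≤ ∑ D ∈ P, ρ D +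
      ∑ E ∈ (P.erase e).filter p, g E * ‖∑ D ∈ P, κ D E * (g D : ℝ)‖ +
      (1 + ∑ D ∈ (P.erase e).filter p, g D) ^ 2 +
      ‖∑ D ∈ P.filter q, ∑ E ∈ P.filter q, κ D E * (g D * g E : ℝ)‖ := by
  rw [filter_congr fun i _ => hq i]
  have hn : ∀ (s : Finset ι) E, ‖∑ D ∈ s, κ D E * (g D : ℝ)‖ ≤ ∑ D ∈ s, g D := fun s E =>
    norm_sum_le_of_le _ fun D _ => by
      rw [norm_mul, Complex.norm_real, Real.norm_of_nonneg (h0 D)]
      exact mul_le_of_le_one_left (h0 D) (hκ D E)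
  have hs : ∀ {M : Type} [AddCommMonoid M] (F : ι → M),
      ∑ E ∈ P.filter p, F E = F e + ∑ E ∈ (P.erase e).filter p, F E := fun F => by
    rw [filter_erase, add_sum_erase _ _ (mem_filter.2 ⟨he, hp⟩)]
  set s := ∑ D ∈ (P.erase e).filter p, g D with hs'
  have s0 : 0 ≤ s := sum_nonneg fun i _ => h0 i
  have e1 : ∑ D ∈ P.filter (fun D => ¬ p D), ∑ E ∈ P, κ D E * (g D * g E : ℝ) =
      ∑ D ∈ P.filter (fun D => ¬ p D), κ D e * (g D : ℝ) +
      ∑ E ∈ (P.erase e).filter p, (g E : ℝ) * ∑ D ∈ P.filter (fun D => ¬ p D), κ D E * (g D : ℝ) +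
      ∑ D ∈ P.filter (fun D => ¬ p D), ∑ E ∈ P.filter (fun D => ¬ p D),
        κ D E * (g D * g E : ℝ) := by
    simp only [mul_sum]
    rw [sum_comm (s := (P.erase e).filter p), ← sum_add_distrib, ← sum_add_distrib]
    refine sum_congr rfl fun D _ => ?_
    rw [← sum_filter_add_sum_filter_not P p, hs, h1, mul_one]
    congr 2
    exact sum_congr rfl fun E _ => by push_cast; ring
  have e2 : ∀ E, ‖∑ D ∈ P.filter (fun D => ¬ p D), κ D E * (g D : ℝ)‖ ≤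
      ‖∑ D ∈ P, κ D E * (g D : ℝ)‖ + (1 + s) := fun E => by
    rw [eq_sub_of_add_eq' (sum_filter_add_sum_filter_not P p fun D => κ D E * (g D : ℝ))]
    refine (norm_sub_le _ _).trans (add_le_add_right ((hn _ E).trans_eq ?_) _)
    rw [hs, h1]
  have e3 : ‖∑ E ∈ (P.erase e).filter p, ((g E : ℝ) : ℂ) *
      ∑ D ∈ P.filter (fun D => ¬ p D), κ D E * (g D : ℝ)‖ ≤
      ∑ E ∈ (P.erase e).filter p, g E * ‖∑ D ∈ P, κ D E * (g D : ℝ)‖ + s * (1 + s) := by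
    rw [hs', sum_mul, ← sum_add_distrib]
    refine norm_sum_le_of_le _ fun E _ => ?_
    rw [norm_mul, Complex.norm_real, Real.norm_of_nonneg (h0 E), ← mul_add]
    exact mul_le_mul_of_nonneg_left (e2 E) (h0 E)
  have e4 : ‖∑ D ∈ P.filter (fun D => ¬ p D), κ D e * (g D : ℝ)‖ ≤ ∑ D ∈ P, ρ D :=
    (norm_sum_le_of_le _ fun D _ => hρ D).trans (sum_le_sum_of_subset_of_nonneg (filter_subset _ _)
      fun i _ _ => (norm_nonneg _).trans (hρ i))
  have e5 : s * (1 + s) ≤ (1 + s) ^ 2 := by nlinarith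
  rw [e1]
  refine (norm_add₃_le).trans ?_
  linarith

end JRED2

open PRED2 JRED2 in
theorem j_red2 (c : Cx k K) (Y : Yb k K) (hTE : J_TE K) (hRT2 : J_RT2 k K) : J_RED2 k K := by
  have hKF1 := Y.kf1
  have hKF2 := Y.kf2
  have hBB4 := Y.bb4
  obtain ⟨n, N₀, hn, hN, hnN, hKF⟩ := hKF1
  refine ⟨N₀, hN, fun p d hζ hd hdN => ?_⟩
  obtain ⟨C, W₀, b, Φ, hk⟩ := hKF d hd hdN
  obtain ⟨C', hC', hKB⟩ := hKF2 n d C W₀ b Φ hn hd (hnN.trans hdN) hk
  obtain ⟨W₁, hW₁⟩ := hTE p (d.C * d.W) (1 / 40) hζ (by norm_num)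
  obtain ⟨W₂, hW₂⟩ := hRT2 p n d C W₀ (1 / 40) b Φ hζ hd hk (by norm_num)
  obtain ⟨C₁, j, hC₁, hB⟩ := hBB4
  obtain ⟨y₃, hy₃⟩ := decay (mul_nonneg (zero_le_one.trans hC₁) hC') j (ε := 1 / 40) (by norm_num)
  refine ⟨max W₀ (max W₁ W₂), fun W hW => ?_⟩
  simp only [max_le_iff] at hW
  obtain ⟨y₁, hy₁⟩ := hW₁ W hW.2.1
  obtain ⟨y₂, hy₂⟩ := hW₂ W hW.2.2
  refine ⟨max (max y₁ y₂) (max y₃ 3), fun y hy => ?_⟩
  simp only [max_le_iff] at hy
  have r2 := hy₂ y hy.1.2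
  have r3 := hy₃ y hy.2.1
  set S := (pls K W y).filter p with hS
  have hs : S ⊆ pls K W y := filter_subset _ _
  have hv : ∀ v ∈ S, W₀ < nv v := fun v h => hW.1.trans_lt (mem_pls.1 (hs h)).1
  have hD : ∀ D ∈ (S.powerset.erase ∅).filter (fun E => nS E ≤ D0 y), ∀ v ∈ D, d.W < nv v :=
    fun D h v e => hk.2.1.trans_lt (hv v (mem_powerset.1 (mem_erase.1 (mem_filter.1 h).1).2 e))
  obtain ⟨t1, t2⟩ := hy₁ y hy.1.1 ((S.powerset.erase ∅).filter (fun E => nS E ≤ D0 y)) d.z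
    (fun _ => 1) (fun D h => ⟨(mem_erase.1 (mem_filter.1 h).1).1,
      (mem_powerset.1 (mem_erase.1 (mem_filter.1 h).1).2).trans hs, (mem_filter.1 h).2,
      z_ne hd (hD D h), NN_z hd (hD D h)⟩) (fun D h E h' => od2 hd (hD D h) (hD E h'))
    fun _ => by simp
  have r4 := (hB d.κ S C' y (D0 y) hC' hy.2.2 (one_le_D0 y)
    (fun v h => mem_pls.2 ⟨nv_pos v, (mem_pls.1 (hs h)).2⟩) (hKB S hv)).trans r3
  have h1 : nS (∅ : Finset (Pl K)) ≤ D0 y := by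
    rw [nS_eq, prod_empty]
    exact one_le_D0 y
  have sp := splitg S.powerset (empty_mem_powerset S) (fun E => nS E ≤ D0 y)
    (fun E => D0 y < nS E) (fun _ => not_le.symm) h1 gS gS_nonneg prod_empty d.κ (norm_κ d)
    (fun D => if d.r D then gS D else 0) fun D => by
      unfold RD.κ
      split_ifs
      · rw [eI_empty, jac_top, one_mul, Complex.norm_real, Real.norm_of_nonneg (gS_nonneg D)]
      · simp
  have g0 := GG_nonneg S
  have g1 := GG_le S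
  have a1 : ∑ D ∈ (S.powerset.erase ∅).filter (fun E => nS E ≤ D0 y), (if d.r D then
      gS D * ∏ v ∈ S, (1 + lr (d.z D) v * gg v) else 0) ≤
      ∑ D ∈ (S.powerset.erase ∅).filter (fun E => nS E ≤ D0 y),
        gS D * ‖∏ v ∈ S, (1 + 1 * leg (d.z D) v * (gg v : ℝ))‖ := sum_le_sum fun D _ => by
    split_ifs
    · refine mul_le_mul_of_nonneg_left ?_ (gS_nonneg D)
      simp only [one_mul]
      rw [← prod_coe, Complex.norm_real]
      exact le_abs_self _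
    · exact mul_nonneg (gS_nonneg D) (norm_nonneg _)
  have a2 : ∑ D ∈ (S.powerset.erase ∅).filter (fun E => ¬ nS E ≤ D0 y), (if d.r D then
      gS D * ∏ v ∈ S, (1 + lr (d.z D) v * gg v) else 0) ≤
      ‖∑ D ∈ S.powerset.filter (fun E => D0 y < nS E), ∑ E ∈ S.powerset,
        d.κ D E * (gS D * gS E : ℝ)‖ := by
    rw [filter_erase, erase_eq_of_notMem (by simp [h1])]
    simp only [not_le, ← term_coe]
    rw [← Complex.ofReal_sum, Complex.norm_real]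
    exact le_abs_self _
  rw [← sum_filter_add_sum_filter_not _ (fun E => nS E ≤ D0 y), mul_add]
  have a3 := mul_le_mul_of_nonneg_left a1 g0
  have a4 := mul_le_mul_of_nonneg_left (a2.trans sp) g0
  have a5 := (mul_le_of_le_one_left (norm_nonneg _) g1).trans r4
  rw [mul_add, mul_add, mul_add] at a4
  linarith

end Pool.Agent.P.MP_b8021b_nt.BJ
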