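import Pool.Agent.P.MP_b8021b_nt.BJ.StA
import Pool.Agent.P.MP_b8021b_nt.BP.PRED3
import Pool.Agent.P.MP_b8021b_nt.BP.PTAU
import Pool.Agent.P.MP_b8021b_nt.BP.PRED2

/-! The last prime and the mass with a trivial kernel. -/

namespace Pool.Agent.P.MP_b8021b_nt.BJ

open NumberField IsDedekindDomain Finset MeasureTheory
open Pool.Agent.P.MP_b8021b_nt.VE Pool.Agent.P.MP_b8021b_nt.VC Pool.Agent.P.MP_b8021b_nt.BS.CF
open Pool.Agent.P.MP_b8021b_nt.BS Pool.Agent.P.MP_b8021b_nt.BP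
open scoped Classical ComplexConjugate Real

variable {k : Type} [Field k] [NumberField k] [Algebra k ℂ] {K : Type} [Field K] [NumberField K]
  [Algebra k K]

set_option linter.unusedSectionVars false
set_option linter.unusedVariables false

open PRED3 in
theorem j_red3 (c : Cx k K) (Y : Yb k K) : J_RED3 k K := by
  have hSLH := Y.slh
  intro p d hd
  obtain ⟨C, y₀, hC, y2, ps⟩ := hSLH
  refine ⟨√(8 * C), y₀, fun W y u yq 𝒬 hW h1 hy hq h𝒬 hZ => ?_⟩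
  have W0 : 0 < W := by linarith
  have q1 : 1 < yq := by linarith
  have hm : ∀ τ ∈ TT K W y u, ∀ D ∈ (τ.filter p).powerset.erase ∅,
      τ ⊆ pls K W y ∧ D ≠ ∅ ∧ D ⊆ τ ∧ nS τ ≤ y ^ u := fun τ hτ D hD =>
    ⟨mem_powerset.1 (mem_filter.1 hτ).1, (mem_erase.1 hD).1,
      (mem_powerset.1 (mem_erase.1 hD).2).trans (filter_subset _ _), (mem_filter.1 hτ).2.1⟩
  have hb : ∀ D ∈ (TT K W y u).biUnion fun τ => (τ.filter p).powerset.erase ∅,
      D ≠ ∅ ∧ nS D ≤ y ^ u ∧ ∀ v ∈ D, W < nv v := fun D hD => by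
    obtain ⟨τ, hτ, h⟩ := mem_biUnion.1 hD
    obtain ⟨a1, a2, a3, a4⟩ := hm τ hτ D h
    exact ⟨a2, (nS_mono a3).trans a4, fun v hv => (mem_pls.1 (a1 (a3 hv))).1⟩
  have hw := fun D hD v hv => hW.trans_lt ((hb D hD).2.2 v hv)
  have f0 : ∀ τ D : Finset (Pl K), 0 ≤ (nS τ)⁻¹ * pik d.r d.z D (τ.filter p) :=
    fun τ D => mul_nonneg (inv_pos.2 (nS_pos τ)).le (pik_mem _ _ _ _).1
  have Z0' : 0 ≤ Z0 (pls K W y) := prod_nonneg fun v _ => by have := nv_pos v; positivity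
  have p1 := ps yq (yq ^ 2) _ _ d.z 𝒬 (fun _ => 1) hy (by nlinarith) h𝒬
    (fun _ => norm_one.le)
    (fun D hD => ⟨z_ne hd (hw D hD), (NN_z hd (hw D hD)).trans (le_trans
      (mul_le_mul_of_nonneg_left (hb D hD).2.1 (mul_nonneg (zero_le_one.trans hd.one_le)
        ((nv_pos _).le.trans (hd.cl_le D)))) hq)⟩)
    fun D hD E hE e => od2 hd (hw D hD) (hw E hE) e
  simp only [mul_sum (s := Finset.erase _ _), ← mul_assoc] at hZ ⊢
  rw [swap]
  simp only [← sum_mul]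
  refine cs _ _ _ (by linarith) W0 Z0' (fun D hD => ⟨sum_nonneg fun τ _ => f0 τ D, ?_⟩) ?_ ?_
  · obtain ⟨v, hv⟩ := nonempty_iff_ne_empty.2 (hb D hD).1
    refine (sum_le_sum fun τ _ => mul_le_of_le_one_right (inv_pos.2 (nS_pos τ)).le
      (pik_mem _ _ _ _).2).trans ((sum_mem_le (v := v) fun τ hτ => ?_).trans
      (mul_le_mul_of_nonneg_right (inv_anti₀ W0 ((hb D hD).2.2 v hv).le) Z0'))
    obtain ⟨a1, -, a3, -⟩ := hm τ (mem_filter.1 hτ).1 D (mem_filter.1 hτ).2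
    exact ⟨a1, a3 hv⟩
  · rw [← swap]
    exact le_trans (sum_le_sum_of_subset_of_nonneg (filter_subset _ _)
      fun τ _ _ => sum_nonneg fun D _ => f0 τ D) hZ
  · refine le_trans (le_of_eq (sum_congr rfl fun D _ => ?_)) (p1.trans ?_)
    · simp only [one_mul, ← lr_coe, ← Complex.ofReal_div, ← Complex.ofReal_sum, Complex.norm_real,
        Real.norm_eq_abs, sq_abs]
    · rw [Real.log_pow, mul_div_cancel_right₀ _ (Real.log_pos q1).ne']
      have := Real.log_le_sub_one_of_pos two_pos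
      have := Real.log_nonneg one_le_two
      push_cast
      gcongr
      linarith

open PTAU in
theorem j_taua (c : Cx k K) (Y : Yb k K) (hBLK : J_BLK K) (hRED2 : J_RED2 k K)
    (hRED3 : J_RED3 k K) (hMER : J_MER K) : J_TAUA k K := by
  have hRED1 := Y.red1
  have hMARK := Y.mark
  intro ζ hζ
  obtain ⟨N₀, n0, h2⟩ := hRED2
  refine ⟨N₀, n0, fun d hd hN => ?_⟩
  obtain ⟨W₂, h2⟩ := h2 (Sens ζ) d (hMER.2 ζ hζ).1 hd hN
  obtain ⟨C, y₀, h3⟩ := hRED3 (Sens ζ) d hd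
  obtain ⟨u, W₃, u1, h4⟩ := hMARK
  obtain ⟨_, _, y₄, -, -, h5⟩ := hBLK ζ hζ
  have z0 := c.cz_pos
  have A1 : 1 ≤ (u + 1) / cz k K := (one_le_div z0).2 (by linarith [c.cz_le])
  refine ⟨u, (u + 1) / cz k K, max (max W₂ W₃) (max (max d.W 1) ((20 * C) ^ 2)), u1, A1,
    fun W hW => ?_⟩
  simp only [max_le_iff] at hW
  obtain ⟨⟨w2, w3⟩, ⟨w0, w1⟩, wC⟩ := hW
  obtain ⟨y₂, h2⟩ := h2 W w2
  refine ⟨max (max y₂ 2) (max (max y₀ y₄) (d.C * d.W)), fun y yq hy hq => ?_⟩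
  simp only [max_le_iff] at hy
  obtain ⟨⟨a2, a1⟩, ⟨a0, a4⟩, aC⟩ := hy
  have y0 : 0 < y := by linarith
  have b1 : y ≤ yq := (Real.self_le_rpow_of_one_le (by linarith) A1).trans hq
  have Q5 := (h5 yq (a4.trans b1)).2.1
  refine ⟨Q5, ?_⟩
  have Z : 0 ≤ Z0 (pls K W y) := prod_nonneg fun v _ => by have := nv_pos v; positivity
  have X := (mean hRED1 hd (Sens ζ) fun v hv => w0.trans_lt (mem_pls.1 hv).1).trans_le
    (mul_le_mul_of_nonneg_left ((h2 y a2).trans (add_le_add_left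
      ((mul_le_mul_of_nonneg_left (sum_le_sum fun D _ => ite_le_sup _ _ _ |>.trans
        (sup_le le_rfl (PRED2.gS_nonneg D))) (PRED2.GG_nonneg _)).trans_eq (PRED2.GG_mul _)) _)) Z)
  have R := h3 W y u yq (QQ ζ yq) w0 w1 (a0.trans b1) (by
    refine le_trans ?_ (Real.rpow_le_rpow (by positivity) hq z0.le)
    rw [← Real.rpow_mul y0.le, div_mul_cancel₀ _ z0.ne', Real.rpow_add y0, Real.rpow_one, mul_comm]
    exact mul_le_mul_of_nonneg_left aC (by positivity)) (filter_subset _ _) (by linarith)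
  have M := h4 W y w3 a1
  have X' := (sum_le_sum_of_subset_of_nonneg (s := TT K W y u) (filter_subset _ _) fun τ _ _ =>
    mul_nonneg (inv_nonneg.2 (nS_pos τ).le) (sum_nonneg fun D _ => pik_nonneg _ _ _ _)).trans X
  have R' : C / √W * Z0 (pls K W y) ≤ 1 / 20 * Z0 (pls K W y) := by
    refine mul_le_mul_of_nonneg_right ((div_le_iff₀ (Real.sqrt_pos.2 (by linarith))).2 ?_) Z
    linarith [Real.le_sqrt_of_sq_le wC]
  have e : ∑ τ ∈ TT K W y u, ∑ q ∈ QQ ζ yq,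
      (nS τ * nv q)⁻¹ * ((1 - Yv d.r d.z (τ.filter (Sens ζ)) q) / 2) =
      (∑ τ ∈ TT K W y u, (nS τ)⁻¹) * (∑ q ∈ QQ ζ yq, (nv q)⁻¹) / 2 -
      (∑ τ ∈ TT K W y u, (nS τ)⁻¹ * ∑ D ∈ (τ.filter (Sens ζ)).powerset.erase ∅,
        pik d.r d.z D (τ.filter (Sens ζ))) * (∑ q ∈ QQ ζ yq, (nv q)⁻¹) / 4 -
      (∑ τ ∈ TT K W y u, (nS τ)⁻¹ * ∑ D ∈ (τ.filter (Sens ζ)).powerset.erase ∅,
        pik d.r d.z D (τ.filter (Sens ζ)) * ∑ q ∈ QQ ζ yq, lr (d.z D) q / nv q) / 4 := by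
    rw [sum_mul, sum_mul, sum_div, sum_div, sum_div, ← sum_sub_distrib, ← sum_sub_distrib]
    refine sum_congr rfl fun τ _ => ?_
    rw [sum_congr rfl fun D _ => mul_sum _ _ _, sum_comm, mul_sum (QQ ζ yq), mul_sum (QQ ζ yq),
      mul_sum (QQ ζ yq), sum_div, sum_div, sum_div, ← sum_sub_distrib, ← sum_sub_distrib]
    refine sum_congr rfl fun q _ => ?_
    have : Yv d.r d.z (τ.filter (Sens ζ)) q * (nv q)⁻¹ =
        (∑ D ∈ (τ.filter (Sens ζ)).powerset.erase ∅, pik d.r d.z D (τ.filter (Sens ζ))) *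
          (nv q)⁻¹ / 2 + (∑ D ∈ (τ.filter (Sens ζ)).powerset.erase ∅,
            pik d.r d.z D (τ.filter (Sens ζ)) * (lr (d.z D) q / nv q)) / 2 := by
      rw [Yv, sum_mul, sum_mul, sum_div, sum_div, ← sum_add_distrib]
      exact sum_congr rfl fun D _ => by ring
    rw [mul_inv]
    linear_combination (-(nS τ)⁻¹ / 2) * this
  rw [e]
  have Q0 : 0 ≤ ∑ q ∈ QQ ζ yq, (nv q)⁻¹ := by linarith
  have f1 := mul_le_mul_of_nonneg_right M Q0
  have f2 := mul_le_mul_of_nonneg_right X' Q0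
  have f3 := mul_le_mul_of_nonneg_left Q5 Z
  linarith

end Pool.Agent.P.MP_b8021b_nt.BJ
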