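import Pool.Agent.P.MP_b8021b_nt.BJ.StA

/-! Products of classes and reciprocity for two classes. -/

namespace Pool.Agent.P.MP_b8021b_nt.BJ

open NumberField IsDedekindDomain Finset MeasureTheory
open Pool.Agent.P.MP_b8021b_nt.VE Pool.Agent.P.MP_b8021b_nt.VC Pool.Agent.P.MP_b8021b_nt.BS.CF
open Pool.Agent.P.MP_b8021b_nt.BS Pool.Agent.P.MP_b8021b_nt.BP
open scoped Classical ComplexConjugate Real

variable {k : Type} [Field k] [NumberField k] [Algebra k ℂ] {K : Type} [Field K] [NumberField K]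
  [Algebra k K]

namespace JRELM

theorem nd2 {s : SD K} (h : s.Ok) {v : Pl K} (hv : ¬ Dv s.m v) : ¬ Dv 2 v :=
  fun h2 => hv (Dv.of_dvd h2 h.md.ev)

theorem lin2 (hLIN : J_LIN K) {s : SD K} (h : s.Ok) {v : Pl K} (hv : v ∈ s.V) {a c : K}
    (ha : Lin s.ζ v s.t₀ a) (hc : Lin s.ζ v s.t₀ c) :
    Lin s.ζ v s.t₀ (a * c) ∧ RecP.sy v a c = 0 :=
  (hLIN s.ζ s.t₀ v (nd2 h (h.vs v hv).1) (h.vs v hv).2.1 (h.md.unit v (h.vs v hv).1) h.t0
    (h.vs v hv).2.2).2.1 a c ha hc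

theorem ev_of {s : SD K} {D : Finset (Pl K)} {c : K} (h : s.Rel D c) {v : Pl K}
    (hv : ¬ Dv s.m v) (hV : v ∉ s.V) (hD : v ∉ D) : (2 : ℤ) ∣ od v c := by
  have := (h.2.1 v hv hV).not.2 hD
  exact even_iff_two_dvd.1 (Int.not_odd_iff_even.1 this)

theorem odd_of {s : SD K} {D : Finset (Pl K)} {c : K} (h : s.Rel D c) {v : Pl K}
    (hv : ¬ Dv s.m v) (hV : v ∉ s.V) (hD : v ∈ D) : ¬ (2 : ℤ) ∣ od v c := by
  have := (h.2.1 v hv hV).2 hD
  rw [← even_iff_two_dvd]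
  exact Int.not_even_iff_odd.2 this

theorem sum0 (hPAIR : J_PAIR K) (hLIN : J_LIN K) {s : SD K} (h : s.Ok) {A D : Finset (Pl K)}
    {a c : K} (ha : s.Rel A a) (hc : s.Rel D c) (S : Finset (Pl K)) (hA : A ⊆ S) (hD : D ⊆ S)
    (hS : ∀ v ∈ S, ¬ Dv s.m v ∧ v ∉ s.V) : ∑ v ∈ S, RecP.sy v a c = 0 := by
  have m0 : s.m ≠ 0 := by have := h.md.two; omega
  have e := (hPAIR s.m m0 h.md.ev).2.2.2.2.2 a c (S ∪ s.V) (fun v hv => by
      rcases mem_union.1 hv with hv | hv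
      · exact (hS v hv).1
      · exact (h.vs v hv).1) (fun v hv hn => by
      rw [mem_union, not_or] at hn
      exact RecP.sy_even (ev_of ha hv hn.2 fun hh => hn.1 (hA hh))
        (ev_of hc hv hn.2 fun hh => hn.1 (hD hh)))
  have dj : Disjoint S s.V := disjoint_left.2 fun v hv => (hS v hv).2
  rw [h.grp.iso a c ha.1 hc.1, sum_union dj,
    sum_eq_zero (s := s.V) fun v hv => (lin2 hLIN h hv (ha.2.2 v hv) (hc.2.2 v hv)).2,
    add_zero] at e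
  exact e.symm

end JRELM

open JRELM

theorem j_relm (c : Cx k K) (Y : Yb k K) (hLIN : J_LIN K) : J_RELM K := by
  intro s h
  refine ⟨fun D D' a c ha hc => ⟨h.grp.mul a c ha.1 hc.1, fun v hv hV => ?_, fun v hv =>
    (lin2 hLIN h hv (ha.2.2 v hv) (hc.2.2 v hv)).1⟩, fun D u hu hD =>
    ⟨h.grp.lp u hu.1 fun v hv => hu.2 v (Or.inl hv), hD,
      fun v hv => lin_of_lp (hu.2 v (Or.inr hv))⟩, fun D c z hc hz =>
    ⟨h.grp.mul _ _ hc.1 (h.grp.lp _ (pow_ne_zero 2 hz) fun v _ => lp_sq v hz), fun v hv hV => ?_,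
      fun v hv => (lin_right (lp_sq v hz)).2 (hc.2.2 v hv)⟩⟩
  · rw [od_mul v (h.grp.ne a ha.1) (h.grp.ne c hc.1), Int.odd_add, mem_symmDiff,
      ← ha.2.1 v hv hV, ← hc.2.1 v hv hV, ← Int.not_odd_iff_even]
    tauto
  · rw [od_mul v (h.grp.ne c hc.1) (pow_ne_zero 2 hz), od_pow, Int.odd_add, ← hc.2.1 v hv hV]
    have : Even (((2 : ℕ) : ℤ) * od v z) := by
      rw [Nat.cast_ofNat]
      exact even_two_mul _
    tauto

theorem j_recb (c : Cx k K) (Y : Yb k K) (hPAIR : J_PAIR K) (hLIN : J_LIN K) : J_RECB K := by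
  intro s h A D a c ha hc
  refine ⟨sum0 hPAIR hLIN h ha hc, fun dj hS => ?_⟩
  have e := sum0 hPAIR hLIN h ha hc (A ∪ D) subset_union_left subset_union_right hS
  have e1 : ∑ v ∈ A, RecP.sy v a c = ∑ v ∈ A, if ¬ LP 2 v c then (1 : ZMod 2) else 0 := by
    refine sum_congr rfl fun v hv => ?_
    have hv' := hS v (mem_union_left _ hv)
    rw [RecP.sy_comm, RecP.sy_eo (nd2 h hv'.1) (ev_of hc hv'.1 hv'.2 (disjoint_left.1 dj hv))
      (odd_of ha hv'.1 hv'.2 hv), ite_not]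
  have e2 : ∑ v ∈ D, RecP.sy v a c = ∑ v ∈ D, if ¬ LP 2 v a then (1 : ZMod 2) else 0 := by
    refine sum_congr rfl fun v hv => ?_
    have hv' := hS v (mem_union_right _ hv)
    rw [RecP.sy_eo (nd2 h hv'.1) (ev_of ha hv'.1 hv'.2 (disjoint_right.1 dj hv))
      (odd_of hc hv'.1 hv'.2 hv), ite_not]
  rw [sum_union dj, e1, e2, sum_boole, sum_boole, ← Nat.cast_add, add_comm] at e
  exact ZMod.natCast_eq_zero_iff_even.1 e

end Pool.Agent.P.MP_b8021b_nt.BJ
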