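import Pool.Agent.P.MP_b8021b_nt.BJ.StA

/-! The data for the descent in the two cases. -/

namespace Pool.Agent.P.MP_b8021b_nt.BJ

open NumberField IsDedekindDomain Finset MeasureTheory
open Pool.Agent.P.MP_b8021b_nt.VE Pool.Agent.P.MP_b8021b_nt.VC Pool.Agent.P.MP_b8021b_nt.BS.CF
open Pool.Agent.P.MP_b8021b_nt.BS Pool.Agent.P.MP_b8021b_nt.BP
open scoped Classical ComplexConjugate Real
variable {k : Type} [Field k] [NumberField k] [Algebra k ℂ] {K : Type} [Field K] [NumberField K]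
  [Algebra k K]

namespace JSDA

theorem gen_ne {t : 𝓞 K} {S : Finset (Pl K)} (h : sp t = eI S) : t ≠ 0 := fun e =>
  eI_ne_bot S (by rw [← h, e]; simp)

theorem gen_od {t : 𝓞 K} {S : Finset (Pl K)} (h : sp t = eI S) (v : Pl K) :
    od v (t : K) = if v ∈ S then 1 else 0 := by
  have := od_coe v (gen_ne h)
  rw [show Ideal.span {t} = eI S from h, cnt_eI] at this
  rw [this]
  split_ifs <;> simp

theorem gen_odd {t : 𝓞 K} {S : Finset (Pl K)} (h : sp t = eI S) (v : Pl K) :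
    Odd (od v (t : K)) ↔ v ∈ S := by
  rw [gen_od h]
  split_ifs with e <;> simp [e]

theorem not_sq {x : K} {v : Pl K} (h0 : x ≠ 0) (h : Odd (od v x)) : ¬ IsSquare x := fun e =>
  Int.not_even_iff_odd.2 h (lp_even (lp_of_isSquare v h0 e))

theorem dv_two {v : Pl K} (h : Dv 8 v) : Dv 2 v := by
  refine v.isPrime.mem_of_pow_mem 3 ?_
  have : ((2 : ℕ) : 𝓞 K) ^ 3 = ((8 : ℕ) : 𝓞 K) := by norm_num
  rwa [this]

end JSDA

open JSDA

theorem j_sda (c : Cx k K) (Y : Yb k K) (hGRP : J_GRP K) (hLIN : J_LIN K) (hKIL0 : J_KIL0 K)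
    (hAUX : J_AUX k K) : J_SDA K := by
  intro ζ hζ
  have z0 : ζ ≠ 0 := fun e => hζ (e ▸ IsSquare.zero)
  obtain ⟨n₁, hn, hA⟩ := hAUX ζ hζ
  obtain ⟨m, m0, m1, m2⟩ := ex_mod ζ (8 * n₁) (by positivity)
  have m8 : 8 ∣ m := (dvd_mul_right _ _).trans m1
  have me : 2 ∣ m := (show 2 ∣ 8 by norm_num).trans m8
  have m3 : 2 ≤ m := Nat.le_of_dvd (Nat.pos_of_ne_zero m0) me
  obtain ⟨𝓛, hG⟩ := hGRP m ζ m0 me
  obtain ⟨V, hV, hK⟩ := hKIL0 m ζ ζ 𝓛 m0 me hG hζ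
  obtain ⟨𝒜, ax, tg, C, -, h1, -, h2⟩ := hA m ((dvd_mul_left _ _).trans m1) m3
  obtain ⟨a1, -, a2, a3, -⟩ := h2 0 (eI V) ((cop_eI m0).2 fun v hv => (hV v hv).1)
  have ins : ∀ v, LP 2 v ζ → v ∉ ax 0 (eI V) := fun v e hv => (h1 0 v (a1 hv)).1.2 e
  rw [← eI_union (disjoint_left.2 fun v hv => ins v (hV v hv).2)] at a3
  have t0 : ((tg 0 (eI V) : 𝓞 K) : K) ≠ 0 := by simpa using gen_ne a3
  have ho : ∀ v, LP 2 v ζ → (Odd (od v ((tg 0 (eI V) : 𝓞 K) : K)) ↔ v ∈ V) := fun v e => by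
    rw [gen_odd a3, mem_union]
    exact or_iff_left (ins v e)
  refine ⟨⟨m, ζ, 𝓛, V, tg 0 (eI V), ζ⟩, tg 0 (eI V), ⟨⟨m3, me, z0, m2⟩, hG, t0, z0,
    fun v hv => ⟨(hV v hv).1, (hV v hv).2, (ho v (hV v hv).2).2 hv⟩, ?_⟩, rfl, rfl, rfl,
    fun v hv => lp_of_dvd m8 a2 hv, fun v _ e => ho v e⟩
  rintro x ⟨r1, r2, r3⟩
  refine hK x r1 (fun v e e' => Int.not_odd_iff_even.1 fun o => by simpa using (r2 v e e').1 o)
    fun v hv => ?_
  exact (hLIN ζ _ v (fun e => (hV v hv).1 (e.of_dvd me)) (hV v hv).2 (m2 v (hV v hv).1) t0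
    ((ho v (hV v hv).2).2 hv)).2.2.1 x (r3 v hv)

theorem j_sdb (c : Cx k K) (Y : Yb k K) (hGRP : J_GRP K) (hLIN : J_LIN K) (hKIL0 : J_KIL0 K) :
    J_SDB K := by
  obtain ⟨w, w2, -, e, -, he⟩ := Y.dir 2 (eI ∅) 0 le_rfl ((cop_eI two_ne_zero).2 (by simp))
  have he' : sp e = eI {w} := by rw [← he]; simp [eI]
  have e0 : (e : K) ≠ 0 := by simpa using gen_ne he'
  have eo : Odd (od w (e : K)) := (gen_odd he' w).2 (mem_singleton_self w)
  obtain ⟨𝓛, hG⟩ := hGRP 2 1 two_ne_zero dvd_rfl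
  obtain ⟨V, hV, hK⟩ := hKIL0 2 1 e 𝓛 two_ne_zero dvd_rfl hG (not_sq e0 eo)
  have wV : w ∉ V := fun h => Int.not_even_iff_odd.2 eo (lp_even (hV w h).2)
  obtain ⟨p, p8, pW, t, t8, ht⟩ := Y.dir 8 (eI V) (∑ v ∈ V, nv v) (by norm_num)
    ((cop_eI (by norm_num)).2 fun v hv h => (hV v hv).1 (dv_two h))
  have pV : p ∉ V := fun h => absurd pW (not_lt.2 (single_le_sum (fun v _ => (nv_pos v).le) h))
  have p2 : ¬ Dv 2 p := fun h => p8 (h.of_dvd (by norm_num))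
  have ht' : sp t = eI (insert p V) := by rw [← ht, eI_insert pV, mul_comm]
  have t0 : (t : K) ≠ 0 := by simpa using gen_ne ht'
  have tl : ∀ v, Dv 2 v → LP 2 v (t : K) := fun v h =>
    lp_of_dvd dvd_rfl t8 (h.of_dvd (by norm_num))
  have two : ∀ v ∈ insert p V, ¬ Dv 2 v := fun v hv => by
    rcases mem_insert.1 hv with rfl | hv
    exacts [p2, (hV v hv).1]
  have lin := fun v (hv : v ∈ insert p V) => hLIN 1 t v (two v hv) (LP.one v two_ne_zero)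
    (od_one v) t0 ((gen_odd ht' v).2 hv)
  have key : ∀ x, 𝓛 x → (∀ v, ¬ Dv 2 v → v ∉ V → Even (od v x)) →
      (∀ v ∈ V, Lin 1 v (t : K) x) → IsSquare x := fun x r1 r2 r3 => by
    refine (hK x r1 r2 fun v hv => (lin v (mem_insert_of_mem hv)).2.2.1 x (r3 v hv)).resolve_right
      (not_sq (v := w) (mul_ne_zero e0 (hG.ne x r1)) ?_)
    rw [od_mul w e0 (hG.ne x r1)]
    exact eo.add_even (r2 w w2 wV)
  refine ⟨⟨2, 1, 𝓛, insert p V, t, t⟩, t, ⟨⟨le_rfl, dvd_rfl, one_ne_zero, fun v _ => od_one v⟩, hG,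
    t0, t0, fun v hv => ⟨two v hv, LP.one v two_ne_zero, (gen_odd ht' v).2 hv⟩, ?_⟩, rfl, rfl, rfl,
    not_sq t0 ((gen_odd ht' p).2 (mem_insert_self p V)), tl, ht'⟩
  rintro x ⟨r1, r2, r3⟩
  have ev : ∀ v, ¬ Dv 2 v → v ∉ insert p V → Even (od v x) := fun v a b =>
    Int.not_odd_iff_even.1 fun o => by simpa using (r2 v a b).1 o
  rcases Int.even_or_odd (od p x) with hp | hp
  · refine Or.inl (key x r1 (fun v a b => ?_) fun v hv => r3 v (mem_insert_of_mem hv))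
    by_cases h : v = p
    · exact h ▸ hp
    · exact ev v a (by simp [h, b])
  · refine Or.inr (key (t * x) (hG.mul _ _ (hG.lp _ t0 tl) r1) (fun v a b => ?_) fun v hv => ?_)
    · rw [od_mul v t0 (hG.ne x r1)]
      by_cases h : v = p
      · subst h
        exact ((gen_odd ht' v).2 (mem_insert_self v V)).add_odd hp
      · have h' : v ∉ insert p V := by simp [h, b]
        exact (Int.not_odd_iff_even.1 fun o => h' ((gen_odd ht' v).1 o)).add (ev v a h')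
    · refine ((lin v (mem_insert_of_mem hv)).2.1 _ _ (Or.inr ⟨1, by simp, ?_⟩)
        (r3 v (mem_insert_of_mem hv))).1
      rw [mul_one, ← sq]
      exact lp_sq v t0

end Pool.Agent.P.MP_b8021b_nt.BJ
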