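import Pool.Agent.P.MP_b8021b_nt.BJ.StA

/-! One more prime: the Selmer group of one of the two twists has exactly one nontrivial class. -/

namespace Pool.Agent.P.MP_b8021b_nt.BJ

open NumberField IsDedekindDomain Finset MeasureTheory
open Pool.Agent.P.MP_b8021b_nt.VE Pool.Agent.P.MP_b8021b_nt.VC Pool.Agent.P.MP_b8021b_nt.BS.CF
open Pool.Agent.P.MP_b8021b_nt.BS Pool.Agent.P.MP_b8021b_nt.BP
open scoped Classical ComplexConjugate Real
variable {k : Type} [Field k] [NumberField k] [Algebra k ℂ] {K : Type} [Field K] [NumberField K]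
  [Algebra k K]

namespace JSEB1

omit [NumberField K] in
theorem coe_ne {u : 𝓞 K} {v : Pl K} (h : u ∉ v.asIdeal) : (u : K) ≠ 0 :=
  RingOfIntegers.coe_ne_zero_iff.2 fun e => h (e ▸ v.asIdeal.zero_mem)

theorem od_unit {u : 𝓞 K} {v : Pl K} (h : u ∉ v.asIdeal) : od v (u : K) = 0 :=
  od_eq_zero_of_vl v ((vl_coe_eq v u).2 h)

theorem odd_mul {T : K} {u : 𝓞 K} {v : Pl K} (hT : T ≠ 0) (h : Odd (od v T))
    (hu : u ∉ v.asIdeal) : Odd (od v (T * u)) := by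
  rwa [od_mul v hT (coe_ne hu), od_unit hu, add_zero]

theorem leg_iff {u u' : 𝓞 K} {v : Pl K} (h2 : ¬ Dv 2 v) (h : u ∉ v.asIdeal)
    (h' : u' ∉ v.asIdeal) : leg u v = leg u' v ↔ LP 2 v ((u' : K) / u) := by
  have h0 := coe_ne h
  have e : ((u' * u : 𝓞 K) : K) = (u' : K) / u * u ^ 2 := by push_cast; field_simp
  rw [← lp_mul_iff (lp_sq v h0), ← e,
    ← leg_eq_one_iff_LP h2 fun e => (v.isPrime.mem_or_mem e).elim h' h, leg_mul]
  rcases leg_of_not_mem h with a | a <;> rcases leg_of_not_mem h' with a' | a' <;> rw [a, a'] <;>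
    norm_num

theorem not_two {s : SD K} {v : Pl K} (hs : s.Ok) (h : s.Out v) : ¬ Dv 2 v :=
  fun e => h.1 (e.of_dvd hs.md.ev)

/-- the Selmer group at `Γ` is trivial -/
theorem sq_of (hLIN : J_LIN K) {s : SD K} {T : K} {Γ D : Finset (Pl K)} {q₁ : Pl K} {c : K}
    (hs : s.Ok) (hT : T ≠ 0) (h1 : q₁ ∈ Γ) (ho : s.Out q₁) (hodd : Odd (od q₁ T))
    (he : ¬ LP 2 q₁ s.e) (hU : s.Unr Γ T) (hD : D ⊆ Γ) (hc : s.Rel D c)
    (hl : ∀ v ∈ Γ, Lin s.ζ v T c) : IsSquare c := by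
  obtain rfl := hU D c hD hc hl
  refine (hs.kill c hc).resolve_right fun e => he ?_
  obtain ⟨-, -, l3, -⟩ := hLIN s.ζ T q₁ (not_two hs ho) ho.2.2 (hs.md.unit _ ho.1) hT hodd
  have hc' : LP 2 q₁ c := l3 c (hl _ h1) (Int.not_odd_iff_even.1 fun o => by
    simpa using (hc.2.1 q₁ ho.1 ho.2.1).1 o)
  exact (lp_mul_iff hc').1 (lp_of_isSquare _ (mul_ne_zero hs.e0 (hs.grp.ne _ hc.1)) e)

/-- a class that is ramified at the last prime is the only nontrivial class -/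
theorem one (hLIN : J_LIN K) (hRELM : J_RELM K) {s : SD K} {T T' : K} {Γ D : Finset (Pl K)}
    {q : Pl K} {a : K} (hs : s.Ok) (hT : T ≠ 0) (hΓ : ∀ v ∈ Γ, s.Out v ∧ Odd (od v T))
    (hsq : ∀ D c, D ⊆ Γ → s.Rel D c → (∀ v ∈ Γ, Lin s.ζ v T c) → IsSquare c)
    (hT' : ∀ v ∈ Γ, LP 2 v (T' / T)) (hD : D ⊆ insert q Γ) (hq : q ∈ D) (ha : s.Rel D a)
    (hl : ∀ v ∈ Γ, Lin s.ζ v T a) (hl' : Lin s.ζ q T' a) : s.One (insert q Γ) T' D := by
  refine ⟨hD, ne_empty_of_mem hq, a, ha, (forall_mem_insert _ _ _).2 ⟨hl', fun v hv =>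
    (lin_congr hT (hT' v hv)).2 (hl v hv)⟩, fun D' c hD' hc hlc => ?_⟩
  have hc' : ∀ v ∈ Γ, Lin s.ζ v T c := fun v hv =>
    (lin_congr hT (hT' v hv)).1 (hlc v (mem_insert_of_mem hv))
  by_cases e : q ∈ D'
  · refine Or.inr (hsq _ _ (fun v hv => ?_) ((hRELM s hs).1 D D' a c ha hc) fun v hv => ?_)
    · rcases mem_symmDiff.1 hv with ⟨h, h'⟩ | ⟨h, h'⟩
      · exact (mem_insert.1 (hD h)).resolve_left fun f => h' (f ▸ e)
      · exact (mem_insert.1 (hD' h)).resolve_left fun f => h' (f ▸ hq)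
    · obtain ⟨ho, hodd⟩ := hΓ v hv
      obtain ⟨-, l2, -⟩ := hLIN s.ζ T v (not_two hs ho) ho.2.2 (hs.md.unit _ ho.1) hT hodd
      exact (l2 a c (hl v hv) (hc' v hv)).1
  · exact Or.inl (hsq D' c (fun v hv => (mem_insert.1 (hD' hv)).resolve_left fun f => e (f ▸ hv))
      hc hc')

end JSEB1

open JSEB1 in
theorem j_seb1 (c : Cx k K) (Y : Yb k K) (hLIN : J_LIN K) (hRELM : J_RELM K) (hEXI : J_EXI K) :
    J_SEB1 K := by
  have _ := c
  have _ := Y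
  intro s T Γ q q₁ u u' hs hT hq hΓ hleg hne h1 he hU
  obtain ⟨ho, hodd, hu, hu'⟩ := hΓ q (mem_insert_self _ _)
  have hΓ' := fun v (hv : v ∈ Γ) => hΓ v (mem_insert_of_mem hv)
  have T0 : T * u ≠ 0 := mul_ne_zero hT (coe_ne hu)
  have T1 : T * u' ≠ 0 := mul_ne_zero hT (coe_ne hu')
  have hG : ∀ v ∈ Γ, s.Out v ∧ Odd (od v (T * u)) := fun v hv =>
    ⟨(hΓ' v hv).1, odd_mul hT (hΓ' v hv).2.1 (hΓ' v hv).2.2.1⟩
  have hsq : ∀ D c, D ⊆ Γ → s.Rel D c → (∀ v ∈ Γ, Lin s.ζ v (T * u) c) → IsSquare c :=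
    fun D c => sq_of hLIN hs T0 h1 (hG _ h1).1 (hG _ h1).2 he hU
  have eq : T * u' / (T * u) = (u' : K) / u := mul_div_mul_left _ _ hT
  obtain ⟨D, a, hD, ha, hn, hl⟩ := hEXI s Γ q (T * u) hs T0 hq (fun v hv => (hΓ v hv).1)
    fun v hv => (hG v hv).2
  have hqD : q ∈ D := by
    by_contra e
    exact hn (hsq D a (fun v hv => (mem_insert.1 (hD hv)).resolve_left fun f => e (f ▸ hv)) ha hl)
  obtain ⟨-, -, -, -, l5, -⟩ :=
    hLIN s.ζ (T * u) q (not_two hs ho) ho.2.2 (hs.md.unit _ ho.1) T0 (odd_mul hT hodd hu)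
  refine ⟨D, (l5 a (T * u') (hs.grp.ne _ ha.1) T1 ?_ ?_ ((ha.2.1 q ho.1 ho.2.1).2 hqD)).imp
    (one hLIN hRELM hs T0 hG hsq (fun v _ => ?_) hD hqD ha hl)
    (one hLIN hRELM hs T0 hG hsq (fun v hv => ?_) hD hqD ha hl)⟩
  · rw [eq, od_div q (coe_ne hu') (coe_ne hu), od_unit hu, od_unit hu']
    simp
  · rw [eq, ← leg_iff (not_two hs ho) hu hu']
    exact hne
  · exact lp_of_isSquare v (div_ne_zero T0 T0) (by rw [div_self T0]; exact IsSquare.one)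
  · rw [eq, ← leg_iff (not_two hs (hΓ' v hv).1) (hΓ' v hv).2.2.1 (hΓ' v hv).2.2.2]
    exact hleg v hv

end Pool.Agent.P.MP_b8021b_nt.BJ
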