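import Pool.Agent.P.MP_b8021b_nt.BJ.StA
import Pool.Agent.P.MP_b8021b_nt.BP.PSELM

/-! The descent in the first case. -/

namespace Pool.Agent.P.MP_b8021b_nt.BJ

open NumberField IsDedekindDomain Finset MeasureTheory
open Pool.Agent.P.MP_b8021b_nt.VE Pool.Agent.P.MP_b8021b_nt.VC Pool.Agent.P.MP_b8021b_nt.BS.CF
open Pool.Agent.P.MP_b8021b_nt.BS Pool.Agent.P.MP_b8021b_nt.BP
open scoped Classical ComplexConjugate Real

variable {k : Type} [Field k] [NumberField k] [Algebra k ℂ] {K : Type} [Field K] [NumberField K]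
  [Algebra k K]

set_option linter.unusedSectionVars false
set_option linter.unusedVariables false

open PSELM in
theorem j_sela (c : Cx k K) (Y : Yb k K) (hSDA : J_SDA K) (hFLIP : J_FLIP K) (hUFA : J_UFA K)
    (hRDAT : J_RDAT k K) : J_SELA k K := by
  have hFOUR := Y.four
  intro ζ hU
  obtain ⟨s, t₀, ok, s1, s2, s3, s4, s5⟩ := hSDA ζ hU
  have k0 : (t₀ : K) ≠ 0 := s3 ▸ ok.t0
  have z0 : ζ ≠ 0 := fun e => hU (by simp [e])
  have m0 : s.m ≠ 0 := by have := ok.md.two; omega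
  refine ⟨s.m * ∏ v ∈ s.V, Ideal.absNorm v.asIdeal, t₀, mul_ne_zero m0 (prod_ne_zero_iff.2
    fun v _ => Ideal.absNorm_eq_zero_iff.not.2 v.ne_bot), by exact_mod_cast k0, fun N₀ hN => ?_⟩
  have hM : ∀ v, Dv s.m v ∨ v ∈ s.V → Dv (s.m * ∏ v ∈ s.V, Ideal.absNorm v.asIdeal) v :=
    fun v hv => hv.elim (fun e => e.of_dvd (dvd_mul_right _ _))
      fun e => (dv_self v).of_dvd ((dvd_prod_of_mem _ e).mul_left _)
  obtain ⟨d, h1, hd, -, h2, h3⟩ := hRDAT s ζ N₀ ok z0 hN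
  refine ⟨d, h1, hd, fun Γ q τ a1 hq a3 a4 a5 => ?_⟩
  have k1 : (τ : K) ≠ 0 := by exact_mod_cast a3
  have out : ∀ v ∈ insert q Γ, s.Out v := fun v hv =>
    ⟨(h2 v (a1 v hv).2).1, (h2 v (a1 v hv).2).2.1, s1 ▸ (a1 v hv).1.2⟩
  have odd : ∀ v ∈ insert q Γ, Odd (od v ((t₀ : K) * τ)) := fun v hv => by
    rw [od_mul v k0 k1]
    exact (Int.not_odd_iff_even.1 fun h => (out v hv).2.1
      ((s5 v (out v hv).1 (a1 v hv).1.2).1 (s3 ▸ h))).add_odd ((a5 v (a1 v hv).1).2 hv)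
  obtain ⟨F, f1, f2, f3, f4⟩ := hFOUR (Pl K) Γ q
    (fun S => ∀ u : 𝓞 K, (∀ v ∈ insert q Γ, u ∉ v.asIdeal) →
      ((insert q Γ).filter fun v => leg u v = -1) = S →
        s.Unr (insert q Γ) ((t₀ : K) * τ * u))
    (fun D => d.r D ∧ ∀ v ∈ insert q Γ, v ∉ D → leg (d.z D) v = 1)
    (fun D => D.filter fun v => ¬ Lin (ζ : K) v ((t₀ : K) * τ) (d.z D)) hq (by
      intro S hS g1 g2
      push Not at g1 g2
      obtain ⟨u, u1, u2, u3⟩ := g1
      obtain ⟨u', w1, w2, w3⟩ := g2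
      have e1 : ∀ v ∈ insert q Γ, leg u v = -1 ↔ v ∈ S := fun v hv => by
        rw [← u2, mem_filter, and_iff_right hv]
      have e2 : ∀ v ∈ insert q Γ, leg u' v = -1 ↔ v ∈ insert q S := fun v hv => by
        rw [← w2, mem_filter, and_iff_right hv]
      obtain ⟨D, d1, d2, d3, w, hw, d4, d5⟩ := hFLIP s _ Γ q d.r d.z ζ u u' ok s2
        (mul_ne_zero k0 k1) hq
        (fun v hv => ⟨out v hv, odd v hv, u1 v hv, w1 v hv, (h2 v (a1 v hv).2).2.2⟩)
        (fun D hD hc => by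
          obtain ⟨b0, b1, b2⟩ := h3 D fun v hv => (a1 v (mem_insert_of_mem (hD hv))).2
          exact ⟨b0.2 hc, b1 (b0.2 hc), fun v hv hv' h => hv' ((b2 v (a1 v hv).2).1 h)⟩)
        (fun v hv => by
          have hv' := mem_insert_of_mem (b := q) hv
          have e : leg u v = -1 ↔ leg u' v = -1 := by
            rw [e1 v hv', e2 v hv', mem_insert, or_iff_right fun h : v = q => hq (h ▸ hv)]
          by_cases h : leg u v = -1
          · rw [h, e.1 h]
          · rw [(leg_of_not_mem (u1 v hv')).resolve_right h,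
              (leg_of_not_mem (w1 v hv')).resolve_right (mt e.2 h)])
        (fun h => hq (hS ((e1 q (mem_insert_self _ _)).1
          (h.trans ((e2 q (mem_insert_self _ _)).2 (mem_insert_self _ _)))))) u3 w3
      have e3 : ∀ v ∈ insert q Γ, leg w v = leg (d.z D) v ∧
          (Lin s.ζ v ((t₀ : K) * τ) w ↔ Lin (ζ : K) v ((t₀ : K) * τ) (d.z D)) := fun v hv => by
        rcases hw with rfl | rfl
        · rw [s1]; exact ⟨rfl, Iff.rfl⟩
        · rw [leg_mul, (leg_eq_one_iff_LP (a1 v hv).1.1 (h2 v (a1 v hv).2).2.2).2 (a1 v hv).1.2,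
            one_mul, s1, mul_comm ζ]
          exact ⟨rfl, lin_right (a1 v hv).1.2⟩
      refine ⟨D, d1, d2, ⟨d3, fun v hv hv' => (e3 v hv).1 ▸ d4 v hv hv'⟩, Finset.ext fun v => ?_⟩
      rw [mem_inter, mem_filter, and_comm]
      exact and_congr_right fun hv => (e1 v (mem_insert_of_mem (d1 hv))).symm.trans
        ((d5 v hv).trans (e3 v (mem_insert_of_mem (d1 hv))).2.not))
  refine ⟨F, f1, f2, le_trans ?_ f3, fun u hu => ?_⟩
  · have := le_Yv d.r d.z hq
    refine div_le_div_of_nonneg_right (sub_le_sub_left (le_trans (le_of_eq ?_) this) _) zero_le_two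
    exact sum_congr rfl fun D _ => by congr
  rw [wF_eq hu, f4 _ (filter_subset _ _)]
  split_ifs with hG
  · refine ⟨Or.inr Complex.ofReal_one, fun _ b1 b2 => ?_⟩
    have k2 : (u : K) ≠ 0 := by
      have : u ≠ 0 := fun h => hu q (mem_insert_self _ _) (h ▸ zero_mem _)
      exact_mod_cast this
    have hu' := hG u hu rfl
    rw [mul_assoc, ← s3] at hu' ⊢
    rw [← s1] at hU s5 ⊢
    refine hUFA s _ _ ok (s2.trans s1.symm) hU s4 s5 ⟨mul_ne_zero k1 k2, fun v hv =>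
      (a4 v (hM v hv)).mul (b1 v (hM v hv))⟩ (fun v e e' => ?_) out hu'
    have hv : Sens (ζ : K) v := ⟨fun h => e (h.of_dvd ok.md.ev), s1 ▸ e'⟩
    rw [od_mul v k1 k2, Int.odd_add, iff_true_right (b2 v hv), a5 v hv]
  · exact ⟨Or.inl Complex.ofReal_zero, fun h => absurd h (by simp)⟩

end Pool.Agent.P.MP_b8021b_nt.BJ
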