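import Pool.Agent.P.MP_b8021b_nt.BJ.StA
import Pool.Agent.P.MP_b8021b_nt.BP.PSELM

/-! The descent for one twist in the second case, as a function on pairs of sign vectors. -/

namespace Pool.Agent.P.MP_b8021b_nt.BJ

open NumberField IsDedekindDomain Finset MeasureTheory
open Pool.Agent.P.MP_b8021b_nt.VE Pool.Agent.P.MP_b8021b_nt.VC Pool.Agent.P.MP_b8021b_nt.BS.CF
open Pool.Agent.P.MP_b8021b_nt.BS Pool.Agent.P.MP_b8021b_nt.BP
open scoped Classical ComplexConjugate Real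
variable {k : Type} [Field k] [NumberField k] [Algebra k ℂ] {K : Type} [Field K] [NumberField K] [Algebra k K]

namespace JSELB

theorem od_sp {t : 𝓞 K} {S : Finset (Pl K)} (h : sp t = eI S) (v : Pl K) :
    od v (t : K) = if v ∈ S then 1 else 0 := by
  have h0 : t ≠ 0 := fun e => eI_ne_bot S (by rw [← h, e]; simp)
  rw [od_coe v h0, show Ideal.span {t} = eI S from h, cnt_eI]
  split_ifs <;> simp

theorem not_mem_of {t : 𝓞 K} {p v : Pl K} (h : sp t = p.asIdeal) (hv : p ≠ v) :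
    t ∉ v.asIdeal := fun e => hv (HeightOneSpectrum.ext (p.isMaximal.eq_of_le v.isPrime.ne_top
      (h ▸ (Ideal.span_singleton_le_iff_mem _).2 e)))

omit [NumberField K] in
theorem leg_congr {x y : 𝓞 K} {v : Pl K} (hx : x ∉ v.asIdeal) (hy : y ∉ v.asIdeal)
    (e : leg x v = -1 ↔ leg y v = -1) : leg x v = leg y v := by
  by_cases h : leg x v = -1
  · rw [h, e.1 h]
  · rw [(leg_of_not_mem hx).resolve_right h, (leg_of_not_mem hy).resolve_right (mt e.2 h)]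

theorem wG_eq {Λ : Finset (Pl K)} {t t' : 𝓞 K} (ht : ∀ v ∈ Λ, t ∉ v.asIdeal)
    (ht' : ∀ v ∈ Λ, t' ∉ v.asIdeal) (F : PF K) : wG F Λ t t' =
      (∑ D ∈ P2 Λ, F D * ((-1) ^ (D.1 ∩ Λ.filter fun v => leg t v = -1).card *
        (-1) ^ (D.2 ∩ Λ.filter fun v => leg t' v = -1).card) : ℝ) := by
  rw [wG]
  push_cast
  exact sum_congr rfl fun D hD => by
    rw [PSELM.jac_sign ht (mem_P2.1 hD).1, PSELM.jac_sign ht' (mem_P2.1 hD).2]

theorem leg_symm {Λ : Finset (Pl K)} {t t' : 𝓞 K} {v : Pl K} (hv : v ∈ Λ) (ht : t ∉ v.asIdeal)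
    (ht' : t' ∉ v.asIdeal) : v ∈ symmDiff (Λ.filter fun v => leg t v = -1)
      (Λ.filter fun v => leg t' v = -1) ↔ leg (t * t') v = -1 := by
  rw [mem_symmDiff, mem_filter, mem_filter, leg_mul]
  rcases leg_of_not_mem ht with e | e <;> rcases leg_of_not_mem ht' with e' | e' <;>
    norm_num [e, e', hv]

end JSELB

open JSELB in
theorem j_selb (c : Cx k K) (Y : Yb k K) (hFOU1 : J_FOU1) (hFOU2 : J_FOU2) (hRECB : J_RECB K)
    (hSDB : J_SDB K) (hSGN : J_SGN K) (hFLIP : J_FLIP K) (hUFB : J_UFB K) (hSEB1 : J_SEB1 K)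
    (hRDAT : J_RDAT k K) : J_SELB k K := by
  obtain ⟨s, t₀, hs, hζ, he, ht, hns, hlp, hsp⟩ := hSDB
  have k0 : (t₀ : K) ≠ 0 := ht ▸ hs.t0
  have t0 : t₀ ≠ 0 := by exact_mod_cast k0
  have m0 : s.m ≠ 0 := by have := hs.md.two; omega
  have two : ∀ v : Pl K, ¬ Dv s.m v → ¬ Dv 2 v := fun v h e => h (e.of_dvd hs.md.ev)
  obtain ⟨M, M0, M8, hM⟩ : ∃ M : ℕ, M ≠ 0 ∧ 8 ∣ M ∧ ∀ v, Dv s.m v ∨ v ∈ s.V → Dv M v := by
    refine ⟨8 * s.m * ∏ v ∈ s.V, Ideal.absNorm v.asIdeal, mul_ne_zero (mul_ne_zero (by norm_num) m0)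
      (prod_ne_zero_iff.2 fun v _ => Ideal.absNorm_eq_zero_iff.not.2 v.ne_bot),
      (dvd_mul_right _ _).mul_right _, fun v hv => ?_⟩
    rcases hv with hv | hv
    · exact hv.of_dvd ((dvd_mul_left _ _).mul_right _)
    · exact (dv_absNorm v).of_dvd ((dvd_prod_of_mem _ hv).mul_left _)
  refine ⟨M, t₀, M0, hns, fun N₀ hN => ?_⟩
  obtain ⟨d, h1, hd, hd', h2, h3⟩ := hRDAT s t₀ N₀ hs t0 hN
  refine ⟨d, h1, hd, hd', fun D hD hr => ?_, fun Γ q₁ q₂ τ a1 a2 a3 a4 a5 a6 => ?_⟩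
  · have rel : s.Rel ∅ (t₀ : K) := by
      refine ⟨hs.grp.lp _ k0 fun v hv => ht ▸ hlp v hv, fun v _ hv => ?_, fun v _ => ?_⟩
      · rw [od_sp hsp, if_neg hv]
        simp
      · refine Or.inr ⟨1, by simp [hζ], ?_⟩
        rw [ht, mul_one, ← sq]
        exact lp_sq v k0
    have ev := (hRECB s hs ∅ D _ _ rel ((h3 D hD).2.1 hr)).2 (disjoint_empty_left _) fun v hv =>
      have hv' : v ∈ D := by simpa using hv
      ⟨(h2 v (hD v hv')).1, (h2 v (hD v hv')).2.1⟩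
    rw [filter_empty, card_empty, add_zero] at ev
    rw [PSELM.jac_sign (fun v hv => (h2 v (hD v hv)).2.2) Subset.rfl,
      inter_eq_right.2 (filter_subset _ _),
      filter_congr fun v hv => leg_eq_neg_iff (two v (h2 v (hD v hv)).1) (h2 v (hD v hv)).2.2]
    convert ev.neg_one_pow
  set Λ := insert q₂ (insert q₁ Γ) with hΛ
  have sub : ∀ v ∈ insert q₁ Γ, v ∈ Λ := fun v hv => mem_insert_of_mem hv
  have out : ∀ v ∈ Λ, s.Out v := fun v hv =>
    ⟨(h2 v (a1 v hv)).1, (h2 v (a1 v hv)).2.1, hζ ▸ LP.one v two_ne_zero⟩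
  have k1 : (τ : K) ≠ 0 := by
    have : τ ≠ 0 := fun e => eI_ne_bot Λ (by rw [← a5, e]; simp)
    exact_mod_cast this
  have T0 : (t₀ : K) * τ ≠ 0 := mul_ne_zero k0 k1
  have odd : ∀ v ∈ Λ, Odd (od v ((t₀ : K) * τ)) := fun v hv => by
    rw [od_mul v k0 k1, od_sp hsp, od_sp a5, if_neg (out v hv).2.1, if_pos hv]
    norm_num
  choose u hu using fun R => hSGN Λ R fun v hv => two v (out v hv).1
  have same : ∀ (R : Finset (Pl K)) (q v : Pl K), v ∈ Λ → v ≠ q →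
      leg (u R) v = leg (u (insert q R)) v := fun R q v hv hq =>
    leg_congr (hu R v hv).1 (hu _ v hv).1 (by rw [(hu R v hv).2, (hu _ v hv).2, mem_insert,
      or_iff_right hq])
  have diff : ∀ (R : Finset (Pl K)) (q : Pl K), q ∈ Λ → q ∉ R →
      leg (u R) q ≠ leg (u (insert q R)) q := fun R q hq hR h =>
    hR ((hu R q hq).2.1 (h.trans ((hu _ q hq).2.2 (mem_insert_self _ _))))
  have cnt := hFOU2 (Pl K) Γ q₁ q₂ (fun R => s.Unr (insert q₁ Γ) ((t₀ : K) * τ * u R))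
    (fun D => d.r D ∧ ∀ v ∈ insert q₁ Γ, v ∉ D → leg (d.z D) v = 1)
    (fun D => d.r D ∧ ∀ v ∈ insert q₁ Γ, v ∉ D → leg ((tw d t₀).z D) v = 1)
    (fun R D => s.One Λ ((t₀ : K) * τ * u R) D)
    (fun D => D.filter fun v => ¬ Lin s.ζ v ((t₀ : K) * τ) (d.z D))
    (fun D => D.filter fun v => ¬ Lin s.ζ v ((t₀ : K) * τ) ((tw d t₀).z D)) a2 a3 (by
      intro R hR g1 g2
      obtain ⟨D, d1, d2, d3, w, hw, d4, d5⟩ := hFLIP s _ Γ q₁ d.r d.z t₀ (u R) (u (insert q₁ R))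
        hs he T0 a2
        (fun v hv => ⟨out v (sub v hv), odd v (sub v hv), (hu _ v (sub v hv)).1,
          (hu _ v (sub v hv)).1, (h2 v (a1 v (sub v hv))).2.2⟩)
        (fun D hD hc => by
          obtain ⟨b1, b2, b3⟩ := h3 D fun v hv => a1 v (sub v (mem_insert_of_mem (hD hv)))
          exact ⟨b1.2 hc, b2 (b1.2 hc), fun v hv hv' h => hv' ((b3 v (a1 v (sub v hv))).1 h)⟩)
        (fun v hv => same R q₁ v (sub v (mem_insert_of_mem hv)) fun h => a2 (h ▸ hv))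
        (diff R q₁ (sub _ (mem_insert_self _ _)) fun h => a2 (hR h)) g1 g2
      have e : R ∩ D = D.filter fun v => ¬ Lin s.ζ v ((t₀ : K) * τ) w := Finset.ext fun v => by
        rw [mem_inter, mem_filter, and_comm]
        exact and_congr_right fun hv =>
          (hu R v (sub v (mem_insert_of_mem (d1 hv)))).2.symm.trans (d5 v hv)
      refine ⟨D, d1, d2, ?_⟩
      rcases hw with rfl | hw
      · exact Or.inl ⟨⟨d3, d4⟩, e⟩
      · rw [← tw_z] at hw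
        subst hw
        exact Or.inr ⟨⟨d3, d4⟩, e⟩) (by
      intro R hR g
      obtain ⟨D, hD⟩ := hSEB1 s _ (insert q₁ Γ) q₂ q₁ (u R) (u (insert q₂ R)) hs T0 a3
        (fun v hv => ⟨out v hv, odd v hv, (hu _ v hv).1, (hu _ v hv).1⟩)
        (fun v hv => same R q₂ v (sub v hv) fun h => a3 (h ▸ hv))
        (diff R q₂ (mem_insert_self _ _) fun h => a3 (hR h)) (mem_insert_self _ _) (he ▸ a4) g
      exact ⟨D, hD.elim (·.1) (·.1), hD.elim (·.2.1) (·.2.1), hD⟩)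
  obtain ⟨F, f1, f2, f3⟩ := hFOU1 (Pl K) Λ fun S =>
    ∃ D, s.One Λ ((t₀ : K) * τ * u (symmDiff S.1 S.2)) D ∧ Odd (D ∩ S.1).card
  refine ⟨F, f1, by rw [f2]; positivity, ?_, fun t t' p p' b1 b2 b3 b4 b5 b6 b7 => ?_⟩
  · rw [f2]
    refine le_trans (div_le_div_of_nonneg_right (sub_le_sub (sub_le_sub_left (le_trans (le_of_eq ?_)
      (PSELM.le_Yv d.r d.z a2)) _) (le_trans (le_of_eq ?_) (PSELM.le_Yv d.r (tw d t₀).z a2)))
      (by norm_num)) (le_trans cnt (le_of_eq ?_))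
    · exact sum_congr rfl fun D _ => by congr
    · exact sum_congr rfl fun D _ => by congr
    · congr
  have n1 : ∀ v ∈ Λ, t ∉ v.asIdeal := fun v hv => not_mem_of b1 fun h => b6 (h ▸ hv)
  have n2 : ∀ v ∈ Λ, t' ∉ v.asIdeal := fun v hv => not_mem_of b2 fun h => b7 (h ▸ hv)
  have key := f3 (Λ.filter fun v => leg t v = -1, Λ.filter fun v => leg t' v = -1)
    (mem_P2.2 ⟨filter_subset _ _, filter_subset _ _⟩)
  rw [wG_eq n1 n2, key]
  split_ifs with hG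
  · refine ⟨Or.inr Complex.ofReal_one, fun _ σ hσ => ?_⟩
    obtain ⟨D, g1, g2⟩ := hG
    refine hUFB s M t₀ τ t t' _ Λ D p p' σ hs hζ ht hlp hsp M8 hM a5 b1 b2 a6 b3 b4 b5 b6 b7
      (fun v hv => ?_) g1 g2 hσ
    exact leg_congr (hu _ v hv).1 (fun h => (v.isPrime.mem_or_mem h).elim (n1 v hv) (n2 v hv))
      ((hu _ v hv).2.trans (leg_symm hv (n1 v hv) (n2 v hv)))
  · exact ⟨Or.inl Complex.ofReal_zero, fun h => absurd h (by simp)⟩

end Pool.Agent.P.MP_b8021b_nt.BJ
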