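import Pool.Agent.P.MP_b8021b_nt.BJ.StA

namespace Pool.Agent.P.MP_b8021b_nt.BJ

open NumberField IsDedekindDomain Finset MeasureTheory
open Pool.Agent.P.MP_b8021b_nt.VE Pool.Agent.P.MP_b8021b_nt.VC Pool.Agent.P.MP_b8021b_nt.BS.CF
open Pool.Agent.P.MP_b8021b_nt.BS Pool.Agent.P.MP_b8021b_nt.BP
open scoped Classical ComplexConjugate Real

theorem j_sq0 (h : QX) : J_SQ0 := by
  intro L _ _ N χ om hN hχ h1
  obtain ⟨𝒳, hX, ho⟩ := h.i.rep L om N hN
  obtain ⟨_, g, cl, -, hcl, -⟩ := h.cls L om N hN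
  have top : Cop N (⊤ : Ideal (𝓞 L)) := by
    rw [← Ideal.one_eq_top]
    exact isCoprime_one_left
  let A := univ.filter fun i : Fin g => ∃ I, Cop N I ∧ cl I = i
  have hA : ∀ i, i ∈ A → ∃ I, Cop N I ∧ cl I = i := fun i hi => (mem_filter.1 hi).2
  choose! rep r1 r2 using hA
  have mem : ∀ I, Cop N I → cl I ∈ A := fun I hI => mem_filter.2 ⟨mem_univ _, I, hI, rfl⟩
  have key : ∀ ξ, RC N ξ → ∀ I, Cop N I → ξ I ≠ 1 → ∑ i ∈ A, ξ (rep i) = 0 := by
    intro ξ hξ I hI hne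
    have c : ∀ i ∈ A, Cop N (rep i * I) := fun i hi => IsCoprime.mul_left (r1 i hi) hI
    have inj : Set.InjOn (fun i => cl (rep i * I)) A := fun i hi j hj e => by
      obtain ⟨α, β, a1, a2, a3, a4, a5⟩ := (hcl _ _ (c i hi) (c j hj)).1 e
      rw [← r2 i hi, ← r2 j hj]
      refine (hcl _ _ (r1 i hi) (r1 j hj)).2 ⟨α, β, a1, a2, a3, a4,
        mul_right_cancel₀ (Cop_ne_bot hN hI) ?_⟩
      rw [mul_right_comm, a5, mul_right_comm]
    have im : A.image (fun i => cl (rep i * I)) = A := eq_of_subset_of_card_le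
      (image_subset_iff.2 fun i hi => mem _ (c i hi)) (card_image_of_injOn inj).ge
    have e : ∑ i ∈ A, ξ (rep i) = (∑ i ∈ A, ξ (rep i)) * ξ I := by
      conv_lhs => rw [← im, sum_image inj]
      rw [sum_mul]
      refine sum_congr rfl fun i hi => ?_
      rw [← map_mul]
      exact hξ.ray ((hcl _ _ (r1 _ (mem _ (c i hi))) (c i hi)).1 (r2 _ (mem _ (c i hi))))
    exact (mul_right_eq_self₀.1 e.symm).resolve_left hne
  by_contra hc
  push Not at hc
  have z : ∑ ψ ∈ 𝒳, ∑ i ∈ A, (ψ ^ 2 * cj χ) (rep i) = 0 := sum_eq_zero fun ψ hψ => by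
    obtain ⟨I, hI, hne⟩ := hc ψ ((hX ψ).1 hψ)
    refine key _ ((((hX ψ).1 hψ).pow (by omega)).mul hχ.cj) I hI fun e => hne ?_
    have e' : ψ I ^ 2 * conj (χ I) = 1 := e
    linear_combination χ I * e' - ψ I ^ 2 * char_mul_conj hχ.toIsChar hI
  rw [sum_comm, sum_congr rfl (g := fun i => if Ray N (rep i ^ 2) ⊤ then (𝒳.card : ℂ) else 0)
    fun i hi => ?_, ← sum_filter, sum_const, nsmul_eq_mul, mul_eq_zero, Nat.cast_eq_zero,
    Nat.cast_eq_zero, card_eq_zero, card_eq_zero] at z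
  · rcases z with z | z
    · obtain ⟨α, β, a1, a2, a3, a4, a5⟩ := (hcl _ _ (r1 _ (mem _ top)) top).1 (r2 _ (mem _ top))
      refine notMem_empty (cl ⊤) (z ▸ mem_filter.2 ⟨mem _ top, α ^ 2, β ^ 2, pow_ne_zero 2 a1,
        pow_ne_zero 2 a2, a3.trans ⟨α + 1, by ring⟩, a4.trans ⟨β + 1, by ring⟩, ?_⟩)
      rw [← Ideal.span_singleton_pow, ← Ideal.span_singleton_pow, ← mul_pow, a5, Ideal.top_mul,
        Ideal.top_mul]
    · exact notMem_empty _ (z ▸ (hX _).2 (RC.triv L N))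
  · have c : Cop N (rep i ^ 2) := IsCoprime.pow_left (r1 i hi)
    have := ho _ _ c top
    simp only [← Ideal.one_eq_top, map_one, mul_one, map_pow] at this
    change ∑ ψ ∈ 𝒳, ψ (rep i) ^ 2 * conj (χ (rep i)) = _
    rw [← sum_mul, this, Ideal.one_eq_top]
    split_ifs with hr
    · rw [h1 _ (r1 i hi) hr, map_one, mul_one]
    · exact zero_mul _

end Pool.Agent.P.MP_b8021b_nt.BJ
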