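import Pool.Agent.P.MP_b8021b_nt.BJ.StA
import Pool.Agent.P.MP_b8021b_nt.BS.CF.PPC

/-! A square root of the quadratic symbol. -/

namespace Pool.Agent.P.MP_b8021b_nt.BJ

open NumberField IsDedekindDomain Finset MeasureTheory
open Pool.Agent.P.MP_b8021b_nt.VE Pool.Agent.P.MP_b8021b_nt.VC Pool.Agent.P.MP_b8021b_nt.BS.CF
open Pool.Agent.P.MP_b8021b_nt.BS Pool.Agent.P.MP_b8021b_nt.BP
open scoped Classical ComplexConjugate Real

namespace JSQR

variable {L : Type} [Field L] [NumberField L]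

/-- a square root of an element close to one is a local square -/
theorem root (hL : Om L) {v : Pl L} {w : L} (h : vl v (w ^ 2 - 1) < vl v ((2 : ℕ) : L) ^ 3) :
    LP 2 v w := by
  by_cases a : vl v (w - 1) < vl v ((2 : ℕ) : L) ^ 2
  · exact LP.of_near a
  by_cases b : vl v (w + 1) < vl v ((2 : ℕ) : L) ^ 2
  · have : LP 2 v (-w) := LP.of_near (by
      rwa [show -w - 1 = -(w + 1) by ring, Valuation.map_neg])
    simpa using lp_neg hL this
  rw [not_lt] at a b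
  have e : vl v ((2 : ℕ) : L) ≤ max (vl v (w + 1)) (vl v (w - 1)) := by
    rw [show ((2 : ℕ) : L) = (w + 1) - (w - 1) by push_cast; ring]
    exact (vl v).map_sub _ _
  rw [show w ^ 2 - 1 = (w + 1) * (w - 1) by ring, map_mul] at h
  refine absurd h (not_lt.2 ?_)
  rcases le_max_iff.1 e with e | e
  · rw [pow_succ']; exact mul_le_mul' e a
  · rw [pow_succ]; exact mul_le_mul' b e

theorem near {m : ℕ} {u : 𝓞 L} (hu : ((16 * m : ℕ) : 𝓞 L) ∣ u - 1) {v : Pl L}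
    (hv : Dv (16 * m) v) : vl v ((u : L) - 1) < vl v ((2 : ℕ) : L) ^ 3 := by
  have e : 16 * m = 2 ^ 3 * (2 * m) := by ring
  have h1 : Dv (2 * m) v := by
    rw [e, dv_mul, dv_pow v (by norm_num)] at hv
    exact hv.elim (fun k => k.of_dvd (dvd_mul_right _ _)) id
  refine (One.near v (One.coe hu) hv).trans_lt ?_
  rw [e, Nat.cast_mul, Nat.cast_pow, map_mul, map_pow]
  exact mul_lt_of_lt_one_right (pow_pos (vl_pos v (Nat.cast_ne_zero.2 two_ne_zero)) 3)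
    ((vl_nat_lt v).2 h1)

/-- a place where a given class is not a square -/
theorem place (h : QX) (hL : Om L) {n p : ℕ} (hn : n ≠ 0) (h2 : 2 ∣ n) (hp : p.Prime) (y : L) :
    ∃ q : ℕ, q ≠ 0 ∧ ¬ p ∣ q ∧
      ((∃ z : L, y = z ^ 2) ∨ ∃ v : Pl L, Dv q v ∧ ¬ Dv 2 v ∧ ¬ LP 2 v y) := by
  by_cases e : ∃ z : L, y = z ^ 2
  · exact ⟨1, one_ne_zero, hp.not_dvd_one, Or.inl e⟩
  obtain ⟨v, h1, h3, h4⟩ := h.c1 L 2 (p * n) y hL RecP.el2 (mul_ne_zero hp.ne_zero hn) e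
  refine ⟨_, h1.ne_zero, fun k => h3 ?_, Or.inr ⟨v, dv_absNorm v,
    fun k => h3 (k.of_dvd (h2.mul_left p)), h4⟩⟩
  rw [dv_iff_of_prime h1, ← (Nat.prime_dvd_prime_iff_eq hp h1).1 k]
  exact dvd_mul_right _ _

end JSQR

theorem j_sqr (h : QX) (hSQ0 : J_SQ0) : J_SQR := by
  intro L _ _ n p y hL hn h2 hy he hp hpn
  have n0 : n ≠ 0 := by omega
  obtain ⟨j, χ, hj, hχ, hv, -⟩ := h.chi L n y hL hn h2 hy fun v e => (he v e).two_dvd
  obtain ⟨Y, hY⟩ := (h.es L).2 1 2 one_ne_zero two_ne_zero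
  choose q q0 qp qv using JSQR.place h hL n0 h2 hp
  set m : ℕ := n ^ j * ∏ y₀ ∈ Y, q y₀ with hm
  have m0 : m ≠ 0 := mul_ne_zero (pow_ne_zero _ n0) (prod_ne_zero_iff.2 fun y₀ _ => q0 y₀)
  have d1 : n ^ j ∣ 16 * m := (dvd_mul_right _ _).mul_left 16
  have d2 : n ∣ 16 * m := (dvd_pow_self n (by omega)).trans d1
  have d3 : 2 ∣ 16 * m := h2.trans d2
  have l2 : 2 ≤ 16 * m := by omega
  have hp' : ¬ p ∣ 16 * m := by
    intro e
    rcases (Nat.Prime.dvd_mul hp).1 e with e | e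
    · exact hpn ((hp.dvd_of_dvd_pow (show p ∣ 2 ^ 4 from e)).trans h2)
    rcases (Nat.Prime.dvd_mul hp).1 e with e | e
    · exact hpn (hp.dvd_of_dvd_pow e)
    · obtain ⟨a, -, ha⟩ := hp.prime.exists_mem_finset_dvd e
      exact qp a ha
  have k1 : ∀ v : Pl L, ¬ Dv (16 * m) v →
      (χ * triv L (16 * m)) v.asIdeal = if LP 2 v y then 1 else -1 := fun v e => by
    rw [mul_triv e, hv v fun e' => e (e'.of_dvd d2)]
  have k2 : ∀ v : Pl L, ¬ Dv (16 * m) v → 2 ∣ od v y := fun v e =>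
    (he v fun e' => e (e'.of_dvd d2)).two_dvd
  obtain ⟨ψ, r1, r2⟩ := hSQ0 L (16 * m) (χ * triv L (16 * m)) hL l2 (hχ.mono d1) fun I hI hR => by
    obtain ⟨u, u1, u2⟩ := PCP.gen hR
    have I0 : I ≠ ⊥ := Cop_ne_bot l2 hI
    have u0 : u ≠ 0 := fun e => pow_ne_zero 2 I0 (by rw [← u2, e]; simp)
    have u0' : (u : L) ≠ 0 := by simpa using u0
    have u3 : ∀ v : Pl L, od v (u : L) = 2 * cnt v I := fun v => by
      rw [od_coe v u0, u2, cnt_pow v I0]; push_cast; rfl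
    obtain ⟨y₀, y1, z, hz⟩ := hY u u0' fun v _ => ⟨_, u3 v⟩
    have z0 : z ≠ 0 := fun e => u0' (by rw [hz, e]; simp)
    obtain ⟨w, hw⟩ : ∃ w : L, (u : L) = w ^ 2 := by
      rcases qv y₀ with ⟨r, hr⟩ | ⟨v, a1, a2, a3⟩
      · exact ⟨r * z, by rw [hz, hr, mul_pow]⟩
      · have a4 : Dv (16 * m) v :=
          a1.of_dvd (((dvd_prod_of_mem q y1).mul_left (n ^ j)).mul_left 16)
        have a5 : LP 2 v (u : L) := LP.of_near_one a2
          ((One.near v (One.coe u1) a4).trans_lt ((vl_nat_lt v).2 a4))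
        rw [hz] at a5
        exact absurd (RecP.lp_cancel a5 (lp_sq v z0)) a3
    have w0 : w ≠ 0 := fun e => u0' (by rw [hw, e]; simp)
    have w1 : ∀ v : Pl L, od v w = cnt v I := fun v => by
      have := u3 v
      rw [hw, od_pow] at this
      push_cast at this
      omega
    have w2 : ∀ v : Pl L, Dv (16 * m) v → LP 2 v w := fun v e =>
      JSQR.root hL (hw ▸ JSQR.near u1 e)
    have t := RecP.zero h.toT1 h.chi hL l2 d3 hy k2 w0 w2
    rw [RecP.chi_eq l2 (fun v => RecP.ee v y) (fun v e => by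
      rw [k1 v e, RecP.ee_even (k2 v e)]
      split_ifs <;> simp_all) I hI, if_pos]
    rw [← t]
    refine finsum_congr fun v => ?_
    by_cases e : Dv (16 * m) v
    · rw [RecP.sy_lp y (w2 v e), ← Int.cast_natCast, ← w1 v, RecP.c0 (w2 v e).dvd, mul_zero]
    · rw [RecP.sy, if_neg fun e' => e (e'.of_dvd d3), RecP.c0 (k2 v e), mul_zero, add_zero, w1 v,
        Int.cast_natCast]
  exact ⟨16 * m, ψ, d2, by omega, hp', r1, fun v e => by
    rw [r2 _ ((cop_prime_iff v).2 e), k1 v e, lq]⟩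

end Pool.Agent.P.MP_b8021b_nt.BJ
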