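import Pool.Agent.P.MP_b8021b_nt.BJ.StA
import Pool.Agent.P.MP_b8021b_nt.BP.PTAU

/-! A positive proportion of the mass has a trivial kernel, second case. -/

namespace Pool.Agent.P.MP_b8021b_nt.BJ

open NumberField IsDedekindDomain Finset MeasureTheory
open Pool.Agent.P.MP_b8021b_nt.VE Pool.Agent.P.MP_b8021b_nt.VC Pool.Agent.P.MP_b8021b_nt.BS.CF
open Pool.Agent.P.MP_b8021b_nt.BS Pool.Agent.P.MP_b8021b_nt.BP
open scoped Classical ComplexConjugate Real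

variable {k : Type} [Field k] [NumberField k] [Algebra k ℂ] {K : Type} [Field K] [NumberField K]
  [Algebra k K]

set_option linter.unusedSectionVars false
set_option linter.unusedVariables false

namespace JTAUB

theorem ft (s : Finset (Pl K)) (h : DecidablePred fun _ : Pl K => True) :
    @Finset.filter _ (fun _ => True) h s = s := by
  ext v; simp

theorem split (r : Finset (Pl K) → Prop) (z : Finset (Pl K) → 𝓞 K) (T : Finset (Finset (Pl K)))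
    (𝒬 : Finset (Pl K)) :
    ∑ τ ∈ T, ∑ q ∈ 𝒬, (nS τ * nv q)⁻¹ * Yv r z τ q =
      (∑ τ ∈ T, (nS τ)⁻¹ * ∑ D ∈ τ.powerset.erase ∅, pik r z D τ) * (∑ q ∈ 𝒬, (nv q)⁻¹) / 2 +
      (∑ τ ∈ T, (nS τ)⁻¹ * ∑ D ∈ τ.powerset.erase ∅,
        pik r z D τ * ∑ q ∈ 𝒬, lr (z D) q / nv q) / 2 := by
  rw [sum_mul, sum_div, sum_div, ← sum_add_distrib]
  refine sum_congr rfl fun τ _ => ?_
  rw [sum_congr rfl fun D _ => mul_sum _ _ _, sum_comm, mul_sum 𝒬, mul_sum 𝒬, sum_div, sum_div,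
    ← sum_add_distrib]
  refine sum_congr rfl fun q _ => ?_
  have : Yv r z τ q * (nv q)⁻¹ = (∑ D ∈ τ.powerset.erase ∅, pik r z D τ) * (nv q)⁻¹ / 2 +
      (∑ D ∈ τ.powerset.erase ∅, pik r z D τ * (lr (z D) q / nv q)) / 2 := by
    rw [Yv, sum_mul, sum_mul, sum_div, sum_div, ← sum_add_distrib]
    exact sum_congr rfl fun D _ => by ring
  rw [mul_inv]
  linear_combination (nS τ)⁻¹ * this

theorem one (Y : Yb k K) (hRED3 : J_RED3 k K) {e : 𝓞 K} {d : RD K} (hd : d.Ok k)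
    (hj : ∀ D, (∀ v ∈ D, d.W < nv v) → d.r D → jac e (eI D) = 1) :
    ∃ C y₀ : ℝ, ∀ (W y u yq : ℝ) (𝒬 : Finset (Pl K)), d.W ≤ W → 1 ≤ W → y₀ ≤ yq →
      d.C * d.W * y ^ u ≤ yq ^ cz k K → 𝒬 ⊆ pls K yq (yq ^ 2) →
      GG (pls K W y) * ∑ D ∈ (pls K W y).powerset, (if jac e (eI D) = 1 then gS D else 0) ≤
        11 / 20 →
      GG (pls K W y) * ∑ D ∈ (pls K W y).powerset.erase ∅, (if d.r D then
          gS D * ∏ v ∈ pls K W y, (1 + lr (d.z D) v * gg v) else 0) ≤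
      GG (pls K W y) * ∑ D ∈ (pls K W y).powerset, (if d.r D then gS D else 0) + 1 / 10 →
      ∑ τ ∈ TT K W y u, ∑ q ∈ 𝒬, (nS τ * nv q)⁻¹ * Yv d.r d.z τ q ≤
        13 / 40 * Z0 (pls K W y) * (∑ q ∈ 𝒬, (nv q)⁻¹) + C / √W * Z0 (pls K W y) / 2 := by
  obtain ⟨C, y₀, h3⟩ := hRED3 (fun _ => True) d hd
  refine ⟨C, y₀, fun W y u yq 𝒬 w0 w1 a0 aC hQ hm h2 => ?_⟩
  have hP : ∀ v ∈ pls K W y, d.W < nv v := fun v hv => w0.trans_lt (mem_pls.1 hv).1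
  have Z : 0 ≤ Z0 (pls K W y) := prod_nonneg fun v _ => by have := nv_pos v; positivity
  have G : 0 ≤ GG (pls K W y) := prod_nonneg fun v _ => by have := nv_pos v; unfold gg; positivity
  have X := PTAU.mean Y.red1 hd (fun _ => True) hP
  have R := h3 W y u yq 𝒬 w0 w1 a0 aC hQ
  simp only [ft] at X R
  have h4 : ∑ D ∈ (pls K W y).powerset, (if d.r D then gS D else 0) ≤
      ∑ D ∈ (pls K W y).powerset, (if jac e (eI D) = 1 then gS D else 0) := by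
    refine sum_le_sum fun D hD => ?_
    have g : 0 ≤ gS D := prod_nonneg fun v _ => by have := nv_pos v; unfold gg; positivity
    by_cases h : d.r D
    · rw [if_pos h, if_pos (hj D (fun v hv => hP v (mem_powerset.1 hD hv)) h)]
    · rw [if_neg h]; split_ifs; exacts [g, le_rfl]
  have h5 := mul_le_mul_of_nonneg_left h4 G
  have X1 : ∑ τ ∈ (pls K W y).powerset, (nS τ)⁻¹ * ∑ D ∈ τ.powerset.erase ∅, pik d.r d.z D τ ≤
      Z0 (pls K W y) * (13 / 20) := X.trans_le (mul_le_mul_of_nonneg_left (by linarith) Z)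
  have X' := (sum_le_sum_of_subset_of_nonneg (s := TT K W y u) (filter_subset _ _) fun τ _ _ =>
    mul_nonneg (inv_nonneg.2 (nS_pos τ).le)
      (sum_nonneg fun D _ => PTAU.pik_nonneg _ _ _ _)).trans X1
  have R' := R (by linarith)
  have Q0 : 0 ≤ ∑ q ∈ 𝒬, (nv q)⁻¹ := sum_nonneg fun v _ => inv_nonneg.2 (nv_pos v).le
  have f2 := mul_le_mul_of_nonneg_right X' Q0
  rw [split]
  linarith

end JTAUB

theorem j_taub (c : Cx k K) (Y : Yb k K) (hMER : J_MER K) (hBLK : J_BLK K) (hHM : J_HM K)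
    (hRED2 : J_RED2 k K) (hRED3 : J_RED3 k K) : J_TAUB k K := by
  intro t₀ ht
  obtain ⟨N₀, n0, h2⟩ := hRED2
  refine ⟨N₀, n0, fun d hd hd' hN hj => ?_⟩
  obtain ⟨W₂, h2a⟩ := h2 _ d hMER.1 hd hN
  obtain ⟨W₂', h2b⟩ := h2 _ (tw d t₀) hMER.1 hd' hN
  obtain ⟨C, y₀, h3⟩ := JTAUB.one Y hRED3 hd hj
  obtain ⟨C', y₀', h3'⟩ := JTAUB.one (d := tw d t₀) Y hRED3 hd' hj
  obtain ⟨u, W₃, u1, h4⟩ := Y.mark
  obtain ⟨_, _, y₄, -, -, h5⟩ := hBLK _ ht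
  have z0 := c.cz_pos
  have A1 : 1 ≤ (u + 1) / cz k K := (one_le_div z0).2 (by linarith [c.cz_le])
  refine ⟨u, (u + 1) / cz k K, max (max (max W₂ W₂') W₃)
    (max (max d.W 1) (max ((100 * C) ^ 2) ((100 * C') ^ 2))), u1, A1, fun W hW => ?_⟩
  simp only [max_le_iff] at hW
  obtain ⟨⟨⟨w2, w2'⟩, w3⟩, ⟨w0, w1⟩, wC, wC'⟩ := hW
  obtain ⟨y₂, h2a⟩ := h2a W w2
  obtain ⟨y₂', h2b⟩ := h2b W w2'
  obtain ⟨y₅, h6⟩ := hHM t₀ ht W
  refine ⟨max (max (max y₂ y₂') (max 2 y₅)) (max (max (max y₀ y₀') y₄) (d.C * d.W)),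
    fun y yq hy hq => ?_⟩
  simp only [max_le_iff] at hy
  obtain ⟨⟨⟨a2, a2'⟩, a1, a5⟩, ⟨⟨a0, a0'⟩, a4⟩, aC⟩ := hy
  have y0 : 0 < y := by linarith
  have b1 : y ≤ yq := (Real.self_le_rpow_of_one_le (by linarith) A1).trans hq
  have Q5 := (h5 yq (a4.trans b1)).2.2
  have Z : 0 ≤ Z0 (pls K W y) := prod_nonneg fun v _ => by have := nv_pos v; positivity
  have hc : d.C * d.W * y ^ u ≤ yq ^ cz k K := by
    refine le_trans ?_ (Real.rpow_le_rpow (by positivity) hq z0.le)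
    rw [← Real.rpow_mul y0.le, div_mul_cancel₀ _ z0.ne', Real.rpow_add y0, Real.rpow_one, mul_comm]
    exact mul_le_mul_of_nonneg_left aC (by positivity)
  have R1 := h3 W y u yq (QI (t₀ : K) yq) w0 w1 (a0.trans b1) hc (filter_subset _ _) (h6 y a5)
    (by simpa only [JTAUB.ft] using h2a y a2)
  have R2 := h3' W y u yq (QI (t₀ : K) yq) w0 w1 (a0'.trans b1) hc (filter_subset _ _) (h6 y a5)
    (by simpa only [JTAUB.ft] using h2b y a2')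
  rw [tw_r] at R2
  have M := h4 W y w3 a1
  have R' : ∀ C : ℝ, (100 * C) ^ 2 ≤ W → C / √W * Z0 (pls K W y) ≤ 1 / 100 * Z0 (pls K W y) := by
    intro C wC
    refine mul_le_mul_of_nonneg_right ((div_le_iff₀ (Real.sqrt_pos.2 (by linarith))).2 ?_) Z
    linarith [Real.le_sqrt_of_sq_le wC]
  have e : ∑ τ ∈ TT K W y u, ∑ q ∈ QI (t₀ : K) yq,
      (nS τ * nv q)⁻¹ * ((1 - Yv d.r d.z τ q - Yv d.r (tw d t₀).z τ q) / 8) =
      ((∑ τ ∈ TT K W y u, (nS τ)⁻¹) * (∑ q ∈ QI (t₀ : K) yq, (nv q)⁻¹) -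
      ∑ τ ∈ TT K W y u, ∑ q ∈ QI (t₀ : K) yq, (nS τ * nv q)⁻¹ * Yv d.r d.z τ q -
      ∑ τ ∈ TT K W y u, ∑ q ∈ QI (t₀ : K) yq, (nS τ * nv q)⁻¹ * Yv d.r (tw d t₀).z τ q) / 8 := by
    rw [sum_mul_sum, ← sum_sub_distrib, ← sum_sub_distrib, sum_div]
    refine sum_congr rfl fun τ _ => ?_
    rw [← sum_sub_distrib, ← sum_sub_distrib, sum_div]
    refine sum_congr rfl fun q _ => ?_
    rw [mul_inv]
    ring
  rw [e]
  have Q0 : 0 ≤ ∑ q ∈ QI (t₀ : K) yq, (nv q)⁻¹ := by linarith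
  have f1 := mul_le_mul_of_nonneg_right M Q0
  have f3 := mul_le_mul_of_nonneg_left Q5 Z
  have f4 := R' C wC
  have f5 := R' C' wC'
  linarith

end Pool.Agent.P.MP_b8021b_nt.BJ
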