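import Pool.Agent.P.MP_b8021b_nt.BJ.StA
import Pool.Agent.P.MP_b8021b_nt.BP.PTE
import Pool.Agent.P.MP_b8021b_nt.BP.PRT2

/-! Euler products with one small index. -/

namespace Pool.Agent.P.MP_b8021b_nt.BJ

open NumberField IsDedekindDomain Finset MeasureTheory
open Pool.Agent.P.MP_b8021b_nt.VE Pool.Agent.P.MP_b8021b_nt.VC Pool.Agent.P.MP_b8021b_nt.BS.CF
open Pool.Agent.P.MP_b8021b_nt.BS Pool.Agent.P.MP_b8021b_nt.BP
open scoped Classical ComplexConjugate Real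

variable {k : Type} [Field k] [NumberField k] [Algebra k ℂ] {K : Type} [Field K] [NumberField K]
  [Algebra k K]

set_option linter.unusedSectionVars false
set_option linter.unusedVariables false

open PTE in
theorem j_te (c : Cx k K) (Y : Yb k K) : J_TE K := by
  have hCH2 := Y.ch2
  have hDIV := Y.div
  have hSLH := Y.slh
  intro p C₀ ε hζ hε
  obtain ⟨C2, c2, p1, -, p3, -⟩ := hCH2
  obtain ⟨-, CD, cd, pd⟩ := hDIV
  obtain ⟨CS, y₀, cs, y2, ps⟩ := hSLH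
  have cz0 := c.cz_pos
  refine ⟨Real.exp 1 + 128 * CS / ε, fun W hW => ?_⟩
  obtain ⟨CM, pm⟩ := hζ W
  have w1 : Real.exp 1 ≤ W := le_trans (le_add_of_nonneg_right (by positivity)) hW
  have w2 : 128 * CS / ε ≤ W := le_trans (le_add_of_nonneg_left (by positivity)) hW
  have w0 : 0 < W := (Real.exp_pos 1).trans_le w1
  obtain ⟨A, hA⟩ : ∃ A, A = 9 * CD ^ 2 * Real.exp (CM / 3 + 2 * C2) := ⟨_, rfl⟩
  have A0 : 0 ≤ A := by rw [hA]; positivity
  obtain ⟨s₁, t1, t2, t3, t4, t5⟩ : ∃ s₁, 2 ≤ s₁ ∧ y₀ ≤ s₁ ∧ (1 + |C₀|) / cz k K ≤ s₁ ∧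
      24 * (2 + 2 * C2 + 1) ≤ s₁ ∧ 2 * A / ε ≤ s₁ :=
    ⟨max 2 (max y₀ (max ((1 + |C₀|) / cz k K) (max (24 * (2 + 2 * C2 + 1)) (2 * A / ε)))),
      by simp, by simp, by simp, by simp, by simp⟩
  refine ⟨Real.exp (Real.exp (s₁ ^ 2)), fun y hy 𝒟 z a hD hO ha => ?_⟩
  obtain ⟨s, hs, rfl⟩ : ∃ s, s₁ ≤ s ∧ y = Real.exp (Real.exp (s ^ 2)) := by
    have y0 : 0 < y := (Real.exp_pos _).trans_le hy
    have y1 := (Real.le_log_iff_exp_le y0).2 hy
    have y3 : 0 < Real.log y := (Real.exp_pos _).trans_le y1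
    have y4 := (Real.le_log_iff_exp_le y3).2 y1
    refine ⟨√(Real.log (Real.log y)), Real.le_sqrt_of_sq_le y4, ?_⟩
    rw [Real.sq_sqrt ((sq_nonneg _).trans y4), Real.exp_log y3, Real.exp_log y0]
  have s2 : 2 ≤ s := t1.trans hs
  have s0 : 0 < s := by linarith
  have d0 : D0 (Real.exp (Real.exp (s ^ 2))) = Real.exp (Real.exp s) := by
    rw [D0, Real.log_exp, Real.log_exp, Real.sqrt_sq s0.le]
  have es := Real.add_one_le_exp s
  have es2 := Real.add_one_le_exp (2 * s)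
  have es3 := Real.add_one_le_exp (Real.exp (2 * s))
  have zy : Real.exp (Real.exp (2 * s)) ≤ Real.exp (Real.exp (s ^ 2)) := by
    gcongr
    nlinarith
  have pm1 := pm (Real.exp (Real.exp (s ^ 2))) (by linarith)
  rw [Real.log_exp, Real.log_exp] at pm1
  obtain ⟨𝒮, h𝒮⟩ : ∃ 𝒮, 𝒮 = (pls K W (Real.exp (Real.exp (s ^ 2)))).filter p := ⟨_, rfl⟩
  have m𝒮 : ∀ v ∈ 𝒮, W < nv v ∧ nv v ≤ Real.exp (Real.exp (s ^ 2)) := fun v hv =>
    mem_pls.1 (mem_filter.1 (h𝒮 ▸ hv)).1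
  rw [← h𝒮] at pm1 ⊢
  have g1 : GG 𝒮 ≤ Real.exp (-s ^ 2 / 6 + CM / 3) :=
    (GG_le 𝒮).trans (Real.exp_le_exp.2 (by linarith))
  have g0 := GG_nonneg 𝒮
  have σ0 : 0 ≤ ∑ D ∈ 𝒟, gS D := sum_nonneg fun D _ => gS_nonneg D
  have σ1 : 1 + ∑ D ∈ 𝒟, gS D ≤ 3 * CD * Real.exp s := by
    have h1 := (sum_gS fun D h => (hD D h).2.2.1).trans
      (pd _ (by rw [d0]; exact Real.one_le_exp (Real.exp_pos _).le)).2.1
    rw [d0, Real.log_exp] at h1
    nlinarith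
  have key : Real.exp (-s ^ 2 / 6 + CM / 3) * Real.exp (C2 * (1 + 2 * s) + (s ^ 2 / 8 + C2)) *
      (3 * CD * Real.exp s) ^ 2 ≤ ε / 2 := by
    refine le_trans (le_of_eq ?_) (small (B := 2 + 2 * C2) A0 hε s0 (t4.trans hs) (t5.trans hs))
    rw [hA, mul_pow, ← Real.exp_nat_mul, ← Real.exp_add, mul_left_comm, ← Real.exp_add,
      mul_assoc (9 * CD ^ 2), ← Real.exp_add]
    congr 1
    · ring
    · congr 1
      push_cast
      ring
  have E1 : 1 ≤ Real.exp (C2 * (1 + 2 * s) + (s ^ 2 / 8 + C2)) := Real.one_le_exp (by positivity)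
  constructor
  · refine le_trans ?_ (key.trans (by linarith))
    exact mul_le_mul (g1.trans (le_mul_of_one_le_right (Real.exp_pos _).le E1))
      (pow_le_pow_left₀ (by linarith) σ1 2) (sq_nonneg _) (by positivity)
  have q1 : ∑ v ∈ 𝒮.filter fun v => nv v ≤ Real.exp (Real.exp (2 * s)), (nv v)⁻¹ ≤
      C2 * (1 + 2 * s) := by
    have h1 := p1 (Real.exp 1) (Real.exp (Real.exp (2 * s)))
      (by linarith [Real.add_one_le_exp 1]) (Real.exp_le_exp.2 (by linarith))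
    rw [Real.log_exp, Real.log_exp, div_one, Real.log_exp] at h1
    refine le_trans (sum_le_sum_of_subset_of_nonneg (fun v hv => ?_)
      fun v _ _ => (inv_pos.2 (nv_pos v)).le) h1
    exact mem_pls.2 ⟨w1.trans_lt (m𝒮 v (mem_filter.1 hv).1).1, (mem_filter.1 hv).2⟩
  have q2 : ∀ S : Finset (Pl K), ∑ v ∈ S, (nv v)⁻¹ ^ 2 ≤ C2 := fun S => by
    have h1 := p3 1 S one_pos le_rfl
    rw [div_one, Real.log_one, add_zero, mul_one] at h1
    refine le_trans (le_of_eq (sum_congr rfl fun v _ => ?_)) h1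
    rw [Real.rpow_neg (nv_pos v).le, one_add_one_eq_two, Real.rpow_two, inv_pow]
  have q3 := ps (Real.exp (Real.exp (2 * s))) (Real.exp (Real.exp (s ^ 2))) _ 𝒟 z
    (𝒮.filter fun v => ¬nv v ≤ Real.exp (Real.exp (2 * s))) (fun v => a v * (nv v * gg v : ℝ))
    (by linarith) zy
    (fun v hv => mem_pls.2 ⟨not_le.1 (mem_filter.1 hv).2, (m𝒮 v (mem_filter.1 hv).1).2⟩)
    (fun v => by
      have h1 := nv_pos v
      have h2 := gg_pos v
      rw [norm_mul, Complex.norm_real, Real.norm_of_nonneg (by positivity)]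
      exact mul_le_one₀ (ha v) (by positivity)
        ((mul_le_mul_of_nonneg_left (gg_le v) h1.le).trans_eq (mul_inv_cancel₀ h1.ne')))
    (fun D h => ⟨(hD D h).2.2.2.1, (hD D h).2.2.2.2.trans (by
      have h1 := (hD D h).2.2.1
      have h2 : 1 + |C₀| ≤ Real.exp s * cz k K := (div_le_iff₀ cz0).1 (by linarith)
      rw [d0] at h1
      rw [← Real.exp_mul, two_mul, Real.exp_add]
      calc C₀ * nS D ≤ Real.exp |C₀| * Real.exp (Real.exp s) :=
            mul_le_mul (by linarith [le_abs_self C₀, Real.add_one_le_exp |C₀|]) h1 (nS_pos D).le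
              (Real.exp_pos _).le
        _ ≤ _ := by
          rw [← Real.exp_add, Real.exp_le_exp, mul_assoc]
          nlinarith [abs_nonneg C₀])⟩) hO
  rw [Real.log_exp, Real.log_exp, ← Real.exp_sub, Real.log_exp] at q3
  have q4 := few 𝒟 _ (by linarith) s2 q3
  have e0 : ∀ (D : Finset (Pl K)) (v : Pl K),
      a v * (nv v * gg v : ℝ) * leg (z D) v / (nv v : ℝ) = a v * leg (z D) v * (gg v : ℝ) :=
    fun D v => by
      have : ((nv v : ℝ) : ℂ) ≠ 0 := by exact_mod_cast (nv_pos v).ne'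
      rw [Complex.ofReal_mul, div_eq_iff this]
      ring
  simp only [e0] at q4
  rw [mul_sum]
  refine (sum_le_sum (g := fun D => GG 𝒮 * Real.exp (C2 * (1 + 2 * s) + (s ^ 2 / 8 + C2)) * gS D +
    if s ^ 2 / 8 < ‖∑ v ∈ 𝒮.filter fun v => ¬nv v ≤ Real.exp (Real.exp (2 * s)),
      a v * leg (z D) v * (gg v : ℝ)‖ then W⁻¹ else 0) fun D h => ?_).trans ?_
  · have u0 := gS_nonneg D
    split_ifs with hb
    · obtain ⟨v, hv⟩ := nonempty_iff_ne_empty.2 (hD D h).1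
      have u1 : gS D ≤ W⁻¹ := (gS_le D).trans
        (inv_anti₀ w0 ((mem_pls.1 ((hD D h).2.1 hv)).1.le.trans (nv_le_nS hv)))
      rw [mul_left_comm]
      exact ((mul_le_of_le_one_right u0 (GG_mul ha _ _)).trans u1).trans
        (le_add_of_nonneg_left (by positivity))
    · rw [add_zero, mul_comm (gS D), ← mul_assoc]
      refine mul_le_mul_of_nonneg_right (mul_le_mul_of_nonneg_left
        ((prodb 𝒮 (fun v => nv v ≤ Real.exp (Real.exp (2 * s))) _).trans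
          (Real.exp_le_exp.2 (add_le_add ?_ (add_le_add (not_lt.1 hb) ?_)))) g0) u0
      · exact (sum_le_sum fun v _ => (norm_w ha _ v).trans (gg_le v)).trans q1
      · exact (sum_le_sum fun v _ => pow_le_pow_left₀ (norm_nonneg _)
          ((norm_w ha _ v).trans (gg_le v)) 2).trans (q2 _)
  · rw [sum_add_distrib, ← mul_sum, ← sum_filter, sum_const, nsmul_eq_mul]
    have r1 : GG 𝒮 * Real.exp (C2 * (1 + 2 * s) + (s ^ 2 / 8 + C2)) * ∑ D ∈ 𝒟, gS D ≤ ε / 2 := by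
      refine le_trans (mul_le_mul (mul_le_mul_of_nonneg_right g1 (Real.exp_pos _).le) ?_ σ0
        (by positivity)) key
      nlinarith
    have r2 : 64 * CS * W⁻¹ ≤ ε / 2 := by
      rw [div_le_iff₀ hε] at w2
      rw [← div_eq_mul_inv, div_le_iff₀ w0]
      linarith
    linarith [mul_le_mul_of_nonneg_right q4 (inv_pos.2 w0).le]

open PRT2 in
theorem j_rt2 (c : Cx k K) (Y : Yb k K) (hTE : J_TE K) : J_RT2 k K := by
  intro p n d C W₀ ε b Φ hζ hd ⟨_, hW, hΦ, hK⟩ hε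
  obtain ⟨𝒳, w, hb, hw, hx⟩ := expand c d hd
  set R := pls K 0 d.W with hR
  have hR0 : (0 : ℝ) < R.card + 1 := by positivity
  obtain ⟨W₁, h1⟩ := hTE p C (ε / (R.card + 1)) hζ (div_pos hε hR0)
  refine ⟨max W₀ W₁, fun W hW' => ?_⟩
  obtain ⟨y₁, h2⟩ := h1 W ((le_max_right _ _).trans hW')
  refine ⟨y₁, fun y hy => ?_⟩
  set S := (pls K W y).filter p with hS
  set ℰ := (S.powerset.erase ∅).filter (fun E => nS E ≤ D0 y) with hℰ
  have hSm : ∀ v ∈ S, W₀ < nv v ∧ ¬ Dv 2 v := fun v hv => by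
    have e := ((le_max_left _ _).trans hW').trans_lt (mem_pls.1 (mem_filter.1 hv).1).1
    exact ⟨e, fun e' => (hW.trans_lt e).not_ge
      (hd.dv v (e'.of_dvd ((by norm_num : 2 ∣ 8).trans hd.eight)))⟩
  have hEm : ∀ E ∈ ℰ, E ≠ ∅ ∧ E ⊆ S ∧ nS E ≤ D0 y := fun E hE =>
    ⟨(mem_erase.1 (mem_filter.1 hE).1).1, mem_powerset.1 (mem_erase.1 (mem_filter.1 hE).1).2,
      (mem_filter.1 hE).2⟩
  have hKE := fun E (hE : E ∈ ℰ) => hK E fun v hv => (hSm v ((hEm E hE).2.1 hv)).1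
  set P : (Ideal (𝓞 K) →* ℂ) → Finset (Pl K) → ℂ := fun χ E =>
    ∏ v ∈ S, (1 + χ v.asIdeal * leg (b E) v * (gg v : ℝ)) with hP
  have h3 : ∀ χ ∈ 𝒳, GG S * ∑ E ∈ ℰ, gS E * ‖P χ E‖ ≤ ε / (R.card + 1) := fun χ hχ =>
    (h2 y hy ℰ b (fun v => χ v.asIdeal) (fun E hE => ⟨(hEm E hE).1,
      (hEm E hE).2.1.trans (filter_subset _ _), (hEm E hE).2.2, (hKE E hE).2.1,
      (hKE E hE).2.2.2.1⟩) (fun E hE E' hE' hne => od2 (hKE E hE).2.1 (hKE E' hE').2.1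
      (hKE E hE).2.2.2.2.1 (hKE E' hE').2.2.2.2.1 (fun v hv => hSm v ((hEm E hE).2.1 hv))
      (fun v hv => hSm v ((hEm E' hE').2.1 hv)) hne) fun v => hb χ hχ _).2
  have h4 : ∀ E ∈ ℰ, ‖∑ D ∈ S.powerset, d.κ D E * (gS D : ℝ)‖ ≤
      ∑ ρ ∈ R, ∑ χ ∈ 𝒳, ‖w ρ χ‖ * ‖P χ E‖ := by
    intro E hE
    have e : ∑ D ∈ S.powerset, d.κ D E * (gS D : ℝ) =
        ∑ ρ ∈ R, ∑ χ ∈ 𝒳, Φ ρ E * (w ρ χ * P χ E) := by
      simp only [hP, ← euler, mul_sum]
      rw [sum_congr rfl fun ρ _ => sum_comm, sum_comm]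
      refine sum_congr rfl fun D hD => ?_
      have hD' : ∀ v ∈ D, W₀ < nv v := fun v hv => (hSm v (mem_powerset.1 hD hv)).1
      have e1 : Φ (d.cl D) E = ∑ ρ ∈ R, (if d.cl D = ρ then 1 else 0) * Φ ρ E := by
        simp only [ite_mul, one_mul, zero_mul]
        rw [sum_ite_eq, if_pos (mem_pls.2 ⟨nv_pos _, hd.cl_le D⟩)]
      rw [(hKE E hE).2.2.2.2.2 D hD', e1, sum_mul, sum_mul]
      refine sum_congr rfl fun ρ _ => ?_
      rw [hx D (fun v hv => hW.trans_lt (hD' v hv)) ρ, sum_mul, sum_mul, sum_mul]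
      exact sum_congr rfl fun χ _ => by ring
    rw [e]
    refine (norm_sum_le _ _).trans (sum_le_sum fun ρ _ => (norm_sum_le _ _).trans
      (sum_le_sum fun χ _ => ?_))
    rw [norm_mul, norm_mul]
    exact mul_le_of_le_one_left (by positivity) (hΦ ρ E)
  calc GG S * ∑ E ∈ ℰ, gS E * ‖∑ D ∈ S.powerset, d.κ D E * (gS D : ℝ)‖
      ≤ GG S * ∑ E ∈ ℰ, gS E * ∑ ρ ∈ R, ∑ χ ∈ 𝒳, ‖w ρ χ‖ * ‖P χ E‖ :=
        mul_le_mul_of_nonneg_left (sum_le_sum fun E hE =>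
          mul_le_mul_of_nonneg_left (h4 E hE) (gS_nonneg E)) (GG_nonneg S)
    _ = ∑ ρ ∈ R, ∑ χ ∈ 𝒳, ‖w ρ χ‖ * (GG S * ∑ E ∈ ℰ, gS E * ‖P χ E‖) := by
        simp only [mul_sum]
        rw [sum_comm]
        refine sum_congr rfl fun ρ _ => ?_
        rw [sum_comm]
        exact sum_congr rfl fun χ _ => sum_congr rfl fun E _ => by ring
    _ ≤ ∑ _ρ ∈ R, ε / (R.card + 1) := by
        refine sum_le_sum fun ρ _ => (sum_le_sum fun χ hχ =>
          mul_le_mul_of_nonneg_left (h3 χ hχ) (norm_nonneg _)).trans ?_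
        rw [← sum_mul]
        exact mul_le_of_le_one_left (div_pos hε hR0).le (hw ρ)
    _ ≤ ε := by
        rw [sum_const, nsmul_eq_mul, ← mul_div_assoc, div_le_iff₀ hR0]
        nlinarith

end Pool.Agent.P.MP_b8021b_nt.BJ
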