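import Pool.Agent.P.MP_b8021b_nt.BJ.StA

/-! The theorem from the interface statements. -/

namespace Pool.Agent.P.MP_b8021b_nt.BJ

open NumberField IsDedekindDomain Finset MeasureTheory
open Pool.Agent.P.MP_b8021b_nt.VE Pool.Agent.P.MP_b8021b_nt.VC Pool.Agent.P.MP_b8021b_nt.BS.CF
open Pool.Agent.P.MP_b8021b_nt.BS Pool.Agent.P.MP_b8021b_nt.BP
open scoped Classical ComplexConjugate Real

variable {k : Type} [Field k] [NumberField k] [Algebra k ℂ] {K : Type} [Field K] [NumberField K]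
  [Algebra k K]

set_option linter.unusedSectionVars false
set_option linter.unusedVariables false

open TopL in
theorem j_top (c : Cx k K) (Y : Yb k K) (hPSI : J_PSI k K) (hNVA : J_NVA k K) (hNVB : J_NVB k K) :
    J_TOP K := by
  have hMel := Y.mel
  have hLF := Y.lf
  intro ζ z1
  have hN : NVT k ζ := by
    by_cases h : IsSquare (ζ : K)
    · obtain ⟨σ, hσ⟩ := h
      have h2 : IsIntegral ℤ σ :=
        IsIntegral.of_pow (n := 2) (by norm_num) (by rw [sq, ← hσ]; exact ζ.isIntegral_coe)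
      obtain ⟨s, rfl⟩ : ∃ s : 𝓞 K, (s : K) = σ := ⟨⟨σ, h2⟩, rfl⟩
      have e : ζ = s ^ 2 := RingOfIntegers.ext (by simpa [sq] using hσ)
      rw [e]
      exact hNVB _ fun e' => z1 (by rw [e, e']; simp)
    · exact hNVA ζ h
  obtain ⟨t₀, n₁, t0, n10, hN⟩ := hN
  obtain ⟨m, Ψ₀, m2, m2', hΨ₀, hchs⟩ := hPSI (ζ * t₀ ^ 2) (mul_ne_zero z1 (pow_ne_zero 2 t0))
  obtain ⟨n₀, n, ℛ, ℛ', hn, hG2⟩ := Y.gd2 (m * n₁) (mul_ne_zero (by omega) n10)
  have hG := hG2.g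
  have hmn : m ∣ n := (dvd_mul_right _ _).trans hn
  have hΨ := isP_mono hΨ₀ hmn
  obtain ⟨f, Ct, γ, c₀, A, hM, hE, hF⟩ := Y.fe3 n _ hG hΨ
  have hd : ∀ w : Pl K, t₀ ∈ w.asIdeal → Dv n w := fun w h => by
    by_contra e
    exact (hchs w fun e' => e (e'.of_dvd hmn)).1
      (Ideal.mul_mem_left _ _ (Ideal.pow_mem_of_mem _ h 2 two_pos))
  obtain ⟨c₁, X₀, c1, hX⟩ := hN n₀ n ℛ ℛ' _ f Ct γ c₀ A ((dvd_mul_left _ _).trans hn) hG2 hΨ hF
  have s0 : sp t₀ ≠ ⊥ := by simpa using t0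
  obtain ⟨I₀, J₀, hI, hJ, hIJ⟩ := PDec.ex_dec (sp t₀) s0
  have N1 : 1 ≤ NN (sp t₀) := one_le_NN s0
  have N2 : NN I₀ ≤ NN (sp t₀) := NN_le_of_le s0 (hIJ ▸ Ideal.mul_le_left)
  refine ⟨c₁ / NN (sp t₀), max X₀ 0 * NN (sp t₀), by positivity, fun X hX' => ?_⟩
  obtain ⟨𝒢, g1, g2, g3⟩ := hX (X / NN (sp t₀))
    ((le_max_left _ 0).trans ((le_div_iff₀ (by positivity)).2 hX'))
  rw [div_mul_eq_mul_div, mul_div_assoc]
  refine g1.trans (Nat.cast_le.2 ?_)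
  rw [← Set.ncard_coe_finset]
  refine Set.ncard_le_ncard_of_injOn (fun t => I₀ * sp t) (fun t ht => ?_)
    (fun t ht t' ht' e => g2 ht ht' (mul_left_cancel₀ hI.ne_zero e))
    ((ids K X).finite_toSet.subset fun I h => mem_coe.2 (mem_ids.2 ⟨h.1.ne_zero, h.2.1⟩))
  obtain ⟨hA, h1, h2, h3⟩ := g3 t ht
  have hP : Pri n t := hA.mono (dvd_pow_self n two_ne_zero)
  have t1 := hP.ne_zero
  have hb : ((-(ζ * (t₀ * t) ^ 2) : 𝓞 K) : K) = -(ζ * ((t₀ * t : 𝓞 K) : K) ^ 2) := by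
    push_cast; rfl
  refine ⟨squarefree_mul_iff.2 ⟨IsCoprime.isRelPrime ?_, hI, hP.2⟩, ?_, t₀ * t, J₀,
    mul_ne_zero t0 t1, ?_, h2, ?_⟩
  · refine (isCoprime_iff hI.ne_zero hP.2.ne_zero).2 (disjoint_left.2 fun w e e' => ?_)
    rw [mem_prI hI.ne_zero] at e
    rw [prI_sp, mem_pr t1] at e'
    exact not_mem hP.1 (hd w (e (Ideal.mul_le_left (hIJ.ge (Ideal.mem_span_singleton_self t₀))))) e'
  · rw [NN_mul]
    rw [le_div_iff₀' (by positivity)] at h1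
    exact (mul_le_mul_of_nonneg_right N2 (Nat.cast_nonneg _)).trans h1
  · rw [mul_right_comm, hIJ, Ideal.span_singleton_mul_span_singleton]
  · obtain ⟨G, g1, g2, g3⟩ := hMel n _ _ f t hF.ker hM hE hA
    rw [← hb]
    have n0 : (n : 𝓞 K) * t ≠ 0 := mul_ne_zero (Nat.cast_ne_zero.2 hG.pos) t1
    refine hLF _ (Ψ₀ * triv K n * jacH t) G (pr (n * t)) (fun I => ?_) (fun w hw => ?_)
      (fun w hw => ?_) g1 g2 (g3 h3)
    · rw [MonoidHom.mul_apply, norm_mul]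
      exact mul_le_one₀ (hΨ.norm_le I) (norm_nonneg _) (norm_jac_le t I)
    · rw [MonoidHom.mul_apply, jacH_apply, jac_prime]
      rcases w.isPrime.mem_or_mem ((mem_pr n0).1 hw) with e | e
      · rw [hΨ.zero _ fun h => (cop_prime_iff w).1 h e, zero_mul]
      · rw [leg_eq_zero.2 e, mul_zero]
    · rw [mem_pr n0, w.isPrime.mul_mem_iff_mem_or_mem, not_or] at hw
      have h2 : ¬ Dv m w := fun e => hw.1 (e.of_dvd hmn)
      have h4 : (Ψ₀ * triv K n * jacH t) w.asIdeal = Ψ₀ w.asIdeal * leg t w := by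
        simp [jacH_apply, jac_prime, triv_cop ((cop_prime_iff w).2 hw.1)]
      rw [show ζ * (t₀ * t) ^ 2 = ζ * t₀ ^ 2 * t ^ 2 by ring]
      refine ⟨fun e => h2 (e.of_dvd m2'), fun e => ?_, ?_, by rw [h4, (hchs w h2).2 t hw.2]⟩
      · exact (w.isPrime.mem_or_mem (neg_mem_iff.1 e)).elim (hchs w h2).1 fun e =>
          hw.2 (w.isPrime.mem_of_pow_mem 2 e)
      · rw [h4, norm_mul, hΨ₀.norm_cop _ ((cop_prime_iff w).2 h2), one_mul]
        rcases leg_of_not_mem hw.2 with e | e <;> simp [e]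

end Pool.Agent.P.MP_b8021b_nt.BJ
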