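import Pool.Agent.P.MP_b8021b_nt.BJ.StA

/-! A place where a root of unity is not a square. -/

namespace Pool.Agent.P.MP_b8021b_nt.BJ

open NumberField IsDedekindDomain Finset MeasureTheory
open Pool.Agent.P.MP_b8021b_nt.VE Pool.Agent.P.MP_b8021b_nt.VC Pool.Agent.P.MP_b8021b_nt.BS.CF
open Pool.Agent.P.MP_b8021b_nt.BS Pool.Agent.P.MP_b8021b_nt.BP
open scoped Classical ComplexConjugate Real

namespace JTOW1

variable {L : Type} [Field L] [NumberField L]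

theorem not_mem {ζ : 𝓞 L} {a : ℕ} (hζ : ζ ^ 2 ^ a = -1) (v : Pl L) : ζ ∉ v.asIdeal := fun e => by
  have e1 := v.asIdeal.pow_mem_of_mem e (2 ^ a) (by positivity)
  rw [hζ, neg_mem_iff] at e1
  exact v.isPrime.ne_top ((Ideal.eq_top_iff_one _).2 e1)

theorem ex_p (v : Pl L) (n : ℕ) : n ≠ 0 → Dv n v → ∃ p : ℕ, p.Prime ∧ Dv p v := by
  induction n using induction_on_primes with
  | zero => exact fun e => absurd rfl e
  | one => exact fun _ e => absurd e (not_dv_of_coprime v (Nat.coprime_one_left 1) e)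
  | prime_mul p a hp ih =>
    exact fun e e' => ((dv_mul v).1 e').elim (fun k => ⟨p, hp, k⟩) (ih (right_ne_zero_of_mul e))

theorem nsq {x z : L} {v : Pl L} (hx : x ≠ 0) (hz : z ≠ 0) (h : ¬ LP 2 v x) :
    ¬ IsSquare (z * (x * z)) := fun e => by
  have := lp_of_isSquare v (mul_ne_zero hz (mul_ne_zero hx hz)) e
  rw [show z * (x * z) = x * z ^ 2 by ring, lp_mul_iff (lp_sq v hz)] at this
  exact h this

theorem nlp {x z : L} {v : Pl L} (h : LP 2 v (x * z)) (hz : ¬ LP 2 v z) : ¬ LP 2 v x := fun e =>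
  hz ((lp_mul_iff e).1 (mul_comm x z ▸ h))

end JTOW1

open JTOW1 in
theorem j_tow1 (h : QX) (hBIQ : J_BIQ) (hHALF : J_HALF) (hCROSS : J_CROSS) (hCYC : J_CYC) :
    J_TOW1 := by
  intro L _ _ ι y z ζ ψ n a c v hι hI ha hζ hv hy hζv
  have H := hI.half
  have n0 : n ≠ 0 := by have := H.two; omega
  have h2 : ¬ Dv 2 v := fun e => hv (e.of_dvd H.ev)
  obtain ⟨p, hp, hpv⟩ := ex_p v _ (Ideal.absNorm_eq_zero_iff.not.2 v.ne_bot) (dv_absNorm v)
  have p2 : ¬ p ∣ 2 := fun e => h2 (hpv.of_dvd e)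
  have pn : ¬ p ∣ n := fun e => hv (hpv.of_dvd e)
  have ζ0 : ζ ≠ 0 := fun e => not_mem hζ v (e ▸ zero_mem _)
  obtain ⟨φ, n3, p3, H3⟩ := hHALF L ι (y * ζ) p hι (mul_ne_zero H.ne ζ0) hp
    (fun e => p2 (e ▸ dvd_rfl)) fun w hw e => (w.isPrime.mem_or_mem e).elim
      (H.unit w (not_dv_of_coprime w (hp.coprime_iff_not_dvd.2 pn) hw)) (not_mem hζ w)
  obtain ⟨θ, j, -, F⟩ := hCYC L ι ζ a hι ha hζ
  obtain ⟨c', -, hc⟩ := hCROSS L ι y ζ ψ θ φ n (2 ^ j) n3 hι H F H3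
  have hv' : ¬ Dv (n * 2 ^ j * n3) v := not_dv_of_coprime v (hp.coprime_iff_not_dvd.2 fun e =>
    (hp.dvd_mul.1 e).elim (fun e => (hp.dvd_mul.1 e).elim pn fun e => p2 (hp.dvd_of_dvd_pow e)) p3)
    hpv
  obtain ⟨v0, -, oz, ey⟩ := hI.odd
  have z0 : (z : L) ≠ 0 := fun e => by simp [e, CF.od_zero] at oz
  have y0 : (y : L) ≠ 0 := by simpa using H.ne
  have ζ0' : (ζ : L) ≠ 0 := by simpa using ζ0
  obtain ⟨m, m0, hm, hz⟩ := ex_mod (z : L) (n * 2 ^ j * n3)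
    (mul_ne_zero (mul_ne_zero n0 (by positivity)) (by have := H3.two; omega))
  obtain ⟨w, hw, l1, l2, l3⟩ := hBIQ L m z (y * z) (ζ * z) (om_of hι) m0 (mul_ne_zero y0 z0)
    (mul_ne_zero ζ0' z0)
    (fun e => Int.not_even_iff_odd.2 oz (lp_even (lp_of_isSquare v0 z0 e)))
    (nsq y0 z0 ((leg_eq_neg_iff h2 (H.unit v hv)).1 hy))
    (nsq ζ0' z0 ((leg_eq_neg_iff h2 (not_mem hζ v)).1 hζv)) fun e => by
      have k := lp_even (lp_of_isSquare v0 (by simp [y0, z0, ζ0']) e)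
      rw [od_mul v0 (by simp [y0, z0]) (by simp [z0, ζ0']), od_mul v0 z0 (by simp [y0, z0]),
        od_mul v0 y0 z0, od_mul v0 ζ0' z0,
        od_eq_zero_of_vl v0 ((vl_coe_eq v0 ζ).2 (not_mem hζ v0))] at k
      obtain ⟨r, hr⟩ := k
      obtain ⟨s, hs⟩ := oz
      obtain ⟨t, ht⟩ := ey
      omega
  have hw' : ¬ Dv (n * 2 ^ j * n3) w := fun e => hw (e.of_dvd hm)
  have hwn : ¬ Dv n w := fun e => hw' (e.of_dvd ((dvd_mul_right _ _).mul_right _))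
  have w2 : ¬ Dv 2 w := fun e => hwn (e.of_dvd H.ev)
  have ly := (leg_eq_neg_iff w2 (H.unit w hwn)).2 (nlp l1 l3)
  have e1 := hI.val w hwn ly ((leg_eq_neg_iff w2
    ((vl_coe_eq w z).1 ((od_eq_zero_iff w z0).1 (hz w hw)))).2 l3)
  have e2 := hc w hw' ly ((leg_eq_neg_iff w2 (not_mem hζ w)).2 (nlp l2 l3))
  rw [mul_right_cancel₀ (H.rc.ne_zero ((cop_prime_iff w).2 hwn)) (e1.symm.trans e2)]
  exact hc v hv' hy hζv

end Pool.Agent.P.MP_b8021b_nt.BJ
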