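import Pool.Agent.P.MP_b8021b_nt.BJ.StA

/-! The invariant of the tower passes to an unramified quadratic extension. -/

namespace Pool.Agent.P.MP_b8021b_nt.BJ

open NumberField IsDedekindDomain Finset MeasureTheory
open Pool.Agent.P.MP_b8021b_nt.VE Pool.Agent.P.MP_b8021b_nt.VC Pool.Agent.P.MP_b8021b_nt.BS.CF
open Pool.Agent.P.MP_b8021b_nt.BS Pool.Agent.P.MP_b8021b_nt.BP
open scoped Classical ComplexConjugate Real
variable {k : Type} [Field k] [NumberField k] [Algebra k ℂ] {K : Type} [Field K] [NumberField K] [Algebra k K]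

namespace JTOW2

theorem pm {a b : ℂ} (h : a ^ 2 = b) (x : ℂ) (h4 : x ^ 2 = b) : a = x ∨ a = -x :=
  sq_eq_sq_iff_eq_or_eq_neg.1 (h.trans h4.symm)

theorem odd_of {a : ℂ} {f : ℕ} (ha : a = 1 ∨ a = -1 ∨ a = 0) (h : a ^ f = -1) (hf : 1 ≤ f) :
    a = -1 ∧ Odd f := by
  rcases ha with rfl | rfl | rfl
  · rw [one_pow] at h; norm_num at h
  · refine ⟨rfl, ?_⟩
    by_contra e
    rw [(Nat.not_odd_iff_even.1 e).neg_one_pow] at h; norm_num at h
  · rw [zero_pow (by omega)] at h; norm_num at h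

theorem lc {L : Type} [Field L] [NumberField L] (y : 𝓞 L) (v : Pl L) :
    leg y v = 1 ∨ leg y v = -1 ∨ leg y v = 0 := by
  unfold leg
  split_ifs <;> simp

end JTOW2

open JTOW2

theorem j_tow2 (h : QX) (hQB1 : J_QB1) (hQB2 : J_QB2) (hUNR : J_UNR) : J_TOW2 := by
  intro L M _ _ _ _ _ _ ι y z b β ψ n c hι hK hb I
  have H := I.half
  have key : ∀ w : Pl M, ¬ Dv n w → ∃ (v : Pl L) (f : ℕ), 1 ≤ f ∧ ¬ Dv n v ∧ ¬ Dv 2 v ∧
      Und v w.asIdeal ∧ nrm M ψ w.asIdeal = ψ v.asIdeal ^ f ∧ ∀ x : 𝓞 L,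
        q4 (algebraMap (𝓞 L) (𝓞 M) ι) (algebraMap (𝓞 L) (𝓞 M) x) w = q4 ι x v ^ f ∧
        leg (algebraMap (𝓞 L) (𝓞 M) x) w = leg x v ^ f := by
    intro w hw
    obtain ⟨v, -, -, hu, -⟩ := (h.ex L M).1 w
    obtain ⟨f, f1, f2, f3, -⟩ := (h.ex L M).2.2.1 v w hu
    have hv : ¬ Dv n v := fun e => hw ((Und_dv hu).2 e)
    have h2 : ¬ Dv 2 v := fun e => hv (e.of_dvd H.ev)
    exact ⟨v, f, f1, hv, h2, hu, by rw [nrm_apply, f2, map_pow],
      (hQB2 L M ι v w f hι h2 hu f3).1⟩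
  refine ⟨⟨H.two, H.ev, ?_, (h.i.bc L (om_of hι) n ψ H.two H.rc).2.2.2 M, fun w hw => ?_,
    fun w hw => ?_, fun w hw hl => ?_⟩, I.sgn, fun w hw h1 h2 => ?_, ?_⟩
  · intro e
    have := congrArg (fun t : 𝓞 M => (t : M)) e
    simp only [coe_map] at this
    exact H.ne (by simpa using this)
  · obtain ⟨v, f, -, hv, -, hu, -⟩ := key w hw
    exact fun e => H.unit v hv ((Und_mem hu y).1 e)
  · obtain ⟨v, f, -, hv, -, -, e1, e2⟩ := key w hw
    rw [e1, (e2 y).2, ← H.sq v hv, ← pow_mul, ← pow_mul, mul_comm]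
  · obtain ⟨v, f, f1, hv, h2, -, e1, e2⟩ := key w hw
    rw [e1, (e2 y).1]
    rw [(e2 y).2] at hl
    rcases lc y v with a | a | a
    · rw [H.res v hv a]
    · have hf : Even f := by
        by_contra e
        rw [a, (Nat.not_even_iff_odd.1 e).neg_one_pow] at hl; norm_num at hl
      rcases pm (H.sq v hv) _ ((hQB1 L ι v hι h2).2.2.2.2.1 y) with e | e
      · rw [e]
      · rw [e, hf.neg_pow]
    · rw [a, zero_pow (by omega)] at hl; norm_num at hl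
  · obtain ⟨v, f, f1, hv, -, -, e1, e2⟩ := key w hw
    rw [(e2 y).2] at h1
    rw [(e2 z).2] at h2
    obtain ⟨a1, hf⟩ := odd_of (lc y v) h1 f1
    rw [e1, (e2 y).1, I.val v hv a1 (odd_of (lc z v) h2 f1).1, mul_pow]
    rcases I.sgn with e | e
    · rw [e, one_pow]
    · rw [e, hf.neg_one_pow]
  · obtain ⟨v, v2, v3, v4⟩ := I.odd
    obtain ⟨w, hu⟩ := (h.ex L M).2.1 v
    have e := hUNR L M b β v w (om_of hι) hK v2 (by rw [hb]; exact Even.zero) hu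
    exact ⟨w, fun t => v2 ((Und_dv hu).1 t), by rw [coe_map, e]; exact v3,
      by rw [coe_map, e]; exact v4⟩

end Pool.Agent.P.MP_b8021b_nt.BJ
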