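import Pool.Agent.P.MP_b8021b_nt.BJ.StA

/-! The tower of cyclotomic fields. -/

namespace Pool.Agent.P.MP_b8021b_nt.BJ

open NumberField IsDedekindDomain Finset MeasureTheory
open Pool.Agent.P.MP_b8021b_nt.VE Pool.Agent.P.MP_b8021b_nt.VC Pool.Agent.P.MP_b8021b_nt.BS.CF
open Pool.Agent.P.MP_b8021b_nt.BS Pool.Agent.P.MP_b8021b_nt.BP
open scoped Classical ComplexConjugate Real
variable {k : Type} [Field k] [NumberField k] [Algebra k ℂ] {K : Type} [Field K] [NumberField K] [Algebra k K]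

namespace JTOW3

variable {L : Type} [Field L] [NumberField L]

theorem coe_pow {ζ : 𝓞 L} {a : ℕ} (hζ : ζ ^ 2 ^ a = -1) : (ζ : L) ^ 2 ^ a = -1 := by
  exact_mod_cast congrArg (fun x : 𝓞 L => (x : L)) hζ

theorem not_mem {ζ : 𝓞 L} {a : ℕ} (hζ : ζ ^ 2 ^ a = -1) (v : Pl L) : ζ ∉ v.asIdeal := fun e => by
  have e1 := v.asIdeal.pow_mem_of_mem e (2 ^ a) (by positivity)
  rw [hζ, neg_mem_iff] at e1
  exact v.isPrime.ne_top ((Ideal.eq_top_iff_one _).2 e1)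

theorem lt_norm (h : QX) {ι ζ : 𝓞 L} {a : ℕ} (hι : ι ^ 2 = -1) (hζ : ζ ^ 2 ^ a = -1) (v : Pl L)
    (h2 : ¬ Dv 2 v) : a < Ideal.absNorm v.asIdeal := by
  have hN : 2 ≤ 2 ^ (a + 1) := by
    rw [pow_succ]; have := Nat.one_le_two_pow (n := a); omega
  have hprim : IsPrimitiveRoot (ζ : L) (2 ^ (a + 1)) := by
    have e := coe_pow hζ
    have : orderOf (ζ : L) = 2 ^ (a + 1) := orderOf_eq_prime_pow (by rw [e]; norm_num)
      (by rw [pow_succ, pow_mul, e]; norm_num)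
    exact this ▸ IsPrimitiveRoot.orderOf _
  have hmod := (h.pos L (om_of hι)).2.2.2.2 _ _ v.asIdeal hN hprim
    ((cop_pow_nat a.succ_pos).2 ((cop_prime_iff v).2 h2))
  have h0 : Ideal.absNorm v.asIdeal ≠ 0 := fun e => v.ne_bot (Ideal.absNorm_eq_zero_iff.1 e)
  have h1 : Ideal.absNorm v.asIdeal ≠ 1 := fun e => v.isPrime.ne_top (Ideal.absNorm_eq_one_iff.1 e)
  have h3 := Nat.le_of_dvd (by omega) ((Nat.modEq_iff_dvd' (by omega)).1 hmod.symm)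
  have h4 : a + 1 < 2 ^ (a + 1) := Nat.lt_two_pow_self
  omega

theorem root {s : L} {a : ℕ} (hs : s ^ 2 ^ a = -1) : ∃ S : 𝓞 L, (S : L) = s ∧ S ^ 2 ^ a = -1 := by
  have h4 : s ^ 2 ^ (a + 1) = 1 := by rw [pow_succ, pow_mul, hs]; norm_num
  refine ⟨⟨s, IsIntegral.of_pow (n := 2 ^ (a + 1)) (by positivity) (h4 ▸ isIntegral_one)⟩, rfl,
    RingOfIntegers.ext ?_⟩
  simpa using hs

theorem tower (h : QX) (hQB2 : J_QB2) (hTOW1 : J_TOW1) (hTOW2 : J_TOW2) (n : ℕ) (c : ℂ) (d : ℕ) :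
    ∀ (L : Type) [Field L] [NumberField L] (ι y z ζ : 𝓞 L) (ψ : Ideal (𝓞 L) →* ℂ) (a : ℕ)
      (v : Pl L), ι ^ 2 = -1 → Iv ι y z ψ n c → 1 ≤ a → ζ ^ 2 ^ a = -1 → ¬ Dv n v →
      leg y v = -1 → Ideal.absNorm v.asIdeal ≤ a + d → q4 ι y v = c * ψ v.asIdeal := by
  induction d with
  | zero =>
    intro L _ _ ι y z ζ ψ a v hι hI _ hζ hv _ hd
    exact absurd hd (not_le.2 (lt_norm h hι hζ v fun e => hv (e.of_dvd hI.half.ev)))
  | succ d ih =>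
    intro L _ _ ι y z ζ ψ a v hι hI ha hζ hv hy hd
    have h2 : ¬ Dv 2 v := fun e => hv (e.of_dvd hI.half.ev)
    by_cases hl : LP 2 v (ζ : L)
    swap
    · exact hTOW1 L ι y z ζ ψ n a c v hι hI ha hζ hv hy ((leg_eq_neg_iff h2 (not_mem hζ v)).2 hl)
    by_cases hs : ∃ s : L, (ζ : L) = s ^ 2
    · obtain ⟨s, hs⟩ := hs
      obtain ⟨S, -, hS⟩ := root (s := s) (a := a + 1)
        (by rw [pow_succ', pow_mul, ← hs, coe_pow hζ])
      exact ih L ι y z S ψ (a + 1) v hι hI (by omega) hS hv hy (by omega)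
    obtain ⟨M, _, _, _, _, β, hK, -⟩ := h.kum L 2 ζ (om_of hι) (Or.inl rfl) hs
    obtain ⟨S, -, hS⟩ := root (s := β) (a := a + 1)
      (by rw [pow_succ', pow_mul, hK.pow, ← map_pow, coe_pow hζ, map_neg, map_one])
    obtain ⟨w, hw⟩ := ((h.kp L M 2 ζ β (om_of hι) (Or.inl rfl) hK v).2.1 h2 hl).1
    obtain ⟨hU, hn⟩ := split_of h.ex hw
    have hQ := (hQB2 L M ι v w 1 hι h2 hU hn).1 y
    have := ih M _ _ _ S (nrm M ψ) (a + 1) w (iota_map hι)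
      (hTOW2 L M ι y z ζ β ψ n c hι hK
        (fun v => od_eq_zero_of_vl v ((vl_coe_eq v ζ).2 (not_mem hζ v))) hI)
      (by omega) hS (by rwa [Und_dv hU]) (by rw [hQ.2, hy, pow_one]) (by rw [hn, pow_one]; omega)
    rwa [hQ.1, pow_one, nrm_apply, hw] at this

end JTOW3

theorem j_tow3 (h : QX) (hQB2 : J_QB2) (hTOW1 : J_TOW1) (hTOW2 : J_TOW2) : J_TOW3 :=
  fun L _ _ ι y z ψ n c v hι hI hv hy =>
    JTOW3.tower h hQB2 hTOW1 hTOW2 n c _ L ι y z ι ψ 1 v hι hI le_rfl (by rw [pow_one, hι]) hv hy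
      (Nat.le_add_left _ _)

end Pool.Agent.P.MP_b8021b_nt.BJ
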