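import Pool.Agent.P.MP_b8021b_nt.BJ.StA

/-! Finiteness for the members of the family in the second case. -/

namespace Pool.Agent.P.MP_b8021b_nt.BJ

open NumberField IsDedekindDomain Finset MeasureTheory
open Pool.Agent.P.MP_b8021b_nt.VE Pool.Agent.P.MP_b8021b_nt.VC Pool.Agent.P.MP_b8021b_nt.BS.CF
open Pool.Agent.P.MP_b8021b_nt.BS Pool.Agent.P.MP_b8021b_nt.BP
open scoped Classical ComplexConjugate Real
variable {k : Type} [Field k] [NumberField k] [Algebra k ℂ] {K : Type} [Field K] [NumberField K] [Algebra k K]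

namespace JUFB

theorem ne0 {a : 𝓞 K} {S : Finset (Pl K)} (h : sp a = eI S) : a ≠ 0 := fun e =>
  eI_ne_bot S (by rw [← h, e]; exact Ideal.span_singleton_eq_bot.2 rfl)

theorem ne0' {a : 𝓞 K} {S : Finset (Pl K)} (h : sp a = eI S) : (a : K) ≠ 0 := by
  exact_mod_cast ne0 h

theorem od_eq {a : 𝓞 K} {S : Finset (Pl K)} (h : sp a = eI S) (v : Pl K) :
    od v (a : K) = if v ∈ S then 1 else 0 := by
  have e : Ideal.span {a} = eI S := h
  rw [od_coe v (ne0 h), e, cnt_eI]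
  split_ifs <;> simp

theorem mem_iff {a : 𝓞 K} {S : Finset (Pl K)} (h : sp a = eI S) (v : Pl K) :
    a ∈ v.asIdeal ↔ v ∈ S := by
  have e : Ideal.span {a} = eI S := h
  rw [← Ideal.span_singleton_le_iff_mem, e, ← not_iff_not, ← cnt_eq_zero, cnt_eI]
  split_ifs with h1 <;> simp [h1]

theorem one_congr {s : SD K} {Λ D : Finset (Pl K)} {T T' : K}
    (h : ∀ v ∈ Λ, ∀ c, Lin s.ζ v T' c ↔ Lin s.ζ v T c) (h1 : s.One Λ T D) : s.One Λ T' D := by
  obtain ⟨a1, a2, a, a3, a4, a5⟩ := h1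
  exact ⟨a1, a2, a, a3, fun v hv => (h v hv a).2 (a4 v hv), fun D' c b1 b2 b3 =>
    a5 D' c b1 b2 fun v hv => (h v hv c).1 (b3 v hv)⟩

end JUFB

open JUFB in
theorem j_ufb (c : Cx k K) (Y : Yb k K) (hUFB0 : J_UFB0 K) : J_UFB K := by
  intro s M t₀ τ t t' u Λ D p p' σ hs hζ h0 hm hV h8 hM hτ ht ht' dτ dt dt' hp hpΛ hpΛ' hu hO hc hσ
  have e1 : sp t = eI {p} := by simp [eI, ht]
  have e2 : sp t' = eI {p'} := by simp [eI, ht']
  have n0 := ne0' hV
  have nτ := ne0' hτ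
  have n1 := ne0' e1
  have n2 := ne0' e2
  have hoff : ∀ v ∈ insert p (insert p' Λ), ¬ Dv M v := by
    intro v hv hd
    rcases mem_insert.1 hv with rfl | hv
    · exact TopL.not_mem dt hd ((mem_iff e1 v).2 (mem_singleton_self v))
    rcases mem_insert.1 hv with rfl | hv
    · exact TopL.not_mem dt' hd ((mem_iff e2 v).2 (mem_singleton_self v))
    · exact TopL.not_mem dτ hd ((mem_iff hτ v).2 hv)
  have h2 : ∀ v ∈ Λ, ¬ Dv 2 v := fun v hv hd =>
    hoff v (mem_insert_of_mem (mem_insert_of_mem hv))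
      (v.asIdeal.mem_of_dvd (Nat.cast_dvd_cast (Dvd.dvd.trans (by norm_num) h8)) hd)
  have m1 : ∀ v ∈ Λ, t ∉ v.asIdeal := fun v hv e =>
    hpΛ (mem_singleton.1 ((mem_iff e1 v).1 e) ▸ hv)
  have m2 : ∀ v ∈ Λ, t' ∉ v.asIdeal := fun v hv e =>
    hpΛ' (mem_singleton.1 ((mem_iff e2 v).1 e) ▸ hv)
  have key := hUFB0 s (σ ^ 2 * τ * t * t') t Λ D p p' hs hζ hm (fun v _ => by
      rw [h0, od_eq hV]; split_ifs with h <;> simp [h])
    ⟨by simp [hσ, nτ, n1, n2], fun v hv =>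
      (((lp_sq v hσ).mul (lp_of_dvd h8 dτ (hM v hv))).mul (lp_of_dvd h8 dt (hM v hv))).mul
        (lp_of_dvd h8 dt' (hM v hv))⟩
    ⟨n1, fun v hv => lp_of_dvd h8 dt (hM v hv)⟩ hp hpΛ hpΛ'
    (fun v hv => ⟨fun h => hoff v hv (hM v (Or.inl h)), fun h => hoff v hv (hM v (Or.inr h)),
      hζ ▸ LP.one v two_ne_zero⟩)
    (fun v _ _ => by
      have s2 := pow_ne_zero 2 hσ
      rw [od_mul v (mul_ne_zero (mul_ne_zero s2 nτ) n1) n2, od_mul v (mul_ne_zero s2 nτ) n1,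
        od_mul v s2 nτ, od_pow, od_eq hτ, od_eq e1, od_eq e2, Int.odd_iff]
      by_cases a1 : v = p
      · subst a1; simp [hp, hpΛ]
      by_cases a2 : v = p'
      · subst a2; simp [a1, hpΛ']
      by_cases a3 : v ∈ Λ <;> simp [a1, a2, a3])
    (fun v _ _ => by rw [od_eq e1]; by_cases a1 : v = p <;> simp [a1])
    (one_congr (fun v hv x => by
      have m3 : t * t' ∉ v.asIdeal := fun e => (v.isPrime.mem_or_mem e).elim (m1 v hv) (m2 v hv)
      have m4 : u ∉ v.asIdeal := fun e =>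
        m3 (leg_eq_zero.1 (by rw [← hu v hv]; exact leg_eq_zero.2 e))
      have nu : (u : K) ≠ 0 := by
        have : u ≠ 0 := fun e => m4 (e ▸ v.asIdeal.zero_mem)
        exact_mod_cast this
      have l1 : LP 2 v ((u * (t * t') : 𝓞 K) : K) :=
        (leg_eq_one_iff_LP (h2 v hv) fun e => (v.isPrime.mem_or_mem e).elim m4 m3).1 (by
          rw [leg_mul, hu v hv, ← sq, leg_sq m3])
      refine lin_congr (mul_ne_zero (mul_ne_zero n0 nτ) nu) ?_
      have l2 := (lp_sq v (div_ne_zero hσ nu)).mul l1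
      convert l2 using 1
      rw [h0]; push_cast; field_simp) hO)
    (by
      convert hc using 2
      ext v
      simp only [mem_filter, mem_inter]
      exact and_congr_right fun hv => ⟨fun h => ⟨hO.1 hv,
        (leg_eq_neg_iff (h2 v (hO.1 hv)) (m1 v (hO.1 hv))).2 h⟩,
        fun h => (leg_eq_neg_iff (h2 v h.1) (m1 v h.1)).1 h.2⟩)
  convert key using 5
  rw [h0]; ring

end Pool.Agent.P.MP_b8021b_nt.BJ
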