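import Pool.Agent.P.MP_b8021b_nt.BP.All
import Pool.Agent.P.MP_b8021b_nt.BJ.PQB1
import Pool.Agent.P.MP_b8021b_nt.BJ.PQB2
import Pool.Agent.P.MP_b8021b_nt.BJ.PH90
import Pool.Agent.P.MP_b8021b_nt.BJ.PEX1
import Pool.Agent.P.MP_b8021b_nt.BJ.PEX2
import Pool.Agent.P.MP_b8021b_nt.BJ.PSQ0
import Pool.Agent.P.MP_b8021b_nt.BJ.PSQR
import Pool.Agent.P.MP_b8021b_nt.BJ.PBIQ
import Pool.Agent.P.MP_b8021b_nt.BJ.PHA1
import Pool.Agent.P.MP_b8021b_nt.BJ.PHA2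
import Pool.Agent.P.MP_b8021b_nt.BJ.PHALF
import Pool.Agent.P.MP_b8021b_nt.BJ.PCROSS
import Pool.Agent.P.MP_b8021b_nt.BJ.PCYC
import Pool.Agent.P.MP_b8021b_nt.BJ.PGA1
import Pool.Agent.P.MP_b8021b_nt.BJ.PGAU
import Pool.Agent.P.MP_b8021b_nt.BJ.PINV
import Pool.Agent.P.MP_b8021b_nt.BJ.PTOW1
import Pool.Agent.P.MP_b8021b_nt.BJ.PTOW2
import Pool.Agent.P.MP_b8021b_nt.BJ.PTOW3
import Pool.Agent.P.MP_b8021b_nt.BJ.PPSI
import Pool.Agent.P.MP_b8021b_nt.BJ.PGRP0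
import Pool.Agent.P.MP_b8021b_nt.BJ.PFOU1
import Pool.Agent.P.MP_b8021b_nt.BJ.PFOU2
import Pool.Agent.P.MP_b8021b_nt.BJ.PPAIR
import Pool.Agent.P.MP_b8021b_nt.BJ.PGRP
import Pool.Agent.P.MP_b8021b_nt.BJ.PLIN
import Pool.Agent.P.MP_b8021b_nt.BJ.PRELM
import Pool.Agent.P.MP_b8021b_nt.BJ.PKIL0
import Pool.Agent.P.MP_b8021b_nt.BJ.PSDA
import Pool.Agent.P.MP_b8021b_nt.BJ.PEXI
import Pool.Agent.P.MP_b8021b_nt.BJ.PFLIP
import Pool.Agent.P.MP_b8021b_nt.BJ.PUFA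
import Pool.Agent.P.MP_b8021b_nt.BJ.PUFB
import Pool.Agent.P.MP_b8021b_nt.BJ.PFIN2
import Pool.Agent.P.MP_b8021b_nt.BJ.PSEB1
import Pool.Agent.P.MP_b8021b_nt.BJ.PRDAT
import Pool.Agent.P.MP_b8021b_nt.BJ.PSELA
import Pool.Agent.P.MP_b8021b_nt.BJ.PSELB
import Pool.Agent.P.MP_b8021b_nt.BJ.PMER
import Pool.Agent.P.MP_b8021b_nt.BJ.PRBL
import Pool.Agent.P.MP_b8021b_nt.BJ.PTE
import Pool.Agent.P.MP_b8021b_nt.BJ.PHM
import Pool.Agent.P.MP_b8021b_nt.BJ.PAUX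
import Pool.Agent.P.MP_b8021b_nt.BJ.PRED2
import Pool.Agent.P.MP_b8021b_nt.BJ.PRED3
import Pool.Agent.P.MP_b8021b_nt.BJ.PTAUB
import Pool.Agent.P.MP_b8021b_nt.BJ.PNVA
import Pool.Agent.P.MP_b8021b_nt.BJ.PBIL0
import Pool.Agent.P.MP_b8021b_nt.BJ.PBIL1
import Pool.Agent.P.MP_b8021b_nt.BJ.PBIL3
import Pool.Agent.P.MP_b8021b_nt.BJ.PLG
import Pool.Agent.P.MP_b8021b_nt.BJ.PCELA
import Pool.Agent.P.MP_b8021b_nt.BJ.PCELB
import Pool.Agent.P.MP_b8021b_nt.BJ.PCELL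
import Pool.Agent.P.MP_b8021b_nt.BJ.PFM0
import Pool.Agent.P.MP_b8021b_nt.BJ.PNV1
import Pool.Agent.P.MP_b8021b_nt.BJ.PCB1
import Pool.Agent.P.MP_b8021b_nt.BJ.PCB2
import Pool.Agent.P.MP_b8021b_nt.BJ.PCB3
import Pool.Agent.P.MP_b8021b_nt.BJ.PCB4
import Pool.Agent.P.MP_b8021b_nt.BJ.PNVB
import Pool.Agent.P.MP_b8021b_nt.BJ.PTOP

/-! Assembly of the packages. -/

namespace Pool.Agent.P.MP_b8021b_nt.BJ

open NumberField
open Pool.Agent.P.MP_b8021b_nt.VE Pool.Agent.P.MP_b8021b_nt.VC Pool.Agent.P.MP_b8021b_nt.BS.CF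
open Pool.Agent.P.MP_b8021b_nt.BS Pool.Agent.P.MP_b8021b_nt.BP

section

variable {k : Type} [Field k] [NumberField k] [Algebra k ℂ] {K : Type} [Field K] [NumberField K]
  [Algebra k K]

theorem yb (c : Cx k K) (q : QX) (hMel : X_Mel k K) (hLF : X_LF K) : Yb k K :=
  have hFI := y_fI
  have hLIP := y_lIP
  have hFOUR := y_fOUR
  have hRED1 := y_rED1
  have hCH1 := y_cH1 c
  have hCH2 := y_cH2 c hCH1
  have hMARK := y_mARK c hCH1 hCH2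
  have hEU := y_eU c hCH1 hCH2
  have hEPA := y_ePA c
  have hMEI := y_mEI c
  have hME1 := y_mE1 c hCH1 hCH2 hMEI
  have hME2 := y_mE2 c hLIP hCH1 hCH2 hMEI
  have hMER := y_mER c hCH2
  have hDIR := y_dIR c hME1 hME2
  have hREP := y_rEP c hDIR
  have hGD2 := y_gD2 c hREP
  have hDIV := y_dIV c
  have hGEO := y_gEO c
  have hPER := y_pER c
  have hCUB := y_cUB c
  have hSVM := y_sVM c hFI hCH1 hEU hMER
  have hBB4 := y_bB4 c hCH2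
  have hSLS := y_sLS c hPER hSVM hCUB
  have hSLH := y_sLH c hCH1 hSLS
  have hSLT := y_sLT c hCH1 hSLS
  have hLSH := y_lSH c
  have hBB3 := y_bB3 c hDIV
  have hKF1 := y_kF1 c hREP
  have hKF2 := y_kF2 c hBB3
  have hVW := y_vW
  have hWB := y_wB
  have hEV0 := y_eV0
  have hEVA := y_eVA c hEV0 hEU
  have hAF2a := y_aF2a c
  have hAF2 := y_aF2 c hAF2a
  have hAF3 := y_aF3 c
  have hIS1 := y_iS1 c
  have hEXP := y_eXP c hGEO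
  have hDEC := y_dEC c hEV0 hEXP
  have hBIL0 := y_bIL0 c
  have hFE1 := y_fE1 c
  have hFE2 := y_fE2 c
  have hCOV1 := y_cOV1 c
  have hCOV2 := y_cOV2 c
  have hFE3 := y_fE3 c hFE1 hFE2 hCOV1 hCOV2
  have hAF1 := y_aF1 c
  have hAFE := y_aFE c hFI hVW hAF1 hAF2 hAF3
  have hLZ := y_lZ c hLIP hEPA
  have hEVL := y_eVL c hEV0 hLZ
  have hEVB := y_eVB c hEV0 hCH1 hEU hMER hLZ
  have hPTA := y_pTA c hVW hEV0 hEVA hEVL
  have hPTB := y_pTB c hVW hEV0 hEVB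
  have hBIL1 := y_bIL1 c hDIV hSLT hBIL0
  have hBIL2 := y_bIL2 c hDIV hSLT hLSH hBIL0
  have hBIL3 := y_bIL3 c hDIV hSLT hBIL0
  have hBIL := y_bIL c hBIL1 hBIL2 hBIL3
  have hLG := y_lG c hEV0 hBIL
  have hCELA := y_cELA c hFI hVW hDIV hSLT hDEC hEVA hPTA hLG
  have hCELB := y_cELB c hFI hVW hDIV hSLT hDEC hEVB hPTB hLG
  have hCELL := y_cELL c hDIV hGEO hSLT hAFE hCELA hCELB
  have hLSa := y_lSa
  have hDG1 := y_dG1 c
  have hRQ := y_rQ c hDG1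
  have hDIAG := y_dIAG c hFI hWB hEV0 hEU hEXP hDG1
  have hLSd := y_lSd c
  have hSIG := y_sIG c
  have hGSF := y_gSF c
  have hSIEVE := y_sIEVE c hDIV
  have hMV := y_mV c
  have hLSb := y_lSb c hLSa
  have hLSe := y_lSe c hMV
  have hLS := y_lS c hMV hLSb hLSe hLSd
  have hPX := y_pX c
  have hCR := y_cR c hPX
  have hLATL := y_lATL c
  have hLIPG := y_lIPG c
  have hKS := y_kS c hLATL hLIPG
  have hFOLD := y_fOLD c
  have hPHI := y_pHI c hPER hLS hSIG hGSF hPX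
  have hEXT := y_eXT c hKS hFOLD hPHI
  have hJS := y_jS c hDIV hCR hSIEVE hEXT
  have hIS2 := y_iS2 c hDIV hCR hRQ hJS
  have hIS := y_iS c hDIV hIS1 hIS2
  have hS2a := y_s2a c hDG1
  have hS2 := y_s2 c hFI hWB hDIV hDIAG hIS hS2a
  have hSM1 := y_sM1 c hFI hVW hS2
  have hSM := y_sM c hDIV hGEO hAFE hSM1
  have hFM0 := y_fM0 c hSLT
  have hNV1 := y_nV1 c hFI hVW hCH2 hMER hFM0 hCELL
  have hNV2 := y_nV2 c
  ⟨q, hMel, hLF, hFI, hVW, hFOUR, hRED1, hEV0, hCH1, hCH2, hME1, hME2, hMER, hDIR, hREP, hGD2, hDIV,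
    hGEO, hBB4, hMARK, hDEC, hEVA, hSLH, hSLT, hLSH, hKF1, hKF2, hEVB, hPTA, hPTB, hAFE, hFE3, hSM, hFM0, hNV1, hNV2⟩

theorem asm (c : Cx k K) (Y : Yb k K) : J_TOP K :=
  have hQB1 := j_qb1 Y.q
  have hQB2 := j_qb2 Y.q hQB1
  have hUNR := j_unr Y.q
  have hH90 := j_h90 Y.q
  have hEX1 := j_ex1 Y.q
  have hEX2 := j_ex2 Y.q hEX1
  have hSQ0 := j_sq0 Y.q
  have hSQR := j_sqr Y.q hSQ0
  have hBIQ := j_biq Y.q
  have hHA1 := j_ha1 Y.q hQB2 hUNR hBIQ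
  have hHA2 := j_ha2 Y.q hQB2 hUNR hH90
  have hHA3 := j_ha3 Y.q hQB1 hQB2 hUNR hH90
  have hHALF := j_half Y.q hQB1 hQB2 hEX2 hSQR hHA1 hHA2 hHA3
  have hCROSS := j_cross Y.q hQB1 hEX2 hBIQ
  have hCYC := j_cyc Y.q hQB1
  have hGA1 := j_ga1 Y.q
  have hGA2 := j_ga2 Y.q
  have hGAU := j_gau Y.q hQB1 hGA1 hGA2
  have hINV := j_inv Y.q hHALF hGAU hCROSS
  have hTOW1 := j_tow1 Y.q hBIQ hHALF hCROSS hCYC
  have hTOW2 := j_tow2 Y.q hQB1 hQB2 hUNR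
  have hTOW3 := j_tow3 Y.q hQB2 hTOW1 hTOW2
  have hQUA := j_qua Y.q hQB1 hINV hTOW3
  have hPSI := j_psi c Y hQB1 hQUA
  have hGRP0 := j_grp0
  have hFOU1 := j_fou1
  have hFOU2 := j_fou2
  have hPAIR := j_pair c Y
  have hGRP := j_grp c Y hGRP0 hPAIR
  have hVAL := j_val c Y
  have hLIN := j_lin c Y
  have hRELM := j_relm c Y hLIN
  have hRECB := j_recb c Y hPAIR hLIN
  have hKIL0 := j_kil0 c Y hPAIR
  have hAUX := j_aux c Y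
  have hSDA := j_sda c Y hGRP hLIN hKIL0 hAUX
  have hSDB := j_sdb c Y hGRP hLIN hKIL0
  have hEXI := j_exi c Y hLIN
  have hSGN := j_sgn c Y
  have hFLIP := j_flip c Y hLIN hRELM hRECB
  have hUFA := j_ufa c Y hVAL hLIN
  have hFIN2 := j_fin2 c Y
  have hUFB0 := j_ufb0 c Y hVAL hLIN hRELM hRECB hFIN2
  have hUFB := j_ufb c Y hUFB0
  have hSEB1 := j_seb1 c Y hLIN hRELM hEXI
  have hRDAT := j_rdat c Y hRELM
  have hSELA := j_sela c Y hSDA hFLIP hUFA hRDAT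
  have hSELB := j_selb c Y hFOU1 hFOU2 hRECB hSDB hSGN hFLIP hUFB hSEB1 hRDAT
  have hMER := j_mer c Y
  have hBLK := j_blk c Y
  have hRBL := j_rbl c Y
  have hTE := j_te c Y
  have hRT2 := j_rt2 c Y hTE
  have hHM := j_hm c Y hMER
  have hCON1 := j_con1 c Y hBLK hAUX
  have hCON := j_con c Y hCON1
  have hRED2 := j_red2 c Y hTE hRT2
  have hRED3 := j_red3 c Y
  have hTAUA := j_taua c Y hBLK hRED2 hRED3 hMER
  have hTAUB := j_taub c Y hMER hBLK hHM hRED2 hRED3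
  have hNVA := j_nva c Y hSELA hTAUA hCON
  have hBIL0 := j_bil0 c Y
  have hBIL1 := j_bil1 c Y hBIL0
  have hBIL2 := j_bil2 c Y hBIL0
  have hBIL3 := j_bil3 c Y hBIL0
  have hBIL := j_bil c Y hBIL1 hBIL2 hBIL3
  have hLG := j_lg c Y hBIL
  have hCELA := j_cela c Y hLG
  have hCELB := j_celb c Y hLG
  have hCELL := j_cell c Y hCELA hCELB
  have hFM0 := j_fm0 c Y
  have hNV1 := j_nv1 c Y hFM0 hCELL
  have hNV2 := j_nv2 c Y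
  have hCB1 := j_cb1 c Y hRBL
  have hCB2 := j_cb2 c Y hRBL
  have hCB3 := j_cb3 c Y
  have hCB4 := j_cb4 c Y
  have hNVB := j_nvb c Y hSELB hTAUB hCB1 hCB2 hCB3 hCB4 hNV1 hNV2
  j_top c Y hPSI hNVA hNVB

end

theorem qx : QX := by
  refine ⟨t_3, p_es2 t_1, p_x2 t_1, fun L _ _ hL => ?_⟩
  obtain ⟨k, _, _, _, B, hB, hk⟩ := exists_bf
  obtain ⟨f⟩ := hk L hL
  let _ : Algebra k L := f.toAlgebra
  exact x_cls (k := k) ⟨lib, ⟨B, hB⟩, hL⟩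

theorem all (K : Type) [Field K] [NumberField K] (hK : Om K) : J_TOP K := by
  obtain ⟨k, _, _, _, B, hB, hk⟩ := exists_bf
  obtain ⟨f⟩ := hk K hK
  let _ : Algebra k K := f.toAlgebra
  have c : Ctx k K := ⟨lib, ⟨B, hB⟩, hK⟩
  have rc := x_rec c (x_rec0 c)
  have cnt := x_cnt c
  have bal := x_bal2 c
  have gs := x_gS c x_cG
  have thb := x_thB c cnt
  have km := x_kM c
  have gn := x_gn c km thb
  have g1 := x_g1 c
  have g2 := x_g2 c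
  have t1 := x_t1 c
  have cube := x_cube c
  have lr := x_locR c
  have ls1 := x_lS1 c (x_lS1o c cnt gs (x_bil c cnt (x_mQ c bal gs x_sep
    (x_tM c x_cG gs (x_per c rc) (x_dG c gs) cube) (x_pCh c g1 g2 t1))))
  have cx : Cx k K := ⟨c, rc, x_val c, x_iso c, x_fin c, x_good c, x_cls c, cnt, bal, x_nVH c, g1,
    g2, x_g3 c rc g1 g2, thb, gs, t1, km, gn, x_sq0 c, x_sq1 c gn, ls1, x_lS0 c rc cnt bal cube,
    p_nv2 t_2 (p_es2 t_1) (p_x2 t_1) (p_chi t_2), p_nvc t_1, p_lat⟩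
  exact asm cx (yb cx qx (x_mel c cnt thb) (x_lF c lr (x_locG c lr) (x_locB c) x_eP2))

end Pool.Agent.P.MP_b8021b_nt.BJ
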