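import Pool.Agent.P.MP_b8021b_nt.BJ.Defs

/-! Basic lemmas. -/

namespace Pool.Agent.P.MP_b8021b_nt.BJ

open NumberField IsDedekindDomain Finset MeasureTheory
open Pool.Agent.P.MP_b8021b_nt.VE Pool.Agent.P.MP_b8021b_nt.VC Pool.Agent.P.MP_b8021b_nt.BS.CF
open Pool.Agent.P.MP_b8021b_nt.BS Pool.Agent.P.MP_b8021b_nt.BP
open scoped Classical ComplexConjugate Real

set_option linter.unusedSectionVars false

section One

variable {L : Type} [Field L] [NumberField L] {v : Pl L} {a c x u T T' ζ : L} {ι y : 𝓞 L}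
  {n n' : ℕ} {ψ : Ideal (𝓞 L) →* ℂ}

theorem om_of (h : ι ^ 2 = -1) : Om L := ⟨ι, by simpa using congrArg (fun z : 𝓞 L => (z : L)) h⟩

theorem ex_iota (h : Om L) : ∃ ι : 𝓞 L, ι ^ 2 = -1 := by
  obtain ⟨i, hi⟩ := h
  have h4 : i ^ 4 = 1 := by rw [show i ^ 4 = (i ^ 2) ^ 2 by ring, hi]; norm_num
  exact ⟨⟨i, IsIntegral.of_pow (n := 4) (by norm_num) (h4 ▸ isIntegral_one)⟩,
    RingOfIntegers.ext (by simpa using hi)⟩

theorem lp_sq (v : Pl L) (h : x ≠ 0) : LP 2 v (x ^ 2) := LP.pow_self v two_ne_zero h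

theorem lp_of_isSquare (v : Pl L) (h0 : x ≠ 0) (h : IsSquare x) : LP 2 v x := by
  obtain ⟨r, rfl⟩ := h
  rw [← sq]
  exact lp_sq v (left_ne_zero_of_mul h0)

theorem lp_neg (hL : Om L) (h : LP 2 v x) : LP 2 v (-x) := by
  obtain ⟨i, hi⟩ := hL
  have := h.mul (lp_sq v (x := i) fun e => by simp [e] at hi)
  rwa [hi, mul_neg_one] at this

theorem lp_even (h : LP 2 v x) : Even (od v x) := even_iff_two_dvd.2 h.dvd

theorem lp_mul_iff (h : LP 2 v u) : LP 2 v (x * u) ↔ LP 2 v x :=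
  ⟨fun e => RecP.lp_cancel e h, fun e => e.mul h⟩

theorem not_sq_iff : (¬ ∃ z : L, x = z ^ 2) ↔ ¬ IsSquare x := by simp only [IsSquare, sq]

theorem lq_cases (u : L) (v : Pl L) : lq u v = 1 ∨ lq u v = -1 := by
  unfold lq; split_ifs <;> simp

theorem lq_sq (u : L) (v : Pl L) : lq u v ^ 2 = 1 := by rcases lq_cases u v with e | e <;> simp [e]

theorem lq_eq_one : lq u v = 1 ↔ LP 2 v u := by
  unfold lq; split_ifs with h <;> norm_num [h]

theorem lq_eq_neg : lq u v = -1 ↔ ¬ LP 2 v u := by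
  unfold lq; split_ifs with h <;> norm_num [h]

theorem lq_coe (h2 : ¬ Dv 2 v) (h : y ∉ v.asIdeal) : lq (y : L) v = leg y v := by
  unfold lq
  split_ifs with e
  · exact ((leg_eq_one_iff_LP h2 h).2 e).symm
  · exact ((leg_eq_neg_iff h2 h).2 e).symm

theorem lq_mul_lp (h : LP 2 v u) : lq (x * u) v = lq x v := by simp only [lq, lp_mul_iff h]

theorem lq_mul (hR : Z_Res) (h2 : ¬ Dv 2 v) (ha : a ≠ 0) (hc : c ≠ 0) (ea : Even (od v a))
    (ec : Even (od v c)) : lq (a * c) v = lq a v * lq c v := by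
  by_cases h : LP 2 v c
  · rw [lq_mul_lp h, lq_eq_one.2 h, mul_one]
  by_cases h' : LP 2 v a
  · rw [mul_comm, lq_mul_lp h', lq_eq_one.2 h', one_mul]
  rw [lq_eq_neg.2 h, lq_eq_neg.2 h', lq_eq_one.2 ((hR L v).2.2 _ _ h2 ha hc ea.two_dvd ec.two_dvd h' h)]
  norm_num

theorem mul_triv (h : ¬ Dv n v) : (ψ * triv L n) v.asIdeal = ψ v.asIdeal := by
  rw [MonoidHom.mul_apply, triv_cop ((cop_prime_iff v).2 h), mul_one]

theorem Half.mono (h : Half ι y ψ n) (hn : n ∣ n') (h0 : n' ≠ 0) : Half ι y (ψ * triv L n') n' :=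
  have k : ∀ v : Pl L, ¬ Dv n' v → ¬ Dv n v := fun _ e e' => e (e'.of_dvd hn)
  ⟨h.two.trans (Nat.le_of_dvd (Nat.pos_of_ne_zero h0) hn), h.ev.trans hn, h.ne, h.rc.mono hn,
    fun v e => h.unit v (k v e), fun v e => by rw [mul_triv e, h.sq v (k v e)],
    fun v e e' => by rw [mul_triv e, h.res v (k v e) e']⟩

theorem Full.mono (h : Full ι y ψ n) (hn : n ∣ n') (h0 : n' ≠ 0) : Full ι y (ψ * triv L n') n' :=
  have k : ∀ v : Pl L, ¬ Dv n' v → ¬ Dv n v := fun _ e e' => e (e'.of_dvd hn)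
  ⟨h.two.trans (Nat.le_of_dvd (Nat.pos_of_ne_zero h0) hn), h.ev.trans hn, h.ne, h.rc.mono hn,
    fun v e => h.unit v (k v e), fun v e => by rw [mul_triv e, h.all v (k v e)]⟩

theorem Full.half (hB : ∀ v : Pl L, ¬ Dv 2 v → q4 ι y v ^ 2 = leg y v) (h : Full ι y ψ n) :
    Half ι y ψ n :=
  ⟨h.two, h.ev, h.ne, h.rc, h.unit, fun v e => by
    rw [h.all v e, hB v fun e' => e (e'.of_dvd h.ev)], fun v e _ => h.all v e⟩

/-- a prime that does not meet `y` -/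
theorem ex_prime (hy : y ≠ 0) (m : ℕ) (hm : m ≠ 0) :
    ∃ p : ℕ, p.Prime ∧ p ≠ 2 ∧ ¬ p ∣ m ∧ ∀ v : Pl L, Dv p v → y ∉ v.asIdeal := by
  have h0 : Ideal.absNorm (sp y) ≠ 0 := by simpa using hy
  obtain ⟨p, h1, hp⟩ := Nat.exists_infinite_primes (2 * m * Ideal.absNorm (sp y) + 1)
  have h2 : ¬ p ∣ 2 * m * Ideal.absNorm (sp y) := fun e => by
    have := Nat.le_of_dvd (by positivity) e
    omega
  refine ⟨p, hp, fun e => h2 (by rw [e]; exact (dvd_mul_right 2 m).mul_right _),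
    fun e => h2 ((e.mul_left 2).mul_right _), fun v hv e => ?_⟩
  exact not_dv_of_coprime v ((Nat.Prime.coprime_iff_not_dvd hp).2 fun e => h2 (e.mul_left _)) hv
    ((Ideal.span_singleton_le_iff_mem _).2 e (Ideal.absNorm_mem _))

/-- a multiple of `m` that contains the places of `x` -/
theorem ex_mod (x : L) (m : ℕ) (hm : m ≠ 0) :
    ∃ n : ℕ, n ≠ 0 ∧ m ∣ n ∧ ∀ v, ¬ Dv n v → od v x = 0 := by
  refine ⟨m * ∏ v ∈ (finite_od x).toFinset, Ideal.absNorm v.asIdeal, mul_ne_zero hm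
    (prod_ne_zero_iff.2 fun v _ => Ideal.absNorm_eq_zero_iff.not.2 v.ne_bot), dvd_mul_right _ _, fun v hv => ?_⟩
  by_contra e
  exact hv ((dv_absNorm v).of_dvd ((dvd_prod_of_mem _ (by simpa using e)).mul_left _))

theorem lin_ne (h : Lin ζ v T c) : c ≠ 0 := by
  rcases h with h | ⟨s, -, h⟩
  · exact h.ne_zero
  · exact left_ne_zero_of_mul (left_ne_zero_of_mul h.ne_zero)

theorem lin_of_lp (h : LP 2 v c) : Lin ζ v T c := Or.inl h

theorem lin_left (hu : LP 2 v u) : Lin ζ v (T * u) c ↔ Lin ζ v T c := by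
  simp only [Lin, ← mul_assoc, lp_mul_iff hu]

theorem lin_right (hu : LP 2 v u) : Lin ζ v T (c * u) ↔ Lin ζ v T c := by
  simp only [Lin, mul_right_comm c u, mul_right_comm _ u T, lp_mul_iff hu]

theorem lin_congr (hT : T ≠ 0) (h : LP 2 v (T' / T)) : Lin ζ v T' c ↔ Lin ζ v T c := by
  rw [← lin_left (T := T) h, mul_div_cancel₀ _ hT]

theorem lin_congr' (ha : a ≠ 0) (h : LP 2 v (a * c)) : Lin ζ v T a ↔ Lin ζ v T c := by
  rw [← lin_right (c := a) h, ← lin_right (c := c) (lp_sq v ha)]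
  congr! 1
  ring

theorem cl_one {N : ℕ} : Pr N {v} ↔ Cl N ⊤ v := by simp [Pr, Cl, eI]

theorem pr_insert {N : ℕ} {S : Finset (Pl L)} (h : v ∉ S) : Pr N (insert v S) ↔ Cl N (eI S) v := by
  simp only [Pr, Cl, eI_insert h, mul_comm]

theorem Big.mono {p q : Pl L → Prop} (h : Big p) (hq : ∀ v, p v → q v) : Big q := fun W =>
  (h W).imp fun _ k y hy => (k y hy).trans (sum_le_sum_of_subset_of_nonneg
    (monotone_filter_right _ fun v _ => hq v) fun v _ _ => inv_nonneg.2 (nv_pos v).le)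

theorem tw_z (d : RD L) (e : 𝓞 L) (D : Finset (Pl L)) : (tw d e).z D = e * d.z D :=
  mul_assoc _ _ _

theorem tw_r (d : RD L) (e : 𝓞 L) : (tw d e).r = d.r := rfl

theorem tw_W (d : RD L) (e : 𝓞 L) : (tw d e).W = d.W := rfl

theorem tw_N (d : RD L) (e : 𝓞 L) : (tw d e).N = d.N := rfl

theorem mem_P2 {α : Type} {Γ : Finset α} {D : Finset α × Finset α} :
    D ∈ P2 Γ ↔ D.1 ⊆ Γ ∧ D.2 ⊆ Γ := by simp

end One

section Two

variable {L M : Type} [Field L] [NumberField L] [Field M] [NumberField M] [Algebra L M] {v : Pl L}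
  {w : Pl M} {n : ℕ}

theorem Und_mem (h : Und v w.asIdeal) (y : 𝓞 L) :
    algebraMap (𝓞 L) (𝓞 M) y ∈ w.asIdeal ↔ y ∈ v.asIdeal := by rw [h, Ideal.mem_comap]

theorem Und_dv (h : Und v w.asIdeal) : Dv n w ↔ Dv n v := by
  rw [Dv, Dv, ← Und_mem h, map_natCast]

theorem coe_map (y : 𝓞 L) : ((algebraMap (𝓞 L) (𝓞 M) y : 𝓞 M) : M) = algebraMap L M y := rfl

theorem iota_map {ι : 𝓞 L} (h : ι ^ 2 = -1) : algebraMap (𝓞 L) (𝓞 M) ι ^ 2 = -1 := by
  rw [← map_pow, h, map_neg, map_one]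

theorem nrm_apply (χ : Ideal (𝓞 L) →* ℂ) (I : Ideal (𝓞 M)) :
    nrm M χ I = χ (Ideal.relNorm (𝓞 L) I) := rfl

/-- a place of relative degree one -/
theorem split_of (hE : Z_Ex) (h : Ideal.relNorm (𝓞 L) w.asIdeal = v.asIdeal) :
    Und v w.asIdeal ∧ Ideal.absNorm w.asIdeal = Ideal.absNorm v.asIdeal ^ 1 := by
  obtain ⟨v', -, -, h1, -⟩ := (hE L M).1 w
  obtain ⟨f, h2, h3, h4, -⟩ := (hE L M).2.2.1 v' w h1
  have e : v' = v := by
    by_contra e
    have := congrArg (cnt v') (h.symm.trans h3)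
    rw [cnt_ne v' e, cnt_pow v' v'.ne_bot, cnt_self] at this
    omega
  subst e
  have := congrArg (cnt v') (h.symm.trans h3)
  rw [cnt_pow v' v'.ne_bot, cnt_self, mul_one] at this
  exact ⟨h1, this ▸ h4⟩

end Two

section Arch

variable {k : Type} [Field k] [NumberField k] [Algebra k ℂ] {K : Type} [Field K] [NumberField K]
  [Algebra k K]

theorem isP_mono {m n : ℕ} {Ψ : Ideal (𝓞 K) →* ℂ} (h : IsP k m Ψ) (hm : m ∣ n) :
    IsP k n (Ψ * triv K n) := by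
  refine ⟨⟨fun I hI => ?_, fun I hI => by simp [triv_not hI]⟩, by simp, fun α hα => ?_⟩
  · simp [triv_cop hI, h.norm_cop I (Cop_of_dvd hI hm)]
  · simp [triv_cop (cop_span_of_dvd hα), h.prin α ((Nat.cast_dvd_cast hm).trans hα)]

theorem DtB.mono {n : ℕ} {τ : Finset (Pl K) → 𝓞 K} {C B c y₀ y₁ : ℝ} (h : DtB k n τ C B c y₀)
    (hy : y₀ ≤ y₁) : DtB k n τ C B c y₁ :=
  ⟨h.C1, h.B2, h.c0, h.dv, h.tau, fun y e => h.blk y (hy.trans e)⟩

/-- the class field theory inside the standing hypotheses -/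
theorem t3 (c : Cx k K) : T3 := c.lib.toT3

end Arch

end Pool.Agent.P.MP_b8021b_nt.BJ
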