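import Pool.Agent.P.MP_b8021b_nt.BP.StC
import Pool.Agent.P.MP_b8021b_nt.BS.RecD

/-!
Definitions for the theorem that over every number field containing a square root of minus one a
positive proportion of the quadratic twists of every curve `y ^ 2 = x ^ 3 + b x` have rank zero and
analytic rank zero. See h91_bsdall.md in the team store for the mathematics.
-/

namespace Pool.Agent.P.MP_b8021b_nt.BJ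

open NumberField IsDedekindDomain Finset MeasureTheory
open Pool.Agent.P.MP_b8021b_nt.VE Pool.Agent.P.MP_b8021b_nt.VC Pool.Agent.P.MP_b8021b_nt.BS.CF
open Pool.Agent.P.MP_b8021b_nt.BS Pool.Agent.P.MP_b8021b_nt.BP
open scoped Classical ComplexConjugate Real

noncomputable section

/-! ### the quartic symbol -/

section Quartic

variable {L : Type} [Field L] [NumberField L]

/-- the sign of a local class -/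
def lq (u : L) (v : Pl L) : ℂ := if LP 2 v u then 1 else -1

/-- the quartic residue symbol -/
def q4 (ι y : 𝓞 L) (v : Pl L) : ℂ :=
  ∑ j ∈ range 4, if y ^ ((Ideal.absNorm v.asIdeal - 1) / 4) - ι ^ j ∈ v.asIdeal
    then Complex.I ^ j else 0

/-- a ray class character that is the quartic symbol at the places where `y` is a square -/
structure Half (ι y : 𝓞 L) (ψ : Ideal (𝓞 L) →* ℂ) (n : ℕ) : Prop where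
  two : 2 ≤ n
  ev : 2 ∣ n
  ne : y ≠ 0
  rc : RC n ψ
  unit : ∀ v : Pl L, ¬ Dv n v → y ∉ v.asIdeal
  sq : ∀ v : Pl L, ¬ Dv n v → ψ v.asIdeal ^ 2 = leg y v
  res : ∀ v : Pl L, ¬ Dv n v → leg y v = 1 → ψ v.asIdeal = q4 ι y v

/-- a ray class character that is the quartic symbol -/
structure Full (ι y : 𝓞 L) (ψ : Ideal (𝓞 L) →* ℂ) (n : ℕ) : Prop where
  two : 2 ≤ n
  ev : 2 ∣ n
  ne : y ≠ 0
  rc : RC n ψ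
  unit : ∀ v : Pl L, ¬ Dv n v → y ∉ v.asIdeal
  all : ∀ v : Pl L, ¬ Dv n v → ψ v.asIdeal = q4 ι y v

/-- the invariant of the tower -/
structure Iv (ι y z : 𝓞 L) (ψ : Ideal (𝓞 L) →* ℂ) (n : ℕ) (c : ℂ) : Prop where
  half : Half ι y ψ n
  sgn : c = 1 ∨ c = -1
  val : ∀ v : Pl L, ¬ Dv n v → leg y v = -1 → leg z v = -1 → q4 ι y v = c * ψ v.asIdeal
  odd : ∃ v : Pl L, ¬ Dv 2 v ∧ Odd (od v (z : L)) ∧ Even (od v (y : L))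

/-- a square root of the quadratic symbol and its base change -/
structure HD (y : 𝓞 L) {M : Type} [Field M] [NumberField M] [Algebra L M] (β u : M)
    (ψ : Ideal (𝓞 L) →* ℂ) (n : ℕ) : Prop where
  kum : Kum 2 (y : L) β
  two : 2 ≤ n
  ev : 2 ∣ n
  rc : RC n ψ
  unit : ∀ v : Pl L, ¬ Dv n v → y ∉ v.asIdeal
  sq : ∀ v : Pl L, ¬ Dv n v → ψ v.asIdeal ^ 2 = leg y v
  ne : u ≠ 0
  val : ∀ w : Pl M, ¬ Dv n w → Even (od w u) ∧ nrm M ψ w.asIdeal = lq u w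

end Quartic

/-- the class field theory that is used -/
structure QX : Prop extends T3 where
  es2 : Z_ES2
  x2 : Z_X2
  cls : ∀ (L : Type) [Field L] [NumberField L], Om L → X_Cls L

section Pl

variable {K : Type} [Field K] [NumberField K]

/-! ### Selmer conditions -/

/-- the sum of the tame symbols outside `m` -/
def Bm (m : ℕ) (a c : K) : ZMod 2 := ∑ᶠ v : Pl K, if Dv m v then 0 else RecP.sy v a c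

/-- the local condition at the places over `m` -/
def Locm (m : ℕ) (ζ c : K) : Prop :=
  ∀ v : Pl K, Dv m v → ∃ x : K, LP 2 v (x * (x ^ 2 - ζ)) ∧ LP 2 v (c * x)

/-- a modulus that contains the bad places -/
structure Md (m : ℕ) (ζ : K) : Prop where
  two : 2 ≤ m
  ev : 2 ∣ m
  ne : ζ ≠ 0
  unit : ∀ v : Pl K, ¬ Dv m v → od v ζ = 0

/-- a maximal isotropic group of local conditions over `m` -/
structure Grp (m : ℕ) (ζ : K) (𝓛 : K → Prop) : Prop where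
  ne : ∀ c, 𝓛 c → c ≠ 0
  loc : ∀ c, c ≠ 0 → Locm m ζ c → 𝓛 c
  mul : ∀ a c, 𝓛 a → 𝓛 c → 𝓛 (a * c)
  lp : ∀ u, u ≠ 0 → (∀ v : Pl K, Dv m v → LP 2 v u) → 𝓛 u
  iso : ∀ a c, 𝓛 a → 𝓛 c → Bm m a c = 0
  idx : ∃ Φ : Finset K, Φ.card ≤ 2 ^ (nPl K m + Module.finrank ℚ K / 2) ∧
    ∀ x, x ≠ 0 → ∃ f ∈ Φ, 𝓛 (x * f)

/-- data for the descent -/
structure SD (K : Type) [Field K] where
  m : ℕ
  ζ : K
  𝓛 : K → Prop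
  V : Finset (Pl K)
  t₀ : K
  e : K

/-- a class that is ramified exactly at `D` outside `m` and `V` -/
def SD.Rel (s : SD K) (D : Finset (Pl K)) (c : K) : Prop :=
  s.𝓛 c ∧ (∀ v, ¬ Dv s.m v → v ∉ s.V → (Odd (od v c) ↔ v ∈ D)) ∧ ∀ v ∈ s.V, Lin s.ζ v s.t₀ c

/-- the Selmer group of the twist by `T` is unramified at `Γ` -/
def SD.Unr (s : SD K) (Γ : Finset (Pl K)) (T : K) : Prop :=
  ∀ D c, D ⊆ Γ → s.Rel D c → (∀ v ∈ Γ, Lin s.ζ v T c) → D = ∅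

/-- the Selmer group has exactly one nontrivial class, ramified at `D` -/
def SD.One (s : SD K) (Γ : Finset (Pl K)) (T : K) (D : Finset (Pl K)) : Prop :=
  D ⊆ Γ ∧ D ≠ ∅ ∧ ∃ a, s.Rel D a ∧ (∀ v ∈ Γ, Lin s.ζ v T a) ∧
    ∀ D' c, D' ⊆ Γ → s.Rel D' c → (∀ v ∈ Γ, Lin s.ζ v T c) → IsSquare c ∨ IsSquare (a * c)

/-- a sensitive place outside `m` and `V` -/
def SD.Out (s : SD K) (v : Pl K) : Prop := ¬ Dv s.m v ∧ v ∉ s.V ∧ LP 2 v s.ζ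

/-- a local square at `m` and `V` -/
def SD.Tri (s : SD K) (u : K) : Prop := u ≠ 0 ∧ ∀ v, Dv s.m v ∨ v ∈ s.V → LP 2 v u

/-- the hypotheses on the data -/
structure SD.Ok (s : SD K) : Prop where
  md : Md s.m s.ζ
  grp : Grp s.m s.ζ s.𝓛
  t0 : s.t₀ ≠ 0
  e0 : s.e ≠ 0
  vs : ∀ v ∈ s.V, ¬ Dv s.m v ∧ LP 2 v s.ζ ∧ Odd (od v s.t₀)
  kill : ∀ c, s.Rel ∅ c → IsSquare c ∨ IsSquare (s.e * c)

/-- the second family of classes -/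
def tw (d : RD K) (e : 𝓞 K) : RD K := { d with ω := fun v => e * d.ω v }

/-- pairs of subsets -/
abbrev P2 {ι : Type} (Γ : Finset ι) : Finset (Finset ι × Finset ι) := Γ.powerset ×ˢ Γ.powerset

/-- coefficients on pairs of sets of places -/
abbrev PF (K : Type) [Field K] := Finset (Pl K) × Finset (Pl K) → ℝ

/-- a function on pairs of sign vectors -/
def wG (F : PF K) (Γ : Finset (Pl K)) (t t' : 𝓞 K) : ℂ :=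
  ∑ D ∈ P2 Γ, F D * (jac t (eI D.1) * jac t' (eI D.2))

/-- what the descent gives for one twist, first case -/
def SCA (M : ℕ) (ζ t₀ : 𝓞 K) (d : RD K) : Prop :=
  ∀ (Γ : Finset (Pl K)) (q : Pl K) (τ : 𝓞 K), (∀ v ∈ insert q Γ, Sens (ζ : K) v ∧ d.W < nv v) →
    q ∉ Γ → τ ≠ 0 → (∀ v, Dv M v → LP 2 v (τ : K)) →
    (∀ v, Sens (ζ : K) v → (Odd (od v (τ : K)) ↔ v ∈ insert q Γ)) →
    ∃ F : Finset (Pl K) → ℝ, ∑ D ∈ (insert q Γ).powerset, F D ^ 2 ≤ 1 ∧ 0 ≤ F ∅ ∧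
      (1 - Yv d.r d.z Γ q) / 2 ≤ F ∅ ∧ ∀ u : 𝓞 K, (∀ v ∈ insert q Γ, u ∉ v.asIdeal) →
        (wF F (insert q Γ) u = 0 ∨ wF F (insert q Γ) u = 1) ∧ (wF F (insert q Γ) u = 1 →
          (∀ v, Dv M v → LP 2 v (u : K)) → (∀ v, Sens (ζ : K) v → Even (od v (u : K))) →
          Finite (Wb (-((ζ : K) * (t₀ * τ * u) ^ 2))).toAffine.Point)

/-- what the descent gives for one twist, second case -/
def SCB (M : ℕ) (t₀ : 𝓞 K) (d : RD K) : Prop :=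
  ∀ (Γ : Finset (Pl K)) (q₁ q₂ : Pl K) (τ : 𝓞 K),
    (∀ v ∈ insert q₂ (insert q₁ Γ), d.W < nv v) → q₁ ∉ Γ → q₂ ∉ insert q₁ Γ →
    ¬ LP 2 q₁ (t₀ : K) → sp τ = eI (insert q₂ (insert q₁ Γ)) → (M : 𝓞 K) ∣ τ - 1 →
    ∃ F : PF K, ∑ D ∈ P2 (insert q₂ (insert q₁ Γ)), F D ^ 2 ≤ 1 ∧
      0 ≤ F (∅, ∅) ∧ (1 - Yv d.r d.z Γ q₁ - Yv d.r (tw d t₀).z Γ q₁) / 8 ≤ F (∅, ∅) ∧
      ∀ (t t' : 𝓞 K) (p p' : Pl K), sp t = p.asIdeal → sp t' = p'.asIdeal → (M : 𝓞 K) ∣ t - 1 →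
        (M : 𝓞 K) ∣ t' - 1 → p ≠ p' → p ∉ insert q₂ (insert q₁ Γ) → p' ∉ insert q₂ (insert q₁ Γ) →
        (wG F (insert q₂ (insert q₁ Γ)) t t' = 0 ∨ wG F (insert q₂ (insert q₁ Γ)) t t' = 1) ∧
        (wG F (insert q₂ (insert q₁ Γ)) t t' = 1 → ∀ s : K, s ≠ 0 →
          Finite (Wb (-(s ^ 2 * t₀ * τ * t * t' : K) ^ 2)).toAffine.Point)

/-! ### primes -/

/-- a set of places with at least half of the mass -/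
def Big (p : Pl K → Prop) : Prop :=
  ∀ W : ℝ, ∃ C : ℝ, ∀ y : ℝ, 3 ≤ y →
    Real.log (Real.log y) / 2 - C ≤ ∑ v ∈ (pls K W y).filter p, (nv v)⁻¹

/-- the places in `(y, y ^ 2]` where `ζ` is not a square -/
def QI (ζ : K) (y : ℝ) : Finset (Pl K) := (pls K y (y ^ 2)).filter (Ins ζ)

/-- the place lies in the ray class inverse to `I` -/
def Cl (N : ℕ) (I : Ideal (𝓞 K)) (v : Pl K) : Prop :=
  ∃ γ : 𝓞 K, (N : 𝓞 K) ∣ γ - 1 ∧ I * v.asIdeal = sp γ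

/-- the product of the places lies in the trivial ray class -/
def Pr (N : ℕ) (S : Finset (Pl K)) : Prop := ∃ γ : 𝓞 K, (N : 𝓞 K) ∣ γ - 1 ∧ eI S = sp γ

/-! ### the first moment in the second case -/

/-- the bilinear form over two blocks -/
def bg (T₁ T₂ : Finset (𝓞 K)) (a₁ a₂ : 𝓞 K → ℂ) (F : PF K)
    (Γ : Finset (Pl K)) (c : Finset (Pl K) → ℂ) (𝒮 : Finset (Finset (Pl K))) : ℂ :=
  ∑ t ∈ T₁, ∑ t' ∈ T₂, a₁ t * a₂ t' * wG F Γ t t' * ∑ S ∈ 𝒮, c S * jac (t * t') (eI S)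

/-- admissible coefficients -/
structure Adg (n : ℕ) (Γ : Finset (Pl K)) (a₁ a₂ : 𝓞 K → ℂ)
    (F : PF K) (c : Finset (Pl K) → ℂ) : Prop where
  a1 : ∀ t, ‖a₁ t‖ ≤ 1
  a2 : ∀ t, ‖a₂ t‖ ≤ 1
  par : ∑ D ∈ P2 Γ, F D ^ 2 ≤ 1
  bd : ∀ S, ‖c S‖ ≤ 4 ^ S.card / √(nS S)
  supp : ∀ S, c S ≠ 0 → Disjoint S Γ ∧ ∀ v ∈ S, ¬ Dv n v

/-- data for the family of twists -/
structure FB (K : Type) [Field K] where
  U : Finset (Pl K)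
  𝔖 : Finset (Finset (Pl K))
  𝒥 : Finset ℕ
  ℐ : Finset ℕ
  ι : Finset (Pl K) → ℕ → ℕ
  τ : Finset (Pl K) → 𝓞 K
  y₁ : ℕ → ℝ
  y₂ : ℕ → ℝ
  T₁ : ℕ → Finset (𝓞 K)
  T₂ : ℕ → Finset (𝓞 K)

/-- the sum over the family -/
def FB.sum (Φ : FB K) (g : Finset (Pl K) → 𝓞 K → 𝓞 K → ℂ) : ℂ :=
  ∑ s ∈ Φ.𝔖, ∑ j ∈ Φ.𝒥, ∑ t ∈ Φ.T₁ (Φ.ι s j), ∑ t' ∈ Φ.T₂ j, g s t t'

/-- the smooth parts -/
def S3 (N : ℕ) (ζ : K) (W y u yq : ℝ) : Finset (Finset (Pl K)) :=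
  ((TT K W y u ×ˢ QI ζ yq ×ˢ pls K (yq ^ 2) (yq ^ 4)).image
    fun p => insert p.2.2 (insert p.2.1 p.1)).filter (Pr N)

/-- a block of generators of primes -/
def bk (N : ℕ) (τ : Finset (Pl K) → 𝓞 K) (B y : ℝ) : Finset (𝓞 K) :=
  ((pls K (y / B) y).filter fun v => Pr N {v}).image fun v => τ {v}

/-- the family -/
def famB (N : ℕ) (ζ : K) (τ : Finset (Pl K) → 𝓞 K) (B W y u yq : ℝ) (𝒥 ℐ : Finset ℕ)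
    (a : ℝ → ℕ) : FB K where
  U := pls K W y ∪ pls K yq (yq ^ 4)
  𝔖 := S3 N ζ W y u yq
  𝒥 := 𝒥
  ℐ := ℐ
  ι s j := a (nS s) - j
  τ := τ
  y₁ i := B ^ i
  y₂ j := B ^ j
  T₁ i := bk N τ B (B ^ i)
  T₂ j := bk N τ B (B ^ j)

end Pl

section Arch

variable (k : Type) [Field k] [NumberField k] [Algebra k ℂ] {K : Type} [Field K] [NumberField K]
  [Algebra k K]

/-- the hypotheses on the family -/
structure FB.Ok (Φ : FB K) (n : ℕ) (C B c W X : ℝ) : Prop where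
  cell : ∀ s ∈ Φ.𝔖, ∀ j ∈ Φ.𝒥,
    Cell k n ∅ C X s (Φ.τ s) (Φ.y₁ (Φ.ι s j)) (Φ.y₂ j) (Φ.T₁ (Φ.ι s j)) (Φ.T₂ j)
  lo : ∀ s ∈ Φ.𝔖, ∀ j ∈ Φ.𝒥, X ≤ B * (nS s * (Φ.y₁ (Φ.ι s j) * Φ.y₂ j))
  hi : ∀ s ∈ Φ.𝔖, ∀ j ∈ Φ.𝒥, nS s * (Φ.y₁ (Φ.ι s j) * Φ.y₂ j) ≤ X
  many : ∀ s ∈ Φ.𝔖, ∀ j ∈ Φ.𝒥, c * Φ.y₁ (Φ.ι s j) / Real.log X ≤ (Φ.T₁ (Φ.ι s j)).card ∧
    c * Φ.y₂ j / Real.log X ≤ (Φ.T₂ j).card
  sub : ∀ s ∈ Φ.𝔖, s ⊆ Φ.U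
  big : ∀ v ∈ Φ.U, W ≤ nv v
  mem : ∀ s ∈ Φ.𝔖, ∀ j ∈ Φ.𝒥, Φ.ι s j ∈ Φ.ℐ
  once : ∀ s ∈ Φ.𝔖, Set.InjOn (Φ.ι s) (Φ.𝒥 : Set ℕ)
  few : Φ.ℐ.card ≤ 3 * Φ.𝒥.card
  gen : ∀ s ∈ Φ.𝔖, sp (Φ.τ s) = eI s
  inj : ∀ s ∈ Φ.𝔖, ∀ j ∈ Φ.𝒥, ∀ t₁ ∈ Φ.T₁ (Φ.ι s j), ∀ t₂ ∈ Φ.T₂ j,
    ∀ s' ∈ Φ.𝔖, ∀ j' ∈ Φ.𝒥, ∀ t₁' ∈ Φ.T₁ (Φ.ι s' j'), ∀ t₂' ∈ Φ.T₂ j',
      sp (Φ.τ s * t₁ * t₂) = sp (Φ.τ s' * t₁' * t₂') → s = s' ∧ j = j' ∧ t₁ = t₁' ∧ t₂ = t₂'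

/-- the data of the blocks -/
structure DtB (n : ℕ) (τ : Finset (Pl K) → 𝓞 K) (C B c y₀ : ℝ) : Prop where
  C1 : 1 ≤ C
  B2 : 2 ≤ B
  c0 : 0 < c
  dv : ∀ v : Pl K, Dv n v → nv v ≤ C
  tau : ∀ S, Pr (n ^ 2) S → Pri (n ^ 2) (τ S) ∧ sp (τ S) = eI S ∧ Bal k C (nS S) (τ S)
  blk : ∀ y, y₀ ≤ y → Blk k n ∅ C y (bk (n ^ 2) τ B y) ∧
    c * y / Real.log y ≤ (bk (n ^ 2) τ B y).card

variable (K) in
/-- the chain of the scales -/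
structure ScB (C B B' y₀ W u X y yq : ℝ) (𝒥 ℐ : Finset ℕ) (a : ℝ → ℕ) : Prop where
  X1 : 1 ≤ X
  CW : C ≤ W
  Wq : W ≤ yq
  yy : y ≤ yq
  yu : y ^ u ≤ yq
  Bq : B ≤ yq
  y0 : y₀ ≤ yq
  q7 : yq ^ 7 ≤ X ^ (et k K * cz k K / 2)
  q5 : yq ^ 5 ≤ X ^ et k K
  J : ∀ j ∈ 𝒥, X ^ et k K ≤ B ^ j ∧ B ^ j ≤ X ^ (2 * et k K)
  A : ∀ N : ℝ, 1 ≤ N → N ≤ yq ^ 7 → B' * N * B ^ a N ≤ X ∧ X ≤ B * B' * N * B ^ a N ∧
    X ^ (1 - et k K / 100) ≤ B ^ a N ∧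
    ∀ j ∈ 𝒥, j ≤ a N ∧ a N - j ∈ ℐ ∧ X ^ (2 * et k K) ≤ B ^ (a N - j) / B
  few : ℐ.card ≤ 3 * 𝒥.card

/-- many twists with finitely many points and nonzero central value -/
def NVT (ζ : 𝓞 K) : Prop :=
  ∃ (t₀ : 𝓞 K) (n₁ : ℕ), t₀ ≠ 0 ∧ n₁ ≠ 0 ∧ ∀ (n₀ n : ℕ) (ℛ ℛ' : Finset (Pl K))
    (Ψ : Ideal (𝓞 K) →* ℂ) (f : ℝ → ℝ) (Ct : Ideal (𝓞 K) → ℂ) (γ : ℂ) (c₀ A : ℝ), n₁ ∣ n →
    Good2 n₀ n ℛ ℛ' → IsP k n Ψ → FE3 k n Ψ f Ct γ c₀ A → ∃ c X₀ : ℝ, 0 < c ∧ ∀ X, X₀ ≤ X →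
      ∃ 𝒢 : Finset (𝓞 K), c * X ≤ 𝒢.card ∧ Set.InjOn sp (𝒢 : Set (𝓞 K)) ∧ ∀ t ∈ 𝒢,
        Pri (n ^ 2) t ∧ NN (sp t) ≤ X ∧ Finite (Wb (-((ζ : K) * (t₀ * t) ^ 2))).toAffine.Point ∧
          Lam f Ψ t ≠ 0

/-- the results of the library that are used -/
structure Yb (K : Type) [Field K] [NumberField K] [Algebra k K] : Prop where
  q : QX
  mel : X_Mel k K
  lf : X_LF K
  fi : Y_FI
  vw : Y_VW
  four : Y_FOUR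
  red1 : Y_RED1
  ev0 : Y_EV0
  ch1 : Y_CH1 K
  ch2 : Y_CH2 K
  me1 : Y_ME1 K
  me2 : Y_ME2 K
  mer : Y_MER K
  dir : Y_DIR K
  rep : Y_REP K
  gd2 : Y_GD2 K
  div : Y_DIV K
  geo : Y_GEO K
  bb4 : Y_BB4 K
  mark : Y_MARK K
  dec : Y_DEC K
  eva : Y_EVA K
  slh : Y_SLH k K
  slt : Y_SLT k K
  lsh : Y_LSH k K
  kf1 : Y_KF1 k K
  kf2 : Y_KF2 k K
  evb : Y_EVB k K
  pta : Y_PTA k K
  ptb : Y_PTB k K
  afe : Y_AFE k K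
  fe3 : Y_FE3 k K
  sm : Y_SM k K
  fm0 : Y_FM0 k K
  nv1 : Y_NV1 k K
  nv2 : Y_NV2 k K

end Arch

end

end Pool.Agent.P.MP_b8021b_nt.BJ
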