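import Pool.Agent.P.MP_b8021b_nt.BJ.StA
import Pool.Agent.P.MP_b8021b_nt.BP.PCON

/-! Auxiliary primes, blocks and the family in the first case. -/

namespace Pool.Agent.P.MP_b8021b_nt.BJ

open NumberField IsDedekindDomain Finset MeasureTheory
open Pool.Agent.P.MP_b8021b_nt.VE Pool.Agent.P.MP_b8021b_nt.VC Pool.Agent.P.MP_b8021b_nt.BS.CF
open Pool.Agent.P.MP_b8021b_nt.BS Pool.Agent.P.MP_b8021b_nt.BP
open scoped Classical ComplexConjugate Real

variable {k : Type} [Field k] [NumberField k] [Algebra k ℂ] {K : Type} [Field K] [NumberField K]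
  [Algebra k K]

set_option linter.unusedSectionVars false
set_option linter.unusedVariables false

namespace JAUX

theorem stage (hREP : Y_REP K) {ζ : K} {N : ℕ} (hN : 2 ≤ N) (h2 : 2 ∣ N)
    (η : Ideal (𝓞 K) →* ℂ) (hp : ∀ α : 𝓞 K, (N : 𝓞 K) ∣ α - 1 → η (sp α) = 1)
    (hv : ∀ v : Pl K, ¬ Dv N v → η v.asIdeal = if LP 2 v ζ then 1 else -1)
    (v₀ : Pl K) (h0 : ¬ Dv N v₀) (h0' : ¬ LP 2 v₀ ζ) (W : ℝ) :
    ∃ 𝒜 : Finset (Pl K), (∀ v ∈ 𝒜, Ins ζ v ∧ ¬ Dv N v ∧ W < nv v) ∧ ∀ I, Cop N I →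
      ∃ a ⊆ 𝒜, a.card ≤ 2 ∧ ∃ γ : 𝓞 K, (N : 𝓞 K) ∣ γ - 1 ∧ sp γ = I * eI a := by
  have odd : ∀ v : Pl K, ¬ Dv N v → ¬ Dv 2 v := fun v h e => h (e.of_dvd h2)
  have key : ∀ (I : Ideal (𝓞 K)) (v : Pl K) (γ : 𝓞 K), η I = -1 → ¬ Dv N v →
      (N : 𝓞 K) ∣ γ - 1 → I * v.asIdeal = sp γ → Ins ζ v := by
    intro I v γ hI h hγ e
    refine ⟨odd v h, fun hl => ?_⟩
    have := hp γ hγ
    rw [← e, map_mul, hI, hv v h, if_pos hl] at this
    norm_num at this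
  have neg : ∀ v : Pl K, ¬ Dv N v → ¬ LP 2 v ζ → η v.asIdeal = -1 := fun v h l => by
    rw [hv v h, if_neg l]
  obtain ⟨ℛ, r1, r2, -⟩ := hREP N W hN
  obtain ⟨ℛ', s1, s2, -⟩ := hREP N (|W| + ∑ v ∈ ℛ, nv v) hN
  obtain ⟨p, ⟨p1, γ₀, p2, p3⟩, -⟩ := s1 _ ((cop_prime_iff v₀).2 h0)
  have p4 : Ins ζ p := key _ p γ₀ (neg v₀ h0 h0') (s2 p p1).1 p2 p3
  have hs : 0 ≤ ∑ v ∈ ℛ, nv v := sum_nonneg fun v _ => (nv_pos v).le
  have p5 : p ∉ ℛ := fun h => by
    have := single_le_sum (f := fun v : Pl K => nv v) (fun v _ => (nv_pos v).le) h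
    linarith [(s2 p p1).2, abs_nonneg W]
  refine ⟨insert p (ℛ.filter (Ins ζ)), fun v h => ?_, fun I hI => ?_⟩
  · rcases mem_insert.1 h with rfl | h
    · exact ⟨p4, (s2 v p1).1, by linarith [(s2 v p1).2, le_abs_self W]⟩
    · exact ⟨(mem_filter.1 h).2, r2 v (mem_filter.1 h).1⟩
  have pm : η I = 1 ∨ η I = -1 := by
    refine cop_induction (P := fun I => η I = 1 ∨ η I = -1) hN
      (Or.inl (by rw [← Ideal.one_eq_top, map_one])) (fun v J h _ ih => ?_) I hI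
    rw [map_mul, hv v h]
    rcases ih with e | e <;> split_ifs <;> simp [e]
  rcases pm with e | e
  · obtain ⟨v, ⟨v1, γ, v2, v3⟩, -⟩ := r1 (I * p.asIdeal)
      (cop_mul.2 ⟨hI, (cop_prime_iff p).2 (s2 p p1).1⟩)
    have v4 := key _ v γ (by rw [map_mul, e, neg p (s2 p p1).1 p4.2, one_mul]) (r2 v v1).1 v2 v3
    have v5 : p ∉ ({v} : Finset (Pl K)) := fun h => p5 (mem_singleton.1 h ▸ v1)
    refine ⟨insert p {v}, insert_subset_insert _ (singleton_subset_iff.2 (mem_filter.2 ⟨v1, v4⟩)),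
      card_le_two, γ, v2, ?_⟩
    rw [eI_insert v5, ← v3, mul_assoc, eI, prod_singleton]
  · obtain ⟨v, ⟨v1, γ, v2, v3⟩, -⟩ := r1 I hI
    refine ⟨{v}, singleton_subset_iff.2 (mem_insert_of_mem
      (mem_filter.2 ⟨v1, key I v γ e (r2 v v1).1 v2 v3⟩)), by simp, γ, v2, ?_⟩
    rw [← v3, eI, prod_singleton]

end JAUX

theorem j_aux (c : Cx k K) (Y : Yb k K) : J_AUX k K := by
  have hREP := Y.rep
  intro ζ hζ
  have z0 : ζ ≠ 0 := fun e => hζ (e ▸ IsSquare.zero)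
  have ns : ¬ ∃ z : K, ζ = z ^ 2 := not_sq_iff.2 hζ
  obtain ⟨n, n0, n2, hn⟩ := ex_mod ζ 2 two_ne_zero
  obtain ⟨j, η, j1, hη, hv, -⟩ := c.lib.chi K n ζ c.om (Nat.le_of_dvd (Nat.pos_of_ne_zero n0) n2)
    n2 z0 fun v e => by rw [hn v e]; exact dvd_zero _
  refine ⟨n ^ j, pow_ne_zero _ n0, fun N hN h2 => ?_⟩
  have d1 : n ∣ N := (dvd_pow_self n (by omega)).trans hN
  have d2 : 2 ∣ N := n2.trans d1
  obtain ⟨v₀, -, h0, h0'⟩ := c.lib.c1 K 2 N ζ c.om (Or.inl rfl) (by omega) ns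
  choose F hF hG using JAUX.stage hREP h2 d2 η
    (fun α h => hη.prin α ((Nat.cast_dvd_cast hN).trans h))
    (fun v e => hv v fun e' => e (e'.of_dvd d1)) v₀ h0 h0'
  choose! a a1 a2 γ g1 g2 using hG
  obtain ⟨B, B1, hB⟩ := c.bal2 N (by omega)
  choose! u u1 u2 using hB
  let w : ℕ → ℝ := fun n => Nat.rec 1 (fun _ x => x + ∑ v ∈ F x, nv v) n
  have ws : ∀ n, w (n + 1) = w n + ∑ v ∈ F (w n), nv v := fun n => rfl
  have wm : Monotone w := monotone_nat_of_le_succ fun n => by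
    rw [ws]; exact le_add_of_nonneg_right (sum_nonneg fun v _ => (nv_pos v).le)
  have w1 : ∀ n, 1 ≤ w n := fun n => wm (Nat.zero_le n)
  have le : ∀ i j, i < j → ∀ v ∈ F (w i), nv v ≤ w j := fun i j h v hv => by
    have := single_le_sum (f := fun v : Pl K => nv v) (fun v _ => (nv_pos v).le) hv
    linarith [wm (Nat.succ_le_of_lt h), ws i, w1 i]
  have w3 : w 3 ≤ B * w 3 ^ 2 := by nlinarith [w1 3]
  refine ⟨fun i => F (w i), fun i => a (w i), fun i I => u (γ (w i) I) * γ (w i) I, B * w 3 ^ 2,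
    (w1 3).trans w3, fun i v hv => ⟨(hF _ v hv).1, (hF _ v hv).2.1, (le i 3 i.2 v hv).trans w3⟩,
    fun i j hij => ?_, fun i I hI => ?_⟩
  · refine disjoint_left.2 fun v h h' => ?_
    rcases lt_or_gt_of_ne hij with e | e
    · linarith [le i j e v h, (hF _ v h').2.2]
    · linarith [le j i e v h', (hF _ v h).2.2]
  have g0 : γ (w i) I ≠ 0 := fun e => not_unit_nat h2 (isUnit_of_dvd_one (by
    have := g1 (w i) I hI
    rwa [e, zero_sub, dvd_neg] at this))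
  refine ⟨a1 _ I hI, a2 _ I hI, ?_, ?_, fun φ => ((u2 _ g0 φ).1).trans ?_⟩
  · rw [show (u (γ (w i) I) : 𝓞 K) * γ (w i) I - 1
      = (u (γ (w i) I) - 1) * γ (w i) I + (γ (w i) I - 1) by ring]
    exact ((u1 _ g0).mul_right _).add (g1 _ I hI)
  · rw [← g2 _ I hI]
    exact Ideal.span_singleton_mul_left_unit (Units.isUnit _) _
  · have h1 : nS (a (w i) I) ≤ w 3 ^ 2 := by
      rw [nS_eq]
      refine (prod_le_prod (g := fun _ => w 3) (fun v _ => (nv_pos v).le)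
        fun v hv => le i 3 i.2 v (a1 _ I hI hv)).trans ?_
      rw [prod_const]
      exact pow_le_pow_right₀ (w1 3) (a2 _ I hI)
    have h3 : nS (a (w i) I) ^ (1 / rk k K) ≤ w 3 ^ 2 :=
      (Real.rpow_le_self_of_one_le (one_le_nS _) ((div_le_one (by linarith [c.one_le_rk])).2
        c.one_le_rk)).trans h1
    rw [g2 _ I hI, NN_mul, Real.mul_rpow (by positivity) (by positivity), mul_comm (NN I ^ _),
      ← mul_assoc]
    gcongr

theorem j_con1 (c : Cx k K) (Y : Yb k K) (hBLK : J_BLK K) (hAUX : J_AUX k K) : J_CON1 k K := by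
  intro ζ hζ
  obtain ⟨n₁, h1, hA⟩ := hAUX ζ hζ
  obtain ⟨B, c₀, y₀, hB, hc, hK⟩ := hBLK ζ hζ
  refine ⟨n₁, h1, fun n hn h2 => ?_⟩
  obtain ⟨𝒜, ax, tg, C₁, c1, a1, a2, a3⟩ := hA (n ^ 2) (hn.trans (dvd_pow_self n two_ne_zero))
    (by nlinarith)
  have n0 : n ≠ 0 := by omega
  set C := C₁ ^ 2 + NN (sp (n : 𝓞 K)) with hC
  have N0 : 0 ≤ NN (sp (n : 𝓞 K)) := Nat.cast_nonneg _
  have c2 : C₁ ≤ C := by nlinarith
  have c3 : ∀ v : Pl K, Dv n v → nv v ≤ C := fun v h =>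
    (nv_le_of_dv n0 h).trans (le_add_of_nonneg_left (by positivity))
  have key : ∀ i (S : Finset (Pl K)), (∀ v ∈ S, C < nv v) → ∃ a ⊆ 𝒜 i, a.card ≤ 2 ∧
      sp (tg i (eI S)) = eI S * eI a ∧ Pri (n ^ 2) (tg i (eI S)) ∧ pr (tg i (eI S)) = S ∪ a ∧
      Bal k C₁ (nS S) (tg i (eI S)) := fun i S hS => by
    obtain ⟨b1, b2, b3, b4, b5⟩ := a3 i (eI S) ((cop_eI (pow_ne_zero 2 n0)).2 fun v hv e =>
      (hS v hv).not_ge (c3 v ((dv_pow v one_le_two).1 e)))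
    have d : Disjoint S (ax i (eI S)) := disjoint_left.2 fun v hv hv' =>
      (hS v hv).not_ge ((a1 i v (b1 hv')).2.2.trans c2)
    refine ⟨_, b1, b2, b4, ⟨b3, ?_⟩, ?_, b5⟩
    · rw [b4, ← eI_union d]
      exact squarefree_eI _
    · rw [← prI_sp, b4, ← eI_union d, prI_eI]
  have one : ∀ v : Pl K, C < nv v → ∀ w ∈ ({v} : Finset (Pl K)), C < nv w := fun v h w hw =>
    mem_singleton.1 hw ▸ h
  have e1 : ∀ v : Pl K, eI {v} = v.asIdeal := fun v => prod_singleton _ _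
  have C0 : 0 ≤ C := by linarith
  refine ⟨𝒜, fun S => tg 0 (eI S), fun i v => tg i (eI {v}), C, B, c₀, max y₀ (B * C + B ^ 2),
    c1.trans c2, hB, hc, c3, fun i v hv => ⟨(a1 i v hv).1, (a1 i v hv).2.2.trans c2⟩, a2,
    fun S hS => ?_, fun i v hv => ?_, fun i y hy => ?_⟩
  · obtain ⟨a, b1, b2, b3, b4, b5, b6⟩ := key 0 S hS
    have s0 := (nS_pos S).le
    have s1 : nS a ≤ C := by
      rw [nS_eq]
      calc _ ≤ C₁ ^ a.card := by
            rw [← prod_const]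
            exact prod_le_prod (fun v _ => (nv_pos v).le) fun v hv => (a1 0 v (b1 hv)).2.2
        _ ≤ C₁ ^ 2 := pow_le_pow_right₀ c1 b2
        _ ≤ C := le_add_of_nonneg_right N0
    refine ⟨b4, b6.mono c2 C0 s0 ?_, b5 ▸ subset_union_left, b5 ▸ union_subset_union_right b1, ?_⟩
    · rw [b3, NN_mul]
      exact le_mul_of_one_le_right s0 (one_le_nS a)
    · rw [b3, NN_mul, mul_comm]
      exact mul_le_mul_of_nonneg_right s1 s0
  · obtain ⟨a, b1, -, -, b4, b5, -⟩ := key i {v} (one v hv)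
    refine ⟨ne_zero_of_sqf b4.2, b5 ▸ mem_union_left _ (mem_singleton_self v), ?_⟩
    rw [b5, insert_eq]
    exact union_subset_union_right b1
  · have y1 : B * C + B ^ 2 ≤ y := (le_max_right _ _).trans hy
    have B0 : 0 < B := by linarith
    have y2 : 0 ≤ B * C := by positivity
    have y3 : 0 < B ^ 2 := by positivity
    have y4 : C ≤ y / B := (le_div_iff₀ B0).2 (by linarith)
    have y5 : √y ≤ y / B := by
      rw [le_div_iff₀ B0]
      calc √y * B ≤ √y * √y := by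
            gcongr
            exact Real.le_sqrt_of_sq_le (by linarith)
        _ = y := Real.mul_self_sqrt (by linarith)
    have m : ∀ v ∈ (pls K (y / B) y).filter (Ins ζ), y / B < nv v ∧ nv v ≤ y := fun v hv =>
      mem_pls.1 (mem_filter.1 hv).1
    have k1 := fun v hv => key i {v} (one v (y4.trans_lt (m v hv).1))
    have inj : ∀ v ∈ (pls K (y / B) y).filter (Ins ζ), ∀ w ∈ (pls K (y / B) y).filter (Ins ζ),
        sp (tg i (eI {v})) = sp (tg i (eI {w})) → v = w := fun v hv w hw e => by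
      obtain ⟨a, -, -, -, -, b5, -⟩ := k1 v hv
      obtain ⟨a', b1, -, -, -, b5', -⟩ := k1 w hw
      rw [← prI_sp, e, prI_sp, b5'] at b5
      rcases mem_union.1 (b5 ▸ mem_union_left a (mem_singleton_self v)) with h | h
      · exact mem_singleton.1 h
      · exact absurd ((a1 i v (b1 h)).2.2.trans c2) (y4.trans_lt (m v hv).1).not_ge
    refine ⟨⟨fun t ht => ?_, fun t ht => ?_, fun t ht => ?_, fun t ht t' ht' e => ?_⟩, ?_⟩
    · obtain ⟨v, hv, rfl⟩ := mem_image.1 ht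
      obtain ⟨a, -, -, -, b4, -⟩ := k1 v hv
      exact b4
    · obtain ⟨v, hv, rfl⟩ := mem_image.1 ht
      obtain ⟨a, -, -, -, -, -, b6⟩ := k1 v hv
      refine b6.mono c2 C0 (nS_pos _).le ?_
      rw [nS, e1]
      exact (m v hv).2
    · obtain ⟨v, hv, rfl⟩ := mem_image.1 ht
      obtain ⟨a, b1, b2, b3, -⟩ := k1 v hv
      refine ⟨v, a, b1.trans ?_, b2, by rw [b3, e1], y5.trans_lt (m v hv).1, (m v hv).2⟩
      fin_cases i
      · exact subset_union_left.trans subset_union_left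
      · exact subset_union_right.trans subset_union_left
      · exact subset_union_right
    · obtain ⟨v, hv, rfl⟩ := mem_image.1 (mem_coe.1 ht)
      obtain ⟨w, hw, rfl⟩ := mem_image.1 (mem_coe.1 ht')
      rw [inj v hv w hw e]
    · rw [card_image_of_injOn fun v hv w hw e => inj v hv w hw (congrArg sp e)]
      exact (hK y ((le_max_left _ _).trans hy)).1

open PCON in
theorem j_con (c : Cx k K) (Y : Yb k K) (hCON1 : J_CON1 k K) : J_CON k K := by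
  intro ζ hζ
  obtain ⟨n₁, h1, H⟩ := hCON1 ζ hζ
  refine ⟨n₁, h1, fun n hn h2 => ?_⟩
  obtain ⟨𝒜, τ, g, C, B, c₀, y₀, a1, a2, a3, a4, a5, a6, a7, a8, a9⟩ := H n hn h2
  have d : Dt k ζ n 𝒜 τ g C B c₀ y₀ := ⟨a1, a2, a3, a4, a5, a6, a7, a8, a9⟩
  obtain ⟨C', hC'⟩ : ∃ C', C' = max C (4 + lw (𝒜 0 ∪ 𝒜 1 ∪ 𝒜 2)) := ⟨_, rfl⟩
  have c1 : C ≤ C' := hC' ▸ le_max_left _ _
  have c2 : 1 ≤ C' ^ rk k K := Real.one_le_rpow (a1.trans c1) (Nat.cast_nonneg _)
  obtain ⟨B', hB'⟩ : ∃ B', B' = C * C' ^ rk k K * C' ^ rk k K := ⟨_, rfl⟩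
  have B1 : 1 ≤ B' :=
    hB' ▸ one_le_mul_of_one_le_of_one_le (one_le_mul_of_one_le_of_one_le a1 c2) c2
  refine ⟨𝒜 0 ∪ 𝒜 1 ∪ 𝒜 2, C', B', c₀, C, a1.trans c1, by linarith, a3, fun W u A hW hu hA => ?_⟩
  have e0 := c.et_pos
  have e1 := c.et_le
  have z0 := c.cz_pos
  have z1 := c.cz_le
  have ez : et k K * cz k K ≤ et k K / 100 := by nlinarith
  obtain ⟨A', hA'⟩ : ∃ A' : ℝ, A' = A + u + Module.finrank ℤ (𝓞 K) := ⟨_, rfl⟩
  have d0 : (0 : ℝ) ≤ Module.finrank ℤ (𝓞 K) := Nat.cast_nonneg _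
  have A0 : 0 < A' := by linarith
  have lB : 0 < Real.log B := Real.log_pos (by linarith)
  obtain ⟨a, ha⟩ : ∃ a, a = et k K * cz k K / 6 := ⟨_, rfl⟩
  have a0 : 0 < a := by rw [ha]; positivity
  obtain ⟨X₀, X3, hX₀⟩ := ev_log (max (max W B) (max B' y₀)) 0 a0
  refine ⟨min (a / A') (et k K / (2 * Real.log B)), X₀, by positivity, fun X hX => ?_⟩
  have X1 : 1 ≤ X := by linarith
  have X0 : 0 < X := by linarith
  have hM := hX₀ X hX
  rw [pow_zero, mul_one, max_le_iff, max_le_iff, max_le_iff] at hM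
  have L0 : 0 ≤ Real.log X := Real.log_nonneg X1
  have mono : ∀ {s t : ℝ}, s ≤ t → X ^ s ≤ X ^ t := fun h => Real.rpow_le_rpow_of_exponent_le X1 h
  have yp : ∀ t : ℝ, t ≤ A' → (X ^ (a / A')) ^ t ≤ X ^ a := fun t ht => by
    rw [← Real.rpow_mul X0.le]
    refine mono ?_
    rw [div_mul_eq_mul_div, div_le_iff₀ A0]
    exact mul_le_mul_of_nonneg_left ht a0.le
  have qp : ∀ m : ℕ, (X ^ a) ^ m = X ^ (a * m) := fun m => by
    rw [← Real.rpow_natCast, ← Real.rpow_mul X0.le]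
  obtain ⟨b, hb⟩ : ∃ b, b = et k K * Real.log X / Real.log B := ⟨_, rfl⟩
  have bl : b * Real.log B = et k K * Real.log X := by rw [hb]; field_simp
  have b2 : 2 ≤ b := by
    have h3 := Real.log_le_log (by linarith) hM.1.2
    rw [Real.log_rpow X0] at h3
    rw [hb, le_div_iff₀ lB]
    have : 2 * a ≤ et k K := by linarith
    nlinarith
  have s : Sc k K C B B' y₀ W u X (X ^ (a / A')) (X ^ a) (Icc ⌈b⌉₊ ⌊2 * b⌋₊) := by
    refine ⟨X1, B1, hW, hM.1.1, ?_, yp u (by linarith), ?_, hM.1.2, hM.2.1, hM.2.2, ?_, ?_, ?_, ?_,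
      fun j hj => ?_⟩
    · simpa using yp 1 (by linarith)
    · simpa using yp (Module.finrank ℤ (𝓞 K)) (by linarith)
    · rw [qp]; exact mono (by push_cast; linarith)
    · rw [qp]; exact mono (by push_cast; linarith)
    · rw [qp]; exact mono (by push_cast; linarith)
    · rw [← Real.rpow_add X0, ← Real.rpow_add X0]; exact mono (by linarith)
    · have j1 : b ≤ j := Nat.ceil_le.1 (mem_Icc.1 hj).1
      have j2 : (j : ℝ) ≤ 2 * b := (Nat.le_floor_iff (by linarith)).1 (mem_Icc.1 hj).2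
      have B0 : 0 < B := by linarith
      constructor <;> rw [← Real.log_le_log_iff (by positivity) (by positivity),
        Real.log_rpow X0, Real.log_pow] <;> nlinarith
  refine ⟨_, ok d s c1 (hC' ▸ le_max_right _ _) hB', yp A (by linarith), mono (min_le_left _ _), ?_⟩
  change _ ≤ ((Icc ⌈b⌉₊ ⌊2 * b⌋₊).card : ℝ)
  have f1 := Nat.lt_floor_add_one (2 * b)
  have f2 := Nat.ceil_lt_add_one (a := b) (by linarith)
  have f3 : ⌈b⌉₊ ≤ ⌊2 * b⌋₊ + 1 := by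
    have : (⌈b⌉₊ : ℝ) ≤ ⌊2 * b⌋₊ + 1 := by linarith
    exact_mod_cast this
  rw [Nat.card_Icc, Nat.cast_sub f3]
  push_cast
  have f4 : et k K / (2 * Real.log B) * Real.log X = b / 2 := by rw [hb]; field_simp
  have f5 := mul_le_mul_of_nonneg_right (min_le_right (a / A') (et k K / (2 * Real.log B))) L0
  linarith

end Pool.Agent.P.MP_b8021b_nt.BJ
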