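import Pool.Agent.P.MP_b8021b_nt.BJ.StA

/-! Maximal isotropic subgroups for an alternating pairing with values in `ZMod 2`. -/

open scoped Classical

namespace Pool.Agent.P.MP_b8021b_nt.BJ

namespace JGRP0

variable {G : Type} [CommGroup G] {B : G → G → ZMod 2}

/-- the elements orthogonal to `a` -/
def orth (hm : ∀ a x y, B a (x * y) = B a x + B a y) (a : G) : Subgroup G :=
  (MonoidHom.mk' (fun x => Multiplicative.ofAdd (B a x)) (fun x y => by rw [hm, ofAdd_add])).ker

lemma mem_orth (hm : ∀ a x y, B a (x * y) = B a x + B a y) (a x : G) :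
    x ∈ orth hm a ↔ B a x = 0 := by
  simp [orth, MonoidHom.mem_ker]

lemma iso (hs : ∀ a c, B a c = B c a) (hm : ∀ a x y, B a (x * y) = B a x + B a y) (S : Set G)
    (h : ∀ a ∈ S, ∀ c ∈ S, B a c = 0) :
    ∀ a ∈ Subgroup.closure S, ∀ c ∈ Subgroup.closure S, B a c = 0 := by
  have h1 : ∀ a ∈ S, ∀ c ∈ Subgroup.closure S, B a c = 0 := fun a ha c hc =>
    (mem_orth hm a c).1
      ((Subgroup.closure_le (orth hm a)).2 (fun x hx => (mem_orth hm a x).2 (h a ha x hx)) hc)
  intro a ha c hc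
  rw [hs]
  exact (mem_orth hm c a).1 ((Subgroup.closure_le (orth hm c)).2
    (fun x hx => (mem_orth hm c x).2 (by rw [hs]; exact h1 x hx c hc)) ha)

/-- the sign character of `ZMod 2` -/
noncomputable def sg (z : ZMod 2) : ℂˣ := if z = 0 then 1 else -1

lemma sg_add (a b : ZMod 2) : sg (a + b) = sg a * sg b := by
  have h : ∀ z : ZMod 2, z = 0 ∨ z = 1 := by decide
  have h2 : (1 : ZMod 2) + 1 = 0 := by decide
  rcases h a with rfl | rfl <;> rcases h b with rfl | rfl <;> simp [sg, h2]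

lemma sg_inj {a b : ZMod 2} (h : sg a = sg b) : a = b := by
  have h0 : ∀ z : ZMod 2, z = 0 ∨ z = 1 := by decide
  have h1 : (1 : ℂˣ) ≠ -1 := fun h => by
    have := congrArg (fun u : ℂˣ => (u : ℂ)) h
    norm_num at this
  rcases h0 a with rfl | rfl <;> rcases h0 b with rfl | rfl
  · rfl
  · exact absurd (by simpa [sg] using h) h1
  · exact absurd (by simpa [sg] using h : (-1 : ℂˣ) = 1).symm h1
  · rfl

lemma index_le (hs : ∀ a c, B a c = B c a) (hm : ∀ a x y, B a (x * y) = B a x + B a y)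
    (H W : Subgroup G) (hr : H.relIndex W ≠ 0) (hH : ∀ h ∈ H, ∀ a, B h a = 0)
    (hmax : ∀ x, (∀ w ∈ W, B x w = 0) → x ∈ W) : W.index ≤ H.relIndex W := by
  have : Finite (W ⧸ H.subgroupOf W) := Nat.finite_of_card_ne_zero hr
  let f : G → (W →* ℂˣ) := fun x =>
    MonoidHom.mk' (fun w => sg (B x w)) (fun u v => by rw [Subgroup.coe_mul, hm, sg_add])
  let F : G → (W ⧸ H.subgroupOf W →* ℂˣ) := fun x =>
    QuotientGroup.lift (H.subgroupOf W) (f x) (fun w hw => by
      have : B x w = 0 := by rw [hs]; exact hH _ (Subgroup.mem_subgroupOf.1 hw) x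
      simp [f, sg, this])
  have hF : ∀ x y, F x = F y → x⁻¹ * y ∈ W := fun x y hxy => hmax _ fun w hw => by
    have h1 : B x w = B y w := sg_inj (DFunLike.congr_fun hxy (QuotientGroup.mk (⟨w, hw⟩ : W)))
    have h2 := hm w x (x⁻¹ * y)
    rw [mul_inv_cancel_left, hs w y, hs w x, h1] at h2
    rw [hs]
    exact (add_eq_left.1 h2.symm)
  have hc : Nat.card (W ⧸ H.subgroupOf W →* ℂˣ) = H.relIndex W :=
    CommGroup.card_monoidHom_of_hasEnoughRootsOfUnity _ ℂ
  have : Finite (W ⧸ H.subgroupOf W →* ℂˣ) := Nat.finite_of_card_ne_zero (hc ▸ hr)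
  rw [← hc]
  refine Nat.card_le_card_of_injective (fun q : G ⧸ W => F q.out) fun q q' hq => ?_
  rw [← q.out_eq, ← q'.out_eq]
  exact QuotientGroup.eq.2 (hF _ _ hq)

end JGRP0

theorem j_grp0 : J_GRP0 := by
  intro G _ B H A hi hs h0 hm hH hA
  let P : Subgroup G → Prop := fun W => H ≤ W ∧ A ⊆ W ∧ ∀ a ∈ W, ∀ c ∈ W, B a c = 0
  have hex : ∃ n, ∃ W, P W ∧ W.index = n := by
    refine ⟨_, Subgroup.closure (H ∪ A), ⟨fun x hx => Subgroup.subset_closure (Or.inl hx),
      fun x hx => Subgroup.subset_closure (Or.inr hx), JGRP0.iso hs hm _ ?_⟩, rfl⟩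
    rintro a (ha | ha) c (hc | hc)
    · exact hH a ha c
    · exact hH a ha c
    · rw [hs]; exact hH c hc a
    · exact hA a ha c hc
  obtain ⟨W, hW, hn⟩ := Nat.find_spec hex
  have hmul := Subgroup.relIndex_mul_index hW.1
  have hW0 : W.index ≠ 0 := fun h => hi (by rw [← hmul, h, mul_zero])
  have hr : H.relIndex W ≠ 0 := fun h => hi (by rw [← hmul, h, zero_mul])
  have hmax : ∀ x, (∀ w ∈ W, B x w = 0) → x ∈ W := fun x hx => by
    have hle : W ≤ Subgroup.closure (insert x (W : Set G)) :=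
      fun w hw => Subgroup.subset_closure (Or.inr hw)
    have hP : P (Subgroup.closure (insert x (W : Set G))) := by
      refine ⟨hW.1.trans hle, fun a ha => hle (hW.2.1 ha), JGRP0.iso hs hm _ ?_⟩
      rintro a (rfl | ha) c (rfl | hc)
      · exact h0 _
      · exact hx c hc
      · rw [hs]; exact hx a ha
      · exact hW.2.2 a ha c hc
    have h1 : W.index ≤ (Subgroup.closure (insert x (W : Set G))).index :=
      hn ▸ Nat.find_min' hex ⟨_, hP, rfl⟩
    have h2 := Subgroup.relIndex_mul_index hle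
    have h3 : W.relIndex (Subgroup.closure (insert x (W : Set G))) = 1 := by
      rcases Nat.lt_trichotomy (W.relIndex (Subgroup.closure (insert x (W : Set G)))) 1 with
        h | h | h
      · rw [Nat.lt_one_iff.1 h, zero_mul] at h2
        exact absurd h2.symm hW0
      · exact h
      · have := Nat.pos_of_ne_zero hW0
        nlinarith
    exact Subgroup.relIndex_eq_one.1 h3 (Subgroup.subset_closure (Or.inl rfl))
  refine ⟨W, hW.1, hW.2.1, hW.2.2, ?_⟩
  rw [← hmul, sq]
  exact Nat.mul_le_mul_right _ (JGRP0.index_le hs hm H W hr hH hmax)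

end Pool.Agent.P.MP_b8021b_nt.BJ
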