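import Pool.Agent.P.MP_b8021b_nt.BJ.StA
import Pool.Agent.P.MP_b8021b_nt.BS.CF.PChi

/-! The two cases for the norm of the radicand. -/

namespace Pool.Agent.P.MP_b8021b_nt.BJ

open NumberField IsDedekindDomain Finset MeasureTheory
open Pool.Agent.P.MP_b8021b_nt.VE Pool.Agent.P.MP_b8021b_nt.VC Pool.Agent.P.MP_b8021b_nt.BS.CF
open Pool.Agent.P.MP_b8021b_nt.BS Pool.Agent.P.MP_b8021b_nt.BP
open scoped Classical ComplexConjugate Real

namespace JHA2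

variable {L M : Type} [Field L] [NumberField L] [Field M] [NumberField M] [Algebra L M]
  [IsGalois L M] {ι y : 𝓞 L} {β u : M} {ψ : Ideal (𝓞 L) →* ℂ} {n : ℕ}

theorem common (h : QX) (hQB2 : J_QB2) (hUNR : J_UNR) (hι : ι ^ 2 = -1) (d : HD y β u ψ n)
    {a : L} {η : M} (ha : a ≠ 0) (hη : η ≠ 0)
    (ev : ∀ w : Pl M, ¬ Dv n w → Even (od w (algebraMap L M a * η ^ 2))) :
    ∃ (φ : Ideal (𝓞 L) →* ℂ) (j : ℕ), 1 ≤ j ∧ RC (n ^ j) φ ∧
      (∀ v : Pl L, ¬ Dv n v → φ v.asIdeal ^ 2 = leg y v) ∧ ∀ w : Pl M, ¬ Dv n w →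
        nrm M φ w.asIdeal = lq u w * lq (algebraMap L M a * η ^ 2) w := by
  have hL := om_of hι
  have n2 : ∀ v : Pl L, ¬ Dv n v → ¬ Dv 2 v := fun v hv e => hv (e.of_dvd d.ev)
  have eva : ∀ v : Pl L, ¬ Dv n v → Even (od v a) := by
    intro v hv
    obtain ⟨w, hw⟩ := (h.ex L M).2.1 v
    have e := ev w fun e => hv ((Und_dv hw).1 e)
    have ey : Even (od v (y : L)) := by
      rw [od_eq_zero_of_vl v ((vl_coe_eq v y).2 (d.unit v hv))]
      exact Even.zero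
    rw [od_mul w (by simpa using ha) (pow_ne_zero 2 hη), od_pow,
      hUNR L M y β v w hL d.kum (n2 v hv) ey hw a] at e
    exact (Int.even_add.1 e).2 (by simp)
  obtain ⟨j, χ, hj, hχ, val, -⟩ := h.chi L n a hL d.two d.ev ha fun v hv => (eva v hv).two_dvd
  have hφ : ∀ v : Pl L, ¬ Dv n v →
      (ψ * triv L (n ^ j) * χ) v.asIdeal = ψ v.asIdeal * lq a v := fun v hv => by
    rw [MonoidHom.mul_apply, mul_triv fun e => hv ((dv_pow v hj).1 e), val v hv, lq]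
  refine ⟨ψ * triv L (n ^ j) * χ, j, hj, (d.rc.mono (dvd_pow_self n (by omega))).mul hχ,
    fun v hv => ?_, fun w hw => ?_⟩
  · rw [hφ v hv, mul_pow, lq_sq, mul_one, d.sq v hv]
  · obtain ⟨v, -, -, hu, -⟩ := (h.ex L M).1 w
    have hv : ¬ Dv n v := fun e => hw ((Und_dv hu).2 e)
    obtain ⟨f, -, e1, e2, -⟩ := (h.ex L M).2.2.1 v w hu
    have e3 := (d.val w hw).2
    rw [nrm_apply, e1, map_pow] at e3
    rw [nrm_apply, e1, map_pow, hφ v hv, mul_pow, e3, lq_mul_lp (lp_sq w hη),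
      (hQB2 L M ι v w f hι (n2 v hv) hu e2).2 a ha (eva v hv)]

end JHA2

open JHA2

theorem j_ha2 (h : QX) (hQB2 : J_QB2) (hUNR : J_UNR) (hH90 : J_H90) : J_HA2 := by
  intro L M _ _ _ _ _ _ y β u ψ n hL d hs
  obtain ⟨ι, hι⟩ := ex_iota hL
  obtain ⟨a, η, ha, hη, e⟩ := (hH90 L M y β d.kum).2 u d.ne hs
  obtain ⟨φ, j, hj, -, h1, h2⟩ := common h hQB2 hUNR hι d ha hη fun w hw => e ▸ (d.val w hw).1
  have hM : IsTriv (n ^ j) (nrm M φ) :=
    isTriv_of_prime (d.two.trans (Nat.le_self_pow (by omega) n)) fun w hw => by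
      rw [h2 w fun e' => hw ((dv_pow w hj).2 e'), ← e, ← sq, lq_sq]
  obtain ⟨v, -, hv, hl⟩ := h.c1 L 2 n y hL (Or.inl rfl) (by have := d.two; omega) d.kum.np
  have e1 := ChiP.sq_one d.kum.fin hM ((cop_prime_iff v).2 fun e' => hv ((dv_pow v hj).1 e'))
  rw [h1 v hv, (leg_eq_neg_iff (fun e' => hv (e'.of_dvd d.ev)) (d.unit v hv)).2 hl] at e1
  norm_num at e1

theorem j_ha3 (h : QX) (hQB1 : J_QB1) (hQB2 : J_QB2) (hUNR : J_UNR) (hH90 : J_H90) : J_HA3 := by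
  intro L M _ _ _ _ _ _ ι y β u ψ n hι d hs
  have hL := om_of hι
  have hy : y ≠ 0 := fun e => d.kum.np ⟨0, by simp [e]⟩
  have hB : ∃ B : 𝓞 M, (B : M) = β ∧ B ^ 2 = algebraMap (𝓞 L) (𝓞 M) y := by
    have e := d.kum.pow
    rw [← coe_map] at e
    exact ⟨⟨β, IsIntegral.of_pow (n := 2) (by norm_num)
      (e ▸ RingOfIntegers.isIntegral_coe _)⟩, rfl, RingOfIntegers.ext (by simpa using e)⟩
  obtain ⟨B, rfl, hB⟩ := hB
  have hBw : ∀ w : Pl M, ¬ Dv n w → B ∉ w.asIdeal := by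
    intro w hw e
    obtain ⟨v, -, -, hu, -⟩ := (h.ex L M).1 w
    refine d.unit v (fun e => hw ((Und_dv hu).2 e)) ((Und_mem hu y).1 ?_)
    rw [← hB]
    exact Ideal.pow_mem_of_mem _ e 2 (by norm_num)
  have hB0 : (B : M) ≠ 0 := by
    intro e
    have e1 := d.kum.pow
    rw [e, zero_pow two_ne_zero, eq_comm, map_eq_zero] at e1
    exact hy (by simpa using e1)
  have hod : ∀ w : Pl M, ¬ Dv n w → od w (B : M) = 0 := fun w hw =>
    od_eq_zero_of_vl w ((vl_coe_eq w B).2 (hBw w hw))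
  obtain ⟨hN, h90⟩ := hH90 L M y B d.kum
  obtain ⟨a, η, ha, hη, e⟩ := h90 (u * B) (mul_ne_zero d.ne hB0) (by
    obtain ⟨r, hr⟩ := hs
    obtain ⟨i, hi⟩ := hL
    refine ⟨i * r, ?_⟩
    rw [map_mul, hN]
    linear_combination -hr - r * r * hi)
  obtain ⟨φ, j, hj, hφ, h1, h2⟩ := common h hQB2 hUNR hι d ha hη fun w hw => by
    rw [← e, od_mul w d.ne hB0, hod w hw, add_zero]
    exact (d.val w hw).1
  have k : ∀ v : Pl L, ¬ Dv (n ^ j) v → ¬ Dv n v := fun v hv e' => hv ((dv_pow v hj).2 e')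
  refine ⟨φ, j, hj, d.two.trans (Nat.le_self_pow (by omega) n),
    d.ev.trans (dvd_pow_self n (by omega)), hy, hφ, fun v hv => d.unit v (k v hv),
    fun v hv => h1 v (k v hv), fun v hv hl => ?_⟩
  have hv' := k v hv
  have v2 : ¬ Dv 2 v := fun e' => hv' (e'.of_dvd d.ev)
  obtain ⟨w, hw⟩ := ((h.kp L M 2 y B hL (Or.inl rfl) d.kum v).2.1 v2
    ((leg_eq_one_iff_LP v2 (d.unit v hv')).1 hl)).1
  obtain ⟨hu, hf⟩ := split_of h.ex hw
  have wn : ¬ Dv n w := fun e' => hv' ((Und_dv hu).1 e')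
  have w2 : ¬ Dv 2 w := fun e' => wn (e'.of_dvd d.ev)
  have e1 := h2 w wn
  rw [nrm_apply, hw, ← e, lq_mul h.res w2 d.ne hB0 (d.val w wn).1 (by rw [hod w wn]; simp),
    ← mul_assoc, ← sq, lq_sq, one_mul, lq_coe w2 (hBw w wn),
    ← (hQB1 M _ w (iota_map hι) w2).2.2.2.2.2 B, hB,
    ((hQB2 L M ι v w 1 hι v2 hu hf).1 y).1, pow_one] at e1
  exact e1

end Pool.Agent.P.MP_b8021b_nt.BJ
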