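import Pool.Agent.P.MP_b8021b_nt.BJ.StA

/-! Finiteness of the group of points from the Selmer conditions. -/

namespace Pool.Agent.P.MP_b8021b_nt.BJ

open NumberField IsDedekindDomain Finset MeasureTheory
open Pool.Agent.P.MP_b8021b_nt.VE Pool.Agent.P.MP_b8021b_nt.VC Pool.Agent.P.MP_b8021b_nt.BS.CF
open Pool.Agent.P.MP_b8021b_nt.BS Pool.Agent.P.MP_b8021b_nt.BP
open scoped Classical ComplexConjugate Real
variable {k : Type} [Field k] [NumberField k] [Algebra k ℂ] {K : Type} [Field K] [NumberField K]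
  [Algebra k K]

set_option linter.unusedVariables false

theorem j_ufa (c : Cx k K) (Y : Yb k K) (hVAL : J_VAL K) (hLIN : J_LIN K) : J_UFA K := by
  intro s T Γ hO he hz h2 hV hT hΓ hΓs hUnr
  have k0 := hO.t0
  have k1 := hT.1
  have t0 : s.t₀ * T ≠ 0 := mul_ne_zero k0 k1
  have z0 := hO.md.ne
  have b0 : -(s.ζ * (s.t₀ * T) ^ 2) ≠ 0 := by simp [z0, k0, k1]
  refine c.fin _ b0 fun x y h hx => ?_
  have e : y ^ 2 = x ^ 3 - s.ζ * (s.t₀ * T) ^ 2 * x := by rw [h]; ring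
  have hy : y ≠ 0 := by
    rintro rfl
    refine hz ⟨x / (s.t₀ * T), ?_⟩
    have : x * (x ^ 2 - s.ζ * (s.t₀ * T) ^ 2) = 0 := by linear_combination -e
    have h1 := (mul_eq_zero.1 this).resolve_left hx
    field_simp
    linear_combination -h1
  obtain ⟨val1, val2⟩ := hVAL s.ζ _ x y t0 hx e
  have n2 : ∀ v : Pl K, ¬ Dv s.m v → ¬ Dv 2 v := fun v hv h => hv (h.of_dvd hO.md.ev)
  have hL : s.𝓛 x := hO.grp.loc x hx
    (val2 s.m hy fun v hv => (h2 v hv).mul (hT.2 v (Or.inl hv)))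
  have lV : ∀ v ∈ s.V, Lin s.ζ v s.t₀ x := fun v hv => by
    obtain ⟨a1, a2, a3⟩ := hO.vs v hv
    have ho : Odd (od v (s.t₀ * T)) := by
      rw [od_mul v k0 k1]
      exact a3.add_even (lp_even (hT.2 v (Or.inr hv)))
    exact (lin_left (hT.2 v (Or.inr hv))).1
      ((hLIN s.ζ _ v (n2 v a1) a2 (hO.md.unit v a1) t0 ho).1 x y hx e)
  have lΓ : ∀ v ∈ Γ, Lin s.ζ v (s.t₀ * T) x := fun v hv => by
    obtain ⟨a1, a2, a3⟩ := hΓs v hv
    have ho : Odd (od v (s.t₀ * T)) := by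
      rw [od_mul v k0 k1]
      exact (Int.not_odd_iff_even.1 fun h => a2 ((hV v a1 a3).1 h)).add_odd ((hΓ v a1 a3).2 hv)
    exact (hLIN s.ζ _ v (n2 v a1) a3 (hO.md.unit v a1) t0 ho).1 x y hx e
  have hD : ∀ v, ¬ Dv s.m v → v ∉ s.V →
      (Odd (od v x) ↔ v ∈ Γ.filter fun w => Odd (od w x)) := by
    intro v hv hn
    refine ⟨fun ho => mem_filter.2 ⟨?_, ho⟩, fun h => (mem_filter.1 h).2⟩
    obtain ⟨h1, h3, -⟩ := val1 v (n2 v hv) z0 (hO.md.unit v hv)
    have hs : LP 2 v s.ζ := by_contra fun hp => Int.not_odd_iff_even.2 (h3 hp) ho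
    refine (hΓ v hv hs).1 (Int.not_even_iff_odd.1 fun he => Int.not_odd_iff_even.2 (h1 ?_) ho)
    rw [od_mul v k0 k1]
    exact (Int.not_odd_iff_even.1 fun h => hn ((hV v hv hs).1 h)).add he
  have hR : s.Rel (Γ.filter fun w => Odd (od w x)) x := ⟨hL, hD, lV⟩
  rw [hUnr _ x (filter_subset _ _) hR lΓ] at hR
  refine (hO.kill x hR).imp_right ?_
  obtain ⟨i, hi⟩ := c.om
  rw [he]
  rintro ⟨r, hr⟩
  exact ⟨i * (s.t₀ * T) * r, by
    linear_combination (-(s.t₀ * T) ^ 2) * hr - ((s.t₀ * T) * r) ^ 2 * hi⟩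

theorem j_ufb0 (c : Cx k K) (Y : Yb k K) (hVAL : J_VAL K) (hLIN : J_LIN K) (hRELM : J_RELM K)
    (hRECB : J_RECB K) (hFIN2 : J_FIN2 K) : J_UFB0 K := by
  intro s T t Λ D p p' hO hz h2 hV hT ht hpp hp hp' hOut hTo hto hOne hodd
  have k0 := hO.t0
  have k1 := hT.1
  have t0 : s.t₀ * T ≠ 0 := mul_ne_zero k0 k1
  refine hFIN2 _ t0 fun x y h hx hy => ?_
  have e : y ^ 2 = x ^ 3 - s.ζ * (s.t₀ * T) ^ 2 * x := by rw [h, hz, one_mul]
  obtain ⟨val1, val2⟩ := hVAL s.ζ _ x y t0 hx e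
  have n2 : ∀ v : Pl K, ¬ Dv s.m v → ¬ Dv 2 v := fun v hv h => hv (h.of_dvd hO.md.ev)
  have lz : ∀ v : Pl K, LP 2 v s.ζ := fun v => hz ▸ LP.one v two_ne_zero
  have lm : ∀ v, Dv s.m v → LP 2 v (s.t₀ * T) := fun v hv => (h2 v hv).mul (hT.2 v (Or.inl hv))
  have H := fun v (hv : ¬ Dv s.m v) => hLIN s.ζ _ v (n2 v hv) (lz v) (hO.md.unit v hv) t0
  have oV : ∀ v ∈ s.V, Odd (od v (s.t₀ * T)) := fun v hv => by
    rw [od_mul v k0 k1]
    exact (hO.vs v hv).2.2.add_even (lp_even (hT.2 v (Or.inr hv)))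
  have oS : ∀ v, ¬ Dv s.m v → v ∉ s.V →
      (Odd (od v (s.t₀ * T)) ↔ v ∈ insert p (insert p' Λ)) := fun v hv hn => by
    have : Even (od v s.t₀) := Int.not_odd_iff_even.1 fun h => hn ((hV v hv).1 h)
    rw [od_mul v k0 k1, ← hTo v hv hn, Int.odd_add']
    simp only [this, iff_true]
  have oS' : ∀ v ∈ insert p (insert p' Λ), Odd (od v (s.t₀ * T)) := fun v hv =>
    (oS v (hOut v hv).1 (hOut v hv).2.1).2 hv
  have mp : p ∈ insert p (insert p' Λ) := mem_insert_self _ _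
  have mp' : p' ∈ insert p (insert p' Λ) := mem_insert_of_mem (mem_insert_self _ _)
  have mΛ : Λ ⊆ insert p (insert p' Λ) := fun v hv => mem_insert_of_mem (mem_insert_of_mem hv)
  obtain ⟨dΛ, -, a, ra, la, one⟩ := hOne
  have rt : s.Rel {p} t := (hRELM s hO).2.1 {p} t ht fun v a b => by rw [hto v a b, mem_singleton]
  have na : ¬ LP 2 p a := fun lp => by
    have := (hRECB s hO D {p} a t ra rt).2 (disjoint_singleton_right.2 fun h => hp (dΛ h))
      fun v hv => by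
        have hv' : v ∈ insert p (insert p' Λ) := by
          rcases mem_union.1 hv with h | h
          · exact mΛ (dΛ h)
          · rw [mem_singleton.1 h]; exact mp
        exact ⟨(hOut v hv').1, (hOut v hv').2.1⟩
    rw [filter_singleton, if_neg (not_not.2 lp), card_empty, zero_add] at this
    exact Nat.not_odd_iff_even.2 this hodd
  have ea : Even (od p a) := Int.not_odd_iff_even.1 fun h =>
    hp (dΛ ((ra.2.1 p (hOut p mp).1 (hOut p mp).2.1).1 h))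
  have key : ∀ c, s.𝓛 c → (∀ v, ¬ Dv s.m v → Odd (od v (s.t₀ * T)) → Lin s.ζ v (s.t₀ * T) c) →
      (∀ v, ¬ Dv s.m v → Even (od v (s.t₀ * T)) → Even (od v c)) → Even (od p' c) →
      IsSquare c := by
    intro c c1 c2 c3 c4
    have c0 := hO.grp.ne c c1
    have lS : ∀ v ∈ insert p (insert p' Λ), Lin s.ζ v (s.t₀ * T) c := fun v hv =>
      c2 v (hOut v hv).1 (oS' v hv)
    have rc : s.Rel ((insert p (insert p' Λ)).filter fun w => Odd (od w c)) c := by
      refine ⟨c1, fun v hv hn => ⟨fun ho => mem_filter.2 ⟨(oS v hv hn).1 ?_, ho⟩,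
        fun h => (mem_filter.1 h).2⟩, fun v hv => (lin_left (hT.2 v (Or.inr hv))).1
          (c2 v (hO.vs v hv).1 (oV v hv))⟩
      exact Int.not_even_iff_odd.1 fun he => Int.not_odd_iff_even.2 (c3 v hv he) ho
    have sm := (hRECB s hO D _ a c ra rc).1 _ (dΛ.trans mΛ) (filter_subset _ _)
      fun v hv => ⟨(hOut v hv).1, (hOut v hv).2.1⟩
    rw [sum_insert (by simp [hpp, hp]), sum_insert hp',
      RecP.sy_lp a ((H p' (hOut p' mp').1 (oS' p' mp')).2.2.1 c (lS p' mp') c4),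
      sum_eq_zero fun v hv => ((H v (hOut v (mΛ hv)).1 (oS' v (mΛ hv))).2.1 a c (la v hv)
        (lS v (mΛ hv))).2, add_zero, add_zero] at sm
    have ec : Even (od p c) := by_contra fun h => by
      rw [RecP.sy_eo (n2 p (hOut p mp).1) ea.two_dvd fun d => h (even_iff_two_dvd.2 d),
        if_neg na] at sm
      exact one_ne_zero sm
    have lc : LP 2 p c := (H p (hOut p mp).1 (oS' p mp)).2.2.1 c (lS p mp) ec
    refine (one _ c (fun v hv => ?_) rc fun v hv => lS v (mΛ hv)).resolve_right fun h =>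
      na ((lp_mul_iff lc).1 (lp_of_isSquare p (mul_ne_zero (hO.grp.ne a ra.1) c0) h))
    obtain ⟨h1, h3⟩ := mem_filter.1 hv
    rcases mem_insert.1 h1 with rfl | h1
    · exact absurd h3 (Int.not_odd_iff_even.2 ec)
    rcases mem_insert.1 h1 with rfl | h1
    · exact absurd h3 (Int.not_odd_iff_even.2 c4)
    exact h1
  have hL : s.𝓛 x := hO.grp.loc x hx (val2 s.m hy lm)
  have lx : ∀ v, ¬ Dv s.m v → Odd (od v (s.t₀ * T)) → Lin s.ζ v (s.t₀ * T) x := fun v hv ho =>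
    (H v hv ho).1 x y hx e
  have ex : ∀ v, ¬ Dv s.m v → Even (od v (s.t₀ * T)) → Even (od v x) := fun v hv =>
    (val1 v (n2 v hv) hO.md.ne (hO.md.unit v hv)).1
  rcases Int.even_or_odd (od p' x) with he | ho
  · exact Or.inl (key x hL lx ex he)
  refine Or.inr (key _ (hO.grp.mul _ _ (hO.grp.lp _ t0 lm) hL) (fun v hv hv' =>
    ((H v hv hv').2.1 _ _ (Or.inr ⟨1, by simp [hz], ?_⟩) (lx v hv hv')).1) (fun v hv hv' => ?_) ?_)
  · rw [mul_one, ← sq]
    exact lp_sq v t0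
  · rw [od_mul v t0 hx]
    exact hv'.add (ex v hv hv')
  · rw [od_mul p' t0 hx]
    exact (oS' p' mp').add_odd ho

end Pool.Agent.P.MP_b8021b_nt.BJ
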