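import Pool.Agent.P.MP_b8021b_nt.BJ.StS

/-! Interface statements: the first moment, the families and the conclusion. -/

namespace Pool.Agent.P.MP_b8021b_nt.BJ

open NumberField IsDedekindDomain Finset MeasureTheory
open Pool.Agent.P.MP_b8021b_nt.VE Pool.Agent.P.MP_b8021b_nt.VC Pool.Agent.P.MP_b8021b_nt.BS.CF
open Pool.Agent.P.MP_b8021b_nt.BS Pool.Agent.P.MP_b8021b_nt.BP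
open scoped Classical ComplexConjugate Real

section Field

variable (K : Type) [Field K] [NumberField K]

/-- the bilinear form and two mean squares -/
def J_BIL0 : Prop :=
  ∀ (n : ℕ) (T₁ T₂ : Finset (𝓞 K)) (a₁ a₂ : 𝓞 K → ℂ) (F : PF K) (Γ : Finset (Pl K))
    (c : Finset (Pl K) → ℂ) (𝒮 : Finset (Finset (Pl K))) (𝒩 : Finset (Ideal (𝓞 K)))
    (Δ₁ Δ₂ κ : ℝ), Adg n Γ a₁ a₂ F c → MS T₁ 𝒩 Δ₁ → MS T₂ 𝒩 Δ₂ → 0 ≤ κ → (∀ S ∈ 𝒮, ‖c S‖ ≤ κ) →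
    ((∀ S ∈ 𝒮, c S ≠ 0 → ∀ D ⊆ Γ, eI (D ∪ S) ∈ 𝒩) → ‖bg T₁ T₂ a₁ a₂ F Γ c 𝒮‖ ≤ κ * √(Δ₁ * Δ₂)) ∧
    ((∀ S ∈ 𝒮, c S ≠ 0 → eI S ∈ 𝒩) →
      ‖bg T₁ T₂ a₁ a₂ F Γ c 𝒮‖ ≤ 2 ^ Γ.card * κ * √(Δ₁ * Δ₂))

/-- the smooth parts carry a positive proportion of the mass -/
def J_CB2 : Prop :=
  ∀ N : ℕ, 2 ≤ N → ∃ κ y₀ : ℝ, 0 < κ ∧ ∀ (ζ : K) (W y u yq : ℝ), y₀ ≤ yq → y ≤ yq → W ≤ yq →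
    (∀ v : Pl K, Dv N v → nv v ≤ W) →
    κ * Z0 (pls K W y ∪ pls K yq (yq ^ 4)) ≤ Z0 (pls K W y) ∧
    ∃ (σ : Finset (Pl K) → Finset (Pl K)) (ρ ρ' : Finset (Pl K) → Pl K),
      (∀ s ∈ S3 N ζ W y u yq, σ s ∈ TT K W y u ∧ ρ s ∈ QI ζ yq ∧ ρ' s ∈ pls K (yq ^ 2) (yq ^ 4) ∧
        s = insert (ρ' s) (insert (ρ s) (σ s)) ∧ ρ s ∉ σ s ∧ ρ' s ∉ insert (ρ s) (σ s)) ∧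
      ∀ (G : Finset (Pl K) → Pl K → ℝ) (H : Finset (Pl K) → ℝ),
        (∀ s ∈ S3 N ζ W y u yq, 0 ≤ H s ∧ G (σ s) (ρ s) ≤ H s) →
        κ * ∑ S ∈ TT K W y u, ∑ q ∈ QI ζ yq, (nS S * nv q)⁻¹ * G S q ≤
          ∑ s ∈ S3 N ζ W y u yq, (nS s)⁻¹ * H s

/-- the theorem -/
def J_TOP : Prop :=
  ∀ ζ : 𝓞 K, ζ ≠ 0 → ∃ c X₀ : ℝ, 0 < c ∧ ∀ X, X₀ ≤ X →
    c * X ≤ Set.ncard {I : Ideal (𝓞 K) | Squarefree I ∧ NN I ≤ X ∧ ∃ (t : 𝓞 K) (J : Ideal (𝓞 K)),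
      t ≠ 0 ∧ sp t = I * J ^ 2 ∧ Finite (Wb (-((ζ : K) * t ^ 2))).toAffine.Point ∧
        AnZero (Wb (-((ζ : K) * t ^ 2)))}

end Field

section Rel

variable (k : Type) [Field k] [NumberField k] [Algebra k ℂ] (K : Type) [Field K] [NumberField K]
  [Algebra k K]

/-! ### the first case -/

/-- the blocks -/
def J_CON1 : Prop :=
  ∀ ζ : K, ¬ IsSquare ζ → ∃ n₁ : ℕ, n₁ ≠ 0 ∧ ∀ n : ℕ, n₁ ∣ n → 2 ≤ n →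
    ∃ (𝒜 : Fin 3 → Finset (Pl K)) (τ : Finset (Pl K) → 𝓞 K) (g : Fin 3 → Pl K → 𝓞 K)
      (C B c y₀ : ℝ), 1 ≤ C ∧ 2 ≤ B ∧ 0 < c ∧ (∀ v : Pl K, Dv n v → nv v ≤ C) ∧
      (∀ i, ∀ v ∈ 𝒜 i, Ins ζ v ∧ nv v ≤ C) ∧ (∀ i j, i ≠ j → Disjoint (𝒜 i) (𝒜 j)) ∧
      (∀ S : Finset (Pl K), (∀ v ∈ S, C < nv v) → Pri (n ^ 2) (τ S) ∧ Bal k C (NN (sp (τ S))) (τ S) ∧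
        S ⊆ pr (τ S) ∧ pr (τ S) ⊆ S ∪ 𝒜 0 ∧ NN (sp (τ S)) ≤ C * nS S) ∧
      (∀ i v, C < nv v → g i v ≠ 0 ∧ v ∈ pr (g i v) ∧ pr (g i v) ⊆ insert v (𝒜 i)) ∧
      ∀ i y, y₀ ≤ y → Blk k n (𝒜 0 ∪ 𝒜 1 ∪ 𝒜 2) C y
          (((pls K (y / B) y).filter (Ins ζ)).image (g i)) ∧
        c * y / Real.log y ≤ (((pls K (y / B) y).filter (Ins ζ)).image (g i)).card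

/-- the family -/
def J_CON : Prop :=
  ∀ ζ : K, ¬ IsSquare ζ → ∃ n₁ : ℕ, n₁ ≠ 0 ∧ ∀ n : ℕ, n₁ ∣ n → 2 ≤ n →
    ∃ (𝒜 : Finset (Pl K)) (C B c W₀ : ℝ), 1 ≤ C ∧ 0 < B ∧ 0 < c ∧ ∀ W u A : ℝ, W₀ ≤ W → 1 ≤ u →
      1 ≤ A → ∃ c₁ X₀ : ℝ, 0 < c₁ ∧ ∀ X, X₀ ≤ X → ∃ Φ : Fm K, Φ.Ok k ζ n 𝒜 C B c W u X ∧
        Φ.y ^ A ≤ Φ.yq ∧ X ^ c₁ ≤ Φ.y ∧ c₁ * Real.log X ≤ Φ.𝒥.card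

/-- many good twists, first case -/
def J_NVA : Prop := ∀ ζ : 𝓞 K, ¬ IsSquare (ζ : K) → NVT k ζ

/-! ### the second case -/

/-- the short range -/
def J_BIL1 : Prop :=
  ∀ (n : ℕ) (𝒜 : Finset (Pl K)) (C₀ : ℝ), Good K n → ∃ C X₀ : ℝ, 1 ≤ C ∧ ∀ (X R y₁ y₂ : ℝ)
    (Γ : Finset (Pl K)) (T₁ T₂ : Finset (𝓞 K)) (a₁ a₂ : 𝓞 K → ℂ) (F : PF K)
    (c : Finset (Pl K) → ℂ) (𝒮 : Finset (Finset (Pl K))), X₀ ≤ X → 1 ≤ R →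
    Pair k n 𝒜 C₀ X Γ y₁ y₂ T₁ T₂ → Adg n Γ a₁ a₂ F c →
    (∀ S ∈ 𝒮, R < nS S ∧ nS S ≤ X ^ (et k K * cz k K / 2)) →
    ‖bg T₁ T₂ a₁ a₂ F Γ c 𝒮‖ ≤ C * R ^ (-(1 / 4 : ℝ)) * (y₁ * y₂ / Real.log X ^ 2)

/-- a dyadic block in the middle range -/
def J_BIL2 : Prop :=
  ∀ (n : ℕ) (𝒜 : Finset (Pl K)) (C₀ : ℝ), Good K n → ∃ δ C X₀ : ℝ, 0 < δ ∧ 1 ≤ C ∧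
    ∀ (X N y₁ y₂ : ℝ) (Γ : Finset (Pl K)) (T₁ T₂ : Finset (𝓞 K)) (a₁ a₂ : 𝓞 K → ℂ)
    (F : PF K) (c : Finset (Pl K) → ℂ) (𝒮 : Finset (Finset (Pl K))), X₀ ≤ X →
    Pair k n 𝒜 C₀ X Γ y₁ y₂ T₁ T₂ → Adg n Γ a₁ a₂ F c → X ^ (et k K * cz k K / 2) ≤ N →
    2 * N ≤ √y₁ → (∀ S ∈ 𝒮, N < nS S ∧ nS S ≤ 2 * N) →
    ‖bg T₁ T₂ a₁ a₂ F Γ c 𝒮‖ ≤ C * X ^ (-δ) * (y₁ * y₂)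

/-- a dyadic block in the long range -/
def J_BIL3 : Prop :=
  ∀ (n : ℕ) (𝒜 : Finset (Pl K)) (C₀ : ℝ), Good K n → ∃ δ C X₀ : ℝ, 0 < δ ∧ 1 ≤ C ∧
    ∀ (X N y₁ y₂ : ℝ) (Γ : Finset (Pl K)) (T₁ T₂ : Finset (𝓞 K)) (a₁ a₂ : 𝓞 K → ℂ)
    (F : PF K) (c : Finset (Pl K) → ℂ) (𝒮 : Finset (Finset (Pl K))), X₀ ≤ X →
    Pair k n 𝒜 C₀ X Γ y₁ y₂ T₁ T₂ → Adg n Γ a₁ a₂ F c → √y₁ ≤ 2 * N →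
    N ≤ X ^ (1 / 2 + et k K / 10) → (∀ S ∈ 𝒮, N < nS S ∧ nS S ≤ 2 * N) →
    ‖bg T₁ T₂ a₁ a₂ F Γ c 𝒮‖ ≤ C * X ^ (-δ) * (y₁ * y₂)

/-- all large indices -/
def J_BIL : Prop :=
  ∀ (n : ℕ) (𝒜 : Finset (Pl K)) (C₀ : ℝ), Good K n → ∃ C : ℝ, 1 ≤ C ∧ ∀ R : ℝ, 1 ≤ R → ∃ X₀ : ℝ,
    ∀ (X y₁ y₂ : ℝ) (Γ : Finset (Pl K)) (T₁ T₂ : Finset (𝓞 K)) (a₁ a₂ : 𝓞 K → ℂ)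
    (F : PF K) (c : Finset (Pl K) → ℂ) (𝒮 : Finset (Finset (Pl K))), X₀ ≤ X →
    Pair k n 𝒜 C₀ X Γ y₁ y₂ T₁ T₂ → Adg n Γ a₁ a₂ F c →
    (∀ S ∈ 𝒮, R < nS S ∧ nS S ≤ X ^ (1 / 2 + et k K / 10)) →
    ‖bg T₁ T₂ a₁ a₂ F Γ c 𝒮‖ ≤ C * R ^ (-(1 / 4 : ℝ)) * (y₁ * y₂ / Real.log X ^ 2)

/-- the large indices in the first moment -/
def J_LG : Prop :=
  ∀ (n : ℕ) (𝒜 : Finset (Pl K)) (h : ℝ → ℂ) (C₀ C₁ : ℝ) (j : ℕ), Good K n → FR h → 0 ≤ C₁ →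
    ∃ C : ℝ, 1 ≤ C ∧ ∀ R : ℝ, 1 ≤ R → ∃ X₀ : ℝ, ∀ (X y₁ y₂ : ℝ) (χ Ψ : Ideal (𝓞 K) →* ℂ)
    (Γ : Finset (Pl K)) (τ : 𝓞 K) (T₁ T₂ : Finset (𝓞 K)) (F : PF K) (H : ℝ → ℂ)
    (u₁ u₂ : 𝓞 K → ℝ → ℂ) (𝒮 : Finset (Finset (Pl K))), X₀ ≤ X → Ch n χ → Ch n Ψ →
    (∀ a b, ‖EvP χ Ψ (el k K X) a b (PP K (el k K X))‖ ≤ C₁ * (1 + |a| + |b|) ^ j) →
    Cell k n 𝒜 C₀ X Γ τ y₁ y₂ T₁ T₂ → ∑ D ∈ P2 Γ, F D ^ 2 ≤ 1 → Continuous H →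
    (∀ b, ‖H b‖ ≤ C₁ * ‖h b‖) → (∀ t ∈ T₁, Continuous (u₁ t) ∧ ∀ b, ‖u₁ t b‖ ≤ 1) →
    (∀ t ∈ T₂, Continuous (u₂ t) ∧ ∀ b, ‖u₂ t b‖ ≤ 1) →
    (∀ S ∈ 𝒮, S ⊆ PP K (el k K X) ∧ R < nS S ∧ nS S ≤ X ^ (1 / 2 + et k K / 10)) →
    ‖∑ t ∈ T₁, ∑ t' ∈ T₂, wG F Γ t t' * ∑ S ∈ 𝒮, jac (τ * t * t') (eI S) *
      dX k χ Ψ (fun b => H b * u₁ t b * u₂ t' b) h X S (pr (τ * t * t'))‖ ≤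
      C * R ^ (-(1 / 4 : ℝ)) * (y₁ * y₂ / Real.log X ^ 2)

/-- the first side of the first moment over a cell -/
def J_CELA : Prop :=
  ∀ (n : ℕ) (Ψ : Ideal (𝓞 K) →* ℂ) (f : ℝ → ℝ) (𝒜 : Finset (Pl K)) (C₀ ε : ℝ), Good K n →
    IsP k n Ψ → Ker f → 0 < ε → ∃ X₀ : ℝ, ∀ (X y₁ y₂ : ℝ) (Γ : Finset (Pl K)) (τ : 𝓞 K)
    (T₁ T₂ : Finset (𝓞 K)) (F : PF K), X₀ ≤ X → Cell k n 𝒜 C₀ X Γ τ y₁ y₂ T₁ T₂ →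
    ∑ D ∈ P2 Γ, F D ^ 2 ≤ 1 → (∀ t ∈ T₁, ∀ t' ∈ T₂, ‖wG F Γ t t'‖ ≤ 1) →
    ‖∑ t ∈ T₁, ∑ t' ∈ T₂, wG F Γ t t' * (AX k Ψ f X 1 (τ * t * t') * MX k Ψ X (τ * t * t') -
      (∫ z in Set.Ioi (0 : ℝ), f z : ℝ))‖ ≤ ε * (y₁ * y₂ / Real.log X ^ 2)

/-- the dual side of the first moment over a cell -/
def J_CELB : Prop :=
  ∀ (n : ℕ) (Ψ : Ideal (𝓞 K) →* ℂ) (f : ℝ → ℝ) (𝒜 : Finset (Pl K)) (C₀ c₀ ε : ℝ), Good K n →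
    IsP k n Ψ → Ker f → 1 ≤ C₀ → 0 < c₀ → 0 < ε → ∃ X₀ : ℝ, ∀ (X y₁ y₂ w : ℝ) (Γ : Finset (Pl K))
    (τ : 𝓞 K) (T₁ T₂ : Finset (𝓞 K)) (F : PF K), X₀ ≤ X → c₀ ≤ w →
    Cell k n 𝒜 C₀ X Γ τ y₁ y₂ T₁ T₂ → ∑ D ∈ P2 Γ, F D ^ 2 ≤ 1 →
    (∀ t ∈ T₁, ∀ t' ∈ T₂, ‖wG F Γ t t'‖ ≤ 1) →
    ‖∑ t ∈ T₁, ∑ t' ∈ T₂, wG F Γ t t' * (eps k (τ * t * t') *
      AX k (cj Ψ) f X (w * X / NN (sp (τ * t * t'))) (τ * t * t') * MX k Ψ X (τ * t * t'))‖ ≤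
      ε * (y₁ * y₂ / Real.log X ^ 2)

/-- the first moment over a cell -/
def J_CELL : Prop :=
  ∀ (n : ℕ) (Ψ : Ideal (𝓞 K) →* ℂ) (f : ℝ → ℝ) (Ct : Ideal (𝓞 K) → ℂ) (γ : ℂ) (c₀ A : ℝ)
    (𝒜 : Finset (Pl K)) (C₀ ε : ℝ), Good K n → IsP k n Ψ → FE3 k n Ψ f Ct γ c₀ A → 1 ≤ C₀ →
    0 < ε → ∃ X₀ : ℝ, ∀ (X y₁ y₂ : ℝ) (Γ : Finset (Pl K)) (τ : 𝓞 K) (T₁ T₂ : Finset (𝓞 K))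
    (F : PF K), X₀ ≤ X → Cell k n 𝒜 C₀ X Γ τ y₁ y₂ T₁ T₂ →
    ∑ D ∈ P2 Γ, F D ^ 2 ≤ 1 → (∀ t ∈ T₁, ∀ t' ∈ T₂, ‖wG F Γ t t'‖ ≤ 1) →
    ‖∑ t ∈ T₁, ∑ t' ∈ T₂, wG F Γ t t' * (Lam f Ψ (τ * t * t') * MX k Ψ X (τ * t * t') -
      (∫ z in Set.Ioi (0 : ℝ), f z : ℝ))‖ ≤ ε * (y₁ * y₂ / Real.log X ^ 2)

/-- the total weight -/
def J_FM0 : Prop :=
  ∀ (n : ℕ) (C : ℝ), Good K n → ∃ C₃ X₀ : ℝ, 0 ≤ C₃ ∧ ∀ (Φ : FB K) (B c W X a : ℝ)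
    (F : Finset (Pl K) → PF K), X₀ ≤ X → 0 < B → 0 ≤ c → 1 ≤ W → Φ.Ok k n C B c W X →
    (∀ s ∈ Φ.𝔖, ∑ D ∈ P2 s, F s D ^ 2 ≤ 1 ∧ 0 ≤ F s (∅, ∅)) →
    a * Z0 Φ.U ≤ ∑ s ∈ Φ.𝔖, (nS s)⁻¹ * F s (∅, ∅) →
    X / Real.log X ^ 2 * Φ.𝒥.card * Z0 Φ.U * (c ^ 2 * a / B - C₃ / √W) ≤
      (Φ.sum fun s t t' => wG (F s) s t t').re

/-- the first moment -/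
def J_NV1 : Prop :=
  ∀ (n : ℕ) (Ψ : Ideal (𝓞 K) →* ℂ) (f : ℝ → ℝ) (Ct : Ideal (𝓞 K) → ℂ) (γ : ℂ) (c₀ A C B c a : ℝ),
    Good K n → IsP k n Ψ → FE3 k n Ψ f Ct γ c₀ A → 1 ≤ C → 0 < B → 0 < c → 0 < a →
    ∃ W₂ : ℝ, ∀ c₁ : ℝ, 0 < c₁ → ∃ c₄ X₀ : ℝ, 0 < c₄ ∧ ∀ (Φ : FB K) (W X : ℝ)
      (F : Finset (Pl K) → PF K), X₀ ≤ X → W₂ ≤ W → Φ.Ok k n C B c W X →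
      c₁ * Real.log X ≤ Z0 Φ.U → c₁ * Real.log X ≤ Φ.𝒥.card →
      (∀ s ∈ Φ.𝔖, ∑ D ∈ P2 s, F s D ^ 2 ≤ 1 ∧ 0 ≤ F s (∅, ∅) ∧
        ∀ j ∈ Φ.𝒥, ∀ t ∈ Φ.T₁ (Φ.ι s j), ∀ t' ∈ Φ.T₂ j, ‖wG (F s) s t t'‖ ≤ 1) →
      a * Z0 Φ.U ≤ ∑ s ∈ Φ.𝔖, (nS s)⁻¹ * F s (∅, ∅) →
      c₄ * X ≤ ‖Φ.sum fun s t t' => wG (F s) s t t' *
        (Lam f Ψ (Φ.τ s * t * t') * MX k Ψ X (Φ.τ s * t * t'))‖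

/-- the inequality of Cauchy and Schwarz -/
def J_NV2 : Prop :=
  ∀ (n : ℕ) (Φ : FB K) (C B c W X M : ℝ) (w : Finset (Pl K) → 𝓞 K → 𝓞 K → ℂ) (G : 𝓞 K → ℂ)
    (P : 𝓞 K → Prop), 1 ≤ C → 1 ≤ X → Φ.Ok k n C B c W X →
    (∀ s ∈ Φ.𝔖, ∀ j ∈ Φ.𝒥, ∀ t ∈ Φ.T₁ (Φ.ι s j), ∀ t' ∈ Φ.T₂ j,
      w s t t' = 0 ∨ w s t t' = 1 ∧ P (Φ.τ s * t * t')) →
    (∀ 𝒢 : Finset (𝓞 K), (∀ t ∈ 𝒢, Pri (n ^ 2) t ∧ NN (sp t) ≤ X ∧ Bal k C X t) →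
      ∑ t ∈ 𝒢, ‖G t‖ ^ 2 ≤ M) →
    ∃ 𝒢 : Finset (𝓞 K), Set.InjOn sp (𝒢 : Set (𝓞 K)) ∧
      (∀ t ∈ 𝒢, Pri (n ^ 2) t ∧ NN (sp t) ≤ X ∧ P t ∧ G t ≠ 0) ∧
      ‖Φ.sum fun s t t' => w s t t' * G (Φ.τ s * t * t')‖ ^ 2 ≤ 𝒢.card * M

/-- the blocks -/
def J_CB1 : Prop :=
  ∀ n : ℕ, 2 ≤ n → ∃ (τ : Finset (Pl K) → 𝓞 K) (C B c y₀ : ℝ), DtB k n τ C B c y₀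

/-- the scales -/
def J_CB3 : Prop :=
  ∀ C B B' y₀ W u A : ℝ, 2 ≤ B → 1 ≤ B' → C ≤ W → 1 ≤ u → 1 ≤ A → ∃ c₁ X₀ : ℝ, 0 < c₁ ∧
    ∀ X, X₀ ≤ X → ∃ (y yq : ℝ) (𝒥 ℐ : Finset ℕ) (a : ℝ → ℕ), ScB k K C B B' y₀ W u X y yq 𝒥 ℐ a ∧
      y ^ A ≤ yq ∧ X ^ c₁ ≤ y ∧ c₁ * Real.log X ≤ 𝒥.card

/-- the family -/
def J_CB4 : Prop :=
  ∀ (n : ℕ) (ζ : K) (τ : Finset (Pl K) → 𝓞 K) (C C' B c y₀ W u X y yq : ℝ) (𝒥 ℐ : Finset ℕ)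
    (a : ℝ → ℕ), DtB k n τ C B c y₀ → C ≤ C' → 5 ≤ C' →
    ScB k K C B (C' ^ rk k K * C' ^ rk k K) y₀ W u X y yq 𝒥 ℐ a →
    (famB (n ^ 2) ζ τ B W y u yq 𝒥 ℐ a).Ok k n C' (B * (C' ^ rk k K * C' ^ rk k K)) c W X

/-- many good twists, second case -/
def J_NVB : Prop := ∀ σ : 𝓞 K, σ ≠ 0 → NVT k (σ ^ 2)

end Rel

end Pool.Agent.P.MP_b8021b_nt.BJ
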