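import Pool.Agent.P.MP_b8021b_nt.BJ.Basic

/-! Interface statements: the quartic residue symbol is a ray class character. -/

namespace Pool.Agent.P.MP_b8021b_nt.BJ

open NumberField IsDedekindDomain Finset MeasureTheory
open Pool.Agent.P.MP_b8021b_nt.VE Pool.Agent.P.MP_b8021b_nt.VC Pool.Agent.P.MP_b8021b_nt.BS.CF
open Pool.Agent.P.MP_b8021b_nt.BS Pool.Agent.P.MP_b8021b_nt.BP
open scoped Classical ComplexConjugate Real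

/-- the quartic symbol at one place -/
def J_QB1 : Prop :=
  ∀ (L : Type) [Field L] [NumberField L] (ι : 𝓞 L) (v : Pl L), ι ^ 2 = -1 → ¬ Dv 2 v →
    Ideal.absNorm v.asIdeal % 4 = 1 ∧
    (∀ (y : 𝓞 L) (j : ℕ), y ^ ((Ideal.absNorm v.asIdeal - 1) / 4) - ι ^ j ∈ v.asIdeal →
      q4 ι y v = Complex.I ^ j) ∧
    (∀ y : 𝓞 L, y ∉ v.asIdeal →
      ∃ j : ℕ, y ^ ((Ideal.absNorm v.asIdeal - 1) / 4) - ι ^ j ∈ v.asIdeal) ∧
    (∀ x y : 𝓞 L, q4 ι (x * y) v = q4 ι x v * q4 ι y v) ∧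
    (∀ y : 𝓞 L, q4 ι y v ^ 2 = leg y v) ∧ ∀ s : 𝓞 L, q4 ι (s ^ 2) v = leg s v

/-- the symbols in an extension -/
def J_QB2 : Prop :=
  ∀ (L M : Type) [Field L] [NumberField L] [Field M] [NumberField M] [Algebra L M] (ι : 𝓞 L)
    (v : Pl L) (w : Pl M) (f : ℕ), ι ^ 2 = -1 → ¬ Dv 2 v → Und v w.asIdeal →
    Ideal.absNorm w.asIdeal = Ideal.absNorm v.asIdeal ^ f →
    (∀ y : 𝓞 L, q4 (algebraMap (𝓞 L) (𝓞 M) ι) (algebraMap (𝓞 L) (𝓞 M) y) w = q4 ι y v ^ f ∧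
      leg (algebraMap (𝓞 L) (𝓞 M) y) w = leg y v ^ f) ∧
    ∀ a : L, a ≠ 0 → Even (od v a) → lq (algebraMap L M a) w = lq a v ^ f

/-- a quadratic extension is unramified at the odd places where the radicand is even -/
def J_UNR : Prop :=
  ∀ (L M : Type) [Field L] [NumberField L] [Field M] [NumberField M] [Algebra L M] [IsGalois L M]
    (b : L) (β : M) (v : Pl L) (w : Pl M), Om L → Kum 2 b β → ¬ Dv 2 v → Even (od v b) →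
    Und v w.asIdeal → ∀ x : L, od w (algebraMap L M x) = od v x

/-- the norm in a quadratic extension -/
def J_H90 : Prop :=
  ∀ (L M : Type) [Field L] [NumberField L] [Field M] [NumberField M] [Algebra L M] [IsGalois L M]
    (b : L) (β : M), Kum 2 b β → Algebra.norm L β = -b ∧ ∀ u : M, u ≠ 0 →
      IsSquare (Algebra.norm L u) → ∃ (a : L) (η : M), a ≠ 0 ∧ η ≠ 0 ∧ u = algebraMap L M a * η ^ 2

/-- a quadratic character is a residue symbol -/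
def J_EX1 : Prop :=
  ∀ (L : Type) [Field L] [NumberField L] (n : ℕ) (χ : Ideal (𝓞 L) →* ℂ), Om L → 2 ≤ n → RC n χ →
    (∀ v : Pl L, ¬ Dv n v → χ v.asIdeal ^ 2 = 1) → ∃ (m : ℕ) (u : L), m ≠ 0 ∧ 2 ∣ m ∧ n ∣ m ∧
      u ≠ 0 ∧ ∀ v, ¬ Dv m v → od v u = 0 ∧ χ v.asIdeal = lq u v

/-- the same with the sharp modulus -/
def J_EX2 : Prop :=
  ∀ (L : Type) [Field L] [NumberField L] (n : ℕ) (χ : Ideal (𝓞 L) →* ℂ), Om L → 2 ≤ n → 2 ∣ n →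
    RC n χ → (∀ v : Pl L, ¬ Dv n v → χ v.asIdeal ^ 2 = 1) →
    ∃ u : L, u ≠ 0 ∧ ∀ v, ¬ Dv n v → Even (od v u) ∧ χ v.asIdeal = lq u v

/-- square roots of characters -/
def J_SQ0 : Prop :=
  ∀ (L : Type) [Field L] [NumberField L] (N : ℕ) (χ : Ideal (𝓞 L) →* ℂ), Om L → 2 ≤ N → RC N χ →
    (∀ I, Cop N I → Ray N (I ^ 2) ⊤ → χ I = 1) →
    ∃ ψ : Ideal (𝓞 L) →* ℂ, RC N ψ ∧ ∀ I, Cop N I → ψ I ^ 2 = χ I

/-- a square root of the quadratic symbol -/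
def J_SQR : Prop :=
  ∀ (L : Type) [Field L] [NumberField L] (n p : ℕ) (y : L), Om L → 2 ≤ n → 2 ∣ n → y ≠ 0 →
    (∀ v, ¬ Dv n v → Even (od v y)) → p.Prime → ¬ p ∣ n → ∃ (n' : ℕ) (ψ : Ideal (𝓞 L) →* ℂ),
      n ∣ n' ∧ n' ≠ 0 ∧ ¬ p ∣ n' ∧ RC n' ψ ∧ ∀ v : Pl L, ¬ Dv n' v → ψ v.asIdeal ^ 2 = lq y v

/-- a place with prescribed splitting -/
def J_BIQ : Prop :=
  ∀ (L : Type) [Field L] [NumberField L] (m : ℕ) (u y z : L), Om L → m ≠ 0 → y ≠ 0 → z ≠ 0 →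
    ¬ IsSquare u → ¬ IsSquare (u * y) → ¬ IsSquare (u * z) → ¬ IsSquare (u * y * z) →
    ∃ v : Pl L, ¬ Dv m v ∧ LP 2 v y ∧ LP 2 v z ∧ ¬ LP 2 v u

/-- the norm of the radicand -/
def J_HA1 : Prop :=
  ∀ (L M : Type) [Field L] [NumberField L] [Field M] [NumberField M] [Algebra L M] [IsGalois L M]
    (y : 𝓞 L) (β u : M) (ψ : Ideal (𝓞 L) →* ℂ) (n : ℕ), Om L → HD y β u ψ n →
    IsSquare (Algebra.norm L u) ∨ IsSquare ((y : L) * Algebra.norm L u)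

/-- the first case does not occur -/
def J_HA2 : Prop :=
  ∀ (L M : Type) [Field L] [NumberField L] [Field M] [NumberField M] [Algebra L M] [IsGalois L M]
    (y : 𝓞 L) (β u : M) (ψ : Ideal (𝓞 L) →* ℂ) (n : ℕ), Om L → HD y β u ψ n →
    ¬ IsSquare (Algebra.norm L u)

/-- the second case -/
def J_HA3 : Prop :=
  ∀ (L M : Type) [Field L] [NumberField L] [Field M] [NumberField M] [Algebra L M] [IsGalois L M]
    (ι y : 𝓞 L) (β u : M) (ψ : Ideal (𝓞 L) →* ℂ) (n : ℕ), ι ^ 2 = -1 → HD y β u ψ n →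
    IsSquare ((y : L) * Algebra.norm L u) → ∃ φ j, 1 ≤ j ∧ Half ι y φ (n ^ j)

/-- the quartic symbol at the split places -/
def J_HALF : Prop :=
  ∀ (L : Type) [Field L] [NumberField L] (ι y : 𝓞 L) (p : ℕ), ι ^ 2 = -1 → y ≠ 0 → p.Prime →
    p ≠ 2 → (∀ v : Pl L, Dv p v → y ∉ v.asIdeal) → ∃ ψ n, ¬ p ∣ n ∧ Half ι y ψ n

/-- the crossing with a known symbol -/
def J_CROSS : Prop :=
  ∀ (L : Type) [Field L] [NumberField L] (ι y z : 𝓞 L) (ψ θ φ : Ideal (𝓞 L) →* ℂ) (n₁ n₂ n₃ : ℕ),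
    ι ^ 2 = -1 → Half ι y ψ n₁ → Full ι z θ n₂ → Half ι (y * z) φ n₃ → ∃ c : ℂ, (c = 1 ∨ c = -1) ∧
      ∀ v : Pl L, ¬ Dv (n₁ * n₂ * n₃) v → leg y v = -1 → leg z v = -1 →
        q4 ι y v = c * ψ v.asIdeal

/-- roots of unity -/
def J_CYC : Prop :=
  ∀ (L : Type) [Field L] [NumberField L] (ι ζ : 𝓞 L) (a : ℕ), ι ^ 2 = -1 → 1 ≤ a →
    ζ ^ 2 ^ a = -1 → ∃ θ j, 1 ≤ j ∧ Full ι ζ θ (2 ^ j)

/-- the Frobenius on a quartic Gauss sum -/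
def J_GA1 : Prop :=
  ∀ (F : Type) [Field F] [Fintype F] (p : ℕ) [Fact p.Prime] (χ : MulChar (ZMod p) F), χ ^ 4 = 1 →
    χ ^ 2 ≠ 1 → ringChar F ≠ p → Fintype.card F % 4 = 1 →
    ((p : F) * jacobiSum χ χ ^ 2) ^ ((Fintype.card F - 1) / 4) * χ (Fintype.card F) = 1

/-- an unramified place of degree one -/
def J_GA2 : Prop :=
  ∀ (L : Type) [Field L] [NumberField L] (m : ℕ), Om L → m ≠ 0 → ∃ v : Pl L,
    (Ideal.absNorm v.asIdeal).Prime ∧ ¬ Dv m v ∧ ¬ Dv 2 v ∧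
      od v ((Ideal.absNorm v.asIdeal : ℕ) : L) = 1

/-- fourth powers of Gauss sums -/
def J_GAU : Prop :=
  ∀ (L : Type) [Field L] [NumberField L] (ι : 𝓞 L) (m : ℕ), ι ^ 2 = -1 → m ≠ 0 →
    ∃ (z : 𝓞 L) (θ : Ideal (𝓞 L) →* ℂ) (n : ℕ) (v : Pl L), Full ι z θ n ∧ ¬ Dv m v ∧
      Odd (od v (z : L))

/-- the invariant exists -/
def J_INV : Prop :=
  ∀ (L : Type) [Field L] [NumberField L] (ι y : 𝓞 L), ι ^ 2 = -1 → y ≠ 0 →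
    ∃ z ψ n c, Iv ι y z ψ n c

/-- a place where a root of unity is not a square -/
def J_TOW1 : Prop :=
  ∀ (L : Type) [Field L] [NumberField L] (ι y z ζ : 𝓞 L) (ψ : Ideal (𝓞 L) →* ℂ) (n a : ℕ) (c : ℂ)
    (v : Pl L), ι ^ 2 = -1 → Iv ι y z ψ n c → 1 ≤ a → ζ ^ 2 ^ a = -1 → ¬ Dv n v → leg y v = -1 →
    leg ζ v = -1 → q4 ι y v = c * ψ v.asIdeal

/-- the invariant passes to the next field -/
def J_TOW2 : Prop :=
  ∀ (L M : Type) [Field L] [NumberField L] [Field M] [NumberField M] [Algebra L M] [IsGalois L M]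
    (ι y z : 𝓞 L) (b : L) (β : M) (ψ : Ideal (𝓞 L) →* ℂ) (n : ℕ) (c : ℂ), ι ^ 2 = -1 → Kum 2 b β →
    (∀ v, od v b = 0) → Iv ι y z ψ n c → Iv (algebraMap (𝓞 L) (𝓞 M) ι) (algebraMap (𝓞 L) (𝓞 M) y)
      (algebraMap (𝓞 L) (𝓞 M) z) (nrm M ψ) n c

/-- the tower -/
def J_TOW3 : Prop :=
  ∀ (L : Type) [Field L] [NumberField L] (ι y z : 𝓞 L) (ψ : Ideal (𝓞 L) →* ℂ) (n : ℕ) (c : ℂ)
    (v : Pl L), ι ^ 2 = -1 → Iv ι y z ψ n c → ¬ Dv n v → leg y v = -1 →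
    q4 ι y v = c * ψ v.asIdeal

/-- the quartic symbol is a ray class character -/
def J_QUA : Prop :=
  ∀ (L : Type) [Field L] [NumberField L] (ι y : 𝓞 L), ι ^ 2 = -1 → y ≠ 0 → ∃ ψ n, Full ι y ψ n

section Rel

variable (k : Type) [Field k] [NumberField k] [Algebra k ℂ] (K : Type) [Field K] [NumberField K]
  [Algebra k K]

/-- the Hecke character of the curves -/
def J_PSI : Prop :=
  ∀ ζ : 𝓞 K, ζ ≠ 0 → ∃ (m : ℕ) (Ψ : Ideal (𝓞 K) →* ℂ), 2 ≤ m ∧ 2 ∣ m ∧ IsP k m Ψ ∧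
    ∀ v : Pl K, ¬ Dv m v → ζ ∉ v.asIdeal ∧ ∀ T : 𝓞 K, T ∉ v.asIdeal →
      chs (-(ζ * T ^ 2)) v = (-2 * √(NN v.asIdeal) * (Ψ v.asIdeal * leg T v).re : ℝ)

end Rel

end Pool.Agent.P.MP_b8021b_nt.BJ
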