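import Pool.Agent.P.MP_b8021b_nt.BJ.StQ

/-! Interface statements: Selmer groups and the Redei moment. -/

namespace Pool.Agent.P.MP_b8021b_nt.BJ

open NumberField IsDedekindDomain Finset MeasureTheory
open Pool.Agent.P.MP_b8021b_nt.VE Pool.Agent.P.MP_b8021b_nt.VC Pool.Agent.P.MP_b8021b_nt.BS.CF
open Pool.Agent.P.MP_b8021b_nt.BS Pool.Agent.P.MP_b8021b_nt.BP
open scoped Classical ComplexConjugate Real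

/-- maximal isotropic subgroups -/
def J_GRP0 : Prop :=
  ∀ (G : Type) [CommGroup G] (B : G → G → ZMod 2) (H : Subgroup G) (A : Set G), H.index ≠ 0 →
    (∀ a c, B a c = B c a) → (∀ a, B a a = 0) → (∀ a x y, B a (x * y) = B a x + B a y) →
    (∀ h ∈ H, ∀ a, B h a = 0) → (∀ a ∈ A, ∀ c ∈ A, B a c = 0) → ∃ W : Subgroup G, H ≤ W ∧
      A ⊆ W ∧ (∀ a ∈ W, ∀ c ∈ W, B a c = 0) ∧ W.index ^ 2 ≤ H.index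

/-- Fourier analysis on pairs of sign vectors -/
def J_FOU1 : Prop :=
  ∀ (ι : Type) [DecidableEq ι] (Λ : Finset ι) (G : Finset ι × Finset ι → Prop),
    ∃ F : Finset ι × Finset ι → ℝ, ∑ D ∈ P2 Λ, F D ^ 2 ≤ 1 ∧
      F (∅, ∅) = (((P2 Λ).filter G).card : ℝ) / 4 ^ Λ.card ∧ ∀ S ∈ P2 Λ,
        ∑ D ∈ P2 Λ, F D * ((-1) ^ (D.1 ∩ S.1).card * (-1) ^ (D.2 ∩ S.2).card) =
          if G S then 1 else 0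

/-- the count of the good pairs -/
def J_FOU2 : Prop :=
  ∀ (ι : Type) [DecidableEq ι] (Γ : Finset ι) (q₁ q₂ : ι) (E p p' : Finset ι → Prop)
    (O : Finset ι → Finset ι → Prop) (σ σ' : Finset ι → Finset ι), q₁ ∉ Γ → q₂ ∉ insert q₁ Γ →
    (∀ R ⊆ Γ, ¬ E R → ¬ E (insert q₁ R) →
      ∃ D ⊆ Γ, D ≠ ∅ ∧ (p D ∧ R ∩ D = σ D ∨ p' D ∧ R ∩ D = σ' D)) →
    (∀ R ⊆ insert q₁ Γ, E R →
      ∃ D ⊆ insert q₂ (insert q₁ Γ), D ≠ ∅ ∧ (O R D ∨ O (insert q₂ R) D)) →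
    (1 - (∑ D ∈ Γ.powerset.erase ∅, if p D then ((2 : ℝ) ^ D.card)⁻¹ else 0) -
      ∑ D ∈ Γ.powerset.erase ∅, if p' D then ((2 : ℝ) ^ D.card)⁻¹ else 0) / 8 ≤
      (((P2 (insert q₂ (insert q₁ Γ))).filter fun S =>
        ∃ D, O (symmDiff S.1 S.2) D ∧ Odd (D ∩ S.1).card).card : ℝ) /
        4 ^ (insert q₂ (insert q₁ Γ)).card

section Field

variable (K : Type) [Field K] [NumberField K]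

/-! ### local conditions -/

/-- the pairing -/
def J_PAIR : Prop :=
  ∀ m : ℕ, m ≠ 0 → 2 ∣ m → (∀ a c : K, Bm m a c = Bm m c a) ∧ (∀ a : K, Bm m a a = 0) ∧
    (∀ a x y : K, x ≠ 0 → y ≠ 0 → Bm m a (x * y) = Bm m a x + Bm m a y) ∧
    (∀ a c : K, a ≠ 0 → c ≠ 0 → (∀ v, Dv m v → LP 2 v a) → Bm m a c = 0) ∧
    (∀ a c : K, a ≠ 0 → c ≠ 0 → (∀ v, Dv m v → LN 2 v a c) → Bm m a c = 0) ∧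
    ∀ (a c : K) (S : Finset (Pl K)), (∀ v ∈ S, ¬ Dv m v) →
      (∀ v, ¬ Dv m v → v ∉ S → RecP.sy v a c = 0) → Bm m a c = ∑ v ∈ S, RecP.sy v a c

/-- the group of conditions over `m` -/
def J_GRP : Prop := ∀ (m : ℕ) (ζ : K), m ≠ 0 → 2 ∣ m → ∃ 𝓛, Grp m ζ 𝓛

/-- valuations of the abscissa -/
def J_VAL : Prop :=
  ∀ ζ t x y : K, t ≠ 0 → x ≠ 0 → y ^ 2 = x ^ 3 - ζ * t ^ 2 * x →
    (∀ v : Pl K, ¬ Dv 2 v → ζ ≠ 0 → od v ζ = 0 → (Even (od v t) → Even (od v x)) ∧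
      (¬ LP 2 v ζ → Even (od v x)) ∧ (Odd (od v t) → LP 2 v ζ → Even (od v x) → LP 2 v x)) ∧
    ∀ m : ℕ, y ≠ 0 → (∀ v, Dv m v → LP 2 v t) → Locm m ζ x

/-- the local condition at a sensitive place -/
def J_LIN : Prop :=
  ∀ (ζ T : K) (v : Pl K), ¬ Dv 2 v → LP 2 v ζ → od v ζ = 0 → T ≠ 0 → Odd (od v T) →
    (∀ x y, x ≠ 0 → y ^ 2 = x ^ 3 - ζ * T ^ 2 * x → Lin ζ v T x) ∧
    (∀ a c, Lin ζ v T a → Lin ζ v T c → Lin ζ v T (a * c) ∧ RecP.sy v a c = 0) ∧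
    (∀ c, Lin ζ v T c → Even (od v c) → LP 2 v c) ∧
    (∀ a c T', T' ≠ 0 → Even (od v (T' / T)) → ¬ LP 2 v (T' / T) → Lin ζ v T a → Lin ζ v T' c →
      Odd (od v a) → Odd (od v c) → RecP.sy v a c = 1) ∧
    (∀ c T', c ≠ 0 → T' ≠ 0 → Even (od v (T' / T)) → ¬ LP 2 v (T' / T) → Odd (od v c) →
      Lin ζ v T c ∨ Lin ζ v T' c) ∧
    (∀ a c, a ≠ 0 → c ≠ 0 → ¬ Lin ζ v T a → ¬ Lin ζ v T c → Lin ζ v T (a * c)) ∧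
    ∀ (c : K) (w u : 𝓞 K), u ∉ v.asIdeal → LP 2 v (c * w) → Lin ζ v (T * u) c →
      (Even (od v c) → w ∉ v.asIdeal → leg w v = 1) ∧
        (Odd (od v c) → (leg u v = -1 ↔ ¬ Lin ζ v T w))

/-- products of classes -/
def J_RELM : Prop :=
  ∀ s : SD K, s.Ok → (∀ D D' a c, s.Rel D a → s.Rel D' c → s.Rel (symmDiff D D') (a * c)) ∧
    (∀ D u, s.Tri u → (∀ v, ¬ Dv s.m v → v ∉ s.V → (Odd (od v u) ↔ v ∈ D)) → s.Rel D u) ∧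
    ∀ D c z, s.Rel D c → z ≠ 0 → s.Rel D (c * z ^ 2)

/-- reciprocity for two classes -/
def J_RECB : Prop :=
  ∀ s : SD K, s.Ok → ∀ A D a c, s.Rel A a → s.Rel D c →
    (∀ S : Finset (Pl K), A ⊆ S → D ⊆ S → (∀ v ∈ S, ¬ Dv s.m v ∧ v ∉ s.V) →
      ∑ v ∈ S, RecP.sy v a c = 0) ∧
    (Disjoint A D → (∀ v ∈ A ∪ D, ¬ Dv s.m v ∧ v ∉ s.V) →
      Even ((D.filter fun v => ¬ LP 2 v a).card + (A.filter fun v => ¬ LP 2 v c).card))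

/-- auxiliary places -/
def J_KIL0 : Prop :=
  ∀ (m : ℕ) (ζ e : K) (𝓛 : K → Prop), m ≠ 0 → 2 ∣ m → Grp m ζ 𝓛 → ¬ IsSquare e →
    ∃ V : Finset (Pl K), (∀ v ∈ V, ¬ Dv m v ∧ LP 2 v e) ∧ ∀ c, 𝓛 c →
      (∀ v, ¬ Dv m v → v ∉ V → Even (od v c)) → (∀ v ∈ V, Even (od v c) → LP 2 v c) →
      IsSquare c ∨ IsSquare (e * c)

/-- the data in the first case -/
def J_SDA : Prop :=
  ∀ ζ : K, ¬ IsSquare ζ → ∃ (s : SD K) (t₀ : 𝓞 K), s.Ok ∧ s.ζ = ζ ∧ s.e = ζ ∧ s.t₀ = t₀ ∧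
    (∀ v, Dv s.m v → LP 2 v s.t₀) ∧ ∀ v, ¬ Dv s.m v → LP 2 v ζ → (Odd (od v s.t₀) ↔ v ∈ s.V)

/-- the data in the second case -/
def J_SDB : Prop :=
  ∃ (s : SD K) (t₀ : 𝓞 K), s.Ok ∧ s.ζ = 1 ∧ s.e = t₀ ∧ s.t₀ = t₀ ∧ ¬ IsSquare (t₀ : K) ∧
    (∀ v, Dv s.m v → LP 2 v s.t₀) ∧ sp t₀ = eI s.V

/-- a nontrivial class for the relaxed conditions -/
def J_EXI : Prop :=
  ∀ (s : SD K) (Γ : Finset (Pl K)) (q : Pl K) (T : K), s.Ok → T ≠ 0 → q ∉ Γ →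
    (∀ v ∈ insert q Γ, s.Out v) → (∀ v ∈ Γ, Odd (od v T)) →
    ∃ D a, D ⊆ insert q Γ ∧ s.Rel D a ∧ ¬ IsSquare a ∧ ∀ v ∈ Γ, Lin s.ζ v T a

/-- prescribed signs -/
def J_SGN : Prop :=
  ∀ Γ R : Finset (Pl K), (∀ v ∈ Γ, ¬ Dv 2 v) →
    ∃ u : 𝓞 K, ∀ v ∈ Γ, u ∉ v.asIdeal ∧ (leg u v = -1 ↔ v ∈ R)

/-- the flip at the last prime -/
def J_FLIP : Prop :=
  ∀ (s : SD K) (T : K) (Γ : Finset (Pl K)) (q : Pl K) (r : Finset (Pl K) → Prop)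
    (z : Finset (Pl K) → 𝓞 K) (e u u' : 𝓞 K), s.Ok → s.e = e → T ≠ 0 → q ∉ Γ →
    (∀ v ∈ insert q Γ, s.Out v ∧ Odd (od v T) ∧ u ∉ v.asIdeal ∧ u' ∉ v.asIdeal ∧ e ∉ v.asIdeal) →
    (∀ D ⊆ Γ, (∃ c, s.Rel D c) → r D ∧ s.Rel D (z D) ∧
      ∀ v ∈ insert q Γ, v ∉ D → z D ∉ v.asIdeal) →
    (∀ v ∈ Γ, leg u v = leg u' v) → leg u q ≠ leg u' q →
    ¬ s.Unr (insert q Γ) (T * u) → ¬ s.Unr (insert q Γ) (T * u') →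
    ∃ D ⊆ Γ, D ≠ ∅ ∧ r D ∧ ∃ w : 𝓞 K, (w = z D ∨ w = e * z D) ∧
      (∀ v ∈ insert q Γ, v ∉ D → leg w v = 1) ∧ ∀ v ∈ D, (leg u v = -1 ↔ ¬ Lin s.ζ v T w)

/-- finiteness in the first case -/
def J_UFA : Prop :=
  ∀ (s : SD K) (T : K) (Γ : Finset (Pl K)), s.Ok → s.e = s.ζ → ¬ IsSquare s.ζ →
    (∀ v, Dv s.m v → LP 2 v s.t₀) →
    (∀ v, ¬ Dv s.m v → LP 2 v s.ζ → (Odd (od v s.t₀) ↔ v ∈ s.V)) → s.Tri T →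
    (∀ v, ¬ Dv s.m v → LP 2 v s.ζ → (Odd (od v T) ↔ v ∈ Γ)) → (∀ v ∈ Γ, s.Out v) →
    s.Unr Γ (s.t₀ * T) → Finite (Wb (-(s.ζ * (s.t₀ * T) ^ 2))).toAffine.Point

/-- descent with full two-torsion -/
def J_FIN2 : Prop :=
  ∀ T : K, T ≠ 0 → (∀ x y : K, y ^ 2 = x ^ 3 - T ^ 2 * x → x ≠ 0 → y ≠ 0 →
    IsSquare x ∨ IsSquare (T * x)) → Finite (Wb (-T ^ 2)).toAffine.Point

/-- finiteness in the second case -/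
def J_UFB0 : Prop :=
  ∀ (s : SD K) (T t : K) (Λ D : Finset (Pl K)) (p p' : Pl K), s.Ok → s.ζ = 1 →
    (∀ v, Dv s.m v → LP 2 v s.t₀) → (∀ v, ¬ Dv s.m v → (Odd (od v s.t₀) ↔ v ∈ s.V)) → s.Tri T →
    s.Tri t → p ≠ p' → p ∉ Λ → p' ∉ Λ → (∀ v ∈ insert p (insert p' Λ), s.Out v) →
    (∀ v, ¬ Dv s.m v → v ∉ s.V → (Odd (od v T) ↔ v ∈ insert p (insert p' Λ))) →
    (∀ v, ¬ Dv s.m v → v ∉ s.V → (Odd (od v t) ↔ v = p)) → s.One Λ (s.t₀ * T) D →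
    Odd (D.filter fun v => ¬ LP 2 v t).card → Finite (Wb (-(s.t₀ * T) ^ 2)).toAffine.Point

/-- the same for the members of the family -/
def J_UFB : Prop :=
  ∀ (s : SD K) (M : ℕ) (t₀ τ t t' u : 𝓞 K) (Λ D : Finset (Pl K)) (p p' : Pl K) (σ : K), s.Ok →
    s.ζ = 1 → s.t₀ = t₀ → (∀ v, Dv s.m v → LP 2 v s.t₀) → sp t₀ = eI s.V → 8 ∣ M →
    (∀ v, Dv s.m v ∨ v ∈ s.V → Dv M v) → sp τ = eI Λ → sp t = p.asIdeal → sp t' = p'.asIdeal →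
    (M : 𝓞 K) ∣ τ - 1 → (M : 𝓞 K) ∣ t - 1 → (M : 𝓞 K) ∣ t' - 1 → p ≠ p' → p ∉ Λ → p' ∉ Λ →
    (∀ v ∈ Λ, leg u v = leg (t * t') v) → s.One Λ ((t₀ : K) * τ * u) D →
    Odd (D ∩ Λ.filter fun v => leg t v = -1).card → σ ≠ 0 →
    Finite (Wb (-(σ ^ 2 * t₀ * τ * t * t' : K) ^ 2)).toAffine.Point

/-- one more prime -/
def J_SEB1 : Prop :=
  ∀ (s : SD K) (T : K) (Γ : Finset (Pl K)) (q q₁ : Pl K) (u u' : 𝓞 K), s.Ok → T ≠ 0 → q ∉ Γ →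
    (∀ v ∈ insert q Γ, s.Out v ∧ Odd (od v T) ∧ u ∉ v.asIdeal ∧ u' ∉ v.asIdeal) →
    (∀ v ∈ Γ, leg u v = leg u' v) → leg u q ≠ leg u' q → q₁ ∈ Γ → ¬ LP 2 q₁ s.e →
    s.Unr Γ (T * u) → ∃ D, s.One (insert q Γ) (T * u) D ∨ s.One (insert q Γ) (T * u') D

/-! ### primes -/

/-- lower bounds for the sum of the reciprocals -/
def J_MER : Prop :=
  Big (fun _ : Pl K => True) ∧ ∀ ζ : K, ¬ IsSquare ζ → Big (Sens ζ) ∧ Big (Ins ζ)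

/-- primes at which `ζ` is or is not a square -/
def J_BLK : Prop :=
  ∀ ζ : K, ¬ IsSquare ζ → ∃ B c y₀ : ℝ, 2 ≤ B ∧ 0 < c ∧ ∀ y, y₀ ≤ y →
    c * y / Real.log y ≤ ((pls K (y / B) y).filter (Ins ζ)).card ∧
      1 / 5 ≤ ∑ v ∈ QQ ζ y, (nv v)⁻¹ ∧ 1 / 5 ≤ ∑ v ∈ QI ζ y, (nv v)⁻¹

/-- primes in a ray class -/
def J_RBL : Prop :=
  ∀ N : ℕ, 2 ≤ N → ∃ B c y₀ : ℝ, 2 ≤ B ∧ 0 < c ∧ ∀ I : Ideal (𝓞 K), Cop N I → ∀ y, y₀ ≤ y →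
    c * y / Real.log y ≤ ((pls K (y / B) y).filter (Cl N I)).card ∧
      c ≤ ∑ v ∈ (pls K y (y ^ 2)).filter (Cl N I), (nv v)⁻¹

/-! ### the Redei moment -/

/-- Euler products with one small index -/
def J_TE : Prop :=
  ∀ (p : Pl K → Prop) (C₀ ε : ℝ), Big p → 0 < ε → ∃ W₁ : ℝ, ∀ W, W₁ ≤ W → ∃ y₁ : ℝ, ∀ y, y₁ ≤ y →
    ∀ (𝒟 : Finset (Finset (Pl K))) (z : Finset (Pl K) → 𝓞 K) (a : Pl K → ℂ),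
      (∀ D ∈ 𝒟, D ≠ ∅ ∧ D ⊆ pls K W y ∧ nS D ≤ D0 y ∧ z D ≠ 0 ∧ NN (sp (z D)) ≤ C₀ * nS D) →
      (∀ D ∈ 𝒟, ∀ E ∈ 𝒟, D ≠ E → Od2 (z D) (z E)) → (∀ v, ‖a v‖ ≤ 1) →
      GG ((pls K W y).filter p) * (1 + ∑ D ∈ 𝒟, gS D) ^ 2 ≤ ε ∧
      GG ((pls K W y).filter p) * ∑ D ∈ 𝒟, gS D *
        ‖∏ v ∈ (pls K W y).filter p, (1 + a v * leg (z D) v * (gg v : ℝ))‖ ≤ ε

/-- half of the mass -/
def J_HM : Prop :=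
  ∀ e : 𝓞 K, ¬ IsSquare (e : K) → ∀ W : ℝ, ∃ y₁ : ℝ, ∀ y, y₁ ≤ y →
    GG (pls K W y) * ∑ D ∈ (pls K W y).powerset, (if jac e (eI D) = 1 then gS D else 0) ≤ 11 / 20

end Field

section Rel

variable (k : Type) [Field k] [NumberField k] [Algebra k ℂ] (K : Type) [Field K] [NumberField K]
  [Algebra k K]

/-- the classes attached to the sets of places -/
def J_RDAT : Prop :=
  ∀ (s : SD K) (e : 𝓞 K) (N₀ : ℕ), s.Ok → e ≠ 0 → N₀ ≠ 0 → ∃ d : RD K, N₀ ∣ d.N ∧ d.Ok k ∧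
    (tw d e).Ok k ∧ (∀ v, d.W < nv v → ¬ Dv s.m v ∧ v ∉ s.V ∧ e ∉ v.asIdeal) ∧
    ∀ D, (∀ v ∈ D, d.W < nv v) → (d.r D ↔ ∃ c, s.Rel D c) ∧ (d.r D → s.Rel D (d.z D)) ∧
      ∀ v, d.W < nv v → (d.z D ∈ v.asIdeal ↔ v ∈ D)

/-- the descent, first case -/
def J_SELA : Prop :=
  ∀ ζ : 𝓞 K, ¬ IsSquare (ζ : K) → ∃ (M : ℕ) (t₀ : 𝓞 K), M ≠ 0 ∧ t₀ ≠ 0 ∧
    ∀ N₀ : ℕ, N₀ ≠ 0 → ∃ d : RD K, N₀ ∣ d.N ∧ d.Ok k ∧ SCA M ζ t₀ d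

/-- the descent, second case -/
def J_SELB : Prop :=
  ∃ (M : ℕ) (t₀ : 𝓞 K), M ≠ 0 ∧ ¬ IsSquare (t₀ : K) ∧ ∀ N₀ : ℕ, N₀ ≠ 0 → ∃ d : RD K,
    N₀ ∣ d.N ∧ d.Ok k ∧ (tw d t₀).Ok k ∧
      (∀ D, (∀ v ∈ D, d.W < nv v) → d.r D → jac t₀ (eI D) = 1) ∧ SCB M t₀ d

/-- auxiliary primes and generators -/
def J_AUX : Prop :=
  ∀ ζ : K, ¬ IsSquare ζ → ∃ n₁ : ℕ, n₁ ≠ 0 ∧ ∀ N : ℕ, n₁ ∣ N → 2 ≤ N →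
    ∃ (𝒜 : Fin 3 → Finset (Pl K)) (ax : Fin 3 → Ideal (𝓞 K) → Finset (Pl K))
      (tg : Fin 3 → Ideal (𝓞 K) → 𝓞 K) (C : ℝ), 1 ≤ C ∧
      (∀ i, ∀ v ∈ 𝒜 i, Ins ζ v ∧ ¬ Dv N v ∧ nv v ≤ C) ∧ (∀ i j, i ≠ j → Disjoint (𝒜 i) (𝒜 j)) ∧
      ∀ i I, Cop N I → ax i I ⊆ 𝒜 i ∧ (ax i I).card ≤ 2 ∧ (N : 𝓞 K) ∣ tg i I - 1 ∧
        sp (tg i I) = I * eI (ax i I) ∧ Bal k C (NN I) (tg i I)

/-- the terms with a small second index -/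
def J_RT2 : Prop :=
  ∀ (p : Pl K → Prop) (n : ℕ) (d : RD K) (C W₀ ε : ℝ) (b : Finset (Pl K) → 𝓞 K)
    (Φ : Pl K → Finset (Pl K) → ℂ), Big p → d.Ok k → KF k K n d C W₀ b Φ → 0 < ε →
    ∃ W₁ : ℝ, ∀ W, W₁ ≤ W → ∃ y₁ : ℝ, ∀ y, y₁ ≤ y →
      GG ((pls K W y).filter p) *
        ∑ E ∈ (((pls K W y).filter p).powerset.erase ∅).filter (fun E => nS E ≤ D0 y),
          gS E * ‖∑ D ∈ ((pls K W y).filter p).powerset, d.κ D E * (gS D : ℝ)‖ ≤ ε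

/-- the Redei moment -/
def J_RED2 : Prop :=
  ∃ N₀ : ℕ, N₀ ≠ 0 ∧ ∀ (p : Pl K → Prop) (d : RD K), Big p → d.Ok k → N₀ ∣ d.N →
    ∃ W₁ : ℝ, ∀ W, W₁ ≤ W → ∃ y₁ : ℝ, ∀ y, y₁ ≤ y →
      GG ((pls K W y).filter p) *
        ∑ D ∈ ((pls K W y).filter p).powerset.erase ∅, (if d.r D then
          gS D * ∏ v ∈ (pls K W y).filter p, (1 + lr (d.z D) v * gg v) else 0) ≤
      GG ((pls K W y).filter p) *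
        ∑ D ∈ ((pls K W y).filter p).powerset, (if d.r D then gS D else 0) + 1 / 10

/-- the last prime -/
def J_RED3 : Prop :=
  ∀ (p : Pl K → Prop) (d : RD K), d.Ok k → ∃ C y₀ : ℝ, ∀ (W y u yq : ℝ) (𝒬 : Finset (Pl K)),
    d.W ≤ W → 1 ≤ W → y₀ ≤ yq → d.C * d.W * y ^ u ≤ yq ^ cz k K → 𝒬 ⊆ pls K yq (yq ^ 2) →
    ∑ τ ∈ (pls K W y).powerset, (nS τ)⁻¹ * ∑ D ∈ (τ.filter p).powerset.erase ∅,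
      pik d.r d.z D (τ.filter p) ≤ 2 * Z0 (pls K W y) →
    ∑ τ ∈ TT K W y u, (nS τ)⁻¹ * ∑ D ∈ (τ.filter p).powerset.erase ∅,
      pik d.r d.z D (τ.filter p) * ∑ q ∈ 𝒬, lr (d.z D) q / nv q ≤ C / √W * Z0 (pls K W y)

/-- a positive proportion of the mass has a trivial kernel, first case -/
def J_TAUA : Prop :=
  ∀ ζ : K, ¬ IsSquare ζ → ∃ N₀ : ℕ, N₀ ≠ 0 ∧ ∀ d : RD K, d.Ok k → N₀ ∣ d.N →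
    ∃ u A W₁ : ℝ, 1 ≤ u ∧ 1 ≤ A ∧ ∀ W, W₁ ≤ W → ∃ y₁ : ℝ, ∀ y yq : ℝ, y₁ ≤ y → y ^ A ≤ yq →
      1 / 5 ≤ ∑ q ∈ QQ ζ yq, (nv q)⁻¹ ∧
      Z0 (pls K W y) * (∑ q ∈ QQ ζ yq, (nv q)⁻¹) / 10 ≤ ∑ τ ∈ TT K W y u, ∑ q ∈ QQ ζ yq,
        (nS τ * nv q)⁻¹ * ((1 - Yv d.r d.z (τ.filter (Sens ζ)) q) / 2)

/-- the same in the second case -/
def J_TAUB : Prop :=
  ∀ t₀ : 𝓞 K, ¬ IsSquare (t₀ : K) → ∃ N₀ : ℕ, N₀ ≠ 0 ∧ ∀ d : RD K, d.Ok k → (tw d t₀).Ok k →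
    N₀ ∣ d.N → (∀ D, (∀ v ∈ D, d.W < nv v) → d.r D → jac t₀ (eI D) = 1) →
    ∃ u A W₁ : ℝ, 1 ≤ u ∧ 1 ≤ A ∧ ∀ W, W₁ ≤ W → ∃ y₁ : ℝ, ∀ y yq : ℝ, y₁ ≤ y → y ^ A ≤ yq →
      Z0 (pls K W y) / 250 ≤ ∑ τ ∈ TT K W y u, ∑ q ∈ QI (t₀ : K) yq,
        (nS τ * nv q)⁻¹ * ((1 - Yv d.r d.z τ q - Yv d.r (tw d t₀).z τ q) / 8)

end Rel

end Pool.Agent.P.MP_b8021b_nt.BJ
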